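import Mathlib
import Pool.Agent.SWL57.Bat
import Pool.Agent.SWA93.W
import Pool.Agent.SWA93.D0

/-!
# Checks of the levels 1 to 28
-/

set_option autoImplicit false

namespace Pool.Agent.SWA93

open Pool.Agent.SWL57

theorem o1 : okl W 1 2 bl1 = true := by decide +kernel

theorem b1 : chBT W L1 1 2 bl1 S1 = true := by decide +kernel

theorem t0 : chT S1 1 (W 1).d (W 0).d 2 1 f0.T m0 0 1 = true := by decide +kernel

theorem o2 : okl W 2 3 bl2 = true := by decide +kernel

theorem b2 : chBT W L2 2 3 bl2 S2 = true := by decide +kernel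

theorem t12 : chT S2 2 (W 2).d (W 1).d 3 1 f12.T m12 0 1 = true := by decide +kernel

theorem o3 : okl W 3 5 bl3 = true := by decide +kernel

theorem b3 : chBT W L3 3 5 bl3 S3 = true := by decide +kernel

theorem t8 : chT S3 2 (W 3).d (W 1).d 5 1 f8.T m8 0 1 = true := by decide +kernel

theorem t9 : chT S3 3 (W 3).d (W 1).d 5 1 f9.T m9 0 1 = true := by decide +kernel

theorem t10 : chT S3 4 (W 3).d (W 1).d 5 1 f10.T m10 0 1 = true := by decide +kernel

theorem o4 : okl W 4 3 bl4 = true := by decide +kernel

theorem b4 : chBT W L4 4 3 bl4 S4 = true := by decide +kernel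

theorem t11 : chT S4 2 (W 4).d (W 1).d 3 1 f11.T m11 0 1 = true := by decide +kernel

theorem o5 : okl W 5 8 bl5 = true := by decide +kernel

theorem b5 : chBT W L5 5 8 bl5 S5 = true := by decide +kernel

theorem t15 : chT S5 1 (W 5).d (W 1).d 8 1 f15.T m15 0 1 = true := by decide +kernel

theorem t14 : chT S5 2 (W 5).d (W 1).d 8 1 f14.T m14 0 1 = true := by decide +kernel

theorem t1 : chT S5 3 (W 5).d (W 2).d 8 1 f1.T m1 0 1 = true := by decide +kernel

theorem t119 : chT S5 4 (W 5).d (W 3).d 8 1 f119.T m119 0 1 = true := by decide +kernel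

theorem t118 : chT S5 6 (W 5).d (W 3).d 8 1 f118.T m118 0 1 = true := by decide +kernel

theorem o6 : okl W 6 18 bl6 = true := by decide +kernel

theorem b6 : chBT W L6 6 18 bl6 S6 = true := by decide +kernel

theorem t109 : chT S6 6 (W 6).d (W 3).d 18 1 f109.T m109 0 1 = true := by decide +kernel

theorem t110 : chT S6 8 (W 6).d (W 3).d 18 1 f110.T m110 0 1 = true := by decide +kernel

theorem t111 : chT S6 10 (W 6).d (W 3).d 18 1 f111.T m111 0 1 = true := by decide +kernel

theorem t112 : chT S6 12 (W 6).d (W 3).d 18 1 f112.T m112 0 1 = true := by decide +kernel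

theorem t113 : chT S6 14 (W 6).d (W 3).d 18 1 f113.T m113 0 1 = true := by decide +kernel

theorem t114 : chT S6 16 (W 6).d (W 3).d 18 1 f114.T m114 0 1 = true := by decide +kernel

theorem o7 : okl W 7 1 bl7 = true := by decide +kernel

theorem b7 : chBT W L7 7 1 bl7 S7 = true := by decide +kernel

theorem t21 : chT S7 0 (W 7).d (W 4).d 1 1 f21.T m21 0 1 = true := by decide +kernel

theorem o8 : okl W 8 3 bl8 = true := by decide +kernel

theorem b8 : chBT W L8 8 3 bl8 S8 = true := by decide +kernel

theorem t30 : chT S8 2 (W 8).d (W 5).d 3 1 f30.T m30 0 1 = true := by decide +kernel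

theorem o9 : okl W 9 12 bl9 = true := by decide +kernel

theorem b9 : chBT W L9 9 12 bl9 S9 = true := by decide +kernel

theorem t16 : chT S9 3 (W 9).d (W 4).d 12 1 f16.T m16 0 1 = true := by decide +kernel

theorem t17 : chT S9 4 (W 9).d (W 4).d 12 1 f17.T m17 0 1 = true := by decide +kernel

theorem t18 : chT S9 5 (W 9).d (W 4).d 12 1 f18.T m18 0 1 = true := by decide +kernel

theorem t117 : chT S9 6 (W 9).d (W 3).d 12 1 f117.T m117 0 1 = true := by decide +kernel

theorem t116 : chT S9 8 (W 9).d (W 3).d 12 1 f116.T m116 0 1 = true := by decide +kernel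

theorem t115 : chT S9 10 (W 9).d (W 3).d 12 1 f115.T m115 0 1 = true := by decide +kernel

theorem o10 : okl W 10 32 bl10 = true := by decide +kernel

theorem b10 : chBT W L10 10 32 bl10 S10 = true := by decide +kernel

theorem t125 : chT S10 3 (W 10).d (W 3).d 32 1 f125.T m125 0 1 = true := by decide +kernel

theorem t25 : chT S10 5 (W 10).d (W 5).d 32 1 f25.T m25 0 1 = true := by decide +kernel

theorem t26 : chT S10 6 (W 10).d (W 5).d 32 1 f26.T m26 0 1 = true := by decide +kernel

theorem t27 : chT S10 7 (W 10).d (W 5).d 32 1 f27.T m27 0 1 = true := by decide +kernel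

theorem t287 : chT S10 8 (W 10).d (W 6).d 32 1 f287.T m287 0 1 = true := by decide +kernel

theorem t288 : chT S10 14 (W 10).d (W 6).d 32 1 f288.T m288 0 1 = true := by decide +kernel

theorem t289 : chT S10 20 (W 10).d (W 6).d 32 1 f289.T m289 0 1 = true := by decide +kernel

theorem t124 : chT S10 26 (W 10).d (W 3).d 32 1 f124.T m124 0 1 = true := by decide +kernel

theorem t123 : chT S10 28 (W 10).d (W 3).d 32 1 f123.T m123 0 1 = true := by decide +kernel

theorem t122 : chT S10 30 (W 10).d (W 3).d 32 1 f122.T m122 0 1 = true := by decide +kernel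

theorem o11 : okl W 11 12 bl11 = true := by decide +kernel

theorem b11 : chBT W L11 11 12 bl11 S11 = true := by decide +kernel

theorem t24 : chT S11 2 (W 11).d (W 4).d 12 1 f24.T m24 0 1 = true := by decide +kernel

theorem t29 : chT S11 3 (W 11).d (W 5).d 12 1 f29.T m29 0 1 = true := by decide +kernel

theorem t28 : chT S11 4 (W 11).d (W 5).d 12 1 f28.T m28 0 1 = true := by decide +kernel

theorem t23 : chT S11 5 (W 11).d (W 4).d 12 1 f23.T m23 0 1 = true := by decide +kernel

theorem t136 : chT S11 6 (W 11).d (W 9).d 12 1 f136.T m136 0 1 = true := by decide +kernel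

theorem t135 : chT S11 9 (W 11).d (W 9).d 12 1 f135.T m135 0 1 = true := by decide +kernel

theorem o12 : okl W 12 13 bl12 = true := by decide +kernel

theorem b12 : chBT W L12 12 13 bl12 S12 = true := by decide +kernel

theorem t33 : chT S12 2 (W 12).d (W 5).d 13 1 f33.T m33 0 1 = true := by decide +kernel

theorem t20 : chT S12 3 (W 12).d (W 4).d 13 1 f20.T m20 0 1 = true := by decide +kernel

theorem t19 : chT S12 4 (W 12).d (W 4).d 13 1 f19.T m19 0 1 = true := by decide +kernel

theorem t32 : chT S12 5 (W 12).d (W 5).d 13 1 f32.T m32 0 1 = true := by decide +kernel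

theorem t2 : chT S12 6 (W 12).d (W 8).d 13 1 f2.T m2 0 1 = true := by decide +kernel

theorem t153 : chT S12 7 (W 12).d (W 10).d 13 1 f153.T m153 0 1 = true := by decide +kernel

theorem t152 : chT S12 10 (W 12).d (W 10).d 13 1 f152.T m152 0 1 = true := by decide +kernel

theorem o13 : okl W 13 54 bl13 = true := by decide +kernel

theorem b13 : chBT W L13 13 54 bl13 S13 = true := by decide +kernel

theorem t126 : chT S13 12 (W 13).d (W 9).d 54 1 f126.T m126 0 1 = true := by decide +kernel

theorem t127 : chT S13 15 (W 13).d (W 9).d 54 1 f127.T m127 0 1 = true := by decide +kernel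

theorem t128 : chT S13 18 (W 13).d (W 9).d 54 1 f128.T m128 0 1 = true := by decide +kernel

theorem t129 : chT S13 21 (W 13).d (W 9).d 54 1 f129.T m129 0 1 = true := by decide +kernel

theorem t130 : chT S13 24 (W 13).d (W 9).d 54 1 f130.T m130 0 1 = true := by decide +kernel

theorem t131 : chT S13 27 (W 13).d (W 9).d 54 1 f131.T m131 0 1 = true := by decide +kernel

theorem t286 : chT S13 30 (W 13).d (W 6).d 54 1 f286.T m286 0 1 = true := by decide +kernel

theorem t285 : chT S13 36 (W 13).d (W 6).d 54 1 f285.T m285 0 1 = true := by decide +kernel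

theorem t284 : chT S13 42 (W 13).d (W 6).d 54 1 f284.T m284 0 1 = true := by decide +kernel

theorem t283 : chT S13 48 (W 13).d (W 6).d 54 1 f283.T m283 0 1 = true := by decide +kernel

theorem o14 : okl W 14 73 bl14 = true := by decide +kernel

theorem b14 : chBT W L14 14 73 bl14 S14 = true := by decide +kernel

theorem t143 : chT S14 13 (W 14).d (W 10).d 73 1 f143.T m143 0 1 = true := by decide +kernel

theorem t144 : chT S14 16 (W 14).d (W 10).d 73 1 f144.T m144 0 1 = true := by decide +kernel

theorem t145 : chT S14 19 (W 14).d (W 10).d 73 1 f145.T m145 0 1 = true := by decide +kernel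

theorem t146 : chT S14 22 (W 14).d (W 10).d 73 1 f146.T m146 0 1 = true := by decide +kernel

theorem t147 : chT S14 25 (W 14).d (W 10).d 73 1 f147.T m147 0 1 = true := by decide +kernel

theorem t148 : chT S14 28 (W 14).d (W 10).d 73 1 f148.T m148 0 1 = true := by decide +kernel

theorem t299 : chT S14 31 (W 14).d (W 6).d 73 1 f299.T m299 0 1 = true := by decide +kernel

theorem t293 : chT S14 37 (W 14).d (W 6).d 73 1 f293.T m293 0 1 = true := by decide +kernel

theorem t294 : chT S14 43 (W 14).d (W 6).d 73 1 f294.T m294 0 1 = true := by decide +kernel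

theorem t295 : chT S14 49 (W 14).d (W 6).d 73 1 f295.T m295 0 1 = true := by decide +kernel

theorem t296 : chT S14 55 (W 14).d (W 6).d 73 1 f296.T m296 0 1 = true := by decide +kernel

theorem t297 : chT S14 61 (W 14).d (W 6).d 73 1 f297.T m297 0 1 = true := by decide +kernel

theorem t298 : chT S14 67 (W 14).d (W 6).d 73 1 f298.T m298 0 1 = true := by decide +kernel

theorem o15 : okl W 15 2 bl15 = true := by decide +kernel

theorem b15 : chBT W L15 15 2 bl15 S15 = true := by decide +kernel

theorem t39 : chT S15 0 (W 15).d (W 11).d 2 1 f39.T m39 0 1 = true := by decide +kernel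

theorem o16 : okl W 16 5 bl16 = true := by decide +kernel

theorem b16 : chBT W L16 16 5 bl16 S16 = true := by decide +kernel

theorem t48 : chT S16 3 (W 16).d (W 12).d 5 1 f48.T m48 0 1 = true := by decide +kernel

theorem o17 : okl W 17 69 bl17 = true := by decide +kernel

theorem b17 : chBT W L17 17 69 bl17 S17 = true := by decide +kernel

theorem t142 : chT S17 6 (W 17).d (W 9).d 69 1 f142.T m142 0 1 = true := by decide +kernel

theorem t34 : chT S17 9 (W 17).d (W 11).d 69 1 f34.T m34 0 1 = true := by decide +kernel

theorem t35 : chT S17 11 (W 17).d (W 11).d 69 1 f35.T m35 0 1 = true := by decide +kernel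

theorem t36 : chT S17 13 (W 17).d (W 11).d 69 1 f36.T m36 0 1 = true := by decide +kernel

theorem t151 : chT S17 15 (W 17).d (W 10).d 69 1 f151.T m151 0 1 = true := by decide +kernel

theorem t150 : chT S17 18 (W 17).d (W 10).d 69 1 f150.T m150 0 1 = true := by decide +kernel

theorem t149 : chT S17 21 (W 17).d (W 10).d 69 1 f149.T m149 0 1 = true := by decide +kernel

theorem t304 : chT S17 24 (W 17).d (W 13).d 69 1 f304.T m304 0 1 = true := by decide +kernel

theorem t305 : chT S17 48 (W 17).d (W 13).d 69 1 f305.T m305 0 1 = true := by decide +kernel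

theorem t141 : chT S17 60 (W 17).d (W 9).d 69 1 f141.T m141 0 1 = true := by decide +kernel

theorem t140 : chT S17 63 (W 17).d (W 9).d 69 1 f140.T m140 0 1 = true := by decide +kernel

theorem t139 : chT S17 66 (W 17).d (W 9).d 69 1 f139.T m139 0 1 = true := by decide +kernel

theorem o18 : okl W 18 75 bl18 = true := by decide +kernel

theorem b18 : chBT W L18 18 75 bl18 S18 = true := by decide +kernel

theorem t159 : chT S18 9 (W 18).d (W 10).d 75 1 f159.T m159 0 1 = true := by decide +kernel

theorem t43 : chT S18 12 (W 18).d (W 12).d 75 1 f43.T m43 0 1 = true := by decide +kernel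

theorem t44 : chT S18 14 (W 18).d (W 12).d 75 1 f44.T m44 0 1 = true := by decide +kernel

theorem t45 : chT S18 16 (W 18).d (W 12).d 75 1 f45.T m45 0 1 = true := by decide +kernel

theorem t134 : chT S18 18 (W 18).d (W 9).d 75 1 f134.T m134 0 1 = true := by decide +kernel

theorem t133 : chT S18 21 (W 18).d (W 9).d 75 1 f133.T m133 0 1 = true := by decide +kernel

theorem t132 : chT S18 24 (W 18).d (W 9).d 75 1 f132.T m132 0 1 = true := by decide +kernel

theorem t320 : chT S18 27 (W 18).d (W 14).d 75 1 f320.T m320 0 1 = true := by decide +kernel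

theorem t321 : chT S18 40 (W 18).d (W 14).d 75 1 f321.T m321 0 1 = true := by decide +kernel

theorem t322 : chT S18 53 (W 18).d (W 14).d 75 1 f322.T m322 0 1 = true := by decide +kernel

theorem t158 : chT S18 66 (W 18).d (W 10).d 75 1 f158.T m158 0 1 = true := by decide +kernel

theorem t157 : chT S18 69 (W 18).d (W 10).d 75 1 f157.T m157 0 1 = true := by decide +kernel

theorem t156 : chT S18 72 (W 18).d (W 10).d 75 1 f156.T m156 0 1 = true := by decide +kernel

theorem o19 : okl W 19 24 bl19 = true := by decide +kernel

theorem b19 : chBT W L19 19 24 bl19 S19 = true := by decide +kernel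

theorem t42 : chT S19 4 (W 19).d (W 11).d 24 1 f42.T m42 0 1 = true := by decide +kernel

theorem t47 : chT S19 6 (W 19).d (W 12).d 24 1 f47.T m47 0 1 = true := by decide +kernel

theorem t46 : chT S19 8 (W 19).d (W 12).d 24 1 f46.T m46 0 1 = true := by decide +kernel

theorem t41 : chT S19 10 (W 19).d (W 11).d 24 1 f41.T m41 0 1 = true := by decide +kernel

theorem t170 : chT S19 12 (W 19).d (W 17).d 24 1 f170.T m170 0 1 = true := by decide +kernel

theorem t169 : chT S19 18 (W 19).d (W 17).d 24 1 f169.T m169 0 1 = true := by decide +kernel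

theorem o20 : okl W 20 32 bl20 = true := by decide +kernel

theorem b20 : chBT W L20 20 32 bl20 S20 = true := by decide +kernel

theorem t51 : chT S20 4 (W 20).d (W 12).d 32 1 f51.T m51 0 1 = true := by decide +kernel

theorem t38 : chT S20 6 (W 20).d (W 11).d 32 1 f38.T m38 0 1 = true := by decide +kernel

theorem t37 : chT S20 8 (W 20).d (W 11).d 32 1 f37.T m37 0 1 = true := by decide +kernel

theorem t50 : chT S20 10 (W 20).d (W 12).d 32 1 f50.T m50 0 1 = true := by decide +kernel

theorem t3 : chT S20 12 (W 20).d (W 16).d 32 1 f3.T m3 0 1 = true := by decide +kernel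

theorem t187 : chT S20 14 (W 20).d (W 18).d 32 1 f187.T m187 0 1 = true := by decide +kernel

theorem t186 : chT S20 23 (W 20).d (W 18).d 32 1 f186.T m186 0 1 = true := by decide +kernel

theorem o21 : okl W 21 202 bl21 = true := by decide +kernel

theorem b21 : chBT W L21 21 202 bl21 S21 = true := by decide +kernel

theorem t160 : chT S21 30 (W 21).d (W 17).d 202 1 f160.T m160 0 1 = true := by decide +kernel

theorem t161 : chT S21 36 (W 21).d (W 17).d 202 1 f161.T m161 0 1 = true := by decide +kernel

theorem t162 : chT S21 42 (W 21).d (W 17).d 202 1 f162.T m162 0 1 = true := by decide +kernel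

theorem t163 : chT S21 48 (W 21).d (W 17).d 202 1 f163.T m163 0 1 = true := by decide +kernel

theorem t164 : chT S21 54 (W 21).d (W 17).d 202 1 f164.T m164 0 1 = true := by decide +kernel

theorem t165 : chT S21 60 (W 21).d (W 17).d 202 1 f165.T m165 0 1 = true := by decide +kernel

theorem t315 : chT S21 66 (W 21).d (W 13).d 202 1 f315.T m315 0 1 = true := by decide +kernel

theorem t319 : chT S21 78 (W 21).d (W 14).d 202 1 f319.T m319 0 1 = true := by decide +kernel

theorem t318 : chT S21 91 (W 21).d (W 14).d 202 1 f318.T m318 0 1 = true := by decide +kernel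

theorem t317 : chT S21 104 (W 21).d (W 14).d 202 1 f317.T m317 0 1 = true := by decide +kernel

theorem t316 : chT S21 117 (W 21).d (W 14).d 202 1 f316.T m316 0 1 = true := by decide +kernel

theorem t309 : chT S21 130 (W 21).d (W 13).d 202 1 f309.T m309 0 1 = true := by decide +kernel

theorem t310 : chT S21 142 (W 21).d (W 13).d 202 1 f310.T m310 0 1 = true := by decide +kernel

theorem t311 : chT S21 154 (W 21).d (W 13).d 202 1 f311.T m311 0 1 = true := by decide +kernel

theorem t312 : chT S21 166 (W 21).d (W 13).d 202 1 f312.T m312 0 1 = true := by decide +kernel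

theorem t313 : chT S21 178 (W 21).d (W 13).d 202 1 f313.T m313 0 1 = true := by decide +kernel

theorem t314 : chT S21 190 (W 21).d (W 13).d 202 1 f314.T m314 0 1 = true := by decide +kernel

theorem o22 : okl W 22 239 bl22 = true := by decide +kernel

theorem b22 : chBT W L22 22 239 bl22 S22 = true := by decide +kernel

theorem t177 : chT S22 46 (W 22).d (W 18).d 239 1 f177.T m177 0 1 = true := by decide +kernel

theorem t178 : chT S22 55 (W 22).d (W 18).d 239 1 f178.T m178 0 1 = true := by decide +kernel

theorem t179 : chT S22 64 (W 22).d (W 18).d 239 1 f179.T m179 0 1 = true := by decide +kernel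

theorem t180 : chT S22 73 (W 22).d (W 18).d 239 1 f180.T m180 0 1 = true := by decide +kernel

theorem t181 : chT S22 82 (W 22).d (W 18).d 239 1 f181.T m181 0 1 = true := by decide +kernel

theorem t182 : chT S22 91 (W 22).d (W 18).d 239 1 f182.T m182 0 1 = true := by decide +kernel

theorem t332 : chT S22 100 (W 22).d (W 14).d 239 1 f332.T m332 0 1 = true := by decide +kernel

theorem t303 : chT S22 113 (W 22).d (W 13).d 239 1 f303.T m303 0 1 = true := by decide +kernel

theorem t302 : chT S22 125 (W 22).d (W 13).d 239 1 f302.T m302 0 1 = true := by decide +kernel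

theorem t301 : chT S22 137 (W 22).d (W 13).d 239 1 f301.T m301 0 1 = true := by decide +kernel

theorem t300 : chT S22 149 (W 22).d (W 13).d 239 1 f300.T m300 0 1 = true := by decide +kernel

theorem t326 : chT S22 161 (W 22).d (W 14).d 239 1 f326.T m326 0 1 = true := by decide +kernel

theorem t327 : chT S22 174 (W 22).d (W 14).d 239 1 f327.T m327 0 1 = true := by decide +kernel

theorem t328 : chT S22 187 (W 22).d (W 14).d 239 1 f328.T m328 0 1 = true := by decide +kernel

theorem t329 : chT S22 200 (W 22).d (W 14).d 239 1 f329.T m329 0 1 = true := by decide +kernel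

theorem t330 : chT S22 213 (W 22).d (W 14).d 239 1 f330.T m330 0 1 = true := by decide +kernel

theorem t331 : chT S22 226 (W 22).d (W 14).d 239 1 f331.T m331 0 1 = true := by decide +kernel

theorem o23 : okl W 23 4 bl23 = true := by decide +kernel

theorem b23 : chBT W L23 23 4 bl23 S23 = true := by decide +kernel

theorem t57 : chT S23 0 (W 23).d (W 19).d 4 1 f57.T m57 0 1 = true := by decide +kernel

theorem o24 : okl W 24 9 bl24 = true := by decide +kernel

theorem b24 : chBT W L24 24 9 bl24 S24 = true := by decide +kernel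

theorem t66 : chT S24 5 (W 24).d (W 20).d 9 1 f66.T m66 0 1 = true := by decide +kernel

theorem o25 : okl W 25 168 bl25 = true := by decide +kernel

theorem b25 : chBT W L25 25 168 bl25 S25 = true := by decide +kernel

theorem t176 : chT S25 15 (W 25).d (W 17).d 168 1 f176.T m176 0 1 = true := by decide +kernel

theorem t52 : chT S25 21 (W 25).d (W 19).d 168 1 f52.T m52 0 1 = true := by decide +kernel

theorem t53 : chT S25 25 (W 25).d (W 19).d 168 1 f53.T m53 0 1 = true := by decide +kernel

theorem t54 : chT S25 29 (W 25).d (W 19).d 168 1 f54.T m54 0 1 = true := by decide +kernel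

theorem t185 : chT S25 33 (W 25).d (W 18).d 168 1 f185.T m185 0 1 = true := by decide +kernel

theorem t184 : chT S25 42 (W 25).d (W 18).d 168 1 f184.T m184 0 1 = true := by decide +kernel

theorem t183 : chT S25 51 (W 25).d (W 18).d 168 1 f183.T m183 0 1 = true := by decide +kernel

theorem t337 : chT S25 60 (W 25).d (W 21).d 168 1 f337.T m337 0 1 = true := by decide +kernel

theorem t338 : chT S25 120 (W 25).d (W 21).d 168 1 f338.T m338 0 1 = true := by decide +kernel

theorem t175 : chT S25 150 (W 25).d (W 17).d 168 1 f175.T m175 0 1 = true := by decide +kernel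

theorem t174 : chT S25 156 (W 25).d (W 17).d 168 1 f174.T m174 0 1 = true := by decide +kernel

theorem t173 : chT S25 162 (W 25).d (W 17).d 168 1 f173.T m173 0 1 = true := by decide +kernel

theorem o26 : okl W 26 222 bl26 = true := by decide +kernel

theorem b26 : chBT W L26 26 222 bl26 S26 = true := by decide +kernel

theorem t193 : chT S26 18 (W 26).d (W 18).d 222 1 f193.T m193 0 1 = true := by decide +kernel

theorem t61 : chT S26 27 (W 26).d (W 20).d 222 1 f61.T m61 0 1 = true := by decide +kernel

theorem t62 : chT S26 31 (W 26).d (W 20).d 222 1 f62.T m62 0 1 = true := by decide +kernel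

theorem t63 : chT S26 35 (W 26).d (W 20).d 222 1 f63.T m63 0 1 = true := by decide +kernel

theorem t168 : chT S26 39 (W 26).d (W 17).d 222 1 f168.T m168 0 1 = true := by decide +kernel

theorem t167 : chT S26 45 (W 26).d (W 17).d 222 1 f167.T m167 0 1 = true := by decide +kernel

theorem t166 : chT S26 51 (W 26).d (W 17).d 222 1 f166.T m166 0 1 = true := by decide +kernel

theorem t353 : chT S26 57 (W 26).d (W 22).d 222 1 f353.T m353 0 1 = true := by decide +kernel

theorem t354 : chT S26 103 (W 26).d (W 22).d 222 1 f354.T m354 0 1 = true := by decide +kernel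

theorem t355 : chT S26 149 (W 26).d (W 22).d 222 1 f355.T m355 0 1 = true := by decide +kernel

theorem t192 : chT S26 195 (W 26).d (W 18).d 222 1 f192.T m192 0 1 = true := by decide +kernel

theorem t191 : chT S26 204 (W 26).d (W 18).d 222 1 f191.T m191 0 1 = true := by decide +kernel

theorem t190 : chT S26 213 (W 26).d (W 18).d 222 1 f190.T m190 0 1 = true := by decide +kernel

theorem o27 : okl W 27 54 bl27 = true := by decide +kernel

theorem b27 : chBT W L27 27 54 bl27 S27 = true := by decide +kernel

theorem t60 : chT S27 8 (W 27).d (W 19).d 54 1 f60.T m60 0 1 = true := by decide +kernel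

theorem t65 : chT S27 12 (W 27).d (W 20).d 54 1 f65.T m65 0 1 = true := by decide +kernel

theorem t64 : chT S27 16 (W 27).d (W 20).d 54 1 f64.T m64 0 1 = true := by decide +kernel

theorem t59 : chT S27 20 (W 27).d (W 19).d 54 1 f59.T m59 0 1 = true := by decide +kernel

theorem t204 : chT S27 24 (W 27).d (W 25).d 54 1 f204.T m204 0 1 = true := by decide +kernel

theorem t203 : chT S27 39 (W 27).d (W 25).d 54 1 f203.T m203 0 1 = true := by decide +kernel

theorem o28 : okl W 28 60 bl28 = true := by decide +kernel

theorem b28 : chBT W L28 28 60 bl28 S28 = true := by decide +kernel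

theorem t69 : chT S28 5 (W 28).d (W 20).d 60 1 f69.T m69 0 1 = true := by decide +kernel

theorem t56 : chT S28 9 (W 28).d (W 19).d 60 1 f56.T m56 0 1 = true := by decide +kernel

theorem t55 : chT S28 13 (W 28).d (W 19).d 60 1 f55.T m55 0 1 = true := by decide +kernel

theorem t68 : chT S28 17 (W 28).d (W 20).d 60 1 f68.T m68 0 1 = true := by decide +kernel

theorem t4 : chT S28 21 (W 28).d (W 24).d 60 1 f4.T m4 0 1 = true := by decide +kernel

theorem t221 : chT S28 24 (W 28).d (W 26).d 60 1 f221.T m221 0 1 = true := by decide +kernel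

theorem t220 : chT S28 42 (W 28).d (W 26).d 60 1 f220.T m220 0 1 = true := by decide +kernel

end Pool.Agent.SWA93
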