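import Mathlib
import Pool.Agent.SWL57.Bat
import Pool.Agent.SWA93.W
import Pool.Agent.SWA93.D1

/-!
# Checks of the levels 29 to 32
-/

set_option autoImplicit false

namespace Pool.Agent.SWA93

open Pool.Agent.SWL57

theorem o29 : okl W 29 574 bl29 = true := by decide +kernel

theorem b29 : chBT W L29 29 574 bl29 S29 = true := by decide +kernel

theorem t194 : chT S29 90 (W 29).d (W 25).d 574 1 f194.T m194 0 1 = true := by decide +kernel

theorem t195 : chT S29 105 (W 29).d (W 25).d 574 1 f195.T m195 0 1 = true := by decide +kernel

theorem t196 : chT S29 120 (W 29).d (W 25).d 574 1 f196.T m196 0 1 = true := by decide +kernel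

theorem t197 : chT S29 135 (W 29).d (W 25).d 574 1 f197.T m197 0 1 = true := by decide +kernel

theorem t198 : chT S29 150 (W 29).d (W 25).d 574 1 f198.T m198 0 1 = true := by decide +kernel

theorem t199 : chT S29 165 (W 29).d (W 25).d 574 1 f199.T m199 0 1 = true := by decide +kernel

theorem t348 : chT S29 180 (W 29).d (W 21).d 574 1 f348.T m348 0 1 = true := by decide +kernel

theorem t352 : chT S29 210 (W 29).d (W 22).d 574 1 f352.T m352 0 1 = true := by decide +kernel

theorem t351 : chT S29 256 (W 29).d (W 22).d 574 1 f351.T m351 0 1 = true := by decide +kernel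

theorem t350 : chT S29 302 (W 29).d (W 22).d 574 1 f350.T m350 0 1 = true := by decide +kernel

theorem t349 : chT S29 348 (W 29).d (W 22).d 574 1 f349.T m349 0 1 = true := by decide +kernel

theorem t342 : chT S29 394 (W 29).d (W 21).d 574 1 f342.T m342 0 1 = true := by decide +kernel

theorem t343 : chT S29 424 (W 29).d (W 21).d 574 1 f343.T m343 0 1 = true := by decide +kernel

theorem t344 : chT S29 454 (W 29).d (W 21).d 574 1 f344.T m344 0 1 = true := by decide +kernel

theorem t345 : chT S29 484 (W 29).d (W 21).d 574 1 f345.T m345 0 1 = true := by decide +kernel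

theorem t346 : chT S29 514 (W 29).d (W 21).d 574 1 f346.T m346 0 1 = true := by decide +kernel

theorem t347 : chT S29 544 (W 29).d (W 21).d 574 1 f347.T m347 0 1 = true := by decide +kernel

theorem o30 : okl W 30 648 bl30 = true := by decide +kernel

theorem b30 : chBT W L30 30 648 bl30 S30 = true := by decide +kernel

theorem t211 : chT S30 98 (W 30).d (W 26).d 648 3 f211.T m211 0 1 = true := by decide +kernel

theorem t212 : chT S30 116 (W 30).d (W 26).d 648 3 f212.T m212 0 1 = true := by decide +kernel

theorem t213 : chT S30 134 (W 30).d (W 26).d 648 3 f213.T m213 0 1 = true := by decide +kernel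

theorem t214 : chT S30 152 (W 30).d (W 26).d 648 3 f214.T m214 0 1 = true := by decide +kernel

theorem t215 : chT S30 170 (W 30).d (W 26).d 648 3 f215.T m215 0 1 = true := by decide +kernel

theorem t216 : chT S30 188 (W 30).d (W 26).d 648 3 f216.T m216 0 1 = true := by decide +kernel

theorem t365 : chT S30 206 (W 30).d (W 22).d 648 3 f365.T m365 0 1 = true := by decide +kernel

theorem t336 : chT S30 252 (W 30).d (W 21).d 648 3 f336.T m336 0 1 = true := by decide +kernel

theorem t335 : chT S30 282 (W 30).d (W 21).d 648 3 f335.T m335 0 1 = true := by decide +kernel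

theorem t334 : chT S30 312 (W 30).d (W 21).d 648 3 f334.T m334 0 1 = true := by decide +kernel

theorem t333 : chT S30 342 (W 30).d (W 21).d 648 3 f333.T m333 0 1 = true := by decide +kernel

theorem t359 : chT S30 372 (W 30).d (W 22).d 648 3 f359.T m359 0 1 = true := by decide +kernel

theorem t360 : chT S30 418 (W 30).d (W 22).d 648 3 f360.T m360 0 1 = true := by decide +kernel

theorem t361 : chT S30 464 (W 30).d (W 22).d 648 3 f361.T m361 0 1 = true := by decide +kernel

theorem t362 : chT S30 510 (W 30).d (W 22).d 648 3 f362.T m362 0 1 = true := by decide +kernel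

theorem t363 : chT S30 556 (W 30).d (W 22).d 648 3 f363.T m363 0 1 = true := by decide +kernel

theorem t364 : chT S30 602 (W 30).d (W 22).d 648 3 f364.T m364 0 1 = true := by decide +kernel

theorem o31 : okl W 31 8 bl31 = true := by decide +kernel

theorem b31 : chBT W L31 31 8 bl31 S31 = true := by decide +kernel

theorem t75 : chT S31 0 (W 31).d (W 27).d 8 1 f75.T m75 0 1 = true := by decide +kernel

theorem o32 : okl W 32 12 bl32 = true := by decide +kernel

theorem b32 : chBT W L32 32 12 bl32 S32 = true := by decide +kernel

theorem t5 : chT S32 4 (W 32).d (W 24).d 12 1 f5.T m5 0 1 = true := by decide +kernel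

theorem t84 : chT S32 7 (W 32).d (W 28).d 12 1 f84.T m84 0 1 = true := by decide +kernel

end Pool.Agent.SWA93
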