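import Mathlib
import Pool.Agent.SWL57.Bat
import Pool.Agent.SWA93.W
import Pool.Agent.SWA93.D2

/-!
# Checks of the levels 33 to 36
-/

set_option autoImplicit false

namespace Pool.Agent.SWA93

open Pool.Agent.SWL57

theorem o33 : okl W 33 439 bl33 = true := by decide +kernel

theorem b33 : chBT W L33 33 439 bl33 S33 = true := by decide +kernel

theorem t210 : chT S33 31 (W 33).d (W 25).d 439 1 f210.T m210 0 1 = true := by decide +kernel

theorem t70 : chT S33 46 (W 33).d (W 27).d 439 1 f70.T m70 0 1 = true := by decide +kernel

theorem t71 : chT S33 54 (W 33).d (W 27).d 439 1 f71.T m71 0 1 = true := by decide +kernel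

theorem t72 : chT S33 62 (W 33).d (W 27).d 439 1 f72.T m72 0 1 = true := by decide +kernel

theorem t219 : chT S33 70 (W 33).d (W 26).d 439 1 f219.T m219 0 1 = true := by decide +kernel

theorem t218 : chT S33 88 (W 33).d (W 26).d 439 1 f218.T m218 0 1 = true := by decide +kernel

theorem t217 : chT S33 106 (W 33).d (W 26).d 439 1 f217.T m217 0 1 = true := by decide +kernel

theorem t370 : chT S33 124 (W 33).d (W 29).d 439 1 f370.T m370 0 1 = true := by decide +kernel

theorem t371 : chT S33 214 (W 33).d (W 29).d 439 1 f371.T m371 0 1 = true := by decide +kernel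

theorem t372 : chT S33 304 (W 33).d (W 29).d 439 1 f372.T m372 0 1 = true := by decide +kernel

theorem t209 : chT S33 394 (W 33).d (W 25).d 439 1 f209.T m209 0 1 = true := by decide +kernel

theorem t208 : chT S33 409 (W 33).d (W 25).d 439 1 f208.T m208 0 1 = true := by decide +kernel

theorem t207 : chT S33 424 (W 33).d (W 25).d 439 1 f207.T m207 0 1 = true := by decide +kernel

theorem o34 : okl W 34 457 bl34 = true := by decide +kernel

theorem b34 : chBT W L34 34 457 bl34 S34 = true := by decide +kernel

theorem t227 : chT S34 31 (W 34).d (W 26).d 457 1 f227.T m227 0 1 = true := by decide +kernel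

theorem t79 : chT S34 49 (W 34).d (W 28).d 457 1 f79.T m79 0 1 = true := by decide +kernel

theorem t80 : chT S34 54 (W 34).d (W 28).d 457 1 f80.T m80 0 1 = true := by decide +kernel

theorem t81 : chT S34 59 (W 34).d (W 28).d 457 1 f81.T m81 0 1 = true := by decide +kernel

theorem t202 : chT S34 64 (W 34).d (W 25).d 457 1 f202.T m202 0 1 = true := by decide +kernel

theorem t201 : chT S34 79 (W 34).d (W 25).d 457 1 f201.T m201 0 1 = true := by decide +kernel

theorem t200 : chT S34 94 (W 34).d (W 25).d 457 1 f200.T m200 0 1 = true := by decide +kernel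

theorem t387 : chT S34 109 (W 34).d (W 30).d 457 1 f387.T m387 0 1 = true := by decide +kernel

theorem t388 : chT S34 207 (W 34).d (W 30).d 457 1 f388.T m388 0 1 = true := by decide +kernel

theorem t389 : chT S34 305 (W 34).d (W 30).d 457 1 f389.T m389 0 1 = true := by decide +kernel

theorem t226 : chT S34 403 (W 34).d (W 26).d 457 1 f226.T m226 0 1 = true := by decide +kernel

theorem t225 : chT S34 421 (W 34).d (W 26).d 457 1 f225.T m225 0 1 = true := by decide +kernel

theorem t224 : chT S34 439 (W 34).d (W 26).d 457 1 f224.T m224 0 1 = true := by decide +kernel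

theorem o35 : okl W 35 101 bl35 = true := by decide +kernel

theorem b35 : chBT W L35 35 101 bl35 S35 = true := by decide +kernel

theorem t78 : chT S35 13 (W 35).d (W 27).d 101 1 f78.T m78 0 1 = true := by decide +kernel

theorem t83 : chT S35 21 (W 35).d (W 28).d 101 1 f83.T m83 0 1 = true := by decide +kernel

theorem t82 : chT S35 26 (W 35).d (W 28).d 101 1 f82.T m82 0 1 = true := by decide +kernel

theorem t77 : chT S35 31 (W 35).d (W 27).d 101 1 f77.T m77 0 1 = true := by decide +kernel

theorem t238 : chT S35 39 (W 35).d (W 33).d 101 1 f238.T m238 0 1 = true := by decide +kernel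

theorem t237 : chT S35 70 (W 35).d (W 33).d 101 1 f237.T m237 0 1 = true := by decide +kernel

theorem o36 : okl W 36 100 bl36 = true := by decide +kernel

theorem b36 : chBT W L36 36 100 bl36 S36 = true := by decide +kernel

theorem t87 : chT S36 8 (W 36).d (W 28).d 100 1 f87.T m87 0 1 = true := by decide +kernel

theorem t74 : chT S36 13 (W 36).d (W 27).d 100 1 f74.T m74 0 1 = true := by decide +kernel

theorem t73 : chT S36 21 (W 36).d (W 27).d 100 1 f73.T m73 0 1 = true := by decide +kernel

theorem t86 : chT S36 29 (W 36).d (W 28).d 100 1 f86.T m86 0 1 = true := by decide +kernel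

theorem t6 : chT S36 34 (W 36).d (W 32).d 100 1 f6.T m6 0 1 = true := by decide +kernel

theorem t255 : chT S36 38 (W 36).d (W 34).d 100 1 f255.T m255 0 1 = true := by decide +kernel

theorem t254 : chT S36 69 (W 36).d (W 34).d 100 1 f254.T m254 0 1 = true := by decide +kernel

end Pool.Agent.SWA93
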