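import Mathlib
import Pool.Agent.SWL57.Bat
import Pool.Agent.SWA93.W
import Pool.Agent.SWA93.D3

/-!
# Checks of the levels 37 to 37
-/

set_option autoImplicit false

namespace Pool.Agent.SWA93

open Pool.Agent.SWL57

theorem o37 : okl W 37 1415 bl37 = true := by decide +kernel

theorem b37 : chBT W L37 37 1415 bl37 S37 = true := by decide +kernel

theorem t228 : chT S37 207 (W 37).d (W 33).d 1415 1 f228.T m228 0 1 = true := by decide +kernel

theorem t229 : chT S37 238 (W 37).d (W 33).d 1415 1 f229.T m229 0 1 = true := by decide +kernel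

theorem t230 : chT S37 269 (W 37).d (W 33).d 1415 1 f230.T m230 0 1 = true := by decide +kernel

theorem t231 : chT S37 300 (W 37).d (W 33).d 1415 1 f231.T m231 0 1 = true := by decide +kernel

theorem t232 : chT S37 331 (W 37).d (W 33).d 1415 1 f232.T m232 0 1 = true := by decide +kernel

theorem t233 : chT S37 362 (W 37).d (W 33).d 1415 1 f233.T m233 0 1 = true := by decide +kernel

theorem t382 : chT S37 393 (W 37).d (W 29).d 1415 1 f382.T m382 0 1 = true := by decide +kernel

theorem t386 : chT S37 483 (W 37).d (W 30).d 1415 1 f386.T m386 0 1 = true := by decide +kernel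

theorem t385 : chT S37 581 (W 37).d (W 30).d 1415 1 f385.T m385 0 1 = true := by decide +kernel

theorem t384 : chT S37 679 (W 37).d (W 30).d 1415 1 f384.T m384 0 1 = true := by decide +kernel

theorem t383 : chT S37 777 (W 37).d (W 30).d 1415 1 f383.T m383 0 1 = true := by decide +kernel

theorem t376 : chT S37 875 (W 37).d (W 29).d 1415 1 f376.T m376 0 1 = true := by decide +kernel

theorem t377 : chT S37 965 (W 37).d (W 29).d 1415 1 f377.T m377 0 1 = true := by decide +kernel

theorem t378 : chT S37 1055 (W 37).d (W 29).d 1415 1 f378.T m378 0 1 = true := by decide +kernel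

theorem t379 : chT S37 1145 (W 37).d (W 29).d 1415 1 f379.T m379 0 1 = true := by decide +kernel

theorem t380 : chT S37 1235 (W 37).d (W 29).d 1415 1 f380.T m380 0 1 = true := by decide +kernel

theorem t381 : chT S37 1325 (W 37).d (W 29).d 1415 1 f381.T m381 0 1 = true := by decide +kernel

end Pool.Agent.SWA93
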