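import Mathlib
import Pool.Agent.SWL57.Bat
import Pool.Agent.SWA93.W
import Pool.Agent.SWA93.D4

/-!
# Checks of the levels 38 to 40
-/

set_option autoImplicit false

namespace Pool.Agent.SWA93

open Pool.Agent.SWL57

theorem o38 : okl W 38 1411 bl38 = true := by decide +kernel

theorem b38 : chBT W L38 38 1411 bl38 S38 = true := by decide +kernel

theorem t245 : chT S38 179 (W 38).d (W 34).d 1411 1 f245.T m245 0 1 = true := by decide +kernel

theorem t246 : chT S38 210 (W 38).d (W 34).d 1411 1 f246.T m246 0 1 = true := by decide +kernel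

theorem t247 : chT S38 241 (W 38).d (W 34).d 1411 1 f247.T m247 0 1 = true := by decide +kernel

theorem t248 : chT S38 272 (W 38).d (W 34).d 1411 1 f248.T m248 0 1 = true := by decide +kernel

theorem t249 : chT S38 303 (W 38).d (W 34).d 1411 1 f249.T m249 0 1 = true := by decide +kernel

theorem t250 : chT S38 334 (W 38).d (W 34).d 1411 1 f250.T m250 0 1 = true := by decide +kernel

theorem t399 : chT S38 365 (W 38).d (W 30).d 1411 1 f399.T m399 0 1 = true := by decide +kernel

theorem t369 : chT S38 463 (W 38).d (W 29).d 1411 1 f369.T m369 0 1 = true := by decide +kernel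

theorem t368 : chT S38 553 (W 38).d (W 29).d 1411 1 f368.T m368 0 1 = true := by decide +kernel

theorem t367 : chT S38 643 (W 38).d (W 29).d 1411 1 f367.T m367 0 1 = true := by decide +kernel

theorem t366 : chT S38 733 (W 38).d (W 29).d 1411 1 f366.T m366 0 1 = true := by decide +kernel

theorem t393 : chT S38 823 (W 38).d (W 30).d 1411 1 f393.T m393 0 1 = true := by decide +kernel

theorem t394 : chT S38 921 (W 38).d (W 30).d 1411 1 f394.T m394 0 1 = true := by decide +kernel

theorem t395 : chT S38 1019 (W 38).d (W 30).d 1411 1 f395.T m395 0 1 = true := by decide +kernel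

theorem t396 : chT S38 1117 (W 38).d (W 30).d 1411 1 f396.T m396 0 1 = true := by decide +kernel

theorem t397 : chT S38 1215 (W 38).d (W 30).d 1411 1 f397.T m397 0 1 = true := by decide +kernel

theorem t398 : chT S38 1313 (W 38).d (W 30).d 1411 1 f398.T m398 0 1 = true := by decide +kernel

theorem o39 : okl W 39 13 bl39 = true := by decide +kernel

theorem b39 : chBT W L39 39 13 bl39 S39 = true := by decide +kernel

theorem t92 : chT S39 0 (W 39).d (W 35).d 13 1 f92.T m92 0 1 = true := by decide +kernel

theorem o40 : okl W 40 18 bl40 = true := by decide +kernel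

theorem b40 : chBT W L40 40 18 bl40 S40 = true := by decide +kernel

theorem t7 : chT S40 6 (W 40).d (W 32).d 18 1 f7.T m7 0 1 = true := by decide +kernel

theorem t101 : chT S40 10 (W 40).d (W 36).d 18 1 f101.T m101 0 1 = true := by decide +kernel

end Pool.Agent.SWA93
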