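import Mathlib
import Pool.Agent.SWL57.Bat
import Pool.Agent.SWA93.W
import Pool.Agent.SWA93.D5

/-!
# Checks of the levels 41 to 43
-/

set_option autoImplicit false

namespace Pool.Agent.SWA93

open Pool.Agent.SWL57

theorem o41 : okl W 41 932 bl41 = true := by decide +kernel

theorem b41 : chBT W L41 41 932 bl41 S41 = true := by decide +kernel

theorem t244 : chT S41 55 (W 41).d (W 33).d 932 1 f244.T m244 0 1 = true := by decide +kernel

theorem t88 : chT S41 86 (W 41).d (W 35).d 932 1 f88.T m88 0 1 = true := by decide +kernel

theorem t89 : chT S41 99 (W 41).d (W 35).d 932 1 f89.T m89 0 1 = true := by decide +kernel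

theorem t90 : chT S41 112 (W 41).d (W 35).d 932 1 f90.T m90 0 1 = true := by decide +kernel

theorem t253 : chT S41 125 (W 41).d (W 34).d 932 1 f253.T m253 0 1 = true := by decide +kernel

theorem t252 : chT S41 156 (W 41).d (W 34).d 932 1 f252.T m252 0 1 = true := by decide +kernel

theorem t251 : chT S41 187 (W 41).d (W 34).d 932 1 f251.T m251 0 1 = true := by decide +kernel

theorem t400 : chT S41 218 (W 41).d (W 37).d 932 1 f400.T m400 0 1 = true := by decide +kernel

theorem t401 : chT S41 425 (W 41).d (W 37).d 932 1 f401.T m401 0 1 = true := by decide +kernel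

theorem t402 : chT S41 632 (W 41).d (W 37).d 932 1 f402.T m402 0 1 = true := by decide +kernel

theorem t243 : chT S41 839 (W 41).d (W 33).d 932 1 f243.T m243 0 1 = true := by decide +kernel

theorem t242 : chT S41 870 (W 41).d (W 33).d 932 1 f242.T m242 0 1 = true := by decide +kernel

theorem t241 : chT S41 901 (W 41).d (W 33).d 932 1 f241.T m241 0 1 = true := by decide +kernel

theorem o42 : okl W 42 829 bl42 = true := by decide +kernel

theorem b42 : chBT W L42 42 829 bl42 S42 = true := by decide +kernel

theorem t261 : chT S42 51 (W 42).d (W 34).d 829 1 f261.T m261 0 1 = true := by decide +kernel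

theorem t96 : chT S42 82 (W 42).d (W 36).d 829 1 f96.T m96 0 1 = true := by decide +kernel

theorem t97 : chT S42 90 (W 42).d (W 36).d 829 1 f97.T m97 0 1 = true := by decide +kernel

theorem t98 : chT S42 98 (W 42).d (W 36).d 829 1 f98.T m98 0 1 = true := by decide +kernel

theorem t236 : chT S42 106 (W 42).d (W 33).d 829 1 f236.T m236 0 1 = true := by decide +kernel

theorem t235 : chT S42 137 (W 42).d (W 33).d 829 1 f235.T m235 0 1 = true := by decide +kernel

theorem t234 : chT S42 168 (W 42).d (W 33).d 829 1 f234.T m234 0 1 = true := by decide +kernel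

theorem t413 : chT S42 199 (W 42).d (W 38).d 829 1 f413.T m413 0 1 = true := by decide +kernel

theorem t414 : chT S42 557 (W 42).d (W 38).d 829 1 f414.T m414 0 1 = true := by decide +kernel

theorem t260 : chT S42 736 (W 42).d (W 34).d 829 1 f260.T m260 0 1 = true := by decide +kernel

theorem t259 : chT S42 767 (W 42).d (W 34).d 829 1 f259.T m259 0 1 = true := by decide +kernel

theorem t258 : chT S42 798 (W 42).d (W 34).d 829 1 f258.T m258 0 1 = true := by decide +kernel

theorem o43 : okl W 43 174 bl43 = true := by decide +kernel

theorem b43 : chBT W L43 43 174 bl43 S43 = true := by decide +kernel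

theorem t95 : chT S43 22 (W 43).d (W 35).d 174 1 f95.T m95 0 1 = true := by decide +kernel

theorem t100 : chT S43 35 (W 43).d (W 36).d 174 1 f100.T m100 0 1 = true := by decide +kernel

theorem t99 : chT S43 43 (W 43).d (W 36).d 174 1 f99.T m99 0 1 = true := by decide +kernel

theorem t94 : chT S43 51 (W 43).d (W 35).d 174 1 f94.T m94 0 1 = true := by decide +kernel

theorem t269 : chT S43 64 (W 43).d (W 41).d 174 1 f269.T m269 0 1 = true := by decide +kernel

theorem t268 : chT S43 119 (W 43).d (W 41).d 174 1 f268.T m268 0 1 = true := by decide +kernel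

end Pool.Agent.SWA93
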