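import Mathlib
import Pool.Agent.SWL57.Bat
import Pool.Agent.SWA93.W
import Pool.Agent.SWA93.D6

/-!
# Checks of the levels 44 to 46
-/

set_option autoImplicit false

namespace Pool.Agent.SWA93

open Pool.Agent.SWL57

theorem o44 : okl W 44 161 bl44 = true := by decide +kernel

theorem b44 : chBT W L44 44 161 bl44 S44 = true := by decide +kernel

theorem t104 : chT S44 11 (W 44).d (W 36).d 161 1 f104.T m104 0 1 = true := by decide +kernel

theorem t91 : chT S44 32 (W 44).d (W 35).d 161 1 f91.T m91 0 1 = true := by decide +kernel

theorem t103 : chT S44 45 (W 44).d (W 36).d 161 1 f103.T m103 0 1 = true := by decide +kernel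

theorem t278 : chT S44 59 (W 44).d (W 42).d 161 1 f278.T m278 0 1 = true := by decide +kernel

theorem t277 : chT S44 110 (W 44).d (W 42).d 161 1 f277.T m277 0 1 = true := by decide +kernel

theorem o45 : okl W 45 2905 bl45 = true := by decide +kernel

theorem b45 : chBT W L45 45 2905 bl45 S45 = true := by decide +kernel

theorem t262 : chT S45 410 (W 45).d (W 41).d 2905 1 f262.T m262 0 1 = true := by decide +kernel

theorem t263 : chT S45 465 (W 45).d (W 41).d 2905 1 f263.T m263 0 1 = true := by decide +kernel

theorem t264 : chT S45 520 (W 45).d (W 41).d 2905 1 f264.T m264 0 1 = true := by decide +kernel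

theorem t265 : chT S45 575 (W 45).d (W 41).d 2905 1 f265.T m265 0 1 = true := by decide +kernel

theorem t266 : chT S45 630 (W 45).d (W 41).d 2905 1 f266.T m266 0 1 = true := by decide +kernel

theorem t267 : chT S45 685 (W 45).d (W 41).d 2905 1 f267.T m267 0 1 = true := by decide +kernel

theorem t408 : chT S45 740 (W 45).d (W 37).d 2905 1 f408.T m408 0 1 = true := by decide +kernel

theorem t412 : chT S45 947 (W 45).d (W 38).d 2905 1 f412.T m412 0 1 = true := by decide +kernel

theorem t411 : chT S45 1126 (W 45).d (W 38).d 2905 1 f411.T m411 0 1 = true := by decide +kernel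

theorem t410 : chT S45 1305 (W 45).d (W 38).d 2905 1 f410.T m410 0 1 = true := by decide +kernel

theorem t409 : chT S45 1484 (W 45).d (W 38).d 2905 1 f409.T m409 0 1 = true := by decide +kernel

theorem t406 : chT S45 1663 (W 45).d (W 37).d 2905 1 f406.T m406 0 1 = true := by decide +kernel

theorem t407 : chT S45 2698 (W 45).d (W 37).d 2905 1 f407.T m407 0 1 = true := by decide +kernel

theorem o46 : okl W 46 22 bl46 = true := by decide +kernel

theorem b46 : chBT W L46 46 22 bl46 S46 = true := by decide +kernel

theorem t107 : chT S46 0 (W 46).d (W 43).d 22 1 f107.T m107 0 1 = true := by decide +kernel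

end Pool.Agent.SWA93
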