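import Mathlib
import Pool.Agent.SWL57.Bat
import Pool.Agent.SWA93.W
import Pool.Agent.SWA93.D7

/-!
# Checks of the levels 47 to 48
-/

set_option autoImplicit false

namespace Pool.Agent.SWA93

open Pool.Agent.SWL57

theorem o47 : okl W 47 1759 bl47 = true := by decide +kernel

theorem b47 : chBT W L47 47 1759 bl47 S47 = true := by decide +kernel

theorem t274 : chT S47 90 (W 47).d (W 41).d 1759 1 f274.T m274 0 1 = true := by decide +kernel

theorem t105 : chT S47 167 (W 47).d (W 43).d 1759 1 f105.T m105 0 1 = true := by decide +kernel

theorem t106 : chT S47 189 (W 47).d (W 43).d 1759 1 f106.T m106 0 1 = true := by decide +kernel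

theorem t276 : chT S47 262 (W 47).d (W 42).d 1759 1 f276.T m276 0 1 = true := by decide +kernel

theorem t275 : chT S47 313 (W 47).d (W 42).d 1759 1 f275.T m275 0 1 = true := by decide +kernel

theorem t418 : chT S47 364 (W 47).d (W 45).d 1759 1 f418.T m418 0 1 = true := by decide +kernel

theorem t273 : chT S47 1649 (W 47).d (W 41).d 1759 1 f273.T m273 0 1 = true := by decide +kernel

theorem t272 : chT S47 1704 (W 47).d (W 41).d 1759 1 f272.T m272 0 1 = true := by decide +kernel

theorem o48 : okl W 48 278 bl48 = true := by decide +kernel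

theorem b48 : chBT W L48 48 278 bl48 S48 = true := by decide +kernel

end Pool.Agent.SWA93
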