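import Mathlib
import Pool.Agent.SWL57.Eng

/-!
# Tables
-/

set_option autoImplicit false

namespace Pool.Agent.SWA93

open Pool.Agent.SWL57

/-- Table. -/
def f418 : Fc := ⟨45, [300], 47, .nd (.nd (.nd (.nd (.nd (.nd (.nd (.lf 0) (.nd (.lf 0) (.lf 0xdaf26900056d793500016d79360001daf26a000436bc9b00026d793600056d793600026d793600066d7936000a6d79350004521ae8001136bc9b0013521ae9))) (.lf 0)) (.nd (.nd (.nd (.lf 0) (.lf 0x86d793600096d793600356d7937)) (.lf 0)) (.lf 0))) (.nd (.lf 0) (.nd (.lf 0) (.nd (.lf 0) (.lf 0x66d7936))))) (.nd (.nd (.nd (.nd (.nd (.lf 0) (.lf 0x106d7936)) (.lf 0)) (.lf 0)) (.nd (.lf 0) (.nd (.lf 0) (.lf 0x26d793600026d7936000f6d7936)))) (.nd (.lf 0) (.nd (.nd (.nd (.lf 0) (.lf 0x900000100086d793600096d793600016d79360033daf26b)) (.lf 0)) (.nd (.lf 0) (.lf 0x46d793600046d7936001e6d7936)))))) (.nd (.nd (.nd (.nd (.nd (.nd (.lf 0) (.lf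 0xe6d7936)) (.lf 0)) (.lf 0)) (.lf 0)) (.nd (.lf 0) (.nd (.lf 0) (.nd (.lf 0) (.lf 0x2daf2680000a435d00002a435d000006d7935000136bc9b00006d7935000236bc9b00006d793600026d7937000136bc9b000236bc9b0006a435d1))))) (.nd (.nd (.nd (.lf 0) (.nd (.lf 0) (.lf 0x900000200086d7936000b6d79360004daf26a00056d7934000436bc9a000536bc9a0000a435d1000136bc9b0000290d740002290d740000521ae80001b1e4f70000521ae80006b1e4f70001b1e4f70009b1e4f8))) (.nd (.nd (.nd (.lf 0) (.lf 0x1c6d7936)) (.lf 0)) (.nd (.lf 0) (.lf 0x26d793600026d7936000f6d7937)))) (.lf 0)))) (.nd (.nd (.nd (.nd (.nd (.nd (.nd (.lf 0) (.lf 0x46d793600046d793600206d7937)) (.lf 0)) (.lf 0)) (.lf 0)) (.lf 0)) (.nd (.nd (.nd (.nd (.nd (.lf 0) (.lf 0x500000100046d793600046d793600006d7936001ddaf26b)) (.lf 0)) (.nd (.lf 0) (.lf 0x9daf26a00086d793500096d793500016d79350033000002))) (.nd (.nd (.nd (.lf 0) (.lf 0x86d793600096d7936003a6d7937))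 (.lf 0)) (.lf 0))) (.nd (.lf 0) (.nd (.nd (.nd (.lf 0) (.lf 0x9daf26900086d7935000b6d7935000400000100056d79370004a435d10005a435d1000036bc9a0001a435d00000b1e4f70002b1e4f7000088d7830001290d74000088d7830006290d740001290d740009290d75)) (.lf 0)) (.lf 0))))) (.nd (.nd (.nd (.nd (.lf 0) (.nd (.nd (.lf 0) (.lf 0x200006d793600026d7936000436bc9b00036d7936000436bc9b00046d7936000436bc9b00026d793500076d79350004521ae80004521ae8000f1b5e4d001088d784)) (.lf 0))) (.lf 0)) (.nd (.lf 0) (.nd (.nd (.nd (.lf 0) (.lf 0x206d7936)) (.lf 0)) (.lf 0)))) (.nd (.lf 0) (.nd (.lf 0) (.nd (.lf 0) (.nd (.lf 0) (.lf 0x46d793600046d7936001e6d7937)))))))⟩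

/-- Table. -/
def f419 : Fc := ⟨45, [400], 45, .nd (.nd (.nd (.nd (.nd (.nd (.nd (.nd (.lf 0) (.lf 0x6a0000010015daf26b)) (.nd (.lf 0) (.lf 0x6c000002))) (.lf 0)) (.nd (.nd (.nd (.lf 0) (.lf 0x670000010028daf26b)) (.lf 0)) (.lf 0x30daf26b))) (.nd (.nd (.lf 0) (.lf 0x28daf26b)) (.nd (.nd (.lf 0) (.nd (.lf 0x8f000002) (.lf 0x9e000002))) (.lf 0)))) (.nd (.nd (.lf 0) (.nd (.nd (.nd (.lf 0x14daf26b) (.lf 0x67000001002cdaf26b)) (.lf 0x8b000002)) (.lf 0))) (.nd (.nd (.nd (.lf 0) (.nd (.lf 0) (.lf 0x86000002))) (.lf 0x2cdaf26b)) (.lf 0)))) (.nd (.nd (.nd (.nd (.lf 0) (.lf 0x22daf26b)) (.nd (.nd (.nd (.lf 0) (.lf 0x67000001002adaf26b)) (.lf 0)) (.nd (.lf 0) (.lf 0x6c0000010005daf26b)))) (.nd (.nd (.lf 0xadaf26b) (.lf 0x2adaf26b)) (.nd (.nd (.lf 0) (.nd (.lf 0) (.lf 0xa0000002))) (.lf 0x71000002)))) (.nd (.nd (.nd (.nd (.lf 0) (.lf 0x7d000002)) (.lf 0)) (.nd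 (.nd (.lf 0x16daf26b) (.nd (.lf 0x8d000002) (.lf 0x9c000002))) (.nd (.lf 0) (.lf 0x6b000001000adaf26b)))) (.nd (.nd (.lf 0) (.lf 0x2edaf26b)) (.nd (.nd (.lf 0) (.nd (.lf 0) (.lf 0xa4000002))) (.lf 0x75000002)))))) (.nd (.nd (.nd (.nd (.nd (.nd (.nd (.lf 0) (.lf 0x6a0000010016daf26b)) (.lf 0)) (.lf 0)) (.nd (.nd (.nd (.lf 0) (.lf 0x670000010029daf26b)) (.nd (.lf 0) (.lf 0x97000002))) (.lf 0))) (.nd (.nd (.lf 0) (.lf 0x29daf26b)) (.nd (.nd (.lf 0) (.nd (.lf 0) (.lf 0x9f000002))) (.lf 0)))) (.nd (.nd (.nd (.nd (.lf 0x5daf26b) (.lf 0x7c000002)) (.lf 0)) (.nd (.nd (.nd (.lf 0x15daf26b) (.lf 0x67000001002ddaf26b)) (.nd (.lf 0x8c000002) (.lf 0x9b000002))) (.lf 0x35daf26b))) (.nd (.nd (.nd (.lf 0) (.nd (.lf 0) (.lf 0x87000002))) (.lf 0x2ddaf26b)) (.nd (.nd (.lf 0) (.nd (.lf 0) (.lf 0xa3000002))) (.lf 0x74000002))))) (.nd (.nd (.nd (.lf 0) (.nd (.nd (.lf 0)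 (.lf 0x8a000002)) (.lf 0))) (.nd (.nd (.nd (.lf 0xbdaf26b) (.nd (.lf 0) (.lf 0x85000002))) (.lf 0)) (.lf 0))) (.nd (.nd (.nd (.nd (.lf 0) (.nd (.lf 0x7e000002) (.lf 0x7b000002))) (.lf 0x27daf26b)) (.nd (.nd (.lf 0) (.nd (.lf 0x8e000002) (.lf 0x9d000002))) (.nd (.lf 0x6e000002) (.lf 0x6b000001000bdaf26b)))) (.nd (.nd (.nd (.lf 0) (.nd (.lf 0) (.lf 0x89000002))) (.lf 0x2fdaf26b)) (.nd (.lf 0) (.nd (.lf 0) (.lf 0x6a0000010014daf26b)))))))⟩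

/-- Table. -/
def f420 : Fc := ⟨45, [401], 45, .nd (.nd (.nd (.nd (.nd (.nd (.nd (.lf 0x37000002) (.nd (.lf 0) (.lf 0xc0daf26b))) (.nd (.lf 0x57000002) (.nd (.lf 0x29000002) (.lf 0xc7000002)))) (.lf 0x47000002)) (.nd (.nd (.lf 0) (.nd (.lf 0) (.nd (.lf 0) (.lf 0xd8000002)))) (.nd (.nd (.nd (.lf 0) (.lf 0x92000002)) (.lf 0)) (.nd (.nd (.lf 0) (.lf 0xb8daf26b)) (.lf 0x76000002))))) (.nd (.nd (.nd (.nd (.nd (.lf 0) (.lf 0x81000002)) (.lf 0)) (.nd (.lf 0) (.nd (.lf 0x2d000002) (.lf 0xce000002)))) (.nd (.lf 0) (.nd (.nd (.lf 0) (.lf 0xb4daf26b)) (.lf 0)))) (.nd (.nd (.nd (.lf 0) (.lf 0x15000002)) (.nd (.lf 0) (.lf 0x35000002))) (.nd (.lf 0x53000002) (.lf 0x5000002))))) (.nd (.nd (.nd (.nd (.nd (.nd (.lf 0) (.lf 0x7f000002)) (.lf 0xb000002)) (.nd (.lf 0) (.nd (.lf 0) (.lf 0xcc000002)))) (.nd (.nd (.lf 0) (.nd (.lf 0) (.lf 0x1c00000100b5daf26b))) (.lf 0)))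 (.nd (.nd (.lf 0) (.nd (.lf 0) (.nd (.lf 0) (.lf 0xda000002)))) (.nd (.nd (.nd (.lf 0) (.lf 0x94000002)) (.lf 0x23000002)) (.lf 0)))) (.nd (.nd (.nd (.lf 0x3d000002) (.nd (.lf 0) (.nd (.lf 0x2f000002) (.lf 0xd6000002)))) (.nd (.nd (.nd (.lf 0) (.lf 0x90000002)) (.lf 0)) (.lf 0))) (.nd (.nd (.lf 0x45000002) (.nd (.lf 0x65000002) (.nd (.lf 0) (.lf 0xde000002)))) (.nd (.nd (.lf 0x55000002) (.lf 0x27000002)) (.lf 0)))))) (.nd (.nd (.nd (.nd (.nd (.nd (.lf 0) (.lf 0xa000002)) (.nd (.lf 0x58000002) (.nd (.lf 0x2a000002) (.lf 0xcb000002)))) (.nd (.nd (.lf 0) (.nd (.lf 0) (.lf 0x1c00000100b4daf26b))) (.lf 0))) (.nd (.nd (.lf 0) (.nd (.lf 0) (.nd (.lf 0) (.lf 0xd9000002)))) (.nd (.nd (.lf 0) (.lf 0x22000002)) (.nd (.lf 0) (.lf 0x77000002))))) (.nd (.nd (.nd (.lf 0) (.nd (.lf 0) (.nd (.lf 0x2e000002) (.lf 0xcf000002)))) (.nd (.nd (.lf 0) (.nd (.lf 0) (.lf 0x1c00000100b8daf26b)))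 (.nd (.nd (.lf 0) (.lf 0xb5daf26b)) (.lf 0)))) (.nd (.nd (.nd (.lf 0) (.lf 0x16000002)) (.nd (.lf 0) (.nd (.lf 0x36000002) (.lf 0xdd000002)))) (.lf 0x54000002)))) (.nd (.nd (.nd (.nd (.nd (.nd (.lf 0x3a000002) (.lf 0x80000002)) (.lf 0)) (.nd (.nd (.lf 0) (.lf 0x5daf26a0000daf2690000daf26900046d7936000000000100046d7936000a00000100000000030001a435d000006d79340001a435d000026d793400016d793700016d7935000136bc9b000136bc9b0074a435d1)) (.nd (.lf 0x2c000002) (.lf 0xcd000002)))) (.nd (.lf 0) (.nd (.lf 0) (.lf 0x72000002)))) (.nd (.nd (.nd (.lf 0) (.lf 0x14000002)) (.nd (.lf 0) (.nd (.lf 0) (.lf 0xdb000002)))) (.nd (.nd (.nd (.lf 0) (.lf 0x95000002)) (.lf 0)) (.lf 0)))) (.nd (.nd (.nd (.lf 0x3e000002) (.nd (.lf 0) (.nd (.lf 0x30000002) (.lf 0xd7000002)))) (.nd (.nd (.nd (.lf 0) (.lf 0x91000002)) (.lf 0)) (.lf 0))) (.nd (.nd (.lf 0x46000002) (.lf 0x66000002))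 (.nd (.nd (.lf 0x56000002) (.nd (.lf 0x28000002) (.lf 0xc6000002))) (.lf 0))))))⟩

/-- Table. -/
def f421 : Fc := ⟨45, [402], 45, .nd (.nd (.nd (.nd (.nd (.nd (.nd (.lf 0) (.nd (.nd (.lf 0x77000002) (.lf 0x167000002)) (.lf 0xdd000002))) (.lf 0)) (.nd (.nd (.nd (.lf 0) (.lf 0x59000002)) (.nd (.nd (.lf 0x87000002) (.lf 0x680000010000daf26a0004daf26a00016d79370009a435d000046d793600056d79360001a435d0000336bc9a000b88d78300046d793500056d7935000136bc9b0003a435d1000b521ae800046d793600116d79360001a435d0000936bc9a001388d78300046d793500116d7935000136bc9b0009a435d10024521ae8000d6d79360007a435d10006521ae9)) (.lf 0))) (.nd (.nd (.lf 0x31000002) (.lf 0xcd000002)) (.lf 0)))) (.nd (.nd (.nd (.lf 0) (.nd (.nd (.lf 0x7f000002) (.lf 0x16e000002)) (.lf 0))) (.nd (.lf 0) (.lf 0x9f000002))) (.nd (.nd (.lf 0) (.lf 0x8f000002)) (.nd (.nd (.lf 0) (.lf 0xd5000002)) (.nd (.nd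 (.lf 0) (.lf 0x100000100036d793600056d793500096d793600086d793600016d793600816d793500006d7936000aa435d0001d88d783001036bc9b0018521ae800006d7936000aa435d000006d7935000a36bc9b000588d7830015521ae800016d79360000daf26a00006d7935000436bc9b00006d7936000436bc9b000b6d79360002521ae80013521ae9)) (.lf 0x103000002)))))) (.nd (.nd (.nd (.nd (.lf 0) (.lf 0x7b000002)) (.nd (.nd (.lf 0) (.lf 0x6d000002)) (.lf 0x9b000002))) (.nd (.nd (.lf 0) (.lf 0x8b000002)) (.lf 0))) (.nd (.nd (.nd (.nd (.nd (.lf 0) (.lf 0x124000002)) (.lf 0)) (.lf 0)) (.nd (.lf 0) (.lf 0xa3000002))) (.nd (.nd (.nd (.lf 0) (.lf 0x65000002)) (.lf 0)) (.nd (.nd (.lf 0) (.lf 0xd9000002)) (.lf 0)))))) (.nd (.nd (.nd (.nd (.lf 0) (.lf 0x28000002)) (.nd (.nd (.nd (.nd (.lf 0) (.lf 0x12a000002)) (.lf 0)) (.lf 0x89000002)) (.nd (.nd (.lf 0) (.lf 0xcf000002)) (.lf 0)))) (.nd (.nd (.nd (.lf 0) (.lf 0x81000002))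 (.nd (.nd (.lf 0) (.lf 0xc7000002)) (.lf 0))) (.nd (.nd (.lf 0) (.lf 0x91000002)) (.nd (.nd (.lf 0x71000002) (.lf 0xd7000002)) (.lf 0))))) (.nd (.nd (.nd (.nd (.lf 0) (.nd (.nd (.lf 0x7d000002) (.lf 0x16c000002)) (.lf 0))) (.nd (.lf 0) (.lf 0x9d000002))) (.nd (.nd (.nd (.nd (.lf 0) (.lf 0x3200000100e3daf26b)) (.lf 0)) (.nd (.nd (.lf 0x8d000002) (.lf 0x176000002)) (.lf 0))) (.lf 0))) (.nd (.nd (.nd (.lf 0) (.nd (.nd (.lf 0x85000002) (.lf 0x6500000100e8daf26b)) (.lf 0))) (.nd (.nd (.lf 0x2f000002) (.lf 0xcb000002)) (.lf 0))) (.nd (.nd (.nd (.lf 0) (.lf 0x67000002)) (.lf 0x95000002)) (.nd (.nd (.nd (.lf 0x75000002) (.lf 0x165000002)) (.lf 0xdb000002)) (.lf 0))))))) (.nd (.nd (.nd (.nd (.nd (.nd (.lf 0) (.nd (.lf 0) (.lf 0xde000002))) (.lf 0)) (.nd (.nd (.nd (.nd (.lf 0) (.lf 0x129000002)) (.lf 0x5a000002)) (.nd (.nd (.lf 0) (.lf 0x6600000100eadaf26b))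 (.lf 0))) (.nd (.nd (.lf 0) (.lf 0xce000002)) (.lf 0)))) (.nd (.nd (.nd (.lf 0) (.nd (.nd (.lf 0x80000002) (.lf 0x16f000002)) (.lf 0))) (.nd (.nd (.lf 0) (.lf 0xc6000002)) (.lf 0xa0000002))) (.nd (.nd (.lf 0) (.lf 0x90000002)) (.nd (.nd (.lf 0) (.lf 0xd6000002)) (.nd (.lf 0) (.lf 0x104000002)))))) (.nd (.nd (.nd (.nd (.lf 0) (.lf 0x7c000002)) (.nd (.lf 0) (.lf 0x9c000002))) (.nd (.nd (.nd (.lf 0) (.lf 0x5e000002)) (.lf 0x8c000002)) (.nd (.nd (.lf 0) (.lf 0xd2000002)) (.nd (.nd (.lf 0) (.lf 0x12500000100056d79350001daf26a0004a435d00005a435d10000a435d0000436bc9b000436bc9b0000a435d1000188d78300021b5e4d00001b5e4d0001521ae80001bf941e0001521ae80001b1e4f70001b1e4f70006290d75)) (.lf 0))))) (.nd (.nd (.nd (.nd (.nd (.lf 0) (.lf 0x125000002)) (.lf 0)) (.lf 0)) (.nd (.lf 0) (.lf 0xa4000002))) (.nd (.nd (.lf 0) (.lf 0x94000002)) (.nd (.nd (.nd (.lf 0x74000002)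 (.lf 0x164000002)) (.lf 0xda000002)) (.lf 0)))))) (.nd (.nd (.nd (.nd (.nd (.lf 0) (.lf 0x7a000002)) (.nd (.nd (.lf 0) (.lf 0x6c000002)) (.lf 0))) (.nd (.nd (.lf 0) (.lf 0x8a000002)) (.nd (.nd (.lf 0) (.lf 0xd0000002)) (.lf 0)))) (.nd (.lf 0) (.nd (.nd (.lf 0) (.lf 0x92000002)) (.nd (.nd (.lf 0x72000002) (.lf 0xd8000002)) (.nd (.lf 0) (.lf 0x106000002)))))) (.nd (.nd (.nd (.nd (.lf 0) (.nd (.nd (.lf 0x7e000002) (.lf 0x16d000002)) (.lf 0))) (.nd (.lf 0x2d000002) (.lf 0x9e000002))) (.nd (.nd (.nd (.nd (.lf 0) (.lf 0x3200000100e4daf26b)) (.lf 0)) (.lf 0x8e000002)) (.nd (.lf 0x6e000002) (.nd (.nd (.lf 0) (.lf 0x12300000100036d793600016d7935000600000100006d79350004a435d000006d7936000da435d0000288d783001088d784)) (.lf 0))))) (.nd (.nd (.nd (.lf 0) (.nd (.nd (.lf 0x86000002) (.lf 0x6500000100e9daf26b)) (.lf 0))) (.nd (.nd (.lf 0x2e000002) (.lf 0xcc000002))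 (.lf 0))) (.nd (.lf 0) (.nd (.nd (.nd (.lf 0x76000002) (.lf 0x166000002)) (.lf 0)) (.lf 0)))))))⟩

/-- Table. -/
def f422 : Fc := ⟨0, [201, 212], 3, .lf 0x10000daf26b⟩

/-- Table. -/
def f423 : Fc := ⟨0, [201, 212, 400], 3, .lf 0x1000002⟩

/-- Table. -/
def f424 : Fc := ⟨0, [201, 212, 400, 401], 3, .lf 2⟩

/-- Table. -/
def f425 : Fc := ⟨0, [201, 212, 400, 401, 400], 3, .lf 0xdaf26b⟩

/-- Table. -/
def f426 : Fc := ⟨0, [201, 212, 401], 3, .lf 0xdaf26a0000000002⟩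

/-- Table. -/
def f427 : Fc := ⟨0, [201, 212, 401, 400], 3, .lf 0x1daf26b⟩

/-- Table. -/
def f428 : Fc := ⟨0, [201, 500], 4, .lf 0xdaf26b⟩

/-- Table. -/
def f429 : Fc := ⟨0, [201, 500, 500], 12, .lf 0x1000002⟩

/-- Table. -/
def f430 : Fc := ⟨0, [201, 500, 500, 101], 20, .lf 0x3000002⟩

/-- Table. -/
def f431 : Fc := ⟨0, [201, 500, 500, 101, 500], 27, .lf 0x5daf26b⟩

/-- Table. -/
def f432 : Fc := ⟨0, [201, 500, 500, 101, 500, 101], 35, .lf 0xadaf26b⟩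

/-- Table. -/
def f433 : Fc := ⟨0, [201, 500, 500, 101, 500, 101, 101], 43, .lf 0x12daf26b⟩

/-- Table. -/
def f434 : Fc := ⟨0, [201, 500, 101], 11, .lf 0x1daf26b⟩

/-- Table. -/
def f435 : Fc := ⟨0, [201, 500, 101, 101], 19, .lf 0x3daf26b⟩

/-- Table. -/
def f436 : Fc := ⟨0, [201, 500, 101, 101, 500], 28, .lf 0x3000002⟩

/-- Table. -/
def f437 : Fc := ⟨0, [201, 500, 101, 101, 500, 101], 36, .lf 0x6000002⟩

/-- Table. -/
def f438 : Fc := ⟨0, [201, 500, 101, 101, 500, 101, 500], 43, .lf 0xddaf26b⟩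

/-- Table. -/
def f439 : Fc := ⟨0, [201, 500, 101, 101, 101], 27, .lf 0x7daf26b⟩

/-- Table. -/
def f440 : Fc := ⟨0, [201, 500, 101, 101, 101, 500], 36, .lf 0x5000002⟩

/-- Table. -/
def f441 : Fc := ⟨0, [201, 500, 101, 101, 101, 500, 101], 44, .lf 0x8000002⟩

/-- Table. -/
def f442 : Fc := ⟨0, [201, 0], 5, .lf 2⟩

/-- Table. -/
def f443 : Fc := ⟨0, [201, 0, 500], 11, .lf 0xdaf26b⟩

/-- Table. -/
def f444 : Fc := ⟨0, [201, 0, 500, 500], 20, .lf 0x1000002⟩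

/-- Table. -/
def f445 : Fc := ⟨0, [201, 0, 500, 500, 500], 27, .lf 0x2daf26b⟩

/-- Table. -/
def f446 : Fc := ⟨0, [201, 0, 500, 500, 500, 101], 35, .lf 0x5daf26b⟩

/-- Table. -/
def f447 : Fc := ⟨0, [201, 0, 500, 500, 500, 101, 101], 43, .lf 0xadaf26b⟩

/-- Table. -/
def f448 : Fc := ⟨0, [201, 0, 500, 500, 101], 28, .lf 0x10000060000daf26800016d7937⟩

/-- Table. -/
def f449 : Fc := ⟨0, [201, 0, 500, 500, 101, 500], 35, .lf 0x3daf265000100000300026d7936⟩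

/-- Table. -/
def f450 : Fc := ⟨0, [201, 0, 500, 500, 101, 500, 101], 43, .lf 0x6daf265000300000300056d7936⟩

/-- Table. -/
def f451 : Fc := ⟨0, [201, 0, 500, 101], 19, .lf 0x1daf26b⟩

/-- Table. -/
def f452 : Fc := ⟨0, [201, 0, 500, 101, 101], 27, .lf 0x3daf26b⟩

/-- Table. -/
def f453 : Fc := ⟨0, [201, 0, 500, 101, 101, 500], 36, .lf 0x3000002⟩

/-- Table. -/
def f454 : Fc := ⟨0, [201, 0, 500, 101, 101, 500, 500], 43, .lf 0x7daf26b⟩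

/-- Table. -/
def f455 : Fc := ⟨0, [201, 0, 500, 101, 101, 500, 101], 44, .lf 0x6000002⟩

/-- Table. -/
def f456 : Fc := ⟨0, [201, 0, 500, 101, 101, 101], 35, .lf 0x6daf26b⟩

/-- Table. -/
def f457 : Fc := ⟨0, [201, 0, 500, 101, 101, 101, 500], 44, .lf 0x5000002⟩

/-- Table. -/
def f458 : Fc := ⟨0, [201, 0, 0], 12, .lf 2⟩

/-- Table. -/
def f459 : Fc := ⟨0, [201, 0, 0, 500], 19, .lf 0xdaf26b⟩

/-- Table. -/
def f460 : Fc := ⟨0, [201, 0, 0, 500, 500], 28, .lf 0x1000002⟩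

/-- Table. -/
def f461 : Fc := ⟨0, [201, 0, 0, 500, 500, 500], 35, .lf 0x2daf26b⟩

/-- Table. -/
def f462 : Fc := ⟨0, [201, 0, 0, 500, 500, 500, 101], 43, .lf 0x5daf26b⟩

/-- Table. -/
def f463 : Fc := ⟨0, [201, 0, 0, 500, 500, 101], 36, .lf 0x10000060000daf26800016d7937⟩

/-- Table. -/
def f464 : Fc := ⟨0, [201, 0, 0, 500, 500, 101, 500], 43, .lf 0x3daf265000100000300026d7936⟩

/-- Table. -/
def f465 : Fc := ⟨0, [201, 0, 0, 500, 101], 27, .lf 0x1daf26b⟩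

/-- Table. -/
def f466 : Fc := ⟨0, [201, 0, 0, 500, 101, 101], 35, .lf 0x3daf26b⟩

/-- Table. -/
def f467 : Fc := ⟨0, [201, 0, 0, 500, 101, 101, 500], 44, .lf 0x3000002⟩

/-- Table. -/
def f468 : Fc := ⟨0, [201, 0, 0, 0], 20, .lf 2⟩

/-- Table. -/
def f469 : Fc := ⟨0, [201, 0, 0, 0, 500], 27, .lf 0xdaf26b⟩

/-- Table. -/
def f470 : Fc := ⟨0, [201, 0, 0, 0, 500, 500], 36, .lf 0x1000002⟩

/-- Table. -/
def f471 : Fc := ⟨0, [201, 0, 0, 0, 500, 500, 500], 43, .lf 0x2daf26b⟩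

/-- Table. -/
def f472 : Fc := ⟨0, [201, 0, 0, 0, 500, 500, 101], 44, .lf 0x10000060000daf26800016d7937⟩

/-- Table. -/
def f473 : Fc := ⟨0, [201, 0, 0, 0, 0], 28, .lf 2⟩

/-- Table. -/
def f474 : Fc := ⟨0, [201, 0, 0, 0, 0, 500], 35, .lf 0xdaf26b⟩

/-- Table. -/
def f475 : Fc := ⟨0, [201, 0, 0, 0, 0, 500, 500], 44, .lf 0x1000002⟩

/-- Table. -/
def f476 : Fc := ⟨1, [212, 400], 3, .lf 0x1000002⟩

/-- Table. -/
def f477 : Fc := ⟨1, [212, 400, 401], 3, .lf 2⟩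

/-- Table. -/
def f478 : Fc := ⟨1, [212, 400, 401, 400], 3, .lf 0xdaf26b⟩

/-- Table. -/
def f479 : Fc := ⟨1, [400, 201], 3, .lf 0xdaf26b⟩

/-- Table. -/
def f480 : Fc := ⟨1, [400, 500], 4, .lf 2⟩

/-- Table. -/
def f481 : Fc := ⟨1, [400, 0], 5, .lf 0xdaf26b⟩

/-- Table. -/
def f482 : Fc := ⟨4, [212, 400], 9, .lf 0x1000002⟩

/-- Table. -/
def f483 : Fc := ⟨4, [212, 400, 401], 9, .lf 2⟩

/-- Table. -/
def f484 : Fc := ⟨4, [212, 400, 401, 400], 9, .lf 0xdaf26b⟩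

/-- Table. -/
def f485 : Fc := ⟨4, [400, 201], 9, .lf 2⟩

/-- Table. -/
def f486 : Fc := ⟨4, [400, 500], 12, .lf 0x1daf26b⟩

/-- Table. -/
def f487 : Fc := ⟨4, [400, 101], 11, .lf 0x1000002⟩

/-- Table. -/
def f488 : Fc := ⟨5, [400, 0], 12, .lf 0xdaf26b⟩

/-- Table. -/
def f489 : Fc := ⟨11, [212, 400], 17, .nd (.lf 0) (.lf 0x4000002)⟩

/-- Table. -/
def f490 : Fc := ⟨11, [212, 400, 401], 17, .nd (.lf 0) (.lf 0x3000002)⟩

/-- Table. -/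
def f491 : Fc := ⟨11, [212, 400, 401, 400], 17, .nd (.lf 0) (.lf 0x3daf26b)⟩

/-- Table. -/
def f492 : Fc := ⟨11, [400, 201], 17, .nd (.lf 0) (.lf 0x3000002)⟩

/-- Table. -/
def f493 : Fc := ⟨11, [400, 500], 20, .nd (.lf 0) (.lf 0x2daf26b)⟩

/-- Table. -/
def f494 : Fc := ⟨11, [400, 101], 19, .nd (.lf 0) (.lf 0x3000002)⟩

/-- Table. -/
def f495 : Fc := ⟨12, [212, 400], 18, .nd (.lf 0) (.lf 0x4000002)⟩

/-- Table. -/
def f496 : Fc := ⟨12, [212, 400, 401], 18, .nd (.lf 0) (.lf 0x3000002)⟩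

/-- Table. -/
def f497 : Fc := ⟨12, [212, 400, 401, 400], 18, .nd (.lf 0) (.lf 0x3daf26b)⟩

/-- Table. -/
def f498 : Fc := ⟨12, [400, 201], 18, .nd (.lf 0) (.lf 0x3daf26b)⟩

/-- Table. -/
def f499 : Fc := ⟨12, [400, 500], 19, .nd (.lf 0) (.lf 0x2000002)⟩

/-- Table. -/
def f500 : Fc := ⟨12, [400, 101], 20, .nd (.lf 0) (.lf 0x3daf26b)⟩

/-- Table. -/
def f501 : Fc := ⟨12, [400, 0], 20, .nd (.lf 0) (.lf 0x1daf26b)⟩

/-- Table. -/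
def f502 : Fc := ⟨19, [212, 400], 25, .nd (.nd (.lf 0) (.lf 0x8000002)) (.nd (.lf 0) (.lf 0x9000002))⟩

/-- Table. -/
def f503 : Fc := ⟨19, [212, 400, 401], 25, .nd (.nd (.lf 0) (.lf 0x6000002)) (.nd (.lf 0) (.lf 0x7000002))⟩

/-- Table. -/
def f504 : Fc := ⟨19, [212, 400, 401, 400], 25, .nd (.nd (.lf 0) (.lf 0x6daf26b)) (.nd (.lf 0) (.lf 0x7daf26b))⟩

/-- Table. -/
def f505 : Fc := ⟨19, [400, 201], 25, .nd (.nd (.lf 0) (.lf 0x6000002)) (.nd (.lf 0) (.lf 0x7000002))⟩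

/-- Table. -/
def f506 : Fc := ⟨19, [400, 500], 28, .nd (.lf 0) (.nd (.lf 0) (.lf 0x3daf26b))⟩

/-- Table. -/
def f507 : Fc := ⟨19, [400, 101], 27, .nd (.nd (.lf 0) (.lf 0x6000002)) (.nd (.lf 0) (.lf 0x7000002))⟩

/-- Table. -/
def f508 : Fc := ⟨20, [212, 400], 26, .nd (.nd (.lf 0) (.lf 0xa000002)) (.nd (.lf 0) (.lf 0xb000002))⟩

/-- Table. -/
def f509 : Fc := ⟨20, [212, 400, 401], 26, .nd (.nd (.lf 0) (.lf 0x8000002)) (.nd (.lf 0) (.lf 0x9000002))⟩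

/-- Table. -/
def f510 : Fc := ⟨20, [212, 400, 401, 400], 26, .nd (.nd (.lf 0) (.lf 0x8daf26b)) (.nd (.lf 0) (.lf 0x9daf26b))⟩

/-- Table. -/
def f511 : Fc := ⟨20, [400, 201], 26, .nd (.nd (.lf 0) (.lf 0x8daf26b)) (.nd (.lf 0) (.lf 0x9daf26b))⟩

/-- Table. -/
def f512 : Fc := ⟨20, [400, 500], 27, .nd (.nd (.lf 0) (.lf 0x4000002)) (.nd (.lf 0) (.lf 0x5000002))⟩

/-- Table. -/
def f513 : Fc := ⟨20, [400, 101], 28, .nd (.nd (.lf 0) (.lf 0x4daf26b)) (.lf 0)⟩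

/-- Table. -/
def f514 : Fc := ⟨20, [400, 0], 28, .nd (.lf 0) (.lf 0x1daf26b)⟩

/-- Table. -/
def f515 : Fc := ⟨27, [212, 400], 33, .nd (.nd (.nd (.lf 0) (.lf 0x12000002)) (.nd (.lf 0) (.lf 0x14000002))) (.nd (.nd (.lf 0) (.lf 0x13000002)) (.nd (.lf 0) (.lf 0x15000002)))⟩

/-- Table. -/
def f516 : Fc := ⟨27, [212, 400, 401], 33, .nd (.nd (.nd (.lf 0) (.lf 0xe000002)) (.nd (.lf 0) (.lf 0x10000002))) (.nd (.nd (.lf 0) (.lf 0xf000002)) (.nd (.lf 0) (.lf 0x11000002)))⟩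

/-- Table. -/
def f517 : Fc := ⟨27, [212, 400, 401, 400], 33, .nd (.nd (.nd (.lf 0) (.lf 0xedaf26b)) (.nd (.lf 0) (.lf 0x10daf26b))) (.nd (.nd (.lf 0) (.lf 0xfdaf26b)) (.nd (.lf 0) (.lf 0x11daf26b)))⟩

/-- Table. -/
def f518 : Fc := ⟨27, [400, 201], 33, .nd (.nd (.nd (.lf 0) (.lf 0xe000002)) (.nd (.lf 0) (.lf 0x10000002))) (.nd (.nd (.lf 0) (.lf 0xf000002)) (.nd (.lf 0) (.lf 0x11000002)))⟩

/-- Table. -/
def f519 : Fc := ⟨27, [400, 500], 36, .nd (.lf 0) (.nd (.lf 0) (.nd (.lf 0) (.lf 0x5daf26b)))⟩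

/-- Table. -/
def f520 : Fc := ⟨27, [400, 101], 35, .nd (.nd (.nd (.lf 0) (.lf 0x9000002)) (.nd (.lf 0) (.lf 0xb000002))) (.nd (.nd (.lf 0) (.lf 0xa000002)) (.nd (.lf 0) (.lf 0xc000002)))⟩

/-- Table. -/
def f521 : Fc := ⟨28, [212, 400], 34, .nd (.nd (.nd (.lf 0) (.lf 0x13000002)) (.lf 0)) (.nd (.lf 0x4000002) (.lf 0x12000002))⟩

/-- Table. -/
def f522 : Fc := ⟨28, [212, 400, 401], 34, .nd (.nd (.nd (.lf 0) (.lf 0x11000002)) (.lf 0)) (.nd (.lf 0) (.lf 0x10000002))⟩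

/-- Table. -/
def f523 : Fc := ⟨28, [212, 400, 401, 400], 34, .nd (.nd (.nd (.lf 0) (.lf 0x11daf26b)) (.lf 0)) (.nd (.lf 0) (.lf 0x10daf26b))⟩

/-- Table. -/
def f524 : Fc := ⟨28, [400, 201], 34, .nd (.nd (.nd (.lf 0) (.lf 0x11daf26b)) (.lf 0)) (.nd (.lf 0) (.lf 0x10daf26b))⟩

/-- Table. -/
def f525 : Fc := ⟨28, [400, 500], 35, .nd (.nd (.nd (.lf 0) (.lf 0x8000002)) (.lf 0)) (.nd (.lf 0) (.lf 0x7000002))⟩

/-- Table. -/
def f526 : Fc := ⟨28, [400, 101], 36, .nd (.lf 0) (.nd (.lf 0) (.lf 0x6daf26b))⟩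

/-- Table. -/
def f527 : Fc := ⟨28, [400, 0], 36, .nd (.lf 0) (.nd (.lf 0x1daf26b) (.lf 0x3daf26b))⟩

/-- Table. -/
def f528 : Fc := ⟨35, [212, 400], 41, .nd (.nd (.nd (.nd (.lf 0) (.lf 0x23000002)) (.nd (.lf 0) (.lf 0x27000002))) (.nd (.nd (.lf 0) (.lf 0x25000002)) (.lf 0))) (.nd (.nd (.nd (.lf 0) (.lf 0x24000002)) (.lf 0)) (.nd (.nd (.lf 0) (.lf 0x26000002)) (.lf 0x22000002)))⟩

/-- Table. -/
def f529 : Fc := ⟨35, [212, 400, 401], 41, .nd (.nd (.nd (.nd (.lf 0) (.lf 0x1d000002)) (.nd (.lf 0) (.lf 0x21000002))) (.nd (.nd (.lf 0) (.lf 0x1f000002)) (.lf 0))) (.nd (.nd (.nd (.lf 0) (.lf 0x1e000002)) (.lf 0)) (.nd (.nd (.lf 0) (.lf 0x20000002)) (.lf 0x1c000002)))⟩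

/-- Table. -/
def f530 : Fc := ⟨35, [212, 400, 401, 400], 41, .nd (.nd (.nd (.nd (.lf 0) (.lf 0x1ddaf26b)) (.nd (.lf 0) (.lf 0x21daf26b))) (.nd (.nd (.lf 0) (.lf 0x1fdaf26b)) (.lf 0))) (.nd (.nd (.nd (.lf 0) (.lf 0x1edaf26b)) (.lf 0)) (.nd (.nd (.lf 0) (.lf 0x20daf26b)) (.lf 0x1cdaf26b)))⟩

/-- Table. -/
def f531 : Fc := ⟨35, [400, 201], 41, .nd (.nd (.nd (.nd (.lf 0) (.lf 0x1d000002)) (.nd (.lf 0) (.lf 0x21000002))) (.nd (.nd (.lf 0) (.lf 0x1f000002)) (.lf 0))) (.nd (.nd (.nd (.lf 0) (.lf 0x1e000002)) (.lf 0)) (.nd (.nd (.lf 0) (.lf 0x20000002)) (.lf 0x1c000002)))⟩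

/-- Table. -/
def f532 : Fc := ⟨35, [400, 101], 43, .nd (.nd (.nd (.lf 0) (.nd (.lf 0) (.lf 0x14000002))) (.lf 0)) (.nd (.lf 0) (.nd (.lf 0) (.lf 0xf000002)))⟩

/-- Table. -/
def f533 : Fc := ⟨36, [212, 400], 42, .nd (.lf 0) (.nd (.nd (.lf 0) (.lf 0x20000002)) (.lf 0))⟩

/-- Table. -/
def f534 : Fc := ⟨36, [400, 500], 43, .nd (.nd (.lf 0) (.nd (.lf 0) (.lf 0xd000002))) (.nd (.nd (.lf 0) (.lf 0xc000002)) (.lf 0))⟩

/-- Table. -/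
def f535 : Fc := ⟨43, [212, 400], 47, .nd (.nd (.nd (.lf 0) (.nd (.nd (.lf 0) (.lf 0x44000002)) (.lf 0x3c000002))) (.lf 0)) (.nd (.nd (.lf 0) (.nd (.lf 0) (.lf 0x3d000002))) (.nd (.nd (.nd (.lf 0) (.lf 0x43000002)) (.lf 0)) (.nd (.lf 0) (.lf 0x3f000002))))⟩

/-- Table. -/
def f536 : Fc := ⟨3, [223, 401], 6, .nd (.lf 0x2daf26b) (.lf 0x30000010000daf26a0000000002)⟩

/-- Table. -/
def f537 : Fc := ⟨3, [223, 401, 400], 6, .nd (.lf 0x4000002) (.lf 0x5000002)⟩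

/-- Table. -/
def f538 : Fc := ⟨3, [400, 201], 6, .nd (.lf 0xdaf26b) (.lf 0x10000daf26b)⟩

/-- Table. -/
def f539 : Fc := ⟨3, [400, 203], 6, .nd (.lf 0x4daf26b) (.lf 0x10004daf26b)⟩

/-- Table. -/
def f540 : Fc := ⟨3, [400, 401], 3, .nd (.lf 0x1daf26b) (.lf 0xdaf26a0000000002)⟩

/-- Table. -/
def f541 : Fc := ⟨3, [400, 0], 10, .nd (.lf 0xdaf26b) (.lf 0x10000daf26b)⟩

/-- Table. -/
def f542 : Fc := ⟨3, [401, 400], 3, .nd (.lf 0x10000daf26b) (.lf 0xdaf26b)⟩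

/-- Table. -/
def f543 : Fc := ⟨3, [401, 400, 401], 3, .lf 0xdaf26a0000000002⟩

/-- Table. -/
def f544 : Fc := ⟨3, [401, 0], 10, .nd (.lf 0x1000002) (.lf 2)⟩

/-- Table. -/
def f545 : Fc := ⟨9, [223, 401], 13, .nd (.nd (.lf 0x3000002) (.lf 0xa000002)) (.lf 0x40000010002daf26b)⟩

/-- Table. -/
def f546 : Fc := ⟨9, [223, 401, 400], 13, .nd (.nd (.lf 0x6000002) (.lf 0x8000002)) (.lf 0x7000002)⟩

/-- Table. -/
def f547 : Fc := ⟨9, [223, 401, 400, 402], 13, .nd (.lf 0) (.lf 0x4000002)⟩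

/-- Table. -/
def f548 : Fc := ⟨9, [223, 401, 400, 402, 401], 13, .nd (.lf 0) (.lf 0x1000002)⟩

/-- Table. -/
def f549 : Fc := ⟨9, [400, 201], 13, .nd (.nd (.lf 0xdaf26b) (.lf 0x1000002)) (.lf 0x2000002)⟩

/-- Table. -/
def f550 : Fc := ⟨9, [400, 203], 13, .nd (.nd (.lf 0x6daf26b) (.lf 0x7000002)) (.lf 0x8000002)⟩

/-- Table. -/
def f551 : Fc := ⟨9, [400, 500], 18, .lf 0x40000010003daf26b⟩

/-- Table. -/
def f552 : Fc := ⟨9, [400, 502], 18, .nd (.nd (.lf 0) (.lf 0x6000002)) (.lf 0x7000002)⟩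

/-- Table. -/
def f553 : Fc := ⟨9, [400, 401], 9, .nd (.nd (.lf 0x1daf26b) (.lf 2)) (.lf 0x2daf26b)⟩

/-- Table. -/
def f554 : Fc := ⟨9, [400, 401, 400], 9, .lf 0x2daf26b⟩

/-- Table. -/
def f555 : Fc := ⟨9, [400, 0], 17, .nd (.nd (.lf 0xdaf26b) (.lf 0x1000002)) (.lf 0x2000002)⟩

/-- Table. -/
def f556 : Fc := ⟨9, [401, 501], 18, .nd (.nd (.lf 0) (.lf 0x10000010005daf26b)) (.lf 0x8000002)⟩

/-- Table. -/
def f557 : Fc := ⟨9, [401, 502], 18, .lf 0x6000002⟩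

/-- Table. -/
def f558 : Fc := ⟨9, [401, 400], 9, .nd (.nd (.lf 0x2000002) (.lf 0x1daf26b)) (.lf 0xdaf26b)⟩

/-- Table. -/
def f559 : Fc := ⟨9, [401, 400, 300], 11, .nd (.lf 0) (.lf 0x1daf26b)⟩

/-- Table. -/
def f560 : Fc := ⟨9, [401, 400, 401], 9, .nd (.nd (.lf 0x2daf26b) (.lf 0xdaf26b)) (.lf 0)⟩

/-- Table. -/
def f561 : Fc := ⟨9, [401, 0], 17, .nd (.nd (.lf 0x1000002) (.lf 0x2daf26b)) (.lf 2)⟩

/-- Table. -/
def f562 : Fc := ⟨10, [223, 401], 14, .nd (.nd (.lf 0x3daf26b) (.lf 0xa000002)) (.lf 0)⟩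

/-- Table. -/
def f563 : Fc := ⟨10, [223, 401, 400], 14, .nd (.nd (.lf 0) (.lf 0x8000002)) (.lf 0)⟩

/-- Table. -/
def f564 : Fc := ⟨10, [400, 201], 14, .nd (.nd (.lf 0xdaf26b) (.lf 0x100000100006d7937)) (.lf 0)⟩

/-- Table. -/
def f565 : Fc := ⟨10, [400, 203], 14, .nd (.nd (.lf 0x6daf26b) (.lf 0x100000100066d7937)) (.lf 0x10006daf26b)⟩

/-- Table. -/
def f566 : Fc := ⟨10, [400, 223], 14, .nd (.nd (.lf 0) (.lf 0xa00000100006d7936)) (.lf 0)⟩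

/-- Table. -/
def f567 : Fc := ⟨10, [400, 401], 10, .nd (.nd (.lf 0x1daf26b) (.lf 0x100016d7937)) (.lf 0)⟩

/-- Table. -/
def f568 : Fc := ⟨10, [400, 401, 400], 10, .nd (.nd (.lf 0) (.lf 0x100016d7937)) (.lf 0)⟩

/-- Table. -/
def f569 : Fc := ⟨10, [400, 0], 18, .nd (.nd (.lf 0xdaf26b) (.lf 0x100000100006d7937)) (.lf 0x10000daf26b)⟩

/-- Table. -/
def f570 : Fc := ⟨10, [401, 400], 10, .nd (.nd (.lf 0x10000daf26b) (.lf 0x100000100006d7937)) (.lf 0)⟩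

/-- Table. -/
def f571 : Fc := ⟨10, [401, 400, 401], 10, .lf 0xdaf26a0000000002⟩

/-- Table. -/
def f572 : Fc := ⟨10, [401, 0], 18, .nd (.nd (.lf 0x1000002) (.lf 0x2000002)) (.lf 2)⟩

/-- Table. -/
def f573 : Fc := ⟨17, [223, 401], 21, .nd (.nd (.nd (.lf 0x6000002) (.lf 0xa0000010005daf26b)) (.lf 0)) (.nd (.nd (.lf 0xa0000010002daf26b) (.lf 0x15000002)) (.lf 0x9000002))⟩

/-- Table. -/
def f574 : Fc := ⟨17, [223, 401, 400], 21, .nd (.nd (.nd (.lf 0xc000002) (.lf 0x10000002)) (.lf 0)) (.nd (.nd (.lf 0xd000002) (.lf 0x11000002)) (.lf 0xf000002))⟩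

/-- Table. -/
def f575 : Fc := ⟨17, [223, 401, 400, 402], 21, .nd (.nd (.nd (.lf 0) (.lf 0xa000002)) (.lf 0)) (.lf 0)⟩

/-- Table. -/
def f576 : Fc := ⟨17, [223, 401, 400, 402, 401], 21, .nd (.nd (.nd (.lf 0) (.lf 0x4000002)) (.lf 0)) (.lf 0)⟩

/-- Table. -/
def f577 : Fc := ⟨17, [400, 201], 21, .nd (.nd (.nd (.lf 0xdaf26b) (.lf 0x5000002)) (.lf 0x1000002)) (.nd (.nd (.lf 0x2000002) (.lf 0x4000002)) (.lf 0x3daf26b))⟩

/-- Table. -/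
def f578 : Fc := ⟨17, [400, 203], 21, .nd (.nd (.nd (.lf 0xcdaf26b) (.lf 0x11000002)) (.lf 0xd000002)) (.nd (.nd (.lf 0xe000002) (.lf 0x10000002)) (.lf 0xfdaf26b))⟩

/-- Table. -/
def f579 : Fc := ⟨17, [400, 500], 26, .nd (.lf 0) (.nd (.lf 0) (.lf 0x60000010008daf26b))⟩

/-- Table. -/
def f580 : Fc := ⟨17, [400, 502], 26, .nd (.nd (.nd (.lf 0) (.lf 0xe000002)) (.lf 0)) (.nd (.nd (.lf 0) (.lf 0xd000002)) (.lf 0))⟩

/-- Table. -/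
def f581 : Fc := ⟨17, [400, 401], 17, .nd (.nd (.nd (.lf 0x1daf26b) (.lf 0x5daf26b)) (.lf 2)) (.nd (.nd (.lf 0x2daf26b) (.lf 0x3000002)) (.lf 0x4daf26b))⟩

/-- Table. -/
def f582 : Fc := ⟨17, [400, 401, 400], 17, .nd (.lf 0x2daf26b) (.nd (.lf 0) (.lf 0x5daf26b))⟩

/-- Table. -/
def f583 : Fc := ⟨17, [400, 0], 25, .nd (.nd (.nd (.lf 0xdaf26b) (.lf 0x5000002)) (.lf 0x1000002)) (.nd (.nd (.lf 0x2000002) (.lf 0x4000002)) (.lf 0x3daf26b))⟩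

/-- Table. -/
def f584 : Fc := ⟨17, [401, 501], 26, .nd (.nd (.nd (.lf 0) (.lf 0xf000002)) (.lf 0)) (.nd (.nd (.lf 0) (.lf 0x1000001000cdaf26b)) (.lf 0))⟩

/-- Table. -/
def f585 : Fc := ⟨17, [401, 502], 26, .nd (.lf 0) (.nd (.lf 0) (.lf 0xd000002))⟩

/-- Table. -/
def f586 : Fc := ⟨17, [401, 400], 17, .nd (.nd (.nd (.lf 0x2000002) (.lf 0x3daf26b)) (.lf 0x1daf26b)) (.nd (.nd (.lf 0xdaf26b) (.lf 0x4daf26b)) (.lf 0x5000002))⟩

/-- Table. -/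
def f587 : Fc := ⟨17, [401, 400, 300], 19, .nd (.nd (.nd (.lf 0) (.lf 0x3daf26b)) (.lf 0)) (.lf 0)⟩

/-- Table. -/
def f588 : Fc := ⟨17, [401, 400, 401], 17, .nd (.nd (.lf 0x2daf26b) (.lf 0xdaf26b)) (.nd (.nd (.lf 0) (.lf 0x3daf26b)) (.lf 0x5daf26b))⟩

/-- Table. -/
def f589 : Fc := ⟨17, [401, 0], 25, .nd (.nd (.nd (.lf 0x1000002) (.lf 0x3000002)) (.lf 0x2daf26b)) (.nd (.nd (.lf 2) (.lf 0x5daf26b)) (.lf 0x4000002))⟩

/-- Table. -/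
def f590 : Fc := ⟨18, [223, 401], 22, .nd (.nd (.nd (.nd (.lf 0x9daf26b) (.lf 0x23000002)) (.lf 0x100000010005daf26b)) (.nd (.lf 0x20000002) (.lf 0x21000002))) (.nd (.lf 0) (.nd (.lf 0xcdaf26b) (.lf 0x22000002)))⟩

/-- Table. -/
def f591 : Fc := ⟨18, [223, 401, 400], 22, .nd (.nd (.nd (.nd (.lf 0x12000002) (.lf 0x1a000002)) (.lf 0x16000002)) (.nd (.lf 0x14000002) (.lf 0x18000002))) (.nd (.lf 0) (.nd (.lf 0x15000002) (.lf 0x19000002)))⟩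

/-- Table. -/
def f592 : Fc := ⟨18, [223, 401, 400, 402], 22, .nd (.nd (.nd (.lf 0x9000002) (.lf 0xd000002)) (.nd (.lf 0) (.lf 0xf000002))) (.lf 0)⟩

/-- Table. -/
def f593 : Fc := ⟨18, [223, 401, 400, 402, 401], 22, .nd (.nd (.nd (.lf 2) (.lf 0x4000002)) (.nd (.lf 0) (.lf 0x6000002))) (.lf 0)⟩

/-- Table. -/
def f594 : Fc := ⟨18, [400, 201], 22, .nd (.nd (.nd (.nd (.lf 0xdaf26b) (.lf 0x40000010003daf26b)) (.lf 0x5000002)) (.nd (.lf 0x100000100006d7937) (.lf 0x7000002))) (.nd (.nd (.lf 0) (.lf 0x4000002)) (.nd (.lf 0x3daf26b) (.lf 0x6000002)))⟩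

/-- Table. -/
def f595 : Fc := ⟨18, [400, 203], 22, .nd (.nd (.nd (.nd (.lf 0x12daf26b) (.lf 0x40000010015daf26b)) (.lf 0x17000002)) (.nd (.lf 0x100000100126d7937) (.lf 0x19000002))) (.nd (.nd (.lf 0x10012daf26b) (.lf 0x16000002)) (.nd (.lf 0x15daf26b) (.lf 0x18000002)))⟩

/-- Table. -/
def f596 : Fc := ⟨18, [400, 223], 22, .nd (.nd (.nd (.nd (.lf 0) (.lf 0x220000010003000002)) (.lf 0)) (.nd (.lf 0x2300000100006d7936) (.lf 0x200000100000000010002daf26a00000000020000daf2690002daf26900000000020000daf2690000daf269000500000200000000010001daf26a00050000020000daf26a00010000010004daf26a))) (.lf 0)⟩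

/-- Table. -/
def f597 : Fc := ⟨18, [400, 502], 25, .nd (.nd (.nd (.lf 0) (.lf 0xd000002)) (.nd (.lf 0) (.lf 0xdaf26a000000000200000000020000daf2690000daf26a0000daf2690002daf26a00000000010004000002))) (.nd (.nd (.lf 0) (.lf 0xc000002)) (.lf 0))⟩

/-- Table. -/
def f598 : Fc := ⟨18, [400, 401], 18, .nd (.nd (.nd (.nd (.lf 0x1daf26b) (.lf 0x10000010004daf26b)) (.lf 0x5daf26b)) (.nd (.lf 0x100016d7937) (.lf 0x10000010005daf26b))) (.nd (.nd (.lf 0) (.lf 0x3000002)) (.nd (.lf 0x4daf26b) (.lf 0x8000002)))⟩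

/-- Table. -/
def f599 : Fc := ⟨18, [400, 401, 400], 18, .nd (.nd (.lf 0) (.lf 0x100016d7937)) (.nd (.lf 0) (.nd (.lf 0x5daf26b) (.lf 0x40000010003daf26b)))⟩

/-- Table. -/
def f600 : Fc := ⟨18, [400, 0], 26, .nd (.nd (.nd (.nd (.lf 0xdaf26b) (.lf 0x30000010003daf26b)) (.lf 0x10000060001daf265000300000600000000010003daf26b)) (.nd (.lf 0x100000100006d7937) (.lf 0x6000002))) (.nd (.lf 0x10000daf26b) (.nd (.lf 0x3daf26b) (.lf 0x5000002)))⟩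

/-- Table. -/
def f601 : Fc := ⟨18, [401, 501], 25, .nd (.nd (.nd (.lf 0) (.lf 0xdaf26a0001daf26a00016d793600016d793600066d7937)) (.nd (.lf 0) (.lf 0x4daf26a00016d793400026d79340000a435d10003a435d2))) (.nd (.nd (.lf 0) (.lf 0x2000001000adaf26b)) (.lf 0))⟩

/-- Table. -/
def f602 : Fc := ⟨18, [401, 400], 18, .nd (.nd (.nd (.nd (.lf 0x10000daf26b) (.lf 0x7000002)) (.lf 0x3daf26b)) (.nd (.lf 0x100000100006d7937) (.lf 0x40000010003daf26b))) (.nd (.nd (.lf 0) (.lf 0x4daf26b)) (.nd (.lf 0x5000002) (.lf 0x10000010004daf26b)))⟩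

/-- Table. -/
def f603 : Fc := ⟨18, [401, 400, 300], 20, .nd (.nd (.nd (.lf 0xdaf26b) (.lf 0x3daf26b)) (.nd (.lf 0) (.lf 0x2daf26b))) (.lf 0)⟩

/-- Table. -/
def f604 : Fc := ⟨18, [401, 400, 401], 18, .nd (.lf 0xdaf26a0000000002) (.nd (.nd (.lf 0) (.lf 0x3daf26b)) (.lf 0x5daf26b))⟩

/-- Table. -/
def f605 : Fc := ⟨18, [401, 0], 26, .nd (.nd (.nd (.nd (.lf 0x1000002) (.lf 0x5000002)) (.lf 0x3000002)) (.nd (.lf 0x2000002) (.lf 0x7000002))) (.nd (.lf 2) (.nd (.lf 0x4000002) (.lf 0x1daf26500010000060001daf26500010000010000daf26a0003000002)))⟩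

/-- Table. -/
def f606 : Fc := ⟨25, [223, 401], 29, .nd (.nd (.nd (.nd (.lf 0xf000002) (.lf 0x1b000001000adaf26b)) (.nd (.lf 0x1c0000010005daf26b) (.lf 0x38000002))) (.nd (.nd (.lf 0) (.lf 0x36000002)) (.nd (.lf 0x15000002) (.lf 0x3a000002)))) (.nd (.nd (.nd (.lf 0x1c0000010002daf26b) (.lf 0x1b000001000bdaf26b)) (.nd (.lf 0) (.lf 0x39000002))) (.nd (.nd (.lf 0x12000002) (.lf 0x37000002)) (.lf 0x16000002)))⟩

/-- Table. -/
def f607 : Fc := ⟨25, [223, 401, 400], 29, .nd (.nd (.nd (.nd (.lf 0x1e000002) (.lf 0x26000002)) (.nd (.lf 0x22000002) (.lf 0x2a000002))) (.nd (.lf 0) (.nd (.lf 0x24000002) (.lf 0x2c000002)))) (.nd (.nd (.nd (.lf 0x1f000002) (.lf 0x27000002)) (.nd (.lf 0) (.lf 0x2b000002))) (.nd (.nd (.lf 0x21000002) (.lf 0x29000002)) (.lf 0x25000002)))⟩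

/-- Table. -/
def f608 : Fc := ⟨25, [223, 401, 400, 402], 29, .nd (.nd (.nd (.nd (.lf 0) (.lf 0x17000002)) (.nd (.lf 0) (.lf 0x1b000002))) (.nd (.lf 0) (.nd (.lf 0) (.lf 0x1d000002)))) (.nd (.nd (.nd (.lf 0) (.lf 0x18000002)) (.lf 0)) (.lf 0))⟩

/-- Table. -/
def f609 : Fc := ⟨25, [223, 401, 400, 402, 401], 29, .nd (.nd (.nd (.nd (.lf 0) (.lf 0x8000002)) (.nd (.lf 0) (.lf 0xc000002))) (.nd (.lf 0) (.nd (.lf 0) (.lf 0xe000002)))) (.nd (.nd (.nd (.lf 0) (.lf 0x9000002)) (.lf 0)) (.lf 0))⟩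

/-- Table. -/
def f610 : Fc := ⟨25, [400, 201], 29, .nd (.nd (.nd (.nd (.lf 0xdaf26b) (.lf 0xa000002)) (.nd (.lf 0x5000002) (.lf 0xd000002))) (.nd (.nd (.lf 0x1000002) (.lf 0x8000002)) (.nd (.lf 0x6daf26b) (.lf 0xdaf26a000000000200000000020000daf2690000daf26a0000daf2690002daf26a00000000010004000002)))) (.nd (.nd (.nd (.lf 0x2000002) (.lf 0xb000002)) (.nd (.lf 0x4000002) (.lf 0xc000002))) (.nd (.nd (.lf 0x3daf26b) (.lf 0x9000002)) (.lf 0x7daf26b)))⟩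

/-- Table. -/
def f611 : Fc := ⟨25, [400, 203], 29, .nd (.nd (.nd (.nd (.lf 0x1edaf26b) (.lf 0x28000002)) (.nd (.lf 0x23000002) (.lf 0x2b000002))) (.nd (.nd (.lf 0x1f000002) (.lf 0x26000002)) (.nd (.lf 0x24daf26b) (.lf 0xdaf26a000000000200000000020000daf2690000daf26a0000daf2690002daf26a00000000010022000002)))) (.nd (.nd (.nd (.lf 0x20000002) (.lf 0x29000002)) (.nd (.lf 0x22000002) (.lf 0x2a000002))) (.nd (.nd (.lf 0x21daf26b) (.lf 0x27000002)) (.lf 0x25daf26b)))⟩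

/-- Table. -/
def f612 : Fc := ⟨25, [400, 223], 29, .nd (.nd (.nd (.lf 0) (.nd (.lf 0) (.lf 0x3c000002))) (.nd (.lf 0) (.nd (.lf 0) (.lf 0xdaf26a000000000200030000020000daf2690000daf26a0004000001000000000200000000010004daf26a0000daf2690004daf26a0008000001000000000200040000010014daf26b)))) (.nd (.nd (.lf 0) (.nd (.lf 0) (.lf 0x3b000002))) (.lf 0))⟩

/-- Table. -/
def f613 : Fc := ⟨25, [400, 500], 34, .nd (.lf 0) (.nd (.lf 0) (.nd (.lf 0) (.lf 0x60000010010daf26b)))⟩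

/-- Table. -/
def f614 : Fc := ⟨25, [400, 502], 34, .nd (.lf 0) (.nd (.nd (.nd (.lf 0) (.lf 0x16000002)) (.lf 0)) (.nd (.nd (.lf 0) (.lf 0x15000002)) (.lf 0)))⟩

/-- Table. -/
def f615 : Fc := ⟨25, [400, 401], 25, .nd (.nd (.nd (.nd (.lf 0x1daf26b) (.lf 0xadaf26b)) (.nd (.lf 0x5daf26b) (.lf 0x2000001000adaf26b))) (.nd (.nd (.lf 2) (.lf 0x6000002)) (.nd (.lf 0x8daf26b) (.lf 0x10000010000daf269000100000200006d7937000000000100016d79350000daf26a000036bc9a000336bc9c)))) (.nd (.nd (.nd (.lf 0x2daf26b) (.lf 0xbdaf26b)) (.lf 0x3000002)) (.nd (.nd (.lf 0x4daf26b) (.lf 0x7000002)) (.lf 0x9daf26b)))⟩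

/-- Table. -/
def f616 : Fc := ⟨25, [400, 401, 400], 25, .nd (.nd (.lf 0x2daf26b) (.nd (.lf 0) (.lf 0xadaf26b))) (.nd (.lf 0) (.nd (.nd (.lf 0x5daf26b) (.lf 0x7daf26b)) (.lf 0xbdaf26b)))⟩

/-- Table. -/
def f617 : Fc := ⟨25, [400, 0], 33, .nd (.nd (.nd (.nd (.lf 0xdaf26b) (.lf 0xa000002)) (.nd (.lf 0x5000002) (.lf 0x6000bdaf2650001daf26500050000010006000002))) (.nd (.nd (.lf 0) (.lf 0x8000002)) (.nd (.lf 0x6daf26b) (.lf 0xc000bdaf25f0000daf25f0000daf26a00000000040000daf2690000daf26a0000daf2690001daf26a000000000200000000010004000002)))) (.nd (.nd (.nd (.lf 0x2000002) (.lf 0xb000002)) (.lf 0x4000002)) (.nd (.nd (.lf 0x3daf26b) (.lf 0x9000002)) (.lf 0x7daf26b)))⟩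

/-- Table. -/
def f618 : Fc := ⟨25, [401, 501], 34, .nd (.lf 0) (.nd (.nd (.nd (.lf 0) (.lf 0x17000002)) (.lf 0)) (.nd (.nd (.lf 0) (.lf 0x10000010014daf26b)) (.lf 0)))⟩

/-- Table. -/
def f619 : Fc := ⟨25, [401, 502], 34, .nd (.lf 0) (.nd (.lf 0) (.nd (.lf 0) (.lf 0x15000002)))⟩

/-- Table. -/
def f620 : Fc := ⟨25, [401, 400], 25, .nd (.nd (.nd (.nd (.lf 0x2000002) (.lf 0x6daf26b)) (.nd (.lf 0x3daf26b) (.lf 0xdaf26a0001daf26a00016d793600016d793600066d7936))) (.nd (.nd (.lf 0x1daf26b) (.lf 0x8daf26b)) (.nd (.lf 0xa000002) (.lf 0x10000daf2690000daf26900006d793600000000010000000002000000000100016d79370000a435d00000daf26a000336bc9b)))) (.nd (.nd (.nd (.lf 0xdaf26b) (.lf 0x7daf26b)) (.nd (.lf 0x4daf26b) (.lf 0x30000010008daf26b))) (.nd (.nd (.lf 0x5000002) (.lf 0x9daf26b)) (.lf 0xb000002)))⟩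

/-- Table. -/
def f621 : Fc := ⟨25, [401, 400, 300], 27, .nd (.nd (.nd (.nd (.lf 0) (.lf 0x6daf26b)) (.nd (.lf 0) (.lf 0x5daf26b))) (.nd (.lf 0) (.nd (.lf 0) (.lf 0x4daf26b)))) (.nd (.nd (.nd (.lf 0) (.lf 0x7daf26b)) (.lf 0)) (.lf 0))⟩

/-- Table. -/
def f622 : Fc := ⟨25, [401, 400, 401], 25, .nd (.nd (.lf 0x2daf26b) (.nd (.nd (.lf 0xdaf26b) (.lf 0x6daf26b)) (.lf 0xadaf26b))) (.nd (.nd (.lf 0) (.lf 0x3daf26b)) (.nd (.nd (.lf 0x5daf26b) (.lf 0x7daf26b)) (.lf 0xbdaf26b)))⟩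

/-- Table. -/
def f623 : Fc := ⟨25, [401, 0], 33, .nd (.nd (.nd (.nd (.lf 0x1000002) (.lf 0x6000002)) (.nd (.lf 0x3000002) (.lf 0xdaf265000b00000600010000060001daf26900016d793600016d793600066d7936))) (.nd (.nd (.lf 0x2daf26b) (.lf 0xadaf26b)) (.nd (.lf 0x8000002) (.lf 0x3daf26a00016d793400026d79340000a435d10003a435d2)))) (.nd (.nd (.nd (.lf 0) (.lf 0x7000002)) (.lf 0x5daf26b)) (.nd (.nd (.lf 0x4000002) (.lf 0xbdaf26b)) (.lf 0x9000002)))⟩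

/-- Table. -/
def f624 : Fc := ⟨26, [223, 401], 30, .nd (.nd (.nd (.nd (.nd (.lf 0x12daf26b) (.lf 0x47000002)) (.lf 0x1adaf26b)) (.lf 0x1b0000010001daf26500010000060003daf2650000daf26a0003000002)) (.nd (.nd (.lf 0x40000002) (.lf 0x21000001000cdaf26b)) (.nd (.lf 0x42000002) (.lf 0x45000002)))) (.nd (.nd (.nd (.nd (.lf 0) (.lf 0x48000002)) (.lf 0x1bdaf26b)) (.nd (.lf 0x41000002) (.lf 0x44000002))) (.nd (.nd (.lf 0x15daf26b) (.lf 0x230000010001daf26a0009000002)) (.nd (.lf 0x43000002) (.lf 0x46000002))))⟩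

/-- Table. -/
def f625 : Fc := ⟨26, [223, 401, 400], 30, .nd (.nd (.nd (.nd (.nd (.lf 0) (.lf 0x34000002)) (.lf 0x2c000002)) (.lf 0x28000002)) (.nd (.nd (.lf 0x26000002) (.lf 0x2e000002)) (.nd (.lf 0x2a000002) (.lf 0x32000002)))) (.nd (.nd (.nd (.nd (.lf 0) (.lf 0x35000002)) (.lf 0x2d000002)) (.nd (.lf 0x29000002) (.lf 0x31000002))) (.nd (.nd (.lf 0x27000002) (.lf 0x2f000002)) (.nd (.lf 0x2b000002) (.lf 0x33000002))))⟩

/-- Table. -/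
def f626 : Fc := ⟨26, [223, 401, 400, 402], 30, .nd (.nd (.nd (.lf 0) (.lf 0x16000002)) (.nd (.nd (.lf 0) (.lf 0x1c000002)) (.lf 0))) (.nd (.nd (.lf 0) (.nd (.lf 0) (.lf 0x1f000002))) (.lf 0x15000002))⟩

/-- Table. -/
def f627 : Fc := ⟨26, [223, 401, 400, 402, 401], 30, .nd (.nd (.nd (.lf 0) (.lf 0x4000002)) (.nd (.nd (.lf 0) (.lf 0xa000002)) (.lf 0))) (.nd (.nd (.lf 0) (.nd (.lf 0) (.lf 0xd000002))) (.lf 0x3000002))⟩

/-- Table. -/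
def f628 : Fc := ⟨26, [400, 201], 30, .nd (.nd (.nd (.nd (.nd (.lf 0xdaf26b) (.lf 0x60000010009000002)) (.lf 0x8daf26b)) (.nd (.lf 0) (.lf 0xa000002))) (.nd (.nd (.lf 0x100000100006d7937) (.lf 0xc000002)) (.nd (.lf 0x5000002) (.lf 0xd000002)))) (.nd (.nd (.nd (.nd (.lf 0x10000daf26b) (.lf 0xd00000100036d7936)) (.lf 0x9daf26b)) (.nd (.lf 0x6000002) (.lf 0xe000002))) (.nd (.nd (.lf 0x3daf26b) (.lf 0x10000010009daf26b)) (.nd (.lf 0x30000010003daf26b) (.lf 0x60000010008daf26b))))⟩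

/-- Table. -/
def f629 : Fc := ⟨26, [400, 203], 30, .nd (.nd (.nd (.nd (.nd (.lf 0x24daf26b) (.lf 0x6000001002d000002)) (.lf 0x2cdaf26b)) (.nd (.lf 0x10000060001daf265000300000600000000010027daf26b) (.lf 0x2e000002))) (.nd (.nd (.lf 0x100000100246d7937) (.lf 0x30000002)) (.nd (.lf 0x29000002) (.lf 0x31000002)))) (.nd (.nd (.nd (.nd (.lf 0x10024daf26b) (.lf 0xd00000100276d7936)) (.lf 0x2ddaf26b)) (.nd (.lf 0x2a000002) (.lf 0x32000002))) (.nd (.nd (.lf 0x27daf26b) (.lf 0x1000001002ddaf26b)) (.nd (.lf 0) (.lf 0x6000001002cdaf26b))))⟩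

/-- Table. -/
def f630 : Fc := ⟨26, [400, 223], 30, .nd (.nd (.nd (.nd (.nd (.lf 0) (.lf 0x450000010009daf26b)) (.lf 0)) (.lf 0)) (.nd (.lf 0x4800000100006d7936) (.nd (.lf 0) (.lf 0x4c000002)))) (.nd (.nd (.nd (.nd (.lf 0) (.lf 0x4c00000100036d7937)) (.lf 0)) (.nd (.lf 0x700000100000000010006daf26a0001daf25f00000000020006daf2690001daf25f000300000c0000000002000cdaf269000300000c0000000001000cdaf26a0003daf25f0000daf26a0005000002) (.lf 0x4d000002))) (.nd (.lf 0) (.nd (.lf 0) (.lf 0x450000010008000002))))⟩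

/-- Table. -/
def f631 : Fc := ⟨26, [400, 500], 33, .nd (.lf 0) (.nd (.lf 0) (.nd (.lf 0) (.nd (.lf 0) (.lf 0x2daf26a0000daf269000000000400026d79360000daf26900026d79360003daf26900010000030000daf26a0000a435d000006d79360000a435d000016d793600066d7936))))⟩

/-- Table. -/
def f632 : Fc := ⟨26, [400, 502], 33, .nd (.nd (.nd (.lf 0) (.nd (.lf 0) (.lf 0x1a000002))) (.nd (.nd (.lf 0) (.lf 0x1b000002)) (.nd (.lf 0) (.lf 0x1c000002)))) (.nd (.nd (.lf 0) (.nd (.lf 0) (.lf 0x1d000002))) (.lf 0))⟩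

/-- Table. -/
def f633 : Fc := ⟨26, [400, 401], 26, .nd (.nd (.nd (.nd (.nd (.lf 0x1daf26b) (.lf 0x4000001000b000002)) (.lf 0xadaf26b)) (.nd (.lf 0) (.lf 0x8000002))) (.nd (.nd (.lf 0x100016d7937) (.lf 0xcdaf26b)) (.nd (.lf 0x7000002) (.lf 0xf000002)))) (.nd (.nd (.nd (.nd (.lf 0) (.lf 0x100000100016d793600006d793500006d79370000daf26a00006d7935000000000100006d79360001daf26a000000000100046d7936)) (.lf 0xbdaf26b)) (.nd (.lf 0) (.lf 0x1000001000cdaf26b))) (.nd (.nd (.lf 0) (.lf 0x1daf26a0009000002)) (.nd (.lf 0x10004daf26b) (.lf 0x2000001000adaf26b))))⟩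

/-- Table. -/
def f634 : Fc := ⟨26, [400, 401, 400], 26, .nd (.nd (.nd (.nd (.lf 0) (.lf 0xcdaf26b)) (.lf 0)) (.nd (.lf 0) (.nd (.lf 0) (.lf 0x60000010008daf26b)))) (.nd (.lf 0) (.nd (.lf 0) (.nd (.lf 0) (.lf 0x1000001000cdaf26b))))⟩

/-- Table. -/
def f635 : Fc := ⟨26, [400, 0], 34, .nd (.nd (.nd (.nd (.lf 0) (.lf 0x8daf26b)) (.nd (.lf 0x60000daf265000300000600000000010003daf26b) (.lf 0x9000002))) (.nd (.nd (.lf 0) (.lf 0xa000002)) (.nd (.lf 0x5000002) (.lf 0xb000002)))) (.nd (.nd (.nd (.nd (.lf 0) (.lf 0xb00000100036d7936)) (.lf 0)) (.nd (.lf 0x6000002) (.lf 0xc000002))) (.nd (.lf 0x3daf26b) (.nd (.lf 0x30000010003daf26b) (.lf 0x40000010008daf26b))))⟩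

/-- Table. -/
def f636 : Fc := ⟨26, [401, 501], 33, .nd (.nd (.nd (.lf 0) (.nd (.lf 0) (.lf 0x40000010016daf26b))) (.nd (.nd (.lf 0) (.lf 0xdaf26a00030000020003daf26a0003daf26a000100000200016d7935000136bc9b000136bc9b0006a435d1)) (.nd (.lf 0) (.lf 0x1daf26a00040000020000daf26a00036d793500076d7935000136bc9b000736bc9c)))) (.nd (.nd (.lf 0) (.nd (.lf 0) (.lf 0x1e000002))) (.lf 0))⟩

/-- Table. -/
def f637 : Fc := ⟨26, [401, 502], 33, .nd (.lf 0) (.nd (.lf 0) (.nd (.lf 0) (.nd (.lf 0) (.lf 0x1c000002))))⟩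

/-- Table. -/
def f638 : Fc := ⟨26, [401, 400], 26, .nd (.nd (.nd (.nd (.nd (.lf 0x10000daf26b) (.lf 0x60000010009000002)) (.lf 0xc000002)) (.nd (.lf 0x3daf26b) (.lf 0xadaf26b))) (.nd (.nd (.lf 0x100000100006d7937) (.lf 0x8daf26b)) (.nd (.lf 0x10004daf26b) (.lf 0x2000001000adaf26b)))) (.nd (.nd (.nd (.nd (.lf 0) (.lf 0x100000100006d793600016d793500006d79350000daf26a00016d79370000daf26a0000daf26a000200000100036d7937)) (.lf 0x10000010009daf26b)) (.nd (.lf 0x30000010003daf26b) (.lf 0x60000010008daf26b))) (.nd (.nd (.lf 0x10000060001daf265000300000600000000010003daf26b) (.lf 0x9daf26b)) (.nd (.lf 0x6000002) (.lf 0xe000002))))⟩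

/-- Table. -/
def f639 : Fc := ⟨26, [401, 400, 300], 28, .nd (.nd (.nd (.lf 0) (.lf 0x1daf265000000000300016d7936)) (.nd (.nd (.lf 0) (.lf 0x4daf26b)) (.lf 0))) (.nd (.nd (.lf 0) (.nd (.lf 0) (.lf 0x3daf26b))) (.lf 0x1daf26b))⟩

/-- Table. -/
def f640 : Fc := ⟨26, [401, 400, 401], 26, .nd (.nd (.nd (.nd (.lf 0xdaf26a0000000002) (.lf 0xcdaf26b)) (.nd (.lf 0) (.lf 0x8daf26b))) (.nd (.lf 0) (.lf 0x30000010003daf26b))) (.nd (.nd (.nd (.lf 0) (.lf 0x1daf26a0009000002)) (.lf 0)) (.lf 0))⟩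

/-- Table. -/
def f641 : Fc := ⟨26, [401, 0], 34, .nd (.nd (.nd (.nd (.nd (.lf 0) (.lf 0xe000002)) (.lf 0x9000002)) (.nd (.lf 0x3000002) (.lf 0xadaf26b))) (.nd (.nd (.lf 0) (.lf 0x8000002)) (.nd (.lf 0xdaf26500000000060001daf26500010000010000daf26a0003000002) (.lf 0x1000001000adaf26b)))) (.nd (.nd (.lf 0) (.nd (.lf 0x7000002) (.lf 0xd000002))) (.nd (.lf 0x4000002) (.nd (.lf 0x5000002) (.lf 0xb000002))))⟩

/-- Table. -/
def f642 : Fc := ⟨33, [223, 401], 37, .nd (.nd (.nd (.nd (.nd (.lf 0x1f000002) (.lf 0x2f000002)) (.nd (.lf 0x3b000001000adaf26b) (.lf 0x74000002))) (.nd (.nd (.lf 0x3c0000010005daf26b) (.lf 0x390000010018daf26b)) (.nd (.lf 0x70000002) (.lf 0x78000002)))) (.nd (.nd (.nd (.lf 0) (.lf 0x390000010016daf26b)) (.nd (.lf 0) (.lf 0x76000002))) (.nd (.lf 0x25000002) (.nd (.lf 0x2d000002) (.lf 0x7a000002))))) (.nd (.nd (.nd (.nd (.lf 0) (.lf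 0x30000002)) (.nd (.lf 0x3b000001000bdaf26b) (.lf 0x75000002))) (.nd (.nd (.lf 0) (.lf 0x390000010019daf26b)) (.nd (.lf 0x71000002) (.lf 0x79000002)))) (.nd (.nd (.nd (.lf 0x22000002) (.lf 0x390000010017daf26b)) (.nd (.lf 0) (.lf 0x77000002))) (.nd (.nd (.lf 0x26000002) (.lf 0x73000002)) (.lf 0x2e000002))))⟩

/-- Table. -/
def f643 : Fc := ⟨33, [223, 401, 400], 37, .nd (.nd (.nd (.nd (.nd (.lf 0x3e000002) (.lf 0x4e000002)) (.nd (.lf 0x46000002) (.lf 0x56000002))) (.nd (.nd (.lf 0x42000002) (.lf 0x52000002)) (.nd (.lf 0) (.lf 0x5a000002)))) (.nd (.nd (.nd (.lf 0) (.lf 0x50000002)) (.nd (.lf 0) (.lf 0x58000002))) (.nd (.lf 0x44000002) (.nd (.lf 0x4c000002) (.lf 0x5c000002))))) (.nd (.nd (.nd (.nd (.lf 0) (.lf 0x4f000002)) (.nd (.lf 0x47000002) (.lf 0x57000002))) (.nd (.nd (.lf 0) (.lf 0x53000002)) (.nd (.lf 0x4b000002) (.lf 0x5b000002)))) (.nd (.nd (.nd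 (.lf 0x41000002) (.lf 0x51000002)) (.nd (.lf 0) (.lf 0x59000002))) (.nd (.nd (.lf 0x45000002) (.lf 0x55000002)) (.lf 0x4d000002))))⟩

/-- Table. -/
def f644 : Fc := ⟨33, [223, 401, 400, 402], 37, .nd (.nd (.nd (.lf 0) (.nd (.lf 0) (.nd (.lf 0) (.lf 0x3b000002)))) (.nd (.nd (.nd (.lf 0) (.lf 0x31000002)) (.nd (.lf 0) (.lf 0x39000002))) (.nd (.lf 0) (.nd (.lf 0) (.lf 0x3d000002))))) (.nd (.nd (.lf 0) (.nd (.nd (.lf 0) (.lf 0x34000002)) (.lf 0))) (.nd (.nd (.nd (.lf 0) (.lf 0x32000002)) (.lf 0)) (.lf 0)))⟩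

/-- Table. -/
def f645 : Fc := ⟨33, [223, 401, 400, 402, 401], 37, .nd (.nd (.nd (.lf 0) (.nd (.lf 0) (.nd (.lf 0) (.lf 0x1c000002)))) (.nd (.nd (.nd (.lf 0) (.lf 0x12000002)) (.nd (.lf 0) (.lf 0x1a000002))) (.nd (.lf 0) (.nd (.lf 0) (.lf 0x1e000002))))) (.nd (.nd (.lf 0) (.nd (.nd (.lf 0) (.lf 0x15000002)) (.lf 0))) (.nd (.nd (.nd (.lf 0) (.lf 0x13000002)) (.lf 0)) (.lf 0)))⟩

/-- Table. -/
def f646 : Fc := ⟨33, [223, 401, 400, 402, 401, 400], 37, .nd (.lf 0) (.nd (.nd (.lf 0) (.nd (.nd (.lf 0) (.lf 0x15daf26b)) (.lf 0))) (.lf 0))⟩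

/-- Table. -/
def f647 : Fc := ⟨33, [400, 201], 37, .nd (.nd (.nd (.nd (.nd (.lf 0xdaf26b) (.lf 0x10daf26b)) (.nd (.lf 0xa000002) (.lf 0x14000002))) (.nd (.lf 0x5000002) (.nd (.lf 0) (.lf 0x1d000002)))) (.nd (.nd (.nd (.lf 0) (.lf 0x16000002)) (.nd (.lf 0x8000002) (.lf 0x1b000002))) (.nd (.nd (.lf 0x6daf26b) (.lf 0x12000002)) (.nd (.lf 0xedaf26b) (.lf 0x2daf26a0000daf269000000000400026d79360000daf26900026d79360003daf26900010000030000daf26a0000a435d000006d79360000a435d000016d793600066d7936))))) (.nd (.nd (.nd (.nd (.lf 0) (.lf 0x11daf26b)) (.nd (.lf 0xb000002) (.lf 0x15000002))) (.nd (.nd (.lf 0x4000002) (.lf 0x19000002)) (.lf 0))) (.nd (.nd (.nd (.lf 0x3daf26b) (.lf 0x17000002)) (.lf 0x9000002)) (.nd (.lf 0x7daf26b) (.lf 0xfdaf26b))))⟩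

/-- Table. -/
def f648 : Fc := ⟨33, [400, 203], 37, .nd (.nd (.nd (.nd (.lf 0x3edaf26b) (.nd (.lf 0) (.lf 0x52000002))) (.lf 0)) (.nd (.nd (.lf 0) (.lf 0x46000002)) (.nd (.nd (.lf 0) (.lf 0x50000002)) (.nd (.lf 0) (.lf 0x2daf26a0000daf269000000000400026d79360000daf26900026d79360003daf26900010000030000daf26a0000a435d000006d79360000a435d000016d793600446d7936))))) (.nd (.nd (.nd (.nd (.lf 0) (.lf 0x4fdaf26b)) (.nd (.lf 0x49000002) (.lf 0x53000002))) (.nd (.nd (.lf 0x42000002) (.lf 0x57000002)) (.lf 0))) (.nd (.nd (.lf 0) (.lf 0x47000002)) (.nd (.nd (.lf 0x45daf26b) (.lf 0x51000002)) (.lf 0))))⟩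

/-- Table. -/
def f649 : Fc := ⟨33, [400, 401], 33, .nd (.nd (.nd (.nd (.nd (.lf 0x1daf26b) (.lf 0x14daf26b)) (.nd (.lf 0xadaf26b) (.lf 0x10000002))) (.nd (.lf 0x5daf26b) (.nd (.lf 0) (.lf 0x1daf26a00040000020000daf26a00036d793500076d7935000136bc9b000736bc9c)))) (.nd (.nd (.nd (.lf 0) (.lf 0x16daf26b)) (.nd (.lf 0x6000002) (.lf 0x40000010016daf26b))) (.nd (.nd (.lf 0x8daf26b) (.lf 0xe000002)) (.nd (.lf 0x12daf26b) (.lf 0x1daf26a000000000200066d79350000daf26a00056d7936000336bc9b0007a435d1))))) (.nd (.nd (.nd (.nd (.lf 0) (.lf 0x15daf26b)) (.nd (.lf 0xbdaf26b) (.lf 0x11000002))) (.nd (.nd (.lf 0x3000002) (.lf 0x19daf26b)) (.nd (.lf 0x10000daf269000100000200006d7937000000000100016d79350000daf26a000036bc9a000336bc9c) (.lf 0x1e000002)))) (.nd (.nd (.nd (.lf 0x4daf26b) (.lf 0x17daf26b)) (.lf 0x7000002)) (.nd (.nd (.lf 0x9daf26b) (.lf 0xf000002)) (.lf 0x13daf26b))))⟩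

/-- Table. -/
def f650 : Fc := ⟨33, [400, 401, 400], 33, .nd (.nd (.nd (.nd (.nd (.lf 0x2daf26b) (.lf 0x18daf26b)) (.lf 0)) (.lf 0)) (.nd (.lf 0) (.nd (.lf 0xadaf26b) (.nd (.lf 0x16daf26b) (.lf 0x1daf26a00040000020000daf26a00036d793500076d7935000136bc9b000736bc9c))))) (.nd (.nd (.nd (.nd (.lf 0) (.lf 0x19daf26b)) (.lf 0)) (.lf 0)) (.nd (.lf 0x5daf26b) (.nd (.lf 0xbdaf26b) (.lf 0x17daf26b))))⟩

/-- Table. -/
def f651 : Fc := ⟨33, [400, 0], 41, .nd (.nd (.nd (.nd (.nd (.lf 0xdaf26b) (.lf 0xfdaf26b)) (.nd (.lf 0xa000002) (.lf 0x12000002))) (.nd (.nd (.lf 0x5000002) (.lf 0x15000002)) (.nd (.lf 0x60008daf2650001daf26500050000010006000002) (.lf 0x1a000002)))) (.nd (.nd (.nd (.lf 0) (.lf 0x14000002)) (.nd (.lf 0x8000002) (.lf 0x18000002))) (.nd (.nd (.lf 0x6daf26b) (.lf 0x11000002)) (.nd (.lf 0xedaf26b) (.lf 0x2daf26a0000daf269000000000400016d79360000daf26900016d79360002daf26900010000030000daf26a0000a435d000006d79360000a435d000016d793600066d7936)))))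 (.nd (.nd (.nd (.nd (.lf 0x2000002) (.lf 0x10daf26b)) (.nd (.lf 0xb000002) (.lf 0x13000002))) (.nd (.nd (.lf 0x4000002) (.lf 0x16000002)) (.nd (.lf 0xc0008daf25f0000daf25f0000daf26a00000000040000daf2690000daf26a0000daf2690001daf26a000000000200000000010004000002) (.lf 0x19000002)))) (.nd (.nd (.lf 0x3daf26b) (.nd (.lf 0x9000002) (.lf 0x17000002))) (.lf 0x7daf26b)))⟩

/-- Table. -/
def f652 : Fc := ⟨33, [401, 501], 42, .nd (.lf 0) (.nd (.nd (.lf 0) (.nd (.nd (.lf 0) (.lf 0x26000002)) (.lf 0))) (.lf 0))⟩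

/-- Table. -/
def f653 : Fc := ⟨33, [401, 400], 33, .nd (.nd (.nd (.nd (.nd (.lf 0x2000002) (.lf 0x18000002)) (.nd (.lf 0x6daf26b) (.lf 0x14daf26b))) (.nd (.nd (.lf 0x3daf26b) (.lf 0x10daf26b)) (.nd (.lf 0) (.lf 0x2daf26a0000daf269000000000400026d79360000daf26900026d79360003daf26900010000030000daf26a0000a435d000006d79360000a435d000016d793600066d7936)))) (.nd (.nd (.nd (.lf 0) (.lf 0xedaf26b)) (.nd (.lf 0x8daf26b) (.lf 0xdaf26a00030000020003daf26a0003daf26a000100000100016d7935000136bc9b000136bc9b0006a435d1))) (.nd (.nd (.lf 0xa000002) (.lf 0x12daf26b)) (.nd (.lf 0x16000002) (.lf 0x1d000002))))) (.nd (.nd (.nd (.nd (.lf 0) (.lf 0x19000002)) (.nd (.lf 0x7daf26b) (.lf 0x15daf26b))) (.nd (.nd (.lf 0x4daf26b) (.lf 0x11daf26b)) (.nd (.lf 0) (.lf 0x1daf26a000000000200066d79350000daf26a00056d7936000336bc9b0007a435d1)))) (.nd (.nd (.nd (.lf 0x5000002) (.lf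 0xfdaf26b)) (.nd (.lf 0x9daf26b) (.lf 0x70000010012daf26b))) (.nd (.nd (.lf 0xb000002) (.lf 0x13daf26b)) (.lf 0x17000002))))⟩

/-- Table. -/
def f654 : Fc := ⟨33, [401, 400, 300], 35, .nd (.nd (.nd (.lf 0) (.nd (.lf 0) (.nd (.lf 0) (.lf 0x7daf26b)))) (.nd (.nd (.nd (.lf 0) (.lf 0x9daf26b)) (.nd (.lf 0) (.lf 0x8daf26b))) (.nd (.lf 0) (.nd (.lf 0) (.lf 0x6d79370000daf26a000000000200000000010000daf26900000000010002a435ce0003a435d2))))) (.nd (.nd (.lf 0) (.nd (.nd (.lf 0) (.lf 0xcdaf26b)) (.lf 0))) (.nd (.nd (.nd (.lf 0) (.lf 0xadaf26b)) (.lf 0)) (.lf 0)))⟩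

/-- Table. -/
def f655 : Fc := ⟨33, [401, 400, 401], 33, .nd (.nd (.nd (.nd (.nd (.lf 0x2daf26b) (.lf 0x18daf26b)) (.nd (.lf 0) (.lf 0x10daf26b))) (.lf 0)) (.nd (.nd (.lf 0) (.lf 0x6daf26b)) (.nd (.nd (.lf 0xadaf26b) (.lf 0xedaf26b)) (.lf 0x16daf26b)))) (.nd (.nd (.nd (.nd (.lf 0) (.lf 0x19daf26b)) (.nd (.lf 0) (.lf 0x11daf26b))) (.nd (.lf 0x3daf26b) (.nd (.lf 0) (.lf 0x2daf26a0000daf269000000000400026d79360000daf26900026d79360003daf26900010000030000daf26a0000a435d000006d79360000a435d000016d793600066d7936)))) (.nd (.nd (.lf 0x5daf26b) (.lf 0x7daf26b)) (.nd (.nd (.lf 0xbdaf26b) (.lf 0xfdaf26b)) (.lf 0x17daf26b))))⟩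

/-- Table. -/
def f656 : Fc := ⟨33, [401, 0], 41, .nd (.nd (.nd (.nd (.nd (.lf 0x1000002) (.lf 0x12000002)) (.nd (.lf 0x6000002) (.lf 0x15daf26b))) (.nd (.nd (.lf 0x3000002) (.lf 0xf000002)) (.nd (.lf 0xdaf265000800000600010000060001daf26900016d793600016d793600066d7936) (.lf 0x1b000002)))) (.nd (.nd (.nd (.lf 0x2daf26b) (.lf 0xe000002)) (.nd (.lf 0xadaf26b) (.lf 0xdaf26a00020000020002daf26a0002daf26a000100000200016d7935000136bc9b000136bc9b0006a435d1))) (.nd (.nd (.lf 0x8000002) (.lf 0x14daf26b)) (.nd (.lf 0x11000002) (.lf 0x19000002))))) (.nd (.nd (.nd (.nd (.lf 0) (.lf 0x13000002)) (.nd (.lf 0x7000002) (.lf 0x16daf26b))) (.nd (.nd (.lf 0x5daf26b) (.lf 0x10000002)) (.nd (.lf 0x3daf26a00016d793400026d79340000a435d10003a435d2) (.lf 0x1daf26a00030000020000daf26a00026d793500066d7935000136bc9b000736bc9c)))) (.nd (.nd (.lf 0x4000002) (.nd (.lf 0xbdaf26b)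 (.lf 0x30000010014daf26b))) (.lf 0x9000002)))⟩

/-- Table. -/
def f657 : Fc := ⟨34, [223, 401], 38, .nd (.nd (.nd (.nd (.nd (.lf 0) (.lf 0x2fdaf26b)) (.nd (.lf 0x27daf26b) (.lf 0x7e000002))) (.nd (.lf 0) (.lf 0x77000002))) (.nd (.nd (.nd (.lf 0) (.lf 0x3b0000010014daf26b)) (.nd (.lf 0) (.lf 0x80000002))) (.nd (.nd (.lf 0) (.lf 0x7c000002)) (.lf 0)))) (.nd (.nd (.nd (.nd (.lf 0) (.lf 0x30daf26b)) (.lf 0x3c000001000adaf26b)) (.nd (.nd (.lf 0x73000002) (.lf 0x7b000002)) (.nd (.lf 0x78000002) (.lf 0x83000002)))) (.nd (.nd (.nd (.lf 0x22daf26b) (.lf 0x3d0000010001daf26a0011000002)) (.lf 0x76000002)) (.nd (.nd (.lf 0x75000002) (.lf 0x7d000002)) (.lf 0))))⟩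

/-- Table. -/
def f658 : Fc := ⟨34, [223, 401, 400], 38, .nd (.nd (.nd (.nd (.nd (.lf 0) (.lf 0x4e000002)) (.nd (.lf 0x46000002) (.lf 0x56000002))) (.lf 0)) (.nd (.nd (.nd (.lf 0) (.lf 0x50000002)) (.nd (.lf 0) (.lf 0x58000002))) (.nd (.nd (.lf 0) (.lf 0x54000002)) (.lf 0)))) (.nd (.nd (.nd (.nd (.lf 0) (.lf 0x4f000002)) (.lf 0x47000002)) (.nd (.nd (.lf 0x43000002) (.lf 0x53000002)) (.nd (.lf 0x4b000002) (.lf 0x5b000002)))) (.nd (.nd (.nd (.lf 0) (.lf 0x51000002)) (.lf 0x49000002)) (.nd (.nd (.lf 0x45000002) (.lf 0x55000002)) (.lf 0))))⟩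

/-- Table. -/
def f659 : Fc := ⟨34, [223, 401, 400, 402], 38, .nd (.nd (.lf 0) (.nd (.nd (.nd (.lf 0) (.lf 0x31000002)) (.lf 0)) (.lf 0))) (.nd (.nd (.lf 0) (.nd (.nd (.lf 0) (.lf 0x34000002)) (.lf 0))) (.lf 0))⟩

/-- Table. -/
def f660 : Fc := ⟨34, [223, 401, 400, 402, 401], 38, .nd (.nd (.lf 0) (.nd (.nd (.nd (.lf 0) (.lf 0x12000002)) (.lf 0)) (.lf 0))) (.nd (.nd (.lf 0) (.nd (.nd (.lf 0) (.lf 0x15000002)) (.lf 0))) (.lf 0))⟩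

/-- Table. -/
def f661 : Fc := ⟨34, [400, 201], 38, .nd (.nd (.lf 0) (.nd (.nd (.nd (.lf 0) (.lf 0x14000002)) (.lf 0)) (.lf 0))) (.nd (.nd (.lf 0) (.nd (.nd (.lf 0) (.lf 0x16000002)) (.lf 0))) (.lf 0))⟩

/-- Table. -/
def f662 : Fc := ⟨34, [400, 203], 38, .nd (.nd (.nd (.lf 0) (.nd (.nd (.lf 0) (.lf 0x50000002)) (.lf 0))) (.nd (.nd (.lf 0) (.lf 0x47000002)) (.lf 0))) (.nd (.nd (.nd (.nd (.lf 0) (.lf 0x4fdaf26b)) (.lf 0)) (.lf 0)) (.nd (.nd (.nd (.lf 0) (.lf 0x1000001004fdaf26b)) (.lf 0)) (.lf 0)))⟩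

/-- Table. -/
def f663 : Fc := ⟨34, [400, 500], 41, .nd (.lf 0) (.nd (.lf 0) (.nd (.lf 0) (.nd (.nd (.lf 0) (.lf 0x5daf26a0000daf2690000daf26900046d7936000000000100046d7936000a00000100000000030001a435d000006d79340001a435d000026d793400016d793700016d7935000136bc9b000136bc9b0006a435d1)) (.lf 0))))⟩

/-- Table. -/
def f664 : Fc := ⟨34, [400, 502], 41, .nd (.nd (.nd (.nd (.lf 0) (.nd (.lf 0) (.lf 0x14000001001ddaf26b))) (.nd (.nd (.lf 0) (.lf 0x2e000002)) (.lf 0))) (.nd (.nd (.nd (.lf 0) (.lf 0x2f000002)) (.lf 0)) (.nd (.nd (.lf 0) (.lf 0x30000002)) (.lf 0)))) (.nd (.nd (.lf 0) (.nd (.nd (.lf 0) (.lf 0x31000002)) (.nd (.lf 0) (.lf 0x5daf26a00006d793500016d793500000000020000daf26a00006d793600006d793500016d793500000000020000daf26a00076d7936000036bc9b000236bc9b0000a435d00001a435d00000a435d00006a435d0000136bc9b000936bc9c)))) (.lf 0))⟩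

/-- Table. -/
def f665 : Fc := ⟨34, [400, 401], 34, .nd (.nd (.nd (.nd (.nd (.lf 0) (.lf 0x12daf26b)) (.nd (.lf 0x9daf26b) (.lf 0x40000010013000002))) (.nd (.nd (.lf 0) (.lf 0x10000002)) (.lf 0))) (.nd (.nd (.nd (.lf 0) (.lf 0x14daf26b)) (.nd (.lf 0x8000002) (.lf 0x1300000100096d7936))) (.nd (.nd (.lf 0x7000002) (.lf 0x17000002)) (.lf 0)))) (.nd (.nd (.nd (.nd (.lf 0) (.lf 0x13daf26b)) (.lf 0xadaf26b)) (.nd (.nd (.lf 0) (.lf 0x10000010014daf26b)) (.nd (.lf 0x10000010009daf26b) (.lf 0xdaf26a0000000002000000000200020000010002daf26a00000000010000daf269000100000100010000010003daf26a00016d793500086d7936)))) (.nd (.nd (.nd (.lf 0) (.lf 0x1daf26a0011000002)) (.lf 0x1000001000adaf26b)) (.nd (.nd (.lf 0) (.lf 0x20000010012daf26b)) (.lf 0))))⟩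

/-- Table. -/
def f666 : Fc := ⟨34, [400, 401, 400], 34, .nd (.nd (.nd (.nd (.nd (.lf 0) (.lf 0x14daf26b)) (.lf 0xadaf26b)) (.lf 0)) (.nd (.nd (.nd (.lf 0) (.lf 0x12daf26b)) (.nd (.lf 0) (.lf 0xdaf26a0000000002000000000200020000010002daf26a00000000010000daf269000100000100010000010003daf26a00016d793500086d7936))) (.nd (.nd (.lf 0) (.lf 0x60000010010daf26b)) (.lf 0)))) (.nd (.lf 0) (.nd (.lf 0) (.nd (.nd (.lf 0) (.lf 0x10000010014daf26b)) (.lf 0))))⟩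

/-- Table. -/
def f667 : Fc := ⟨34, [401, 501], 41, .nd (.nd (.nd (.nd (.lf 0) (.nd (.lf 0) (.lf 0x36000002))) (.nd (.nd (.lf 0) (.lf 0x60000010028daf26b)) (.lf 0))) (.nd (.nd (.nd (.lf 0) (.lf 0xdaf26a0005daf26a00056d793600056d793600046d793600026d7937000236bc9a000236bc9a0001a435d10001a435d0000188d783000188d7830006521ae9)) (.lf 0)) (.nd (.nd (.lf 0) (.lf 0x1daf26a00060000020000daf26a00056d7935000d6d7935000236bc9b001036bc9c)) (.lf 0)))) (.nd (.nd (.lf 0) (.nd (.nd (.lf 0) (.lf 0x35000002)) (.nd (.lf 0) (.lf 0x2daf26a0000daf26a000bdaf26a00016d7935000000000100006d793500016d793600016d7935000000000100006d793500006d7936000188d783000088d7830003a435d0000088d78300005fca0e0001521ae800005fca0e0005521ae80001ab0d640007ab0d65)))) (.lf 0))⟩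

/-- Table. -/
def f668 : Fc := ⟨34, [401, 502], 41, .nd (.nd (.nd (.nd (.lf 0) (.nd (.lf 0) (.lf 0x32000002))) (.lf 0)) (.lf 0)) (.nd (.lf 0) (.nd (.lf 0) (.nd (.nd (.lf 0) (.lf 0x30000002)) (.lf 0))))⟩

/-- Table. -/
def f669 : Fc := ⟨34, [401, 400], 34, .nd (.nd (.nd (.nd (.nd (.lf 0) (.lf 0x14000002)) (.nd (.lf 0xa000002) (.lf 0x60000010011000002))) (.nd (.nd (.lf 0) (.lf 0x12daf26b)) (.lf 0))) (.nd (.nd (.nd (.lf 0) (.lf 0x10daf26b)) (.nd (.lf 0x9daf26b) (.lf 0xdaf26a0000000002000000000200020000010002daf26a00000000010000daf269000100000100010000010005daf26a00086d7936))) (.nd (.nd (.lf 0x10004daf26b) (.lf 0x20000010012daf26b)) (.lf 0)))) (.nd (.nd (.nd (.nd (.lf 0) (.lf 0x10000010011daf26b)) (.lf 0)) (.nd (.nd (.lf 0x30000010003daf26b) (.lf 0x60000010010daf26b)) (.lf 0))) (.nd (.nd (.nd (.lf 0) (.lf 0x11daf26b)) (.lf 0x40000010008daf26b)) (.nd (.nd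 (.lf 0x6000002) (.lf 0x16000002)) (.lf 0))))⟩

/-- Table. -/
def f670 : Fc := ⟨34, [401, 400, 300], 36, .nd (.nd (.lf 0) (.nd (.nd (.nd (.lf 0) (.lf 0x6daf26b)) (.lf 0)) (.lf 0))) (.nd (.nd (.lf 0) (.nd (.nd (.lf 0) (.lf 0x5daf26b)) (.lf 0))) (.lf 0))⟩

/-- Table. -/
def f671 : Fc := ⟨34, [401, 400, 401], 34, .nd (.nd (.nd (.nd (.nd (.lf 0) (.lf 0x14daf26b)) (.lf 0xadaf26b)) (.nd (.nd (.lf 0) (.lf 0x10daf26b)) (.lf 0))) (.nd (.nd (.lf 0) (.lf 0x8daf26b)) (.lf 0x30000010003daf26b))) (.nd (.nd (.nd (.nd (.lf 0) (.lf 0x1daf26a0011000002)) (.lf 0)) (.lf 0)) (.lf 0))⟩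

/-- Table. -/
def f672 : Fc := ⟨41, [223, 401], 45, .nd (.nd (.nd (.nd (.nd (.nd (.lf 0x37000002) (.lf 0x57000002)) (.nd (.lf 0x47000002) (.lf 0xd8000002))) (.nd (.lf 0x6b000001000adaf26b) (.lf 0xcc000002))) (.nd (.nd (.nd (.lf 0x6c0000010005daf26b) (.lf 0x67000001002adaf26b)) (.lf 0)) (.nd (.lf 0xc6000002) (.lf 0x53000002)))) (.nd (.nd (.nd (.nd (.lf 0) (.lf 0x670000010028daf26b)) (.nd (.lf 0x6a0000010015daf26b) (.lf 0xda000002))) (.nd (.nd (.lf 0) (.lf 0xd2000002)) (.lf 0xce000002))) (.nd (.nd (.nd (.lf 0x3d000002) (.lf 0x67000001002cdaf26b)) (.nd (.lf 0) (.lf 0xde000002))) (.nd (.nd (.lf 0x45000002) (.lf 0xd6000002)) (.lf 0x55000002))))) (.nd (.nd (.nd (.nd (.nd (.lf 0) (.lf 0x58000002)) (.nd (.lf 0x6a0000010014daf26b) (.lf 0xd9000002))) (.nd (.nd (.lf 0x6b000001000bdaf26b) (.lf 0xd1000002)) (.lf 0xcd000002))) (.nd (.nd (.lf 0) (.nd (.lf 0) (.lf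 0xdd000002))) (.nd (.nd (.lf 0xc7000002) (.lf 0xd5000002)) (.lf 0x54000002)))) (.nd (.nd (.nd (.nd (.lf 0x3a000002) (.lf 0x670000010029daf26b)) (.nd (.lf 0x6a0000010016daf26b) (.lf 0xdb000002))) (.nd (.lf 0) (.lf 0xcf000002))) (.nd (.nd (.nd (.lf 0x3e000002) (.lf 0x67000001002ddaf26b)) (.lf 0xcb000002)) (.nd (.nd (.lf 0x46000002) (.lf 0xd7000002)) (.lf 0x56000002)))))⟩

/-- Table. -/
def f673 : Fc := ⟨41, [223, 401, 400], 45, .nd (.nd (.nd (.nd (.nd (.nd (.lf 0x6e000002) (.lf 0x8e000002)) (.nd (.lf 0x7e000002) (.lf 0x9e000002))) (.nd (.lf 0x76000002) (.lf 0x86000002))) (.nd (.nd (.nd (.lf 0x72000002) (.lf 0x92000002)) (.lf 0)) (.nd (.lf 0) (.lf 0x8a000002)))) (.nd (.nd (.nd (.nd (.lf 0) (.lf 0x90000002)) (.nd (.lf 0x80000002) (.lf 0xa0000002))) (.lf 0)) (.nd (.nd (.nd (.lf 0x74000002) (.lf 0x94000002)) (.nd (.lf 0) (.lf 0xa4000002))) (.nd (.nd (.lf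 0x7c000002) (.lf 0x9c000002)) (.lf 0x8c000002))))) (.nd (.nd (.nd (.nd (.nd (.lf 0) (.lf 0x8f000002)) (.nd (.lf 0x7f000002) (.lf 0x9f000002))) (.nd (.nd (.lf 0x77000002) (.lf 0x97000002)) (.lf 0x87000002))) (.nd (.nd (.lf 0) (.nd (.lf 0) (.lf 0xa3000002))) (.nd (.nd (.lf 0x7b000002) (.lf 0x9b000002)) (.lf 0x8b000002)))) (.nd (.nd (.nd (.nd (.lf 0x71000002) (.lf 0x91000002)) (.lf 0x81000002)) (.nd (.lf 0) (.lf 0x89000002))) (.nd (.nd (.nd (.lf 0x75000002) (.lf 0x95000002)) (.lf 0x85000002)) (.nd (.nd (.lf 0x7d000002) (.lf 0x9d000002)) (.lf 0x8d000002)))))⟩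

/-- Table. -/
def f674 : Fc := ⟨41, [223, 401, 400, 402], 45, .nd (.nd (.nd (.nd (.nd (.lf 0) (.nd (.lf 0) (.lf 0x67000002))) (.lf 0)) (.lf 0)) (.nd (.nd (.nd (.nd (.lf 0) (.lf 0x59000002)) (.lf 0)) (.lf 0)) (.nd (.nd (.lf 0) (.nd (.lf 0) (.lf 0x6d000002))) (.nd (.nd (.lf 0) (.lf 0x65000002)) (.lf 0))))) (.nd (.nd (.lf 0) (.nd (.nd (.lf 0) (.nd (.lf 0) (.lf 0x6c000002))) (.lf 0))) (.nd (.nd (.nd (.nd (.lf 0) (.lf 0x5a000002)) (.lf 0)) (.lf 0)) (.nd (.nd (.nd (.lf 0) (.lf 0x5e000002)) (.lf 0)) (.lf 0))))⟩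

/-- Table. -/
def f675 : Fc := ⟨41, [223, 401, 400, 402, 401], 45, .nd (.nd (.nd (.nd (.nd (.lf 0) (.nd (.lf 0) (.lf 0x30000002))) (.lf 0)) (.lf 0)) (.nd (.nd (.nd (.nd (.lf 0) (.lf 0x22000002)) (.lf 0)) (.lf 0)) (.nd (.nd (.lf 0) (.nd (.lf 0) (.lf 0x36000002))) (.nd (.nd (.lf 0) (.lf 0x2e000002)) (.lf 0))))) (.nd (.nd (.lf 0) (.nd (.nd (.lf 0) (.nd (.lf 0) (.lf 0x35000002))) (.lf 0))) (.nd (.nd (.nd (.nd (.lf 0) (.lf 0x23000002)) (.lf 0)) (.lf 0)) (.nd (.nd (.nd (.lf 0) (.lf 0x27000002)) (.lf 0)) (.lf 0))))⟩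

/-- Table. -/
def f676 : Fc := ⟨41, [223, 401, 400, 402, 401, 400], 45, .nd (.nd (.nd (.nd (.nd (.lf 0) (.nd (.lf 0) (.lf 0x30daf26b))) (.lf 0)) (.lf 0)) (.nd (.nd (.nd (.nd (.lf 0) (.lf 0x22daf26b)) (.lf 0)) (.lf 0)) (.nd (.lf 0) (.nd (.nd (.lf 0) (.lf 0x2edaf26b)) (.lf 0))))) (.nd (.nd (.lf 0) (.nd (.nd (.lf 0) (.nd (.lf 0) (.lf 0x35daf26b))) (.lf 0))) (.nd (.lf 0) (.nd (.nd (.nd (.lf 0) (.lf 0x27daf26b)) (.lf 0)) (.lf 0))))⟩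

/-- Table. -/
def f677 : Fc := ⟨41, [400, 201], 45, .nd (.nd (.nd (.nd (.nd (.lf 0) (.nd (.lf 0) (.lf 0x31000002))) (.lf 0)) (.lf 0)) (.nd (.nd (.nd (.nd (.lf 0) (.lf 0x28000002)) (.lf 0)) (.lf 0)) (.nd (.lf 0) (.nd (.nd (.lf 0) (.lf 0x2f000002)) (.lf 0))))) (.nd (.lf 0) (.nd (.lf 0) (.nd (.nd (.nd (.lf 0) (.lf 0x2d000002)) (.lf 0)) (.nd (.nd (.lf 0) (.lf 0x2e000002)) (.lf 0)))))⟩

/-- Table. -/
def f678 : Fc := ⟨41, [400, 203], 45, .nd (.nd (.nd (.nd (.lf 0) (.nd (.nd (.lf 0) (.lf 0x90000002)) (.lf 0))) (.nd (.nd (.lf 0) (.lf 0x7f000002)) (.nd (.nd (.lf 0) (.lf 0x94000002)) (.lf 0)))) (.nd (.nd (.lf 0) (.nd (.nd (.lf 0x76000002) (.lf 0x92000002)) (.lf 0))) (.nd (.nd (.lf 0) (.lf 0x81000002)) (.lf 0)))) (.nd (.nd (.nd (.lf 0) (.nd (.nd (.lf 0) (.lf 0x91000002)) (.lf 0))) (.nd (.nd (.lf 0x72000002) (.nd (.lf 0x80000002) (.lf 0x5daf26a0000daf2690000daf26900046d7936000000000100046d7936000a00000100000000030001a435d000006d79340001a435d000026d793400016d793700016d7935000136bc9b000136bc9b0074a435d1)))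 (.nd (.nd (.lf 0) (.lf 0x95000002)) (.lf 0)))) (.nd (.nd (.lf 0) (.lf 0x77000002)) (.lf 0)))⟩

/-- Table. -/
def f679 : Fc := ⟨41, [400, 401], 41, .nd (.nd (.nd (.nd (.nd (.nd (.lf 0x1daf26b) (.lf 0x26daf26b)) (.nd (.lf 0x13daf26b) (.lf 0x1daf26a00060000020000daf26a00056d7935000d6d7935000236bc9b001036bc9c))) (.nd (.nd (.lf 0xadaf26b) (.lf 0x1c000002)) (.lf 0))) (.nd (.nd (.nd (.lf 0x5daf26b) (.lf 0x2adaf26b)) (.lf 0xe000002)) (.nd (.nd (.lf 0) (.lf 0x20000002)) (.lf 0x22daf26b)))) (.nd (.nd (.nd (.nd (.lf 0) (.lf 0x28daf26b)) (.nd (.lf 0x15daf26b) (.lf 0x120000010023daf26b))) (.nd (.nd (.lf 0x6000002) (.lf 0x1e000002)) (.lf 0))) (.nd (.nd (.nd (.lf 0x8daf26b) (.lf 0x2cdaf26b)) (.lf 0x10000002)) (.nd (.nd (.lf 0x11daf26b) (.lf 0x60000010028daf26b)) (.lf 0x24daf26b))))) (.nd (.nd (.nd (.nd (.nd (.lf 0) (.lf 0x27daf26b)) (.nd (.lf 0x14daf26b) (.lf 0x35000002)))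 (.nd (.nd (.lf 0xbdaf26b) (.lf 0x1d000002)) (.lf 0x1daf26a00030000020000daf26a00026d793500066d7935000136bc9b000736bc9c))) (.nd (.nd (.lf 0x3000002) (.nd (.lf 0xf000002) (.lf 0x1daf26a0000000002000a6d79350000daf26a000a6d7936000536bc9b0010a435d1))) (.nd (.nd (.lf 0x10000daf269000100000200006d7937000000000100016d79350000daf26a000036bc9a000336bc9c) (.lf 0x21000002)) (.lf 0x23daf26b)))) (.nd (.nd (.nd (.nd (.lf 0x4daf26b) (.lf 0x29daf26b)) (.lf 0x16daf26b)) (.nd (.lf 0x7000002) (.lf 0x1daf26a000000000200046d79350000daf26a00046d7936000336bc9b0007a435d1))) (.nd (.nd (.nd (.lf 0x9daf26b) (.lf 0x2ddaf26b)) (.lf 0x30000010014daf26b)) (.nd (.lf 0x12daf26b) (.lf 0x25daf26b)))))⟩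

/-- Table. -/
def f680 : Fc := ⟨41, [400, 401, 301], 43, .nd (.nd (.nd (.nd (.nd (.lf 0) (.nd (.lf 0) (.lf 0x15daf26b))) (.lf 0)) (.lf 0)) (.lf 0)) (.lf 0)⟩

/-- Table. -/
def f681 : Fc := ⟨41, [400, 401, 400], 41, .nd (.nd (.nd (.nd (.nd (.nd (.lf 0x2daf26b) (.lf 0x2cdaf26b)) (.lf 0x16daf26b)) (.lf 0)) (.nd (.lf 0) (.nd (.lf 0) (.lf 0x28daf26b)))) (.nd (.lf 0) (.nd (.lf 0xadaf26b) (.nd (.lf 0x14daf26b) (.lf 0x2adaf26b))))) (.nd (.nd (.nd (.nd (.nd (.lf 0) (.lf 0x2ddaf26b)) (.lf 0)) (.lf 0)) (.nd (.lf 0) (.nd (.lf 0) (.lf 0x29daf26b)))) (.nd (.lf 0x5daf26b) (.nd (.lf 0xbdaf26b) (.nd (.lf 0x15daf26b) (.lf 0x2bdaf26b)))))⟩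

/-- Table. -/
def f682 : Fc := ⟨41, [401, 400], 41, .nd (.nd (.nd (.nd (.nd (.nd (.lf 0x2000002) (.lf 0x2c000002)) (.nd (.lf 0x16000002) (.lf 0x5daf26a0000daf2690000daf26900046d7936000000000100046d7936000a00000100000000030001a435d000006d79340001a435d000026d793400016d793700016d7935000136bc9b000136bc9b0006a435d1))) (.nd (.nd (.lf 0x6daf26b) (.lf 0x22daf26b)) (.lf 0x50000010011daf26b))) (.nd (.nd (.lf 0x3daf26b) (.lf 0x11daf26b)) (.nd (.nd (.lf 0) (.lf 0x26daf26b)) (.lf 0x28000002)))) (.nd (.nd (.nd (.nd (.lf 0) (.lf 0x1cdaf26b)) (.lf 0)) (.nd (.nd (.lf 0x8daf26b) (.lf 0x24daf26b)) (.lf 0x1daf26a000000000200046d79350000daf26a00046d7936000336bc9b0007a435d1))) (.nd (.nd (.lf 0xa000002) (.nd (.lf 0x13daf26b) (.lf 0x14000001001ddaf26b))) (.nd (.nd (.lf 0x14000002) (.lf 0xdaf26a0005daf26a00056d793600056d793600046d793500026d7937000236bc9a000236bc9a0001a435d10001a435d0000188d783000188d7830006521ae9))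 (.lf 0x2a000002))))) (.nd (.nd (.nd (.nd (.nd (.lf 0) (.lf 0x2d000002)) (.nd (.lf 0xedaf26b) (.lf 0x1daf26a0000000002000a6d79350000daf26a000a6d7936000536bc9b0010a435d1))) (.nd (.nd (.lf 0x7daf26b) (.lf 0x23daf26b)) (.lf 0))) (.nd (.nd (.lf 0x4daf26b) (.nd (.lf 0x12daf26b) (.lf 0x31000002))) (.nd (.nd (.lf 0) (.lf 0x27daf26b)) (.lf 0x29000002)))) (.nd (.nd (.nd (.nd (.lf 0x5000002) (.lf 0x1ddaf26b)) (.lf 0x10daf26b)) (.nd (.nd (.lf 0x9daf26b) (.lf 0x25daf26b)) (.lf 0x1a000002))) (.nd (.nd (.nd (.lf 0xb000002) (.lf 0x21daf26b)) (.lf 0)) (.nd (.nd (.lf 0x15000002) (.lf 0xb0000010022daf26b)) (.lf 0x2b000002)))))⟩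

/-- Table. -/
def f683 : Fc := ⟨41, [401, 400, 300], 43, .nd (.nd (.nd (.nd (.nd (.lf 0) (.nd (.lf 0) (.lf 0xcdaf26b))) (.lf 0)) (.lf 0)) (.nd (.nd (.nd (.nd (.lf 0) (.lf 0xfdaf26b)) (.lf 0)) (.lf 0)) (.nd (.nd (.lf 0) (.nd (.lf 0) (.lf 0x6d7936000036bc9a00006d79360000daf26a00006d79360000daf26a00016d7935000000000100006d7935000188d7840002a435d000061b5e4e))) (.nd (.nd (.lf 0) (.lf 0xddaf26b)) (.lf 0))))) (.nd (.nd (.lf 0) (.nd (.nd (.lf 0) (.nd (.lf 0) (.lf 0xdaf26a00000000030000daf269000200000400010000020000daf267000000000200046d793100066d7938))) (.lf 0))) (.nd (.nd (.nd (.nd (.lf 0) (.lf 0x10daf26b)) (.lf 0)) (.lf 0)) (.nd (.nd (.nd (.lf 0) (.lf 0x14daf26b)) (.lf 0)) (.lf 0))))⟩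

/-- Table. -/
def f684 : Fc := ⟨41, [401, 400, 301], 43, .nd (.nd (.nd (.nd (.nd (.lf 0) (.nd (.lf 0) (.lf 0xcdaf26b))) (.lf 0)) (.lf 0)) (.lf 0)) (.lf 0)⟩

/-- Table. -/
def f685 : Fc := ⟨41, [401, 400, 401], 41, .nd (.nd (.nd (.nd (.nd (.nd (.lf 0x2daf26b) (.lf 0x2cdaf26b)) (.lf 0x16daf26b)) (.nd (.nd (.lf 0) (.lf 0x1cdaf26b)) (.lf 0))) (.nd (.nd (.lf 0) (.lf 0xedaf26b)) (.nd (.nd (.lf 0) (.lf 0x20daf26b)) (.lf 0x28daf26b)))) (.nd (.nd (.lf 0) (.nd (.nd (.lf 0x6daf26b) (.lf 0x1edaf26b)) (.lf 0))) (.nd (.nd (.lf 0xadaf26b) (.lf 0x10daf26b)) (.nd (.lf 0x14daf26b) (.lf 0x2adaf26b))))) (.nd (.nd (.nd (.nd (.nd (.lf 0) (.lf 0x2ddaf26b)) (.nd (.lf 0) (.lf 0x5daf26a0000daf2690000daf26900046d7936000000000100046d7936000a00000100000000030001a435d000006d79340001a435d000026d793400016d793700016d7935000136bc9b000136bc9b0006a435d1))) (.nd (.nd (.lf 0) (.lf 0x1ddaf26b))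 (.lf 0))) (.nd (.nd (.lf 0x3daf26b) (.lf 0xfdaf26b)) (.nd (.nd (.lf 0) (.lf 0x21daf26b)) (.lf 0)))) (.nd (.nd (.lf 0x5daf26b) (.lf 0x7daf26b)) (.nd (.lf 0xbdaf26b) (.nd (.lf 0x15daf26b) (.lf 0x2bdaf26b)))))⟩

/-- Table. -/
def f686 : Fc := ⟨41, [401, 0], 47, .nd (.nd (.nd (.nd (.nd (.lf 0) (.nd (.lf 0) (.lf 0x30000002))) (.lf 0)) (.lf 0)) (.lf 0)) (.nd (.nd (.nd (.nd (.lf 0) (.nd (.lf 0) (.lf 0x180004000006000000000c0000daf2680000000003000000000600000000060000daf26500030000030002daf2650000daf26500000000030003daf26800010000060002daf25f00000000090003daf265000100000c0000daf26500000000060000daf25f0001daf2680000daf26500006d793600006d79340000daf267000000000600006d79340001000003000000000200006d793200006d79370000daf268000100000600006d792c00000000030000daf26500000000030003daf26700006d793500006d793600026d7934000200000100016d7938000e6d7937))) (.lf 0)) (.lf 0))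 (.lf 0))⟩

/-- Table. -/
def f687 : Fc := ⟨42, [401, 501], 47, .nd (.nd (.nd (.lf 0) (.nd (.nd (.nd (.lf 0) (.lf 0x57000002)) (.lf 0)) (.lf 0))) (.lf 0)) (.nd (.lf 0) (.nd (.nd (.nd (.nd (.lf 0) (.lf 0x90000010045daf26b)) (.lf 0)) (.lf 0)) (.lf 0)))⟩

/-- Table. -/
def f688 : Fc := ⟨6, [400, 300], 10, .nd (.nd (.lf 0) (.lf 0x2000002)) (.lf 0)⟩

/-- Table. -/
def f689 : Fc := ⟨6, [400, 101], 14, .nd (.lf 0) (.nd (.lf 0) (.lf 0xa00000100016d7936))⟩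

/-- Table. -/
def f690 : Fc := ⟨6, [401, 400], 6, .nd (.nd (.lf 0x4daf26b) (.lf 0xdaf26b)) (.lf 0)⟩

/-- Table. -/
def f691 : Fc := ⟨6, [401, 400, 402], 6, .lf 0x2daf26b⟩

/-- Table. -/
def f692 : Fc := ⟨6, [401, 400, 402, 401], 6, .lf 0xdaf26b⟩

/-- Table. -/
def f693 : Fc := ⟨6, [401, 402], 6, .nd (.nd (.lf 0x4000002) (.lf 0xdaf26b)) (.lf 0)⟩

/-- Table. -/
def f694 : Fc := ⟨6, [401, 402, 401], 6, .nd (.nd (.lf 0) (.lf 0x2daf26b)) (.lf 0)⟩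

/-- Table. -/
def f695 : Fc := ⟨6, [401, 402, 401, 400], 6, .nd (.nd (.lf 0) (.lf 0x4000002)) (.lf 0)⟩

/-- Table. -/
def f696 : Fc := ⟨6, [401, 102], 14, .nd (.lf 0) (.nd (.lf 0) (.lf 0xc000002))⟩

/-- Table. -/
def f697 : Fc := ⟨6, [402, 502], 13, .nd (.lf 0) (.nd (.nd (.lf 0) (.lf 0x800000100006d793500006d793600006d7937)) (.lf 0))⟩

/-- Table. -/
def f698 : Fc := ⟨6, [402, 401], 6, .nd (.nd (.lf 0x2daf26b) (.lf 0x4daf26b)) (.nd (.lf 0) (.lf 0x10004daf26b))⟩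

/-- Table. -/
def f699 : Fc := ⟨6, [402, 401, 400], 6, .nd (.nd (.lf 0x4000002) (.lf 0x2000002)) (.lf 0)⟩

/-- Table. -/
def f700 : Fc := ⟨6, [402, 401, 400, 402], 6, .lf 0x2000002⟩

/-- Table. -/
def f701 : Fc := ⟨6, [402, 401, 400, 402, 401], 6, .lf 2⟩

/-- Table. -/
def f702 : Fc := ⟨6, [402, 401, 402], 6, .nd (.nd (.lf 0x4daf26b) (.lf 0x2daf26b)) (.lf 0)⟩

/-- Table. -/
def f703 : Fc := ⟨6, [402, 401, 402, 401], 6, .nd (.nd (.lf 0) (.lf 0xdaf26b)) (.lf 0)⟩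

/-- Table. -/
def f704 : Fc := ⟨6, [402, 401, 402, 401, 400], 6, .nd (.nd (.lf 0) (.lf 2)) (.lf 0)⟩

/-- Table. -/
def f705 : Fc := ⟨13, [400, 503], 22, .nd (.nd (.nd (.nd (.lf 0) (.lf 0x2a000002)) (.lf 0)) (.nd (.nd (.lf 0) (.lf 0x29000002)) (.lf 0))) (.nd (.lf 0) (.nd (.lf 0) (.lf 0x2000000100010000010005daf26b)))⟩

/-- Table. -/
def f706 : Fc := ⟨13, [400, 101], 21, .nd (.lf 0) (.nd (.lf 0) (.lf 0x1700000100006d793500006d793600036d7937))⟩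

/-- Table. -/
def f707 : Fc := ⟨13, [401, 503], 22, .nd (.nd (.nd (.nd (.lf 0) (.lf 0x28000002)) (.lf 0)) (.nd (.nd (.lf 0) (.lf 0xb0000010001000001001cdaf26b)) (.lf 0))) (.nd (.lf 0) (.nd (.lf 0) (.lf 0x29000002)))⟩

/-- Table. -/
def f708 : Fc := ⟨13, [401, 400], 13, .nd (.nd (.nd (.lf 0x6000002) (.lf 0x1daf26b)) (.lf 0)) (.nd (.nd (.nd (.lf 0x20000010001daf26b) (.lf 0x5daf26b)) (.lf 0x2daf26b)) (.lf 0xdaf26b))⟩

/-- Table. -/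
def f709 : Fc := ⟨13, [401, 400, 402], 13, .nd (.nd (.nd (.lf 0x3000002) (.lf 0x2daf26b)) (.lf 0)) (.nd (.nd (.nd (.lf 0x40000010002daf26b) (.lf 0x8daf26b)) (.lf 0x1daf26b)) (.lf 2))⟩

/-- Table. -/
def f710 : Fc := ⟨13, [401, 400, 402, 401], 13, .nd (.nd (.nd (.lf 2) (.lf 0x5daf26b)) (.lf 0)) (.nd (.nd (.nd (.lf 0x20000010005daf26b) (.lf 0x7daf26b)) (.lf 0x4daf26b)) (.lf 0x3000002))⟩

/-- Table. -/
def f711 : Fc := ⟨13, [401, 402], 13, .nd (.nd (.nd (.lf 0x6000002) (.lf 0x2000002)) (.lf 0)) (.nd (.nd (.nd (.lf 0x7000002) (.lf 0xadaf26b)) (.lf 0x1000002)) (.lf 0xdaf26b))⟩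

/-- Table. -/
def f712 : Fc := ⟨13, [401, 402, 401], 13, .nd (.nd (.nd (.lf 0x6daf26b) (.lf 0x5000002)) (.lf 0)) (.nd (.nd (.nd (.lf 0x8000002) (.lf 0xdaf26a0009000002)) (.lf 0x4000002)) (.lf 0x3daf26b))⟩

/-- Table. -/
def f713 : Fc := ⟨13, [401, 402, 401, 400], 13, .nd (.nd (.nd (.lf 0x3daf26b) (.lf 0x9000002)) (.lf 0)) (.nd (.nd (.nd (.lf 0xa000002) (.lf 0x2daf26a0005000002)) (.lf 0x20000010001daf26b)) (.lf 0x6daf26b))⟩

/-- Table. -/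
def f714 : Fc := ⟨13, [401, 102], 21, .nd (.lf 0) (.nd (.lf 0) (.lf 0x900000100036d793600036d793500016d793600036d793500016d793500036d7937))⟩

/-- Table. -/
def f715 : Fc := ⟨13, [402, 502], 22, .nd (.nd (.nd (.nd (.lf 0) (.lf 0x3000001000bdaf26a0001daf26a00060000010001000001000edaf26b)) (.lf 0)) (.nd (.nd (.lf 0) (.lf 0x40000010002daf26a00006d793500026d793500006d793600036d793600006d793500006d7936000600000100006d793600006d79350006daf26a00000000010000daf26a0000daf26a0004000002)) (.lf 0))) (.nd (.lf 0) (.nd (.lf 0) (.lf 0xdaf26a0000daf26a0000daf26a0001daf26a0000000001000100000100006d793600006d7936000600000100010000010002daf26a000000000100026d793600006d793500006d793600060000010001daf26a0005000002)))⟩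

/-- Table. -/
def f716 : Fc := ⟨13, [402, 401], 13, .nd (.nd (.nd (.lf 0x3daf26b) (.lf 0x8000002)) (.lf 0)) (.nd (.nd (.nd (.lf 0x5000002) (.lf 0x10009daf26b)) (.lf 0x7000002)) (.lf 0x6daf26b))⟩

/-- Table. -/
def f717 : Fc := ⟨13, [402, 401, 400], 13, .nd (.nd (.nd (.lf 0x6daf26b) (.lf 0xa000002)) (.lf 0)) (.nd (.nd (.nd (.lf 0x9000002) (.lf 0x20000010005daf26b)) (.lf 0x40000010002daf26b)) (.lf 0x3daf26b))⟩

/-- Table. -/
def f718 : Fc := ⟨13, [402, 401, 400, 402], 13, .nd (.nd (.nd (.lf 0x3daf26b) (.lf 0x9000002)) (.lf 0)) (.nd (.nd (.nd (.lf 0xa000002) (.lf 0x2daf26a0005000002)) (.lf 0x20000010001daf26b)) (.lf 0x6daf26b))⟩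

/-- Table. -/
def f719 : Fc := ⟨13, [402, 401, 400, 402, 401], 13, .nd (.nd (.nd (.lf 0xdaf26b) (.lf 0x9daf26b)) (.lf 0)) (.nd (.nd (.nd (.lf 0x10009daf26b) (.lf 0x4daf26a0002000002)) (.lf 0x2daf26a0001000002)) (.lf 0x6000002))⟩

/-- Table. -/
def f720 : Fc := ⟨13, [402, 401, 402], 13, .nd (.nd (.nd (.lf 0x6daf26b) (.lf 0x5000002)) (.lf 0)) (.nd (.nd (.nd (.lf 0x8000002) (.lf 0xdaf26a0009000002)) (.lf 0x4000002)) (.lf 0x3daf26b))⟩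

/-- Table. -/
def f721 : Fc := ⟨13, [402, 401, 402, 401], 13, .nd (.nd (.nd (.lf 0x6000002) (.lf 0x2000002)) (.lf 0)) (.nd (.nd (.nd (.lf 0x7000002) (.lf 0xadaf26b)) (.lf 0x1000002)) (.lf 0xdaf26b))⟩

/-- Table. -/
def f722 : Fc := ⟨13, [402, 401, 402, 401, 400], 13, .nd (.nd (.nd (.lf 0x3000002) (.lf 0x2daf26b)) (.lf 0)) (.nd (.nd (.nd (.lf 0x40000010002daf26b) (.lf 0x8daf26b)) (.lf 0x1daf26b)) (.lf 2))⟩

/-- Table. -/
def f723 : Fc := ⟨13, [402, 101], 21, .nd (.lf 0) (.nd (.lf 0) (.lf 0x1700000100006d793500006d793600036d7937))⟩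

/-- Table. -/
def f724 : Fc := ⟨14, [400, 500], 21, .nd (.nd (.lf 0) (.lf 0x1600000100006d793600036d79360000a435d1)) (.lf 0)⟩

/-- Table. -/
def f725 : Fc := ⟨14, [400, 503], 21, .nd (.nd (.nd (.nd (.lf 0) (.lf 0x18000002)) (.lf 0)) (.lf 0)) (.lf 0)⟩

/-- Table. -/
def f726 : Fc := ⟨14, [400, 101], 22, .nd (.nd (.nd (.nd (.lf 0) (.lf 0x2300000100006d79360000daf26a00006d793600006d793600006d793500006d793500006d7936000136bc9c)) (.lf 0)) (.lf 0)) (.nd (.nd (.lf 0) (.lf 0x2200000100006d793600006d79360000daf26a00006d793500016d793600006d7936000136bc9c)) (.lf 0))⟩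

/-- Table. -/
def f727 : Fc := ⟨14, [400, 0], 22, .nd (.nd (.nd (.lf 0) (.nd (.lf 0) (.lf 0x2500000100016d7936))) (.lf 0)) (.lf 0)⟩

/-- Table. -/
def f728 : Fc := ⟨14, [401, 501], 21, .nd (.lf 0) (.nd (.nd (.nd (.lf 0) (.lf 0x700000100066d79360001a435d000056d793600046d7936)) (.lf 0x1c000002)) (.lf 0))⟩

/-- Table. -/
def f729 : Fc := ⟨14, [401, 503], 21, .nd (.nd (.nd (.nd (.lf 0) (.lf 0x4000001000536bc9b0004a435d0000536bc9b0001a435d1)) (.lf 0)) (.nd (.nd (.lf 0) (.lf 0x19000002)) (.lf 0))) (.lf 0)⟩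

/-- Table. -/
def f730 : Fc := ⟨14, [401, 400], 14, .nd (.lf 0x6daf26b) (.nd (.nd (.nd (.lf 0) (.lf 0x5daf26b)) (.lf 0x2daf26b)) (.nd (.nd (.lf 0xdaf26b) (.lf 0x8000002)) (.lf 0)))⟩

/-- Table. -/
def f731 : Fc := ⟨14, [401, 400, 402], 14, .nd (.lf 0x3daf26b) (.nd (.lf 0) (.nd (.nd (.lf 0) (.lf 0x5000002)) (.lf 0)))⟩

/-- Table. -/
def f732 : Fc := ⟨14, [401, 400, 402, 401], 14, .nd (.lf 0xdaf26b) (.nd (.lf 0) (.nd (.nd (.lf 0) (.lf 0x2000002)) (.lf 0)))⟩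

/-- Table. -/
def f733 : Fc := ⟨14, [401, 402], 14, .nd (.lf 0x6000002) (.nd (.nd (.nd (.lf 0) (.lf 0xadaf26b)) (.lf 0x100000100006d7937)) (.nd (.nd (.lf 0xdaf26b) (.lf 0x9000002)) (.lf 0)))⟩

/-- Table. -/
def f734 : Fc := ⟨14, [401, 402, 401], 14, .nd (.lf 0) (.nd (.nd (.lf 0) (.lf 0x100000100036d7937)) (.nd (.nd (.lf 0x3daf26b) (.lf 0x9daf26b)) (.lf 0)))⟩

/-- Table. -/
def f735 : Fc := ⟨14, [401, 402, 401, 400], 14, .nd (.lf 0) (.nd (.nd (.lf 0) (.lf 0x200000100066d7936)) (.nd (.nd (.lf 0x6000002) (.lf 0x5daf26b)) (.lf 0)))⟩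

/-- Table. -/
def f736 : Fc := ⟨14, [401, 102], 22, .nd (.nd (.nd (.nd (.lf 0) (.lf 0x8000001000336bc9b000436bc9b000636bc9b000036bc9b000788d7830000a435d00007521ae80000a435d00001521ae9)) (.lf 0)) (.lf 0)) (.nd (.nd (.lf 0) (.lf 0xb00000100006d793500006d7935000000000100006d793600096d793500006d793500006d7935000000000100006d79360001daf26a00006d79350001a435d000006d793600006d79360000daf26a00006d7935000100000100006d7936000136bc9c)) (.lf 0))⟩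

/-- Table. -/
def f737 : Fc := ⟨14, [401, 0], 22, .nd (.nd (.nd (.lf 0) (.nd (.lf 0) (.lf 0x27000002))) (.lf 0)) (.lf 0)⟩

/-- Table. -/
def f738 : Fc := ⟨14, [402, 501], 21, .nd (.nd (.lf 0) (.lf 0x7000001000136bc9b0003a435d0000536bc9b0007a435d00000a435d1)) (.lf 0)⟩

/-- Table. -/
def f739 : Fc := ⟨14, [402, 502], 21, .nd (.nd (.nd (.nd (.lf 0) (.lf 0x1a000002)) (.lf 0)) (.nd (.nd (.lf 0) (.lf 0x1b000002)) (.lf 0))) (.nd (.lf 0) (.nd (.nd (.lf 0) (.lf 0x300000100016d793600016d793500056d7936000a6d79350000a435d1)) (.lf 0)))⟩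

/-- Table. -/
def f740 : Fc := ⟨14, [402, 503], 21, .nd (.lf 0) (.nd (.nd (.lf 0) (.lf 0x17000002)) (.lf 0))⟩

/-- Table. -/
def f741 : Fc := ⟨14, [402, 401], 14, .nd (.nd (.nd (.lf 0x3daf26b) (.lf 0x10006daf26b)) (.lf 0)) (.nd (.nd (.nd (.lf 0) (.lf 0xb000002)) (.lf 0x100000100066d7937)) (.nd (.nd (.lf 0x6daf26b) (.lf 0xadaf26b)) (.lf 0)))⟩

/-- Table. -/
def f742 : Fc := ⟨14, [402, 401, 400], 14, .nd (.lf 0x6000002) (.nd (.nd (.nd (.lf 0) (.lf 0xa00000100006d7936)) (.lf 0x600000100036d7936)) (.nd (.nd (.lf 0x3000002) (.lf 0x8daf26b)) (.lf 0)))⟩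

/-- Table. -/
def f743 : Fc := ⟨14, [402, 401, 400, 402], 14, .nd (.lf 0x3000002) (.nd (.lf 0) (.nd (.nd (.lf 0) (.lf 0x5daf26b)) (.lf 0)))⟩

/-- Table. -/
def f744 : Fc := ⟨14, [402, 401, 400, 402, 401], 14, .nd (.lf 2) (.nd (.lf 0) (.nd (.nd (.lf 0) (.lf 0x2daf26b)) (.lf 0)))⟩

/-- Table. -/
def f745 : Fc := ⟨14, [402, 401, 402], 14, .nd (.lf 0x6daf26b) (.nd (.nd (.nd (.lf 0) (.lf 0xbdaf26b)) (.lf 0x100000100036d7937)) (.nd (.nd (.lf 0x3daf26b) (.lf 0x9daf26b)) (.lf 0)))⟩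

/-- Table. -/
def f746 : Fc := ⟨14, [402, 401, 402, 401], 14, .nd (.lf 0) (.nd (.nd (.lf 0) (.lf 0x100000100006d7937)) (.nd (.nd (.lf 0xdaf26b) (.lf 0x9000002)) (.lf 0)))⟩

/-- Table. -/
def f747 : Fc := ⟨14, [402, 401, 402, 401, 400], 14, .nd (.lf 0) (.nd (.nd (.lf 0) (.lf 0x1daf26a00006d7936)) (.nd (.nd (.lf 2) (.lf 0x5000002)) (.lf 0)))⟩

/-- Table. -/
def f748 : Fc := ⟨14, [402, 101], 22, .nd (.nd (.nd (.nd (.lf 0) (.lf 0x2b000002)) (.lf 0)) (.lf 0)) (.nd (.nd (.lf 0) (.lf 0x2c000002)) (.lf 0))⟩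

/-- Table. -/
def f749 : Fc := ⟨21, [400, 500], 30, .nd (.lf 0) (.nd (.nd (.lf 0) (.nd (.lf 0) (.nd (.lf 0) (.lf 0xdaf26a0001daf26a00006d79350004daf26a00096d793600096d793500086d793500096d793600026d7935000e6d793600026d7936000f6d793500016d793500016d793600086d7936)))) (.lf 0))⟩

/-- Table. -/
def f750 : Fc := ⟨21, [400, 503], 30, .nd (.nd (.nd (.nd (.nd (.lf 0) (.lf 0x490000010001000001000cdaf26b)) (.lf 0)) (.lf 0)) (.lf 0)) (.nd (.nd (.lf 0) (.nd (.nd (.lf 0) (.lf 0x59000002)) (.nd (.lf 0) (.lf 0x4d00000100006d793600016d793600016d7935000a6d7936)))) (.lf 0))⟩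

/-- Table. -/
def f751 : Fc := ⟨21, [400, 0], 29, .nd (.nd (.nd (.lf 0) (.nd (.lf 0) (.nd (.lf 0) (.lf 0x3e00000100006d793600036d79360000a435d1)))) (.lf 0)) (.nd (.lf 0) (.nd (.lf 0) (.nd (.nd (.lf 0) (.lf 0x40000002)) (.lf 0))))⟩

/-- Table. -/
def f752 : Fc := ⟨21, [401, 501], 30, .nd (.nd (.lf 0) (.nd (.nd (.lf 0) (.lf 0x22000001001bdaf26a0002daf26a000e0000010002000001000adaf26b)) (.lf 0))) (.nd (.nd (.lf 0) (.nd (.lf 0) (.nd (.lf 0) (.lf 0x600000100016d793500096d793500006d793600076d793600006d793600016d79360000521ae8000688d78300010000010000521ae8000388d78300016d793600006d793600016d793600016d793400016d79350000521ae8000788d78300046d79360001daf26a00016d79350000521ae8000888d78300016d79350001000001000a6d7937)))) (.lf 0))⟩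

/-- Table. -/
def f753 : Fc := ⟨21, [401, 502], 30, .nd (.lf 0) (.nd (.nd (.lf 0) (.nd (.lf 0) (.nd (.lf 0) (.lf 0x500000100006d7936000b6d793600006d793500056d793500006d793500026d7935000088d7830004521ae800016d79360001daf26a000088d7830003521ae800006d793500036d79350003000001000088d7830008521ae800016d79360001daf26a0003000001000088d7830007521ae800046d793500016d793500086d7937)))) (.lf 0))⟩

/-- Table. -/
def f754 : Fc := ⟨21, [401, 503], 30, .nd (.lf 0) (.nd (.nd (.nd (.nd (.lf 0) (.lf 0x58000002)) (.lf 0)) (.nd (.lf 0) (.nd (.lf 0) (.lf 0x1f00000100006d793500016d793500186d793600006d793500016d7935000e6d793600006d793600016d7936000c6d7936)))) (.lf 0))⟩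

/-- Table. -/
def f755 : Fc := ⟨21, [401, 400], 21, .nd (.nd (.nd (.nd (.lf 0xc000002) (.lf 0x2daf26b)) (.lf 0x50000010004daf26b)) (.nd (.nd (.nd (.lf 0) (.lf 0x8daf26b)) (.lf 0x4daf26b)) (.lf 0xdaf26b))) (.nd (.nd (.nd (.lf 0x50000010001daf26b) (.lf 0x3daf26b)) (.lf 0)) (.nd (.nd (.nd (.lf 0xf000002) (.lf 0xbdaf26b)) (.lf 0x5daf26b)) (.nd (.nd (.lf 0x1daf26b) (.lf 0xf000001000036bc9b000036bc9b0006a435d1)) (.lf 0))))⟩

/-- Table. -/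
def f756 : Fc := ⟨21, [401, 400, 402], 21, .nd (.nd (.nd (.nd (.lf 0x6000002) (.lf 0x1daf26b)) (.lf 0xa0000010005daf26b)) (.nd (.nd (.nd (.lf 0) (.lf 0xedaf26b)) (.lf 0x5daf26b)) (.lf 2))) (.nd (.nd (.nd (.lf 0xa0000010002daf26b) (.lf 0x3000002)) (.lf 0)) (.nd (.nd (.nd (.lf 0x9000002) (.lf 0x11daf26b)) (.lf 0x4daf26b)) (.lf 0x2daf26b)))⟩

/-- Table. -/
def f757 : Fc := ⟨21, [401, 400, 402, 401], 21, .nd (.nd (.nd (.nd (.lf 2) (.lf 0x7daf26b)) (.lf 0x5000001000bdaf26b)) (.nd (.nd (.nd (.lf 0) (.lf 0xddaf26b)) (.lf 0xbdaf26b)) (.lf 0x6000002))) (.nd (.nd (.nd (.lf 0x50000010008daf26b) (.lf 0x9000002)) (.lf 0)) (.nd (.nd (.nd (.lf 0x3000002) (.lf 0x10daf26b)) (.lf 0xadaf26b)) (.lf 0x8daf26b)))⟩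

/-- Table. -/
def f758 : Fc := ⟨21, [401, 402], 21, .nd (.nd (.nd (.nd (.lf 0xc000002) (.lf 0x1000002)) (.lf 0x10000002)) (.nd (.nd (.nd (.lf 0) (.lf 0x14daf26b)) (.lf 0x5000002)) (.lf 0xdaf26b))) (.nd (.nd (.nd (.lf 0xd000002) (.lf 0x3daf26b)) (.lf 0)) (.nd (.nd (.nd (.lf 0xf000002) (.lf 0x15daf26b)) (.lf 0x4000002)) (.lf 0x2000002)))⟩

/-- Table. -/
def f759 : Fc := ⟨21, [401, 402, 401], 21, .nd (.nd (.nd (.nd (.lf 0xcdaf26b) (.lf 0x7000002)) (.lf 0x11000002)) (.nd (.nd (.nd (.lf 0) (.lf 0x1daf26a0012000002)) (.lf 0xb000002)) (.lf 0x6daf26b))) (.nd (.nd (.nd (.lf 0xe000002) (.lf 0x9daf26b)) (.lf 0)) (.nd (.nd (.nd (.lf 0xfdaf26b) (.lf 0x1daf26a0013000002)) (.lf 0xa000002)) (.lf 0x8000002)))⟩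

/-- Table. -/
def f760 : Fc := ⟨21, [401, 402, 401, 400], 21, .nd (.nd (.nd (.nd (.lf 0x6daf26b) (.lf 0x50000010001daf26b)) (.lf 0x15000002)) (.nd (.nd (.nd (.lf 0) (.lf 0x5daf26a0008000002)) (.lf 0x13000002)) (.lf 0xcdaf26b))) (.nd (.nd (.nd (.lf 0x14000002) (.lf 0xfdaf26b)) (.lf 0)) (.nd (.nd (.nd (.lf 0x9daf26b) (.lf 0x5daf26a000b000002)) (.lf 0x50000010004daf26b)) (.lf 0x12000002)))⟩

/-- Table. -/
def f761 : Fc := ⟨21, [401, 0], 29, .nd (.nd (.lf 0) (.nd (.nd (.lf 0) (.nd (.lf 0) (.lf 0x44000002))) (.lf 0))) (.nd (.lf 0) (.nd (.lf 0) (.nd (.nd (.lf 0) (.lf 0x11000001000e36bc9b000da435d0000e36bc9b0001a435d1)) (.lf 0))))⟩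

/-- Table. -/
def f762 : Fc := ⟨21, [402, 501], 30, .nd (.lf 0) (.nd (.nd (.lf 0) (.nd (.lf 0) (.nd (.lf 0) (.lf 0x200000100056d793600096d793500096d793600086d793600096d793500026d7936000e6d793500026d7935000d6d793600006d793500006d793600016d7936000a6d7936)))) (.lf 0))⟩

/-- Table. -/
def f763 : Fc := ⟨21, [402, 502], 30, .nd (.nd (.nd (.nd (.nd (.lf 0) (.lf 0x5e000002)) (.lf 0)) (.lf 0)) (.lf 0)) (.nd (.nd (.nd (.nd (.lf 0) (.lf 0xc0000010019daf26a0001daf26a000f0000010001000001001edaf26b)) (.lf 0)) (.nd (.nd (.lf 0) (.lf 0xc0000010007daf26a0002daf26a000036bc9b0004a435d000010000010001daf269000036bc9b0006a435d00001daf26a0003000002000036bc9b000aa435d00001daf26a0003000002000036bc9b000aa435d00001daf26a000adaf26b)) (.nd (.lf 0) (.lf 0x5000000100016d793500006d793500016d793600016d793600086d7937)))) (.lf 0))⟩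

/-- Table. -/
def f764 : Fc := ⟨21, [402, 503], 30, .nd (.nd (.lf 0) (.nd (.nd (.lf 0) (.nd (.lf 0x58000002) (.lf 0x5b000002))) (.lf 0))) (.nd (.nd (.lf 0) (.nd (.lf 0) (.nd (.lf 0) (.lf 0x4d00000100006d793600016d793600016d7935000a6d7936)))) (.lf 0))⟩

/-- Table. -/
def f765 : Fc := ⟨21, [402, 401], 21, .nd (.nd (.nd (.nd (.lf 0x6daf26b) (.nd (.lf 0xd000002) (.lf 0x700000100066d79360001a435d000056d793600046d7936))) (.lf 0xb000002)) (.nd (.nd (.nd (.lf 0) (.lf 0x10000010012daf26b)) (.lf 0x11000002)) (.lf 0xcdaf26b))) (.nd (.nd (.nd (.lf 0x8000002) (.lf 0xfdaf26b)) (.lf 0)) (.nd (.nd (.nd (.lf 0x9daf26b) (.lf 0x10000010013daf26b)) (.lf 0x10000002)) (.nd (.nd (.lf 0xe000002) (.lf 0x1c000002)) (.lf 0))))⟩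

/-- Table. -/
def f766 : Fc := ⟨21, [402, 401, 400], 21, .nd (.nd (.nd (.nd (.lf 0xcdaf26b) (.lf 0xa0000010002daf26b)) (.lf 0x13000002)) (.nd (.nd (.nd (.lf 0) (.lf 0x50000010008daf26b)) (.lf 0x15000002)) (.lf 0x6daf26b))) (.nd (.nd (.nd (.lf 0x12000002) (.lf 0x9daf26b)) (.lf 0)) (.nd (.nd (.nd (.lf 0xfdaf26b) (.lf 0x5000001000bdaf26b)) (.lf 0xa0000010005daf26b)) (.nd (.nd (.lf 0x14000002) (.lf 0x1600000100006d793600036d79360000a435d1)) (.lf 0))))⟩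

/-- Table. -/
def f767 : Fc := ⟨21, [402, 401, 400, 402], 21, .nd (.nd (.nd (.nd (.lf 0x6daf26b) (.lf 0x50000010001daf26b)) (.lf 0x15000002)) (.nd (.nd (.nd (.lf 0) (.lf 0x5daf26a0008000002)) (.lf 0x13000002)) (.lf 0xcdaf26b))) (.nd (.nd (.nd (.lf 0x14000002) (.lf 0xfdaf26b)) (.lf 0)) (.nd (.nd (.nd (.lf 0x9daf26b) (.lf 0x5daf26a000b000002)) (.lf 0x50000010004daf26b)) (.lf 0x12000002)))⟩

/-- Table. -/
def f768 : Fc := ⟨21, [402, 401, 400, 402, 401], 21, .nd (.nd (.nd (.nd (.lf 0xdaf26b) (.lf 0x5daf26a0001000002)) (.lf 0x10000010013daf26b)) (.nd (.nd (.nd (.lf 0) (.lf 0xadaf26a0002000002)) (.lf 0x13daf26b)) (.lf 0xc000002))) (.nd (.nd (.nd (.lf 0x10000010012daf26b) (.lf 0xf000002)) (.lf 0)) (.nd (.nd (.nd (.lf 0x3daf26b) (.lf 0xadaf26a0005000002)) (.lf 0x5daf26a0004000002)) (.lf 0x12daf26b)))⟩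

/-- Table. -/
def f769 : Fc := ⟨21, [402, 401, 402], 21, .nd (.nd (.nd (.nd (.lf 0xcdaf26b) (.lf 0x7000002)) (.lf 0x11000002)) (.nd (.nd (.nd (.lf 0) (.lf 0x1daf26a0012000002)) (.lf 0xb000002)) (.lf 0x6daf26b))) (.nd (.nd (.nd (.lf 0xe000002) (.lf 0x9daf26b)) (.lf 0)) (.nd (.nd (.nd (.lf 0xfdaf26b) (.lf 0x1daf26a0013000002)) (.lf 0xa000002)) (.lf 0x8000002)))⟩

/-- Table. -/
def f770 : Fc := ⟨21, [402, 401, 402, 401], 21, .nd (.nd (.nd (.nd (.lf 0xc000002) (.lf 0x1000002)) (.lf 0x10000002)) (.nd (.nd (.nd (.lf 0) (.lf 0x14daf26b)) (.lf 0x5000002)) (.lf 0xdaf26b))) (.nd (.nd (.nd (.lf 0xd000002) (.lf 0x3daf26b)) (.lf 0)) (.nd (.nd (.nd (.lf 0xf000002) (.lf 0x15daf26b)) (.lf 0x4000002)) (.lf 0x2000002)))⟩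

/-- Table. -/
def f771 : Fc := ⟨21, [402, 401, 402, 401, 400], 21, .nd (.nd (.nd (.nd (.lf 0x6000002) (.lf 0x1daf26b)) (.lf 0xa0000010005daf26b)) (.nd (.nd (.nd (.lf 0) (.lf 0xedaf26b)) (.lf 0x5daf26b)) (.lf 2))) (.nd (.nd (.nd (.lf 0xa0000010002daf26b) (.lf 0x3000002)) (.lf 0)) (.nd (.nd (.nd (.lf 0x9000002) (.lf 0x11daf26b)) (.lf 0x4daf26b)) (.lf 0x2daf26b)))⟩

/-- Table. -/
def f772 : Fc := ⟨21, [402, 101], 29, .nd (.lf 0) (.nd (.nd (.nd (.lf 0) (.lf 0x4d00000100016d793500016d793600076d7937)) (.lf 0)) (.lf 0))⟩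

/-- Table. -/
def f773 : Fc := ⟨21, [402, 0], 29, .nd (.nd (.nd (.nd (.lf 0) (.nd (.lf 0) (.lf 0x43000002))) (.nd (.lf 0) (.nd (.lf 0) (.lf 0xf000001000636bc9b000ca435d0000e36bc9b0010a435d00000a435d1)))) (.lf 0)) (.nd (.lf 0) (.nd (.lf 0) (.nd (.nd (.lf 0) (.lf 0x42000002)) (.lf 0))))⟩

/-- Table. -/
def f774 : Fc := ⟨22, [302, 400], 26, .nd (.lf 0) (.nd (.nd (.lf 0) (.nd (.nd (.nd (.lf 0) (.lf 0x6000002)) (.lf 0)) (.lf 0))) (.lf 0))⟩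

/-- Table. -/
def f775 : Fc := ⟨22, [400, 500], 29, .nd (.nd (.nd (.nd (.lf 0) (.lf 0x4a0000010000daf26a0000daf26a00006d793600006d793600006d793600016d793600006d79360000a435d00004a435d1)) (.lf 0)) (.nd (.lf 0) (.lf 0x48000001000edaf26b))) (.lf 0)⟩

/-- Table. -/
def f776 : Fc := ⟨22, [400, 502], 29, .nd (.nd (.nd (.nd (.nd (.lf 0) (.lf 0x100000100000000010006daf26a00000000010001daf26a0000daf26a00090000010000daf2670000000002000000000600000000010000daf26a0000daf26a00006d79330000daf26a000136bc9c0000daf26a0000000001000000000100006d793800000000010001a435cf0000daf26a0000000001000000000100006d79300004daf2680005a435d300000000010000daf26a0000daf26a00006d793b0004000003000536bc9800000000040000daf2690000daf26500006d7938000000000100006d793b00020000030000a435cf000436bc99)) (.lf 0)) (.lf 0)) (.lf 0)) (.nd (.nd (.lf 0) (.nd (.lf 0) (.nd (.lf 0) (.lf 0x52000002))))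 (.nd (.lf 0) (.nd (.lf 0) (.nd (.lf 0x55000002) (.lf 0x54000002)))))⟩

/-- Table. -/
def f777 : Fc := ⟨22, [400, 503], 29, .nd (.nd (.nd (.nd (.lf 0) (.nd (.nd (.lf 0) (.lf 0x4000000100010000010000daf269000100000200006d7937000000000100016d79350000daf26a000036bc9a000336bc9c)) (.lf 0x4a000002))) (.lf 0)) (.nd (.nd (.nd (.nd (.lf 0) (.lf 0x48000002)) (.lf 0)) (.nd (.nd (.lf 0) (.lf 0x50000002)) (.lf 0x4c000002))) (.nd (.nd (.nd (.lf 0) (.lf 0x400000010000daf26a0001daf26a00016d793600016d793600066d7937)) (.lf 0)) (.lf 0)))) (.nd (.nd (.nd (.nd (.nd (.lf 0) (.lf 0x47000002)) (.lf 0)) (.nd (.lf 0) (.lf 0x4b000002))) (.nd (.nd (.nd (.lf 0) (.lf 0x100000100000000010001daf26a0000daf26a00090000010000daf2680000000002000000000400000000030000daf2690004daf26700000000020000daf26a0000daf26800006d793a00000000020001a435ce0000daf268000000000200000000040000daf2650004daf26800050000030000daf2690000000001000000000300006d79370004000001000536bc9a00000000020000daf26a0000daf26800006d79340004daf26a0005a435d2))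 (.lf 0)) (.lf 0))) (.nd (.nd (.nd (.nd (.lf 0) (.lf 0x49000002)) (.lf 0)) (.lf 0)) (.lf 0)))⟩

/-- Table. -/
def f778 : Fc := ⟨22, [400, 300], 26, .nd (.nd (.nd (.nd (.nd (.lf 0) (.lf 0x100000100016d793600006d793500006d79370000daf26a00006d7935000000000100006d79360001daf26a0005000002)) (.lf 0)) (.nd (.lf 0) (.lf 0x10000002))) (.lf 0)) (.lf 0)⟩

/-- Table. -/
def f779 : Fc := ⟨22, [400, 401], 22, .nd (.lf 0) (.nd (.nd (.lf 0) (.nd (.nd (.nd (.lf 0) (.lf 0x22000002)) (.lf 0)) (.lf 0))) (.lf 0))⟩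

/-- Table. -/
def f780 : Fc := ⟨22, [400, 401, 400], 22, .nd (.lf 0) (.nd (.nd (.lf 0) (.nd (.nd (.nd (.lf 0) (.lf 0x19000002)) (.lf 0)) (.lf 0))) (.lf 0))⟩

/-- Table. -/
def f781 : Fc := ⟨22, [400, 401, 400, 402], 22, .nd (.lf 0) (.nd (.nd (.lf 0) (.nd (.nd (.nd (.lf 0) (.lf 0x10000002)) (.lf 0)) (.lf 0))) (.lf 0))⟩

/-- Table. -/
def f782 : Fc := ⟨22, [400, 401, 400, 402, 401], 22, .nd (.lf 0) (.nd (.nd (.lf 0) (.nd (.nd (.nd (.lf 0) (.lf 0x7000002)) (.lf 0)) (.lf 0))) (.lf 0))⟩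

/-- Table. -/
def f783 : Fc := ⟨22, [400, 401, 402], 22, .nd (.lf 0) (.nd (.nd (.lf 0) (.nd (.nd (.nd (.lf 0) (.lf 0x1e000002)) (.lf 0)) (.lf 0))) (.lf 0))⟩

/-- Table. -/
def f784 : Fc := ⟨22, [400, 401, 402, 401], 22, .nd (.lf 0) (.nd (.nd (.lf 0) (.nd (.nd (.nd (.lf 0) (.lf 0x1edaf26b)) (.lf 0)) (.lf 0))) (.lf 0))⟩

/-- Table. -/
def f785 : Fc := ⟨22, [400, 401, 402, 401, 400], 22, .nd (.lf 0) (.nd (.nd (.lf 0) (.nd (.nd (.nd (.lf 0) (.lf 0x10daf26b)) (.lf 0)) (.lf 0))) (.lf 0))⟩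

/-- Table. -/
def f786 : Fc := ⟨22, [400, 402], 22, .nd (.lf 0) (.nd (.nd (.lf 0) (.nd (.nd (.nd (.lf 0) (.lf 0x2daf26a0000daf26a00020000010000daf269000000000200020000020000daf269000000000200000000020005daf2690000daf26a00010000010005daf26900000000010001daf26a0004000003)) (.lf 0)) (.lf 0))) (.lf 0))⟩

/-- Table. -/
def f787 : Fc := ⟨22, [400, 402, 401], 22, .nd (.lf 0) (.nd (.nd (.lf 0) (.nd (.nd (.nd (.lf 0) (.lf 0x22daf26b)) (.lf 0)) (.lf 0))) (.lf 0))⟩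

/-- Table. -/
def f788 : Fc := ⟨22, [400, 402, 401, 400], 22, .nd (.lf 0) (.nd (.nd (.lf 0) (.nd (.nd (.nd (.lf 0) (.lf 0x19daf26b)) (.lf 0)) (.lf 0))) (.lf 0))⟩

/-- Table. -/
def f789 : Fc := ⟨22, [400, 0], 30, .nd (.nd (.nd (.nd (.lf 0) (.nd (.nd (.lf 0) (.lf 0x450000010001daf26500010000060001daf26500010000010000daf26a0003000002)) (.lf 0))) (.nd (.lf 0) (.nd (.nd (.lf 0) (.lf 0x4900000100010000030001daf268000000000300006d79360000daf26a00016d79360000daf26a00006d7936000136bc9c)) (.lf 0)))) (.nd (.nd (.lf 0) (.nd (.nd (.lf 0) (.lf 0x53000002)) (.lf 0))) (.lf 0))) (.nd (.nd (.nd (.lf 0) (.nd (.nd (.lf 0) (.lf 0x54000002)) (.lf 0))) (.lf 0)) (.nd (.nd (.lf 0) (.nd (.nd (.lf 0) (.lf 0x480000010001daf26800010000030000daf26800006d793600006d79360001daf26a00006d793600006d7936000136bc9c)) (.lf 0))) (.nd (.nd (.nd (.lf 0) (.lf 0x4f00000100016d7936)) (.lf 0))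 (.lf 0))))⟩

/-- Table. -/
def f790 : Fc := ⟨22, [401, 501], 29, .nd (.nd (.nd (.nd (.nd (.lf 0) (.lf 0x300000100000000010009daf26a0000daf26a00090000010000daf2690000000001000000000300000000020000daf26a0004daf2680000daf2690000000001000400000300010000010000daf26900006d79340000daf26a00006d793900020000020000a435d1000436bc990001daf26a000000000200006d7937000000000100006d79320002daf269000036bc9a0004a435d200010000010000daf26900006d79340000daf26a00006d793900020000020000a435d1000436bc9a)) (.lf 0)) (.lf 0)) (.lf 0)) (.nd (.nd (.nd (.nd (.lf 0) (.lf 0x58000002)) (.lf 0)) (.nd (.lf 0) (.nd (.lf 0) (.lf 0x210000010033daf26b)))) (.nd (.lf 0) (.nd (.lf 0) (.nd (.lf 0x57000002) (.lf 0x230000010000daf26a0000daf26a00006d793600006d79360009a435d0000b6d793600006d793600036d79360009a435d000006d793500036d7935000436bc9c)))))⟩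

/-- Table. -/
def f791 : Fc := ⟨22, [401, 502], 29, .nd (.nd (.lf 0) (.nd (.lf 0) (.lf 0x52000002))) (.lf 0)⟩

/-- Table. -/
def f792 : Fc := ⟨22, [401, 503], 29, .nd (.nd (.nd (.nd (.lf 0) (.nd (.lf 0) (.lf 0x48000002))) (.lf 0)) (.nd (.nd (.nd (.nd (.lf 0) (.lf 0x100000100000000010001daf26a0000daf26a00090000010000daf2680000000002000000000400000000030000daf2690004daf26700000000020000daf26a0000daf26800006d793a00000000020001a435ce0000daf268000000000200000000040000daf2650004daf26800050000030000daf2690000000001000000000300006d79370004000001000536bc9a00000000020000daf26a0000daf26800006d79340004daf26a0005a435d2)) (.lf 0)) (.nd (.nd (.lf 0) (.lf 0x1d00000100010000010000daf26900010000020008daf26a00036d7935000836bc9b00006d79370003000001000936bc9a00006d79340003daf26a0004a435d2)) (.lf 0x160000010000daf26a0001daf26a000a6d7936000c6d7936000e6d793600086d7936)))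 (.nd (.nd (.nd (.lf 0) (.lf 0x4c000002)) (.lf 0)) (.lf 0)))) (.nd (.nd (.nd (.nd (.nd (.lf 0) (.lf 0x4d000002)) (.lf 0)) (.nd (.nd (.lf 0) (.lf 0x4f000002)) (.lf 0x47000002))) (.nd (.nd (.nd (.lf 0) (.lf 0x4a000002)) (.lf 0)) (.lf 0))) (.nd (.nd (.nd (.nd (.lf 0) (.lf 0x4e000002)) (.lf 0)) (.lf 0)) (.lf 0)))⟩

/-- Table. -/
def f793 : Fc := ⟨22, [401, 400], 22, .nd (.nd (.nd (.nd (.nd (.lf 0) (.lf 0x7daf26b)) (.lf 0)) (.nd (.nd (.nd (.lf 0) (.lf 0x14000002)) (.lf 0)) (.nd (.lf 0x3daf26b) (.lf 0xedaf26b)))) (.nd (.lf 0) (.nd (.nd (.nd (.lf 0x1d000002) (.lf 0x1a000002)) (.lf 0)) (.nd (.lf 0x5daf26b) (.lf 0x10daf26b))))) (.nd (.nd (.nd (.lf 0) (.lf 0xdaf26b)) (.nd (.nd (.nd (.lf 0) (.lf 0x18000002)) (.lf 0)) (.lf 0x4daf26b))) (.nd (.nd (.lf 0x15daf26b) (.nd (.lf 0x2daf26b) (.lf 0xbdaf26b))) (.nd (.lf 0) (.lf 0x6daf26b))))⟩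

/-- Table. -/
def f794 : Fc := ⟨22, [401, 400, 402], 22, .nd (.nd (.nd (.lf 0) (.nd (.nd (.nd (.lf 0) (.lf 0xb000002)) (.lf 0)) (.nd (.lf 0) (.lf 0x17daf26b)))) (.nd (.lf 0) (.nd (.nd (.nd (.lf 0) (.lf 0x11000002)) (.lf 0)) (.lf 0x4daf26b)))) (.nd (.nd (.lf 0) (.nd (.nd (.nd (.lf 0) (.lf 0xf000002)) (.lf 0)) (.lf 0x5daf26b))) (.nd (.lf 0xcdaf26b) (.nd (.lf 0) (.lf 0x7daf26b))))⟩

/-- Table. -/
def f795 : Fc := ⟨22, [401, 400, 402, 401], 22, .nd (.nd (.nd (.lf 0) (.nd (.nd (.nd (.lf 0) (.lf 0x2000002)) (.lf 0)) (.nd (.lf 0) (.lf 0x16daf26b)))) (.nd (.lf 0) (.nd (.nd (.nd (.lf 0) (.lf 0x8000002)) (.lf 0)) (.lf 0xddaf26b)))) (.nd (.nd (.lf 0) (.nd (.nd (.nd (.lf 0) (.lf 0x6000002)) (.lf 0)) (.lf 0xedaf26b))) (.nd (.lf 0x3daf26b) (.nd (.lf 0) (.lf 0x10daf26b))))⟩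

/-- Table. -/
def f796 : Fc := ⟨22, [401, 402], 22, .nd (.nd (.nd (.nd (.nd (.lf 0x12000002) (.lf 0x6000002)) (.lf 0)) (.nd (.nd (.nd (.lf 0x16000002) (.lf 0x1b000002)) (.lf 0)) (.nd (.lf 0x3daf26b) (.lf 0x6d793400026d793700006d793400006d7937000200000100006d793400006d793700000000010005daf26900006d793400006d793700000000010007daf26900000000010004000002)))) (.nd (.lf 0) (.nd (.nd (.nd (.lf 0x18000002) (.lf 0x1f000002)) (.lf 0)) (.lf 0x4000002)))) (.nd (.nd (.nd (.lf 0) (.lf 0xdaf26b)) (.nd (.nd (.nd (.lf 0) (.lf 0x1d000002)) (.lf 0)) (.nd (.lf 0x5000002) (.lf 0x21daf26b)))) (.nd (.nd (.lf 0x15000002) (.nd (.lf 0x100000100006d7937) (.lf 0x20daf26b))) (.nd (.lf 0) (.lf 0x7000002))))⟩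

/-- Table. -/
def f797 : Fc := ⟨22, [401, 402, 401], 22, .nd (.nd (.nd (.nd (.nd (.lf 0) (.lf 0xf000002)) (.lf 0)) (.nd (.nd (.nd (.lf 0x17000002) (.lf 0x1bdaf26b)) (.lf 0)) (.nd (.lf 0xcdaf26b) (.lf 0x6d793400026d793700006d793400006d7937000200000200006d793400006d793700000000010005daf26900006d793400006d793700000000010007daf26900000000010004000002)))) (.nd (.lf 0) (.nd (.nd (.nd (.lf 0x19000002) (.lf 0x1fdaf26b)) (.lf 0)) (.lf 0xd000002)))) (.nd (.nd (.nd (.lf 0) (.lf 0x9daf26b)) (.nd (.nd (.nd (.lf 0) (.lf 0x1ddaf26b)) (.lf 0)) (.lf 0xe000002))) (.nd (.nd (.lf 0x15daf26b) (.nd (.lf 0) (.lf 0x24daf26b))) (.lf 0)))⟩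

/-- Table. -/
def f798 : Fc := ⟨22, [401, 402, 401, 400], 22, .nd (.nd (.nd (.nd (.nd (.lf 0) (.lf 0x1d000002)) (.lf 0)) (.nd (.nd (.nd (.lf 0x6d793700026d793400006d793700006d79340002daf26a00006d793700006d79340000daf26a000500000200006d793700006d79340000daf26a00070000020000daf26a0004daf26b) (.lf 0xbdaf26b)) (.lf 0)) (.nd (.lf 0x15000002) (.lf 0x8daf26a000e000002)))) (.nd (.lf 0) (.nd (.nd (.nd (.lf 0x22000002) (.lf 0x11daf26b)) (.lf 0)) (.lf 0x80000010004daf26b)))) (.nd (.nd (.nd (.lf 0) (.lf 0x12000002)) (.nd (.nd (.nd (.lf 0) (.lf 0xfdaf26b)) (.lf 0)) (.lf 0x1c000002))) (.nd (.nd (.lf 0xc000002) (.nd (.lf 0) (.lf 0x23daf26a00006d7937))) (.lf 0)))⟩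

/-- Table. -/
def f799 : Fc := ⟨22, [401, 0], 30, .nd (.nd (.nd (.nd (.lf 0) (.nd (.nd (.lf 0) (.lf 0x53000002)) (.lf 0))) (.nd (.lf 0) (.nd (.nd (.lf 0) (.lf 0xd000001000836bc9b000936bc9b000f36bc9b000036bc9b001088d7830000a435d00010521ae80000a435d00001521ae9)) (.lf 0)))) (.nd (.nd (.lf 0) (.nd (.nd (.lf 0) (.lf 0x190000010001daf265000b0000010004000006000adaf26a0005000006000bdaf26a0005daf2650004000002)) (.lf 0))) (.lf 0))) (.nd (.nd (.nd (.lf 0) (.nd (.nd (.lf 0) (.lf 0x52000002)) (.lf 0))) (.lf 0)) (.nd (.nd (.lf 0) (.nd (.nd (.lf 0) (.lf 0x1a000001000000000300006d793500006d7935000000000100096d79350004daf26800086d793600010000030001daf265000000000300006d793500006d7935000100000100006d793500006d79350006a435d00001daf26800010000060000daf26800006d793600006d79360001daf26a00006d793600006d7936000136bc9c)) (.lf 0))) (.nd (.nd (.nd (.lf 0) (.lf 0x51000002))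 (.lf 0)) (.lf 0))))⟩

/-- Table. -/
def f800 : Fc := ⟨22, [402, 501], 29, .nd (.nd (.lf 0) (.nd (.lf 0) (.lf 0x300000100000000010009daf26a0000daf26a00090000010000daf2690000000001000000000300000000020000daf26a0004daf2680000daf2690000000001000400000300010000010000daf26900006d79340000daf26a00006d793900020000020000a435d1000436bc990001daf26a000000000200006d7937000000000100006d79320002daf269000036bc9a0004a435d200010000010000daf26900006d79340000daf26a00006d793900020000020000a435d1000436bc9a))) (.lf 0)⟩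

/-- Table. -/
def f801 : Fc := ⟨22, [402, 502], 29, .nd (.nd (.nd (.nd (.lf 0) (.nd (.nd (.lf 0) (.lf 0x16d793600036d7936000400000100016d7935000a6d79350000daf26a00006d793600006d7937000000000100006d79350000daf26a000136bc9b0001521ae80000daf26a00006d793600000000010001a435d0000188d78300016d793600006d793500006d793500006d79350000a435d200026d7936000036bc9b000488d78200016d793500006d793600006d793600006d7936000036bc9900026d79350000a435d00004521ae9000000000200006d793500006d793200010000010000000003000000000200016d793500006d793500006d7934000336bc9c)) (.lf 0x52000002))) (.lf 0)) (.nd (.nd (.nd (.nd (.lf 0) (.lf 0x100000100000000010006daf26a00000000010001daf26a0000daf26a00090000010000daf2670000000002000000000600000000010000daf26a0000daf26a00006d79330000daf26a000136bc9c0000daf26a0000000001000000000100006d793800000000010001a435cf0000daf26a0000000001000000000100006d79300004daf2680005a435d300000000010000daf26a0000daf26a00006d793b0004000003000536bc9800000000040000daf2690000daf26500006d7938000000000100006d793b00020000030000a435cf000436bc99))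 (.lf 0)) (.nd (.nd (.lf 0) (.lf 0x6d793600006d7936000036bc9c0001a435cf000300000100006d7935000036bc9c0001a435cf00006d793300090000020000daf26600006d793800006d793d0000a435d30000a435ce0000a435cd000088d78100006d79350001290d7500006d793600006d79350000daf26a000036bc9f000036bc9d0001521ae60000daf268000000000300006d79390000daf263000036bc9600001b5e4d0002a435d0000000000400045fca0f0000a435d00000a435d00000a435d100001b5e5300000000030000bf941e000236bc9b00005fca0c00047b285c000000000500006d793300006d792e00001b5e4f00006d793600000000050002a435d300005fca0e00046d7934)) (.lf 0x54000002))) (.nd (.nd (.nd (.lf 0) (.lf 0x110000010000daf26a0003daf26a00006d793600006d79360004a435d000006d793500006d7935000436bc9b00006d793600046d79360008a435d000006d793500046d7935000d36bc9b00066d7937)) (.lf 0)) (.lf 0)))) (.nd (.nd (.nd (.nd (.nd (.lf 0) (.lf 0x55000002)) (.lf 0)) (.nd (.nd (.lf 0)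 (.lf 0x26d7936000036bc9c000036bc9a00050000010000a435cf0000a435d1000e6d7935000036bc990000a435d2000036bc9d0000521ae70000daf26a0001446bc200006d7934000000000100000000020000a435cf000036bc9a00011b5e4e00006d79370000daf26a0000daf269000036bc9c0000a435d100001b5e4d0002a435d00000bf941d00045fca0f0000a435d2000036bc990000a435ce000088d78400000000010000bf941e000236bc9b00009686a900077b285c0000521aea000000000100006d79370002a435d10000b1e4f6000436bc9b)) (.lf 0x53000002))) (.nd (.nd (.nd (.lf 0) (.lf 0xf000001003ddaf26b)) (.lf 0)) (.lf 0))) (.nd (.nd (.nd (.nd (.lf 0) (.lf 0x56000002)) (.lf 0)) (.lf 0)) (.lf 0)))⟩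

/-- Table. -/
def f802 : Fc := ⟨22, [402, 503], 29, .nd (.nd (.nd (.nd (.nd (.lf 0) (.lf 0x48000002)) (.lf 0)) (.lf 0)) (.lf 0)) (.nd (.nd (.lf 0) (.nd (.lf 0) (.nd (.lf 0) (.lf 0x4a000002)))) (.nd (.lf 0) (.nd (.lf 0) (.nd (.lf 0x47000002) (.lf 0x4c000002)))))⟩

/-- Table. -/
def f803 : Fc := ⟨22, [402, 400], 22, .nd (.lf 0) (.nd (.nd (.lf 0) (.nd (.nd (.nd (.lf 0) (.lf 0x2daf26a0000daf26a00020000010000daf269000000000200020000020000daf269000000000200000000020005daf2690000daf26a00010000010005daf26900000000010001daf26a0004000003)) (.lf 0)) (.lf 0))) (.lf 0))⟩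

/-- Table. -/
def f804 : Fc := ⟨22, [402, 400, 401], 22, .nd (.lf 0) (.nd (.nd (.lf 0) (.nd (.nd (.nd (.lf 0) (.lf 0x22daf26b)) (.lf 0)) (.lf 0))) (.lf 0))⟩

/-- Table. -/
def f805 : Fc := ⟨22, [402, 400, 401, 400], 22, .nd (.lf 0) (.nd (.nd (.lf 0) (.nd (.nd (.nd (.lf 0) (.lf 0x19daf26b)) (.lf 0)) (.lf 0))) (.lf 0))⟩

/-- Table. -/
def f806 : Fc := ⟨22, [402, 400, 401, 400, 402], 22, .nd (.lf 0) (.nd (.nd (.lf 0) (.nd (.nd (.nd (.lf 0) (.lf 0x10daf26b)) (.lf 0)) (.lf 0))) (.lf 0))⟩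

/-- Table. -/
def f807 : Fc := ⟨22, [402, 400, 401, 400, 402, 401], 22, .nd (.lf 0) (.nd (.nd (.lf 0) (.nd (.nd (.nd (.lf 0) (.lf 0x7daf26b)) (.lf 0)) (.lf 0))) (.lf 0))⟩

/-- Table. -/
def f808 : Fc := ⟨22, [402, 400, 401, 402], 22, .nd (.lf 0) (.nd (.nd (.lf 0) (.nd (.nd (.nd (.lf 0) (.lf 0x1edaf26b)) (.lf 0)) (.lf 0))) (.lf 0))⟩

/-- Table. -/
def f809 : Fc := ⟨22, [402, 400, 401, 402, 401], 22, .nd (.lf 0) (.nd (.nd (.lf 0) (.nd (.nd (.nd (.lf 0) (.lf 0x1e000002)) (.lf 0)) (.lf 0))) (.lf 0))⟩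

/-- Table. -/
def f810 : Fc := ⟨22, [402, 400, 401, 402, 401, 400], 22, .nd (.lf 0) (.nd (.nd (.lf 0) (.nd (.nd (.nd (.lf 0) (.lf 0x10000002)) (.lf 0)) (.lf 0))) (.lf 0))⟩

/-- Table. -/
def f811 : Fc := ⟨22, [402, 400, 402], 22, .nd (.lf 0) (.nd (.nd (.lf 0) (.nd (.nd (.nd (.lf 0) (.lf 0x200000100000000010002daf26a00000000020000daf2690002daf26900000000020000daf2690000daf269000500000200000000010001daf26a00050000020000daf26a00010000010004daf26a)) (.lf 0)) (.lf 0))) (.lf 0))⟩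

/-- Table. -/
def f812 : Fc := ⟨22, [402, 400, 402, 401], 22, .nd (.lf 0) (.nd (.nd (.lf 0) (.nd (.nd (.nd (.lf 0) (.lf 0x22000002)) (.lf 0)) (.lf 0))) (.lf 0))⟩

/-- Table. -/
def f813 : Fc := ⟨22, [402, 400, 402, 401, 400], 22, .nd (.lf 0) (.nd (.nd (.lf 0) (.nd (.nd (.nd (.lf 0) (.lf 0x19000002)) (.lf 0)) (.lf 0))) (.lf 0))⟩

/-- Table. -/
def f814 : Fc := ⟨22, [402, 401], 22, .nd (.nd (.nd (.nd (.nd (.lf 0x9daf26b) (.lf 0x18000002)) (.lf 0)) (.nd (.nd (.nd (.lf 0xe000002) (.lf 0x20daf26b)) (.lf 0)) (.nd (.lf 0x15daf26b) (.lf 0x6d793700026d793400006d793700006d79340002daf26900006d793700006d79340000daf26a000500000200006d793700006d79340000daf26a00070000020000daf26a0004daf26b)))) (.nd (.nd (.lf 0) (.lf 0x10012daf26b)) (.nd (.nd (.nd (.lf 0x10000002) (.lf 0x23daf26b)) (.lf 0)) (.nd (.lf 0x16000002) (.lf 0x200000100000000010002daf26a00000000020000daf2690002daf26900000000020000daf2690000daf269000500000200000000010001daf26a00050000020000daf26a00010000010004daf26a)))))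 (.nd (.nd (.nd (.nd (.lf 0) (.lf 0x40000010015daf26b)) (.lf 0x12daf26b)) (.nd (.nd (.nd (.lf 0) (.lf 0x21daf26b)) (.lf 0)) (.nd (.lf 0x17000002) (.lf 0x25000002)))) (.nd (.nd (.lf 0xcdaf26b) (.nd (.nd (.lf 0x100000100126d7937) (.lf 0x8000001000336bc9b000436bc9b000636bc9b000036bc9b000788d7830000a435d00007521ae80000a435d00001521ae9)) (.lf 0x24000002))) (.nd (.lf 0) (.nd (.lf 0x19000002) (.lf 0x26000002)))))⟩

/-- Table. -/
def f815 : Fc := ⟨22, [402, 401, 400], 22, .nd (.nd (.nd (.nd (.nd (.lf 0) (.lf 0x21000002)) (.lf 0)) (.nd (.nd (.nd (.lf 0) (.lf 0x14daf26b)) (.lf 0)) (.nd (.lf 0xc000002) (.lf 0x8000001000edaf26b)))) (.nd (.lf 0) (.nd (.nd (.nd (.lf 0x1e000002) (.lf 0x1adaf26b)) (.lf 0)) (.nd (.lf 0x100000010005daf26b) (.lf 0x25000002))))) (.nd (.nd (.nd (.lf 0) (.lf 0x9000002)) (.nd (.nd (.nd (.lf 0) (.lf 0x18daf26b)) (.lf 0)) (.lf 0x6d793700026d793400006d793700006d79340002daf26a00006d793700006d79340000daf26a000500000200006d793700006d79340000daf26a00070000020000daf26a0004daf26b)))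 (.nd (.nd (.lf 0x15000002) (.nd (.lf 0x1600000100096d7936) (.lf 0x2300000100006d7936))) (.nd (.lf 0) (.lf 0x22000002))))⟩

end Pool.Agent.SWA93
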