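import Mathlib
import Pool.Agent.SWL57.Cmp
import Pool.Agent.SWA93.W
import Pool.Agent.SWA93.F0
import Pool.Agent.SWA93.F1
import Pool.Agent.SWA93.F2
import Pool.Agent.SWA93.F3

/-!
# Checks of the compositions and of the exchanges
-/

set_option autoImplicit false

namespace Pool.Agent.SWA93

open Pool.Agent.SWL57

theorem x13 : ckX rels W [[f0]] 1 400 [(262, 0)] f13.T = true := by decide +kernel

theorem x22 : ckX rels W [[f480]] 4 400 [(261, 0)] f22.T = true := by decide +kernel

theorem x31 : ckX rels W [[f481]] 5 400 [(258, 0)] f31.T = true := by decide +kernel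

theorem x40 : ckX rels W [[f487]] 11 400 [(259, 0)] f40.T = true := by decide +kernel

theorem x49 : ckX rels W [[f486, f488]] 12 400 [(258, 1), (261, 0)] f49.T = true := by decide +kernel

theorem x58 : ckX rels W [[f494, f499]] 19 400 [(261, 1), (259, 0)] f58.T = true := by decide +kernel

theorem x67 : ckX rels W [[f493, f500, f501]] 20 400 [(258, 2), (261, 0), (259, 1)] f67.T = true := by decide +kernel

theorem x76 : ckX rels W [[f507, f512]] 27 400 [(261, 1), (259, 0)] f76.T = true := by decide +kernel

theorem x85 : ckX rels W [[f506, f513, f514]] 28 400 [(258, 2), (261, 0), (259, 1)] f85.T = true := by decide +kernel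

theorem x93 : ckX rels W [[f520, f525]] 35 400 [(261, 1), (259, 0)] f93.T = true := by decide +kernel

theorem x102 : ckX rels W [[f519, f526, f527]] 36 400 [(258, 2), (261, 0), (259, 1)] f102.T = true := by decide +kernel

theorem x108 : ckX rels W [[f268, f532, f534]] 43 400 [(261, 2), (259, 1), (263, 0)] f108.T = true := by decide +kernel

theorem x120 : ckX rels W [[f8, f10]] 3 400 [(265, 0), (267, 1)] f120.T = true := by decide +kernel

theorem x121 : ckX rels W [[f8, f9]] 3 401 [(266, 1), (268, 0)] f121.T = true := by decide +kernel

theorem x137 : ckX rels W [[f16, f17, f18]] 9 400 [(265, 0), (267, 2), (269, 1)] f137.T = true := by decide +kernel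

theorem x138 : ckX rels W [[f16, f17, f18]] 9 401 [(266, 1), (268, 0), (270, 2)] f138.T = true := by decide +kernel

theorem x154 : ckX rels W [[f288, f541]] 10 400 [(271, 1), (289, 0)] f154.T = true := by decide +kernel

theorem x155 : ckX rels W [[f544, f688]] 10 401 [(272, 0), (290, 1)] f155.T = true := by decide +kernel

theorem x171 : ckX rels W [[f34, f35, f36, f555]] 17 400 [(271, 3), (265, 0), (267, 2), (269, 1)] f171.T = true := by decide +kernel

theorem x172 : ckX rels W [[f34, f35, f36, f561]] 17 401 [(272, 3), (266, 1), (268, 0), (270, 2)] f172.T = true := by decide +kernel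

theorem x188 : ckX rels W [[f43, f44, f45, f551, f552, f569]] 18 400 [(271, 5), (265, 0), (267, 2), (269, 1), (277, 4), (275, 3)] f188.T = true := by decide +kernel

theorem x189 : ckX rels W [[f43, f44, f45, f556, f557, f572]] 18 401 [(272, 5), (266, 1), (268, 0), (270, 2), (278, 3), (276, 4)] f189.T = true := by decide +kernel

theorem x205 : ckX rels W [[f52, f53, f54, f583, f597]] 25 400 [(271, 3), (265, 0), (267, 2), (269, 1), (277, 4)] f205.T = true := by decide +kernel

theorem x206 : ckX rels W [[f52, f53, f54, f589, f601]] 25 401 [(272, 3), (266, 1), (268, 0), (270, 2), (278, 4)] f206.T = true := by decide +kernel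

theorem x222 : ckX rels W [[f61, f62, f63, f354, f579, f580, f600]] 26 400 [(271, 6), (265, 0), (267, 2), (269, 1), (277, 5), (275, 4), (289, 3)] f222.T = true := by decide +kernel

theorem x223 : ckX rels W [[f61, f62, f63, f584, f585, f605, f778]] 26 401 [(272, 5), (266, 1), (268, 0), (270, 2), (278, 3), (276, 4), (290, 6)] f223.T = true := by decide +kernel

theorem x239 : ckX rels W [[f70, f71, f72, f617, f631, f632]] 33 400 [(271, 3), (265, 0), (267, 2), (269, 1), (277, 5), (275, 4)] f239.T = true := by decide +kernel

theorem x240 : ckX rels W [[f70, f71, f72, f623, f636, f637]] 33 401 [(272, 3), (266, 1), (268, 0), (270, 2), (278, 4), (276, 5)] f240.T = true := by decide +kernel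

theorem x256 : ckX rels W [[f79, f80, f81, f388, f613, f614, f635]] 34 400 [(271, 6), (265, 0), (267, 2), (269, 1), (277, 5), (275, 4), (289, 3)] f256.T = true := by decide +kernel

theorem x257 : ckX rels W [[f79, f80, f81, f618, f619, f641, f843]] 34 401 [(272, 5), (266, 1), (268, 0), (270, 2), (278, 3), (276, 4), (290, 6)] f257.T = true := by decide +kernel

theorem x270 : ckX rels W [[f88, f89, f90, f651, f663, f664]] 41 400 [(271, 3), (265, 0), (267, 2), (269, 1), (277, 5), (275, 4)] f270.T = true := by decide +kernel

theorem x271 : ckX rels W [[f88, f89, f90, f656, f667, f668]] 41 401 [(272, 3), (266, 1), (268, 0), (270, 2), (278, 4), (276, 5)] f271.T = true := by decide +kernel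

theorem x279 : ckX rels W [[f97]] 42 400 [(269, 0)] f279.T = true := by decide +kernel

theorem x280 : ckX rels W [[f98, f652, f898]] 42 401 [(270, 0), (278, 1), (290, 2)] f280.T = true := by decide +kernel

theorem x281 : ckX rels W [[f105]] 47 400 [(269, 0)] f281.T = true := by decide +kernel

theorem x282 : ckX rels W [[f105, f686, f687]] 47 401 [(272, 1), (266, 0), (278, 2)] f282.T = true := by decide +kernel

theorem x290 : ckX rels W [[f109, f112, f113]] 6 400 [(291, 0), (294, 1), (297, 2)] f290.T = true := by decide +kernel

theorem x291 : ckX rels W [[f109, f110, f539]] 6 401 [(292, 1), (295, 0), (298, 2)] f291.T = true := by decide +kernel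

theorem x292 : ckX rels W [[f110, f111, f538]] 6 402 [(293, 2), (296, 1), (299, 0)] f292.T = true := by decide +kernel

theorem x306 : ckX rels W [[f126, f127, f128, f129, f130]] 13 400 [(291, 0), (294, 3), (297, 4), (300, 1), (303, 2)] f306.T = true := by decide +kernel

theorem x307 : ckX rels W [[f126, f127, f129, f131, f550]] 13 401 [(292, 1), (295, 0), (298, 4), (301, 2), (304, 3)] f307.T = true := by decide +kernel

theorem x308 : ckX rels W [[f127, f128, f129, f130, f549, f697]] 13 402 [(293, 4), (296, 1), (299, 0), (302, 3), (305, 2), (323, 5)] f308.T = true := by decide +kernel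

theorem x323 : ckX rels W [[f143, f144, f145, f146, f147, f566, f689]] 14 400 [(291, 0), (294, 3), (297, 4), (300, 1), (303, 2), (306, 5), (324, 6)] f323.T = true := by decide +kernel

theorem x324 : ckX rels W [[f143, f144, f146, f147, f148, f565, f696]] 14 401 [(292, 1), (295, 0), (298, 5), (301, 2), (304, 4), (307, 3), (325, 6)] f324.T = true := by decide +kernel

theorem x325 : ckX rels W [[f144, f145, f146, f147, f148, f564]] 14 402 [(293, 5), (296, 1), (299, 0), (302, 3), (305, 2), (308, 4)] f325.T = true := by decide +kernel

theorem x339 : ckX rels W [[f160, f161, f162, f163, f164, f706, f724, f725]] 21 400 [(291, 0), (294, 3), (297, 4), (300, 1), (303, 2), (321, 7), (315, 6), (324, 5)] f339.T = true := by decide +kernel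

theorem x340 : ckX rels W [[f160, f161, f163, f165, f578, f714, f728, f729]] 21 401 [(292, 1), (295, 0), (298, 4), (301, 2), (304, 3), (322, 7), (319, 6), (325, 5)] f340.T = true := by decide +kernel

theorem x341 : ckX rels W [[f161, f162, f163, f164, f577, f723, f738, f739, f740]] 21 402 [(293, 4), (296, 1), (299, 0), (302, 3), (305, 2), (323, 7), (320, 8), (317, 6), (326, 5)] f341.T = true := by decide +kernel

theorem x356 : ckX rels W [[f177, f178, f179, f180, f181, f596, f705, f726, f727]] 22 400 [(291, 0), (294, 3), (297, 4), (300, 1), (303, 2), (306, 5), (309, 8), (321, 6), (324, 7)] f356.T = true := by decide +kernel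

theorem x357 : ckX rels W [[f177, f178, f180, f181, f182, f595, f707, f736, f737]] 22 401 [(292, 1), (295, 0), (298, 5), (301, 2), (304, 4), (307, 3), (310, 8), (322, 6), (325, 7)] f357.T = true := by decide +kernel

theorem x358 : ckX rels W [[f178, f179, f180, f181, f182, f594, f715, f748]] 22 402 [(293, 5), (296, 1), (299, 0), (302, 3), (305, 2), (308, 4), (323, 6), (326, 7)] f358.T = true := by decide +kernel

theorem x373 : ckX rels W [[f194, f195, f196, f197, f198, f612, f751, f775, f776, f777]] 29 400 [(291, 0), (294, 3), (297, 4), (300, 1), (303, 2), (306, 5), (309, 6), (321, 9), (318, 8), (315, 7)] f373.T = true := by decide +kernel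

theorem x374 : ckX rels W [[f194, f195, f197, f198, f199, f611, f761, f790, f791, f792]] 29 401 [(292, 1), (295, 0), (298, 5), (301, 2), (304, 4), (307, 3), (310, 6), (322, 9), (319, 7), (316, 8)] f374.T = true := by decide +kernel

theorem x375 : ckX rels W [[f195, f196, f197, f198, f199, f610, f772, f773, f800, f801, f802]] 29 402 [(293, 5), (296, 1), (299, 0), (302, 3), (305, 2), (308, 4), (311, 7), (323, 9), (320, 10), (317, 8), (326, 6)] f375.T = true := by decide +kernel

theorem x390 : ckX rels W [[f211, f212, f213, f214, f215, f630, f749, f750, f789]] 30 400 [(291, 0), (294, 3), (297, 4), (300, 1), (303, 2), (306, 5), (309, 8), (321, 7), (315, 6)] f390.T = true := by decide +kernel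

theorem x391 : ckX rels W [[f211, f212, f214, f215, f216, f629, f752, f753, f754, f799]] 30 401 [(292, 1), (295, 0), (298, 5), (301, 2), (304, 4), (307, 3), (310, 9), (322, 8), (319, 6), (316, 7)] f391.T = true := by decide +kernel

theorem x392 : ckX rels W [[f212, f213, f214, f215, f216, f628, f762, f763, f764, f821]] 30 402 [(293, 5), (296, 1), (299, 0), (302, 3), (305, 2), (308, 4), (311, 9), (323, 7), (320, 8), (317, 6)] f392.T = true := by decide +kernel

theorem x403 : ckX rels W [[f228, f229, f230, f231, f232]] 37 400 [(291, 0), (294, 3), (297, 4), (300, 1), (303, 2)] f403.T = true := by decide +kernel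

theorem x404 : ckX rels W [[f228, f229, f231, f232, f233, f648]] 37 401 [(292, 1), (295, 0), (298, 5), (301, 2), (304, 4), (307, 3)] f404.T = true := by decide +kernel

theorem x405 : ckX rels W [[f229, f230, f231, f232, f233, f647, f841, f861, f862]] 37 402 [(293, 5), (296, 1), (299, 0), (302, 3), (305, 2), (308, 4), (311, 6), (323, 7), (320, 8)] f405.T = true := by decide +kernel

theorem x415 : ckX rels W [[f245, f247, f248, f249]] 38 400 [(291, 0), (294, 2), (297, 3), (303, 1)] f415.T = true := by decide +kernel

theorem x416 : ckX rels W [[f245, f246, f249, f662]] 38 401 [(292, 1), (295, 0), (298, 3), (307, 2)] f416.T = true := by decide +kernel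

theorem x417 : ckX rels W [[f246, f247, f248, f249, f250, f661, f830, f831, f832]] 38 402 [(293, 5), (296, 1), (299, 0), (302, 3), (305, 2), (308, 4), (323, 7), (320, 8), (317, 6)] f417.T = true := by decide +kernel

theorem x419 : ckX rels W [[f262, f263, f264, f265, f266]] 45 400 [(291, 0), (294, 3), (297, 4), (300, 1), (303, 2)] f419.T = true := by decide +kernel

theorem x420 : ckX rels W [[f262, f263, f265, f266, f267, f678]] 45 401 [(292, 1), (295, 0), (298, 5), (301, 2), (304, 4), (307, 3)] f420.T = true := by decide +kernel

theorem x421 : ckX rels W [[f263, f264, f266, f677, f897, f899, f900]] 45 402 [(293, 3), (296, 1), (299, 0), (302, 2), (311, 4), (323, 5), (320, 6)] f421.T = true := by decide +kernel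

theorem c422 : ckC W [[f0, f10]] 0 1 f422 = true := by decide +kernel

theorem c423 : ckC W [[f422, f120]] 0 1 f423 = true := by decide +kernel

theorem c424 : ckC W [[f423, f121]] 0 1 f424 = true := by decide +kernel

theorem c425 : ckC W [[f424, f120]] 0 1 f425 = true := by decide +kernel

theorem c426 : ckC W [[f422, f121]] 0 1 f426 = true := by decide +kernel

theorem c427 : ckC W [[f426, f120]] 0 1 f427 = true := by decide +kernel

theorem c428 : ckC W [[f0, f11]] 0 1 f428 = true := by decide +kernel

theorem c429 : ckC W [[f428, f19]] 0 1 f429 = true := by decide +kernel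

theorem c430 : ckC W [[f429, f50]] 0 1 f430 = true := by decide +kernel

theorem c431 : ckC W [[f430, f64]] 0 1 f431 = true := by decide +kernel

theorem c432 : ckC W [[f431, f77]] 0 1 f432 = true := by decide +kernel

theorem c433 : ckC W [[f432, f94]] 0 1 f433 = true := by decide +kernel

theorem c434 : ckC W [[f428, f23]] 0 1 f434 = true := by decide +kernel

theorem c435 : ckC W [[f434, f41]] 0 1 f435 = true := by decide +kernel

theorem c436 : ckC W [[f435, f55]] 0 1 f436 = true := by decide +kernel

theorem c437 : ckC W [[f436, f86]] 0 1 f437 = true := by decide +kernel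

theorem c438 : ckC W [[f437, f99]] 0 1 f438 = true := by decide +kernel

theorem c439 : ckC W [[f435, f59]] 0 1 f439 = true := by decide +kernel

theorem c440 : ckC W [[f439, f73]] 0 1 f440 = true := by decide +kernel

theorem c441 : ckC W [[f440, f103]] 0 1 f441 = true := by decide +kernel

theorem c442 : ckC W [[f0, f15]] 0 1 f442 = true := by decide +kernel

theorem c443 : ckC W [[f442, f28]] 0 1 f443 = true := by decide +kernel

theorem c444 : ckC W [[f443, f37]] 0 1 f444 = true := by decide +kernel

theorem c445 : ckC W [[f444, f64]] 0 1 f445 = true := by decide +kernel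

theorem c446 : ckC W [[f445, f77]] 0 1 f446 = true := by decide +kernel

theorem c447 : ckC W [[f446, f94]] 0 1 f447 = true := by decide +kernel

theorem c448 : ckC W [[f444, f68]] 0 1 f448 = true := by decide +kernel

theorem c449 : ckC W [[f448, f82]] 0 1 f449 = true := by decide +kernel

theorem c450 : ckC W [[f449, f94]] 0 1 f450 = true := by decide +kernel

theorem c451 : ckC W [[f443, f41]] 0 1 f451 = true := by decide +kernel

theorem c452 : ckC W [[f451, f59]] 0 1 f452 = true := by decide +kernel

theorem c453 : ckC W [[f452, f73]] 0 1 f453 = true := by decide +kernel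

theorem c454 : ckC W [[f453, f99]] 0 1 f454 = true := by decide +kernel

theorem c455 : ckC W [[f453, f103]] 0 1 f455 = true := by decide +kernel

theorem c456 : ckC W [[f452, f77]] 0 1 f456 = true := by decide +kernel

theorem c457 : ckC W [[f456, f91]] 0 1 f457 = true := by decide +kernel

theorem c458 : ckC W [[f442, f33]] 0 1 f458 = true := by decide +kernel

theorem c459 : ckC W [[f458, f46]] 0 1 f459 = true := by decide +kernel

theorem c460 : ckC W [[f459, f55]] 0 1 f460 = true := by decide +kernel

theorem c461 : ckC W [[f460, f82]] 0 1 f461 = true := by decide +kernel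

theorem c462 : ckC W [[f461, f94]] 0 1 f462 = true := by decide +kernel

theorem c463 : ckC W [[f460, f86]] 0 1 f463 = true := by decide +kernel

theorem c464 : ckC W [[f463, f99]] 0 1 f464 = true := by decide +kernel

theorem c465 : ckC W [[f459, f59]] 0 1 f465 = true := by decide +kernel

theorem c466 : ckC W [[f465, f77]] 0 1 f466 = true := by decide +kernel

theorem c467 : ckC W [[f466, f91]] 0 1 f467 = true := by decide +kernel

theorem c468 : ckC W [[f458, f51]] 0 1 f468 = true := by decide +kernel

theorem c469 : ckC W [[f468, f64]] 0 1 f469 = true := by decide +kernel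

theorem c470 : ckC W [[f469, f73]] 0 1 f470 = true := by decide +kernel

theorem c471 : ckC W [[f470, f99]] 0 1 f471 = true := by decide +kernel

theorem c472 : ckC W [[f470, f103]] 0 1 f472 = true := by decide +kernel

theorem c473 : ckC W [[f468, f69]] 0 1 f473 = true := by decide +kernel

theorem c474 : ckC W [[f473, f82]] 0 1 f474 = true := by decide +kernel

theorem c475 : ckC W [[f474, f91]] 0 1 f475 = true := by decide +kernel

theorem c476 : ckC W [[f10, f120]] 0 1 f476 = true := by decide +kernel

theorem c477 : ckC W [[f476, f121]] 0 1 f477 = true := by decide +kernel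

theorem c478 : ckC W [[f477, f120]] 0 1 f478 = true := by decide +kernel

theorem c479 : ckC W [[f13, f8]] 0 1 f479 = true := by decide +kernel

theorem c480 : ckC W [[f13, f11]] 0 1 f480 = true := by decide +kernel

theorem c481 : ckC W [[f13, f15]] 0 1 f481 = true := by decide +kernel

theorem c482 : ckC W [[f18, f137]] 0 1 f482 = true := by decide +kernel

theorem c483 : ckC W [[f482, f138]] 0 1 f483 = true := by decide +kernel

theorem c484 : ckC W [[f483, f137]] 0 1 f484 = true := by decide +kernel

theorem c485 : ckC W [[f22, f16]] 0 1 f485 = true := by decide +kernel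

theorem c486 : ckC W [[f22, f19]] 0 1 f486 = true := by decide +kernel

theorem c487 : ckC W [[f22, f23]] 0 1 f487 = true := by decide +kernel

theorem c488 : ckC W [[f31, f33]] 0 1 f488 = true := by decide +kernel

theorem c489 : ckC W [[f36, f171]] 0 1 f489 = true := by decide +kernel

theorem c490 : ckC W [[f489, f172]] 0 1 f490 = true := by decide +kernel

theorem c491 : ckC W [[f490, f171]] 0 1 f491 = true := by decide +kernel

theorem c492 : ckC W [[f40, f34]] 0 1 f492 = true := by decide +kernel

theorem c493 : ckC W [[f40, f37]] 0 1 f493 = true := by decide +kernel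

theorem c494 : ckC W [[f40, f41]] 0 1 f494 = true := by decide +kernel

theorem c495 : ckC W [[f45, f188]] 0 1 f495 = true := by decide +kernel

theorem c496 : ckC W [[f495, f189]] 0 1 f496 = true := by decide +kernel

theorem c497 : ckC W [[f496, f188]] 0 1 f497 = true := by decide +kernel

theorem c498 : ckC W [[f49, f43]] 0 1 f498 = true := by decide +kernel

theorem c499 : ckC W [[f49, f46]] 0 1 f499 = true := by decide +kernel

theorem c500 : ckC W [[f49, f50]] 0 1 f500 = true := by decide +kernel

theorem c501 : ckC W [[f49, f51]] 0 1 f501 = true := by decide +kernel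

theorem c502 : ckC W [[f54, f205]] 0 1 f502 = true := by decide +kernel

theorem c503 : ckC W [[f502, f206]] 0 1 f503 = true := by decide +kernel

theorem c504 : ckC W [[f503, f205]] 0 1 f504 = true := by decide +kernel

theorem c505 : ckC W [[f58, f52]] 0 1 f505 = true := by decide +kernel

theorem c506 : ckC W [[f58, f55]] 0 1 f506 = true := by decide +kernel

theorem c507 : ckC W [[f58, f59]] 0 1 f507 = true := by decide +kernel

theorem c508 : ckC W [[f63, f222]] 0 1 f508 = true := by decide +kernel

theorem c509 : ckC W [[f508, f223]] 0 1 f509 = true := by decide +kernel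

theorem c510 : ckC W [[f509, f222]] 0 1 f510 = true := by decide +kernel

theorem c511 : ckC W [[f67, f61]] 0 1 f511 = true := by decide +kernel

theorem c512 : ckC W [[f67, f64]] 0 1 f512 = true := by decide +kernel

theorem c513 : ckC W [[f67, f68]] 0 1 f513 = true := by decide +kernel

theorem c514 : ckC W [[f67, f69]] 0 1 f514 = true := by decide +kernel

theorem c515 : ckC W [[f72, f239]] 0 1 f515 = true := by decide +kernel

theorem c516 : ckC W [[f515, f240]] 0 1 f516 = true := by decide +kernel

theorem c517 : ckC W [[f516, f239]] 0 1 f517 = true := by decide +kernel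

theorem c518 : ckC W [[f76, f70]] 0 1 f518 = true := by decide +kernel

theorem c519 : ckC W [[f76, f73]] 0 1 f519 = true := by decide +kernel

theorem c520 : ckC W [[f76, f77]] 0 1 f520 = true := by decide +kernel

theorem c521 : ckC W [[f81, f256]] 0 1 f521 = true := by decide +kernel

theorem c522 : ckC W [[f521, f257]] 0 1 f522 = true := by decide +kernel

theorem c523 : ckC W [[f522, f256]] 0 1 f523 = true := by decide +kernel

theorem c524 : ckC W [[f85, f79]] 0 1 f524 = true := by decide +kernel

theorem c525 : ckC W [[f85, f82]] 0 1 f525 = true := by decide +kernel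

theorem c526 : ckC W [[f85, f86]] 0 1 f526 = true := by decide +kernel

theorem c527 : ckC W [[f85, f87]] 0 1 f527 = true := by decide +kernel

theorem c528 : ckC W [[f90, f270]] 0 1 f528 = true := by decide +kernel

theorem c529 : ckC W [[f528, f271]] 0 1 f529 = true := by decide +kernel

theorem c530 : ckC W [[f529, f270]] 0 1 f530 = true := by decide +kernel

theorem c531 : ckC W [[f93, f88]] 0 1 f531 = true := by decide +kernel

theorem c532 : ckC W [[f93, f94]] 0 1 f532 = true := by decide +kernel

theorem c533 : ckC W [[f98, f279]] 0 1 f533 = true := by decide +kernel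

theorem c534 : ckC W [[f102, f99]] 0 1 f534 = true := by decide +kernel

theorem c535 : ckC W [[f106, f281]] 0 1 f535 = true := by decide +kernel

theorem c536 : ckC W [[f114, f291]] 0 1 f536 = true := by decide +kernel

theorem c537 : ckC W [[f536, f290]] 0 1 f537 = true := by decide +kernel

theorem c538 : ckC W [[f120, f109]] 0 1 f538 = true := by decide +kernel

theorem c539 : ckC W [[f120, f111]] 0 1 f539 = true := by decide +kernel

theorem c540 : ckC W [[f120, f121]] 0 1 f540 = true := by decide +kernel

theorem c541 : ckC W [[f120, f125]] 0 1 f541 = true := by decide +kernel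

theorem c542 : ckC W [[f121, f120]] 0 1 f542 = true := by decide +kernel

theorem c543 : ckC W [[f542, f121]] 0 1 f543 = true := by decide +kernel

theorem c544 : ckC W [[f121, f125]] 0 1 f544 = true := by decide +kernel

theorem c545 : ckC W [[f131, f307]] 0 1 f545 = true := by decide +kernel

theorem c546 : ckC W [[f545, f306]] 0 1 f546 = true := by decide +kernel

theorem c547 : ckC W [[f546, f308]] 0 1 f547 = true := by decide +kernel

theorem c548 : ckC W [[f547, f307]] 0 1 f548 = true := by decide +kernel

theorem c549 : ckC W [[f137, f126]] 0 1 f549 = true := by decide +kernel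

theorem c550 : ckC W [[f137, f128]] 0 1 f550 = true := by decide +kernel

theorem c551 : ckC W [[f137, f132]] 0 1 f551 = true := by decide +kernel

theorem c552 : ckC W [[f137, f134]] 0 1 f552 = true := by decide +kernel

theorem c553 : ckC W [[f137, f138]] 0 1 f553 = true := by decide +kernel

theorem c554 : ckC W [[f553, f137]] 0 1 f554 = true := by decide +kernel

theorem c555 : ckC W [[f137, f142]] 0 1 f555 = true := by decide +kernel

theorem c556 : ckC W [[f138, f133]] 0 1 f556 = true := by decide +kernel

theorem c557 : ckC W [[f138, f134]] 0 1 f557 = true := by decide +kernel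

theorem c558 : ckC W [[f138, f137]] 0 1 f558 = true := by decide +kernel

theorem c559 : ckC W [[f558, f135]] 0 1 f559 = true := by decide +kernel

theorem c560 : ckC W [[f558, f138]] 0 1 f560 = true := by decide +kernel

theorem c561 : ckC W [[f138, f142]] 0 1 f561 = true := by decide +kernel

theorem c562 : ckC W [[f148, f324]] 0 1 f562 = true := by decide +kernel

theorem c563 : ckC W [[f562, f323]] 0 1 f563 = true := by decide +kernel

theorem c564 : ckC W [[f154, f143]] 0 1 f564 = true := by decide +kernel

theorem c565 : ckC W [[f154, f145]] 0 1 f565 = true := by decide +kernel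

theorem c566 : ckC W [[f154, f148]] 0 1 f566 = true := by decide +kernel

theorem c567 : ckC W [[f154, f155]] 0 1 f567 = true := by decide +kernel

theorem c568 : ckC W [[f567, f154]] 0 1 f568 = true := by decide +kernel

theorem c569 : ckC W [[f154, f159]] 0 1 f569 = true := by decide +kernel

theorem c570 : ckC W [[f155, f154]] 0 1 f570 = true := by decide +kernel

theorem c571 : ckC W [[f570, f155]] 0 1 f571 = true := by decide +kernel

theorem c572 : ckC W [[f155, f159]] 0 1 f572 = true := by decide +kernel

theorem c573 : ckC W [[f165, f340]] 0 1 f573 = true := by decide +kernel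

theorem c574 : ckC W [[f573, f339]] 0 1 f574 = true := by decide +kernel

theorem c575 : ckC W [[f574, f341]] 0 1 f575 = true := by decide +kernel

theorem c576 : ckC W [[f575, f340]] 0 1 f576 = true := by decide +kernel

theorem c577 : ckC W [[f171, f160]] 0 1 f577 = true := by decide +kernel

theorem c578 : ckC W [[f171, f162]] 0 1 f578 = true := by decide +kernel

theorem c579 : ckC W [[f171, f166]] 0 1 f579 = true := by decide +kernel

theorem c580 : ckC W [[f171, f168]] 0 1 f580 = true := by decide +kernel

theorem c581 : ckC W [[f171, f172]] 0 1 f581 = true := by decide +kernel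

theorem c582 : ckC W [[f581, f171]] 0 1 f582 = true := by decide +kernel

theorem c583 : ckC W [[f171, f176]] 0 1 f583 = true := by decide +kernel

theorem c584 : ckC W [[f172, f167]] 0 1 f584 = true := by decide +kernel

theorem c585 : ckC W [[f172, f168]] 0 1 f585 = true := by decide +kernel

theorem c586 : ckC W [[f172, f171]] 0 1 f586 = true := by decide +kernel

theorem c587 : ckC W [[f586, f169]] 0 1 f587 = true := by decide +kernel

theorem c588 : ckC W [[f586, f172]] 0 1 f588 = true := by decide +kernel

theorem c589 : ckC W [[f172, f176]] 0 1 f589 = true := by decide +kernel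

theorem c590 : ckC W [[f182, f357]] 0 1 f590 = true := by decide +kernel

theorem c591 : ckC W [[f590, f356]] 0 1 f591 = true := by decide +kernel

theorem c592 : ckC W [[f591, f358]] 0 1 f592 = true := by decide +kernel

theorem c593 : ckC W [[f592, f357]] 0 1 f593 = true := by decide +kernel

theorem c594 : ckC W [[f188, f177]] 0 1 f594 = true := by decide +kernel

theorem c595 : ckC W [[f188, f179]] 0 1 f595 = true := by decide +kernel

theorem c596 : ckC W [[f188, f182]] 0 1 f596 = true := by decide +kernel

theorem c597 : ckC W [[f188, f185]] 0 1 f597 = true := by decide +kernel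

theorem c598 : ckC W [[f188, f189]] 0 1 f598 = true := by decide +kernel

theorem c599 : ckC W [[f598, f188]] 0 1 f599 = true := by decide +kernel

theorem c600 : ckC W [[f188, f193]] 0 1 f600 = true := by decide +kernel

theorem c601 : ckC W [[f189, f184]] 0 1 f601 = true := by decide +kernel

theorem c602 : ckC W [[f189, f188]] 0 1 f602 = true := by decide +kernel

theorem c603 : ckC W [[f602, f186]] 0 1 f603 = true := by decide +kernel

theorem c604 : ckC W [[f602, f189]] 0 1 f604 = true := by decide +kernel

theorem c605 : ckC W [[f189, f193]] 0 1 f605 = true := by decide +kernel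

theorem c606 : ckC W [[f199, f374]] 0 1 f606 = true := by decide +kernel

theorem c607 : ckC W [[f606, f373]] 0 1 f607 = true := by decide +kernel

theorem c608 : ckC W [[f607, f375]] 0 1 f608 = true := by decide +kernel

theorem c609 : ckC W [[f608, f374]] 0 1 f609 = true := by decide +kernel

theorem c610 : ckC W [[f205, f194]] 0 1 f610 = true := by decide +kernel

theorem c611 : ckC W [[f205, f196]] 0 1 f611 = true := by decide +kernel

theorem c612 : ckC W [[f205, f199]] 0 1 f612 = true := by decide +kernel

theorem c613 : ckC W [[f205, f200]] 0 1 f613 = true := by decide +kernel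

theorem c614 : ckC W [[f205, f202]] 0 1 f614 = true := by decide +kernel

theorem c615 : ckC W [[f205, f206]] 0 1 f615 = true := by decide +kernel

theorem c616 : ckC W [[f615, f205]] 0 1 f616 = true := by decide +kernel

theorem c617 : ckC W [[f205, f210]] 0 1 f617 = true := by decide +kernel

theorem c618 : ckC W [[f206, f201]] 0 1 f618 = true := by decide +kernel

theorem c619 : ckC W [[f206, f202]] 0 1 f619 = true := by decide +kernel

theorem c620 : ckC W [[f206, f205]] 0 1 f620 = true := by decide +kernel

theorem c621 : ckC W [[f620, f203]] 0 1 f621 = true := by decide +kernel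

theorem c622 : ckC W [[f620, f206]] 0 1 f622 = true := by decide +kernel

theorem c623 : ckC W [[f206, f210]] 0 1 f623 = true := by decide +kernel

theorem c624 : ckC W [[f216, f391]] 0 1 f624 = true := by decide +kernel

theorem c625 : ckC W [[f624, f390]] 0 1 f625 = true := by decide +kernel

theorem c626 : ckC W [[f625, f392]] 0 1 f626 = true := by decide +kernel

theorem c627 : ckC W [[f626, f391]] 0 1 f627 = true := by decide +kernel

theorem c628 : ckC W [[f222, f211]] 0 1 f628 = true := by decide +kernel

theorem c629 : ckC W [[f222, f213]] 0 1 f629 = true := by decide +kernel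

theorem c630 : ckC W [[f222, f216]] 0 1 f630 = true := by decide +kernel

theorem c631 : ckC W [[f222, f217]] 0 1 f631 = true := by decide +kernel

theorem c632 : ckC W [[f222, f219]] 0 1 f632 = true := by decide +kernel

theorem c633 : ckC W [[f222, f223]] 0 1 f633 = true := by decide +kernel

theorem c634 : ckC W [[f633, f222]] 0 1 f634 = true := by decide +kernel

theorem c635 : ckC W [[f222, f227]] 0 1 f635 = true := by decide +kernel

theorem c636 : ckC W [[f223, f218]] 0 1 f636 = true := by decide +kernel

theorem c637 : ckC W [[f223, f219]] 0 1 f637 = true := by decide +kernel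

theorem c638 : ckC W [[f223, f222]] 0 1 f638 = true := by decide +kernel

theorem c639 : ckC W [[f638, f220]] 0 1 f639 = true := by decide +kernel

theorem c640 : ckC W [[f638, f223]] 0 1 f640 = true := by decide +kernel

theorem c641 : ckC W [[f223, f227]] 0 1 f641 = true := by decide +kernel

theorem c642 : ckC W [[f233, f404]] 0 1 f642 = true := by decide +kernel

theorem c643 : ckC W [[f642, f403]] 0 1 f643 = true := by decide +kernel

theorem c644 : ckC W [[f643, f405]] 0 1 f644 = true := by decide +kernel

theorem c645 : ckC W [[f644, f404]] 0 1 f645 = true := by decide +kernel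

theorem c646 : ckC W [[f645, f403]] 0 1 f646 = true := by decide +kernel

theorem c647 : ckC W [[f239, f228]] 0 1 f647 = true := by decide +kernel

theorem c648 : ckC W [[f239, f230]] 0 1 f648 = true := by decide +kernel

theorem c649 : ckC W [[f239, f240]] 0 1 f649 = true := by decide +kernel

theorem c650 : ckC W [[f649, f239]] 0 1 f650 = true := by decide +kernel

theorem c651 : ckC W [[f239, f244]] 0 1 f651 = true := by decide +kernel

theorem c652 : ckC W [[f240, f235]] 0 1 f652 = true := by decide +kernel

theorem c653 : ckC W [[f240, f239]] 0 1 f653 = true := by decide +kernel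

theorem c654 : ckC W [[f653, f237]] 0 1 f654 = true := by decide +kernel

theorem c655 : ckC W [[f653, f240]] 0 1 f655 = true := by decide +kernel

theorem c656 : ckC W [[f240, f244]] 0 1 f656 = true := by decide +kernel

theorem c657 : ckC W [[f250, f416]] 0 1 f657 = true := by decide +kernel

theorem c658 : ckC W [[f657, f415]] 0 1 f658 = true := by decide +kernel

theorem c659 : ckC W [[f658, f417]] 0 1 f659 = true := by decide +kernel

theorem c660 : ckC W [[f659, f416]] 0 1 f660 = true := by decide +kernel

theorem c661 : ckC W [[f256, f245]] 0 1 f661 = true := by decide +kernel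

theorem c662 : ckC W [[f256, f247]] 0 1 f662 = true := by decide +kernel

theorem c663 : ckC W [[f256, f251]] 0 1 f663 = true := by decide +kernel

theorem c664 : ckC W [[f256, f253]] 0 1 f664 = true := by decide +kernel

theorem c665 : ckC W [[f256, f257]] 0 1 f665 = true := by decide +kernel

theorem c666 : ckC W [[f665, f256]] 0 1 f666 = true := by decide +kernel

theorem c667 : ckC W [[f257, f252]] 0 1 f667 = true := by decide +kernel

theorem c668 : ckC W [[f257, f253]] 0 1 f668 = true := by decide +kernel

theorem c669 : ckC W [[f257, f256]] 0 1 f669 = true := by decide +kernel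

theorem c670 : ckC W [[f669, f254]] 0 1 f670 = true := by decide +kernel

theorem c671 : ckC W [[f669, f257]] 0 1 f671 = true := by decide +kernel

theorem c672 : ckC W [[f267, f420]] 0 1 f672 = true := by decide +kernel

theorem c673 : ckC W [[f672, f419]] 0 1 f673 = true := by decide +kernel

theorem c674 : ckC W [[f673, f421]] 0 1 f674 = true := by decide +kernel

theorem c675 : ckC W [[f674, f420]] 0 1 f675 = true := by decide +kernel

theorem c676 : ckC W [[f675, f419]] 0 1 f676 = true := by decide +kernel

theorem c677 : ckC W [[f270, f262]] 0 1 f677 = true := by decide +kernel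

theorem c678 : ckC W [[f270, f264]] 0 1 f678 = true := by decide +kernel

theorem c679 : ckC W [[f270, f271]] 0 1 f679 = true := by decide +kernel

theorem c680 : ckC W [[f679, f269]] 0 1 f680 = true := by decide +kernel

theorem c681 : ckC W [[f679, f270]] 0 1 f681 = true := by decide +kernel

theorem c682 : ckC W [[f271, f270]] 0 1 f682 = true := by decide +kernel

theorem c683 : ckC W [[f682, f268]] 0 1 f683 = true := by decide +kernel

theorem c684 : ckC W [[f682, f269]] 0 1 f684 = true := by decide +kernel

theorem c685 : ckC W [[f682, f271]] 0 1 f685 = true := by decide +kernel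

theorem c686 : ckC W [[f271, f274]] 0 1 f686 = true := by decide +kernel

theorem c687 : ckC W [[f280, f276]] 0 1 f687 = true := by decide +kernel

theorem c688 : ckC W [[f290, f287]] 0 1 f688 = true := by decide +kernel

theorem c689 : ckC W [[f290, f293]] 0 1 f689 = true := by decide +kernel

theorem c690 : ckC W [[f291, f290]] 0 1 f690 = true := by decide +kernel

theorem c691 : ckC W [[f690, f292]] 0 1 f691 = true := by decide +kernel

theorem c692 : ckC W [[f691, f291]] 0 1 f692 = true := by decide +kernel

theorem c693 : ckC W [[f291, f292]] 0 1 f693 = true := by decide +kernel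

theorem c694 : ckC W [[f693, f291]] 0 1 f694 = true := by decide +kernel

theorem c695 : ckC W [[f694, f290]] 0 1 f695 = true := by decide +kernel

theorem c696 : ckC W [[f291, f294]] 0 1 f696 = true := by decide +kernel

theorem c697 : ckC W [[f292, f285]] 0 1 f697 = true := by decide +kernel

theorem c698 : ckC W [[f292, f291]] 0 1 f698 = true := by decide +kernel

theorem c699 : ckC W [[f698, f290]] 0 1 f699 = true := by decide +kernel

theorem c700 : ckC W [[f699, f292]] 0 1 f700 = true := by decide +kernel

theorem c701 : ckC W [[f700, f291]] 0 1 f701 = true := by decide +kernel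

theorem c702 : ckC W [[f698, f292]] 0 1 f702 = true := by decide +kernel

theorem c703 : ckC W [[f702, f291]] 0 1 f703 = true := by decide +kernel

theorem c704 : ckC W [[f703, f290]] 0 1 f704 = true := by decide +kernel

theorem c705 : ckC W [[f306, f303]] 0 1 f705 = true := by decide +kernel

theorem c706 : ckC W [[f306, f309]] 0 1 f706 = true := by decide +kernel

theorem c707 : ckC W [[f307, f303]] 0 1 f707 = true := by decide +kernel

theorem c708 : ckC W [[f307, f306]] 0 1 f708 = true := by decide +kernel

theorem c709 : ckC W [[f708, f308]] 0 1 f709 = true := by decide +kernel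

theorem c710 : ckC W [[f709, f307]] 0 1 f710 = true := by decide +kernel

theorem c711 : ckC W [[f307, f308]] 0 1 f711 = true := by decide +kernel

theorem c712 : ckC W [[f711, f307]] 0 1 f712 = true := by decide +kernel

theorem c713 : ckC W [[f712, f306]] 0 1 f713 = true := by decide +kernel

theorem c714 : ckC W [[f307, f310]] 0 1 f714 = true := by decide +kernel

theorem c715 : ckC W [[f308, f302]] 0 1 f715 = true := by decide +kernel

theorem c716 : ckC W [[f308, f307]] 0 1 f716 = true := by decide +kernel

theorem c717 : ckC W [[f716, f306]] 0 1 f717 = true := by decide +kernel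

theorem c718 : ckC W [[f717, f308]] 0 1 f718 = true := by decide +kernel

theorem c719 : ckC W [[f718, f307]] 0 1 f719 = true := by decide +kernel

theorem c720 : ckC W [[f716, f308]] 0 1 f720 = true := by decide +kernel

theorem c721 : ckC W [[f720, f307]] 0 1 f721 = true := by decide +kernel

theorem c722 : ckC W [[f721, f306]] 0 1 f722 = true := by decide +kernel

theorem c723 : ckC W [[f308, f309]] 0 1 f723 = true := by decide +kernel

theorem c724 : ckC W [[f323, f316]] 0 1 f724 = true := by decide +kernel

theorem c725 : ckC W [[f323, f319]] 0 1 f725 = true := by decide +kernel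

theorem c726 : ckC W [[f323, f326]] 0 1 f726 = true := by decide +kernel

theorem c727 : ckC W [[f323, f332]] 0 1 f727 = true := by decide +kernel

theorem c728 : ckC W [[f324, f317]] 0 1 f728 = true := by decide +kernel

theorem c729 : ckC W [[f324, f319]] 0 1 f729 = true := by decide +kernel

theorem c730 : ckC W [[f324, f323]] 0 1 f730 = true := by decide +kernel

theorem c731 : ckC W [[f730, f325]] 0 1 f731 = true := by decide +kernel

theorem c732 : ckC W [[f731, f324]] 0 1 f732 = true := by decide +kernel

theorem c733 : ckC W [[f324, f325]] 0 1 f733 = true := by decide +kernel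

theorem c734 : ckC W [[f733, f324]] 0 1 f734 = true := by decide +kernel

theorem c735 : ckC W [[f734, f323]] 0 1 f735 = true := by decide +kernel

theorem c736 : ckC W [[f324, f327]] 0 1 f736 = true := by decide +kernel

theorem c737 : ckC W [[f324, f332]] 0 1 f737 = true := by decide +kernel

theorem c738 : ckC W [[f325, f317]] 0 1 f738 = true := by decide +kernel

theorem c739 : ckC W [[f325, f318]] 0 1 f739 = true := by decide +kernel

theorem c740 : ckC W [[f325, f319]] 0 1 f740 = true := by decide +kernel

theorem c741 : ckC W [[f325, f324]] 0 1 f741 = true := by decide +kernel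

theorem c742 : ckC W [[f741, f323]] 0 1 f742 = true := by decide +kernel

theorem c743 : ckC W [[f742, f325]] 0 1 f743 = true := by decide +kernel

theorem c744 : ckC W [[f743, f324]] 0 1 f744 = true := by decide +kernel

theorem c745 : ckC W [[f741, f325]] 0 1 f745 = true := by decide +kernel

theorem c746 : ckC W [[f745, f324]] 0 1 f746 = true := by decide +kernel

theorem c747 : ckC W [[f746, f323]] 0 1 f747 = true := by decide +kernel

theorem c748 : ckC W [[f325, f326]] 0 1 f748 = true := by decide +kernel

theorem c749 : ckC W [[f339, f333]] 0 1 f749 = true := by decide +kernel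

theorem c750 : ckC W [[f339, f336]] 0 1 f750 = true := by decide +kernel

theorem c751 : ckC W [[f339, f348]] 0 1 f751 = true := by decide +kernel

theorem c752 : ckC W [[f340, f334]] 0 1 f752 = true := by decide +kernel

theorem c753 : ckC W [[f340, f335]] 0 1 f753 = true := by decide +kernel

theorem c754 : ckC W [[f340, f336]] 0 1 f754 = true := by decide +kernel

theorem c755 : ckC W [[f340, f339]] 0 1 f755 = true := by decide +kernel

theorem c756 : ckC W [[f755, f341]] 0 1 f756 = true := by decide +kernel

theorem c757 : ckC W [[f756, f340]] 0 1 f757 = true := by decide +kernel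

theorem c758 : ckC W [[f340, f341]] 0 1 f758 = true := by decide +kernel

theorem c759 : ckC W [[f758, f340]] 0 1 f759 = true := by decide +kernel

theorem c760 : ckC W [[f759, f339]] 0 1 f760 = true := by decide +kernel

theorem c761 : ckC W [[f340, f348]] 0 1 f761 = true := by decide +kernel

theorem c762 : ckC W [[f341, f334]] 0 1 f762 = true := by decide +kernel

theorem c763 : ckC W [[f341, f335]] 0 1 f763 = true := by decide +kernel

theorem c764 : ckC W [[f341, f336]] 0 1 f764 = true := by decide +kernel

end Pool.Agent.SWA93
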