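import Mathlib
import Pool.Agent.SWL57.Cmp
import Pool.Agent.SWA93.W
import Pool.Agent.SWA93.F0
import Pool.Agent.SWA93.F1
import Pool.Agent.SWA93.F2
import Pool.Agent.SWA93.F3

/-!
# Checks of the compositions and of the exchanges
-/

set_option autoImplicit false

namespace Pool.Agent.SWA93

open Pool.Agent.SWL57

theorem c765 : ckC W [[f341, f340]] 0 1 f765 = true := by decide +kernel

theorem c766 : ckC W [[f765, f339]] 0 1 f766 = true := by decide +kernel

theorem c767 : ckC W [[f766, f341]] 0 1 f767 = true := by decide +kernel

theorem c768 : ckC W [[f767, f340]] 0 1 f768 = true := by decide +kernel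

theorem c769 : ckC W [[f765, f341]] 0 1 f769 = true := by decide +kernel

theorem c770 : ckC W [[f769, f340]] 0 1 f770 = true := by decide +kernel

theorem c771 : ckC W [[f770, f339]] 0 1 f771 = true := by decide +kernel

theorem c772 : ckC W [[f341, f342]] 0 1 f772 = true := by decide +kernel

theorem c773 : ckC W [[f341, f348]] 0 1 f773 = true := by decide +kernel

theorem c774 : ckC W [[f355, f222]] 0 1 f774 = true := by decide +kernel

theorem c775 : ckC W [[f356, f349]] 0 1 f775 = true := by decide +kernel

theorem c776 : ckC W [[f356, f351]] 0 1 f776 = true := by decide +kernel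

theorem c777 : ckC W [[f356, f352]] 0 1 f777 = true := by decide +kernel

theorem c778 : ckC W [[f356, f353]] 0 1 f778 = true := by decide +kernel

theorem c779 : ckC W [[f356, f357]] 0 1 f779 = true := by decide +kernel

theorem c780 : ckC W [[f779, f356]] 0 1 f780 = true := by decide +kernel

theorem c781 : ckC W [[f780, f358]] 0 1 f781 = true := by decide +kernel

theorem c782 : ckC W [[f781, f357]] 0 1 f782 = true := by decide +kernel

theorem c783 : ckC W [[f779, f358]] 0 1 f783 = true := by decide +kernel

theorem c784 : ckC W [[f783, f357]] 0 1 f784 = true := by decide +kernel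

theorem c785 : ckC W [[f784, f356]] 0 1 f785 = true := by decide +kernel

theorem c786 : ckC W [[f356, f358]] 0 1 f786 = true := by decide +kernel

theorem c787 : ckC W [[f786, f357]] 0 1 f787 = true := by decide +kernel

theorem c788 : ckC W [[f787, f356]] 0 1 f788 = true := by decide +kernel

theorem c789 : ckC W [[f356, f365]] 0 1 f789 = true := by decide +kernel

theorem c790 : ckC W [[f357, f350]] 0 1 f790 = true := by decide +kernel

theorem c791 : ckC W [[f357, f351]] 0 1 f791 = true := by decide +kernel

theorem c792 : ckC W [[f357, f352]] 0 1 f792 = true := by decide +kernel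

theorem c793 : ckC W [[f357, f356]] 0 1 f793 = true := by decide +kernel

theorem c794 : ckC W [[f793, f358]] 0 1 f794 = true := by decide +kernel

theorem c795 : ckC W [[f794, f357]] 0 1 f795 = true := by decide +kernel

theorem c796 : ckC W [[f357, f358]] 0 1 f796 = true := by decide +kernel

theorem c797 : ckC W [[f796, f357]] 0 1 f797 = true := by decide +kernel

theorem c798 : ckC W [[f797, f356]] 0 1 f798 = true := by decide +kernel

theorem c799 : ckC W [[f357, f365]] 0 1 f799 = true := by decide +kernel

theorem c800 : ckC W [[f358, f350]] 0 1 f800 = true := by decide +kernel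

theorem c801 : ckC W [[f358, f351]] 0 1 f801 = true := by decide +kernel

theorem c802 : ckC W [[f358, f352]] 0 1 f802 = true := by decide +kernel

theorem c803 : ckC W [[f358, f356]] 0 1 f803 = true := by decide +kernel

theorem c804 : ckC W [[f803, f357]] 0 1 f804 = true := by decide +kernel

theorem c805 : ckC W [[f804, f356]] 0 1 f805 = true := by decide +kernel

theorem c806 : ckC W [[f805, f358]] 0 1 f806 = true := by decide +kernel

theorem c807 : ckC W [[f806, f357]] 0 1 f807 = true := by decide +kernel

theorem c808 : ckC W [[f804, f358]] 0 1 f808 = true := by decide +kernel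

theorem c809 : ckC W [[f808, f357]] 0 1 f809 = true := by decide +kernel

theorem c810 : ckC W [[f809, f356]] 0 1 f810 = true := by decide +kernel

theorem c811 : ckC W [[f803, f358]] 0 1 f811 = true := by decide +kernel

theorem c812 : ckC W [[f811, f357]] 0 1 f812 = true := by decide +kernel

theorem c813 : ckC W [[f812, f356]] 0 1 f813 = true := by decide +kernel

theorem c814 : ckC W [[f358, f357]] 0 1 f814 = true := by decide +kernel

theorem c815 : ckC W [[f814, f356]] 0 1 f815 = true := by decide +kernel

theorem c816 : ckC W [[f815, f358]] 0 1 f816 = true := by decide +kernel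

theorem c817 : ckC W [[f816, f357]] 0 1 f817 = true := by decide +kernel

theorem c818 : ckC W [[f814, f358]] 0 1 f818 = true := by decide +kernel

theorem c819 : ckC W [[f818, f357]] 0 1 f819 = true := by decide +kernel

theorem c820 : ckC W [[f819, f356]] 0 1 f820 = true := by decide +kernel

theorem c821 : ckC W [[f358, f365]] 0 1 f821 = true := by decide +kernel

theorem c822 : ckC W [[f374, f373]] 0 1 f822 = true := by decide +kernel

theorem c823 : ckC W [[f822, f375]] 0 1 f823 = true := by decide +kernel

theorem c824 : ckC W [[f823, f374]] 0 1 f824 = true := by decide +kernel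

theorem c825 : ckC W [[f824, f370]] 0 1 f825 = true := by decide +kernel

theorem c826 : ckC W [[f374, f375]] 0 1 f826 = true := by decide +kernel

theorem c827 : ckC W [[f826, f372]] 0 1 f827 = true := by decide +kernel

theorem c828 : ckC W [[f826, f374]] 0 1 f828 = true := by decide +kernel

theorem c829 : ckC W [[f828, f373]] 0 1 f829 = true := by decide +kernel

theorem c830 : ckC W [[f375, f367]] 0 1 f830 = true := by decide +kernel

theorem c831 : ckC W [[f375, f368]] 0 1 f831 = true := by decide +kernel

theorem c832 : ckC W [[f375, f369]] 0 1 f832 = true := by decide +kernel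

theorem c833 : ckC W [[f375, f374]] 0 1 f833 = true := by decide +kernel

theorem c834 : ckC W [[f833, f372]] 0 1 f834 = true := by decide +kernel

theorem c835 : ckC W [[f833, f373]] 0 1 f835 = true := by decide +kernel

theorem c836 : ckC W [[f835, f375]] 0 1 f836 = true := by decide +kernel

theorem c837 : ckC W [[f836, f374]] 0 1 f837 = true := by decide +kernel

theorem c838 : ckC W [[f833, f375]] 0 1 f838 = true := by decide +kernel

theorem c839 : ckC W [[f838, f374]] 0 1 f839 = true := by decide +kernel

theorem c840 : ckC W [[f839, f373]] 0 1 f840 = true := by decide +kernel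

theorem c841 : ckC W [[f375, f382]] 0 1 f841 = true := by decide +kernel

theorem c842 : ckC W [[f389, f256]] 0 1 f842 = true := by decide +kernel

theorem c843 : ckC W [[f390, f387]] 0 1 f843 = true := by decide +kernel

theorem c844 : ckC W [[f390, f391]] 0 1 f844 = true := by decide +kernel

theorem c845 : ckC W [[f844, f390]] 0 1 f845 = true := by decide +kernel

theorem c846 : ckC W [[f845, f392]] 0 1 f846 = true := by decide +kernel

theorem c847 : ckC W [[f846, f391]] 0 1 f847 = true := by decide +kernel

theorem c848 : ckC W [[f844, f392]] 0 1 f848 = true := by decide +kernel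

theorem c849 : ckC W [[f848, f391]] 0 1 f849 = true := by decide +kernel

theorem c850 : ckC W [[f849, f390]] 0 1 f850 = true := by decide +kernel

theorem c851 : ckC W [[f390, f392]] 0 1 f851 = true := by decide +kernel

theorem c852 : ckC W [[f851, f391]] 0 1 f852 = true := by decide +kernel

theorem c853 : ckC W [[f852, f390]] 0 1 f853 = true := by decide +kernel

theorem c854 : ckC W [[f391, f390]] 0 1 f854 = true := by decide +kernel

theorem c855 : ckC W [[f854, f392]] 0 1 f855 = true := by decide +kernel

theorem c856 : ckC W [[f855, f391]] 0 1 f856 = true := by decide +kernel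

theorem c857 : ckC W [[f856, f387]] 0 1 f857 = true := by decide +kernel

theorem c858 : ckC W [[f391, f392]] 0 1 f858 = true := by decide +kernel

theorem c859 : ckC W [[f858, f391]] 0 1 f859 = true := by decide +kernel

theorem c860 : ckC W [[f859, f390]] 0 1 f860 = true := by decide +kernel

theorem c861 : ckC W [[f392, f385]] 0 1 f861 = true := by decide +kernel

theorem c862 : ckC W [[f392, f386]] 0 1 f862 = true := by decide +kernel

theorem c863 : ckC W [[f392, f390]] 0 1 f863 = true := by decide +kernel

theorem c864 : ckC W [[f863, f391]] 0 1 f864 = true := by decide +kernel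

theorem c865 : ckC W [[f864, f390]] 0 1 f865 = true := by decide +kernel

theorem c866 : ckC W [[f865, f392]] 0 1 f866 = true := by decide +kernel

theorem c867 : ckC W [[f866, f391]] 0 1 f867 = true := by decide +kernel

theorem c868 : ckC W [[f864, f392]] 0 1 f868 = true := by decide +kernel

theorem c869 : ckC W [[f868, f391]] 0 1 f869 = true := by decide +kernel

theorem c870 : ckC W [[f869, f390]] 0 1 f870 = true := by decide +kernel

theorem c871 : ckC W [[f863, f392]] 0 1 f871 = true := by decide +kernel

theorem c872 : ckC W [[f871, f391]] 0 1 f872 = true := by decide +kernel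

theorem c873 : ckC W [[f872, f390]] 0 1 f873 = true := by decide +kernel

theorem c874 : ckC W [[f392, f391]] 0 1 f874 = true := by decide +kernel

theorem c875 : ckC W [[f874, f390]] 0 1 f875 = true := by decide +kernel

theorem c876 : ckC W [[f875, f392]] 0 1 f876 = true := by decide +kernel

theorem c877 : ckC W [[f876, f391]] 0 1 f877 = true := by decide +kernel

theorem c878 : ckC W [[f874, f392]] 0 1 f878 = true := by decide +kernel

theorem c879 : ckC W [[f878, f391]] 0 1 f879 = true := by decide +kernel

theorem c880 : ckC W [[f879, f390]] 0 1 f880 = true := by decide +kernel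

theorem c881 : ckC W [[f404, f403]] 0 1 f881 = true := by decide +kernel

theorem c882 : ckC W [[f881, f405]] 0 1 f882 = true := by decide +kernel

theorem c883 : ckC W [[f882, f404]] 0 1 f883 = true := by decide +kernel

theorem c884 : ckC W [[f883, f400]] 0 1 f884 = true := by decide +kernel

theorem c885 : ckC W [[f404, f405]] 0 1 f885 = true := by decide +kernel

theorem c886 : ckC W [[f885, f402]] 0 1 f886 = true := by decide +kernel

theorem c887 : ckC W [[f885, f404]] 0 1 f887 = true := by decide +kernel

theorem c888 : ckC W [[f887, f403]] 0 1 f888 = true := by decide +kernel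

theorem c889 : ckC W [[f405, f404]] 0 1 f889 = true := by decide +kernel

theorem c890 : ckC W [[f889, f402]] 0 1 f890 = true := by decide +kernel

theorem c891 : ckC W [[f889, f403]] 0 1 f891 = true := by decide +kernel

theorem c892 : ckC W [[f891, f405]] 0 1 f892 = true := by decide +kernel

theorem c893 : ckC W [[f892, f404]] 0 1 f893 = true := by decide +kernel

theorem c894 : ckC W [[f889, f405]] 0 1 f894 = true := by decide +kernel

theorem c895 : ckC W [[f894, f404]] 0 1 f895 = true := by decide +kernel

theorem c896 : ckC W [[f895, f403]] 0 1 f896 = true := by decide +kernel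

theorem c897 : ckC W [[f405, f408]] 0 1 f897 = true := by decide +kernel

theorem c898 : ckC W [[f415, f413]] 0 1 f898 = true := by decide +kernel

theorem c899 : ckC W [[f417, f411]] 0 1 f899 = true := by decide +kernel

theorem c900 : ckC W [[f417, f412]] 0 1 f900 = true := by decide +kernel

theorem c901 : ckC W [[f420, f419]] 0 1 f901 = true := by decide +kernel

theorem c902 : ckC W [[f901, f421]] 0 1 f902 = true := by decide +kernel

theorem c903 : ckC W [[f902, f420]] 0 1 f903 = true := by decide +kernel

theorem c904 : ckC W [[f903, f418]] 0 1 f904 = true := by decide +kernel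

end Pool.Agent.SWA93
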