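import Mathlib
import Pool.Agent.SWA93.C0
import Pool.Agent.SWA93.C1
import Pool.Agent.SWA93.C2
import Pool.Agent.SWA93.C3
import Pool.Agent.SWA93.C4
import Pool.Agent.SWA93.C5
import Pool.Agent.SWA93.C6
import Pool.Agent.SWA93.C7
import Pool.Agent.SWA93.E0
import Pool.Agent.SWA93.E1

/-!
# The tables with at most four rails are correct
-/

set_option autoImplicit false

namespace Pool.Agent.SWA93

open Pool.Agent.SWL57

section

variable {M : Md rels relsE} {n m : ℕ}

theorem fk_le (h : n ≤ m) {f : Fc} (hf : Fk M W m f) : Fk M W n f := by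
  refine ⟨hf.1, fun i hi => ?_⟩
  obtain ⟨h1, h2⟩ := hf.2 i hi
  exact ⟨h1.weak fun x hx => cg_le M h hx, h2⟩

theorem fl_nil : ∀ f ∈ ([] : List Fc), Fk M W n f := fun _ h => absurd h List.not_mem_nil

theorem fl_cons {f : Fc} {l : List Fc} (h : n ≤ m) (hf : Fk M W m f)
    (hl : ∀ f ∈ l, Fk M W n f) : ∀ g ∈ f :: l, Fk M W n g := by
  intro g hg
  rcases List.mem_cons.1 hg with rfl | hg
  · exact fk_le h hf
  · exact hl g hg

theorem fs_nil : Fs M W n [] := fun _ h => absurd h List.not_mem_nil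

theorem fs_cons {l : List Fc} {L : List (List Fc)} (hl : ∀ f ∈ l, Fk M W n f)
    (hL : Fs M W n L) : Fs M W n (l :: L) := by
  intro l' h
  rcases List.mem_cons.1 h with rfl | h
  · exact hl
  · exact hL l' h

end

variable (M : Md rels relsE)

theorem g1 : ∀ u, Gd (M.cg 15 (W 1).k) (sy M W 1 bl1) (gS S1 u) :=
  chBT_spec hW (n := 15) (L := L1) fs_nil (by norm_num) o1 b1

theorem k0 : Fk M W 15 f0 := chT_fk (n := 15) (a := 0) o1 (List.mem_of_getElem? (i := 0) rfl)
  (by norm_num) (by norm_num) (g1 M) t0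

theorem g2 : ∀ u, Gd (M.cg 15 (W 2).k) (sy M W 2 bl2) (gS S2 u) :=
  chBT_spec hW (n := 15) (L := L2) (fs_cons (fl_cons (by norm_num) (k0 M) fl_nil)
    fs_nil) (by norm_num) o2 b2

theorem k12 : Fk M W 15 f12 := chT_fk (n := 15) (a := 0) o2 (List.mem_of_getElem? (i := 0) rfl)
  (by norm_num) (by norm_num) (g2 M) t12

theorem k13 : Fk M W 15 f13 := ckX_fk hW (L := [[f0]])
  (fs_cons (fl_cons (by norm_num) (k0 M) fl_nil)
    fs_nil) (by norm_num) x13

theorem g3 : ∀ u, Gd (M.cg 15 (W 3).k) (sy M W 3 bl3) (gS S3 u) :=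
  chBT_spec hW (n := 15) (L := L3) (fs_cons (fl_cons (by norm_num) (k0 M) fl_nil)
    fs_nil) (by norm_num) o3 b3

theorem k8 : Fk M W 15 f8 := chT_fk (n := 15) (a := 0) o3 (List.mem_of_getElem? (i := 2) rfl)
  (by norm_num) (by norm_num) (g3 M) t8

theorem k9 : Fk M W 15 f9 := chT_fk (n := 15) (a := 0) o3 (List.mem_of_getElem? (i := 1) rfl)
  (by norm_num) (by norm_num) (g3 M) t9

theorem k121 : Fk M W 15 f121 := ckX_fk hW (L := [[f8, f9]])
  (fs_cons (fl_cons (by norm_num) (k8 M) (fl_cons (by norm_num) (k9 M) fl_nil))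
    fs_nil) (by norm_num) x121

theorem k10 : Fk M W 15 f10 := chT_fk (n := 15) (a := 0) o3 (List.mem_of_getElem? (i := 0) rfl)
  (by norm_num) (by norm_num) (g3 M) t10

theorem k120 : Fk M W 15 f120 := ckX_fk hW (L := [[f8, f10]])
  (fs_cons (fl_cons (by norm_num) (k8 M) (fl_cons (by norm_num) (k10 M) fl_nil))
    fs_nil) (by norm_num) x120

theorem k476 : Fk M W 15 f476 := ckC_fk (L := [[f10, f120]])
  (fs_cons (fl_cons (by norm_num) (k10 M) (fl_cons (by norm_num) (k120 M) fl_nil))
    fs_nil) (by norm_num) c476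

theorem g5 : ∀ u, Gd (M.cg 15 (W 5).k) (sy M W 5 bl5) (gS S5 u) :=
  chBT_spec hW (n := 15) (L := L5) (fs_cons (fl_cons (by norm_num) (k0 M) (fl_cons (by norm_num) (k12 M) (fl_cons (by norm_num) (k13 M) (fl_cons (by norm_num) (k121 M) (fl_cons (by norm_num) (k476 M) fl_nil)))))
    fs_nil) (by norm_num) o5 b5

theorem k1 : Fk M W 15 f1 := chT_fk (n := 15) (a := 0) o5 (List.mem_of_getElem? (i := 2) rfl)
  (by norm_num) (by norm_num) (g5 M) t1

theorem k118 : Fk M W 15 f118 := chT_fk (n := 15) (a := 0) o5 (List.mem_of_getElem? (i := 0) rfl)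
  (by norm_num) (by norm_num) (g5 M) t118

theorem k119 : Fk M W 15 f119 := chT_fk (n := 15) (a := 0) o5 (List.mem_of_getElem? (i := 1) rfl)
  (by norm_num) (by norm_num) (g5 M) t119

theorem k477 : Fk M W 15 f477 := ckC_fk (L := [[f476, f121]])
  (fs_cons (fl_cons (by norm_num) (k476 M) (fl_cons (by norm_num) (k121 M) fl_nil))
    fs_nil) (by norm_num) c477

theorem k478 : Fk M W 15 f478 := ckC_fk (L := [[f477, f120]])
  (fs_cons (fl_cons (by norm_num) (k477 M) (fl_cons (by norm_num) (k120 M) fl_nil))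
    fs_nil) (by norm_num) c478

theorem k479 : Fk M W 15 f479 := ckC_fk (L := [[f13, f8]])
  (fs_cons (fl_cons (by norm_num) (k13 M) (fl_cons (by norm_num) (k8 M) fl_nil))
    fs_nil) (by norm_num) c479

theorem g6 : ∀ u, Gd (M.cg 15 (W 6).k) (sy M W 6 bl6) (gS S6 u) :=
  chBT_spec hW (n := 15) (L := L6) (fs_cons (fl_cons (by norm_num) (k10 M) (fl_cons (by norm_num) (k476 M) (fl_cons (by norm_num) (k477 M) (fl_cons (by norm_num) (k478 M) (fl_cons (by norm_num) (k479 M) fl_nil)))))
    fs_nil) (by norm_num) o6 b6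

theorem k109 : Fk M W 15 f109 := chT_fk (n := 15) (a := 0) o6 (List.mem_of_getElem? (i := 5) rfl)
  (by norm_num) (by norm_num) (g6 M) t109

theorem k538 : Fk M W 15 f538 := ckC_fk (L := [[f120, f109]])
  (fs_cons (fl_cons (by norm_num) (k120 M) (fl_cons (by norm_num) (k109 M) fl_nil))
    fs_nil) (by norm_num) c538

theorem k110 : Fk M W 15 f110 := chT_fk (n := 15) (a := 0) o6 (List.mem_of_getElem? (i := 4) rfl)
  (by norm_num) (by norm_num) (g6 M) t110

theorem k111 : Fk M W 15 f111 := chT_fk (n := 15) (a := 0) o6 (List.mem_of_getElem? (i := 3) rfl)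
  (by norm_num) (by norm_num) (g6 M) t111

theorem k292 : Fk M W 15 f292 := ckX_fk hW (L := [[f110, f111, f538]])
  (fs_cons (fl_cons (by norm_num) (k110 M) (fl_cons (by norm_num) (k111 M) (fl_cons (by norm_num) (k538 M) fl_nil)))
    fs_nil) (by norm_num) x292

theorem k114 : Fk M W 15 f114 := chT_fk (n := 15) (a := 0) o6 (List.mem_of_getElem? (i := 0) rfl)
  (by norm_num) (by norm_num) (g6 M) t114

theorem k539 : Fk M W 15 f539 := ckC_fk (L := [[f120, f111]])
  (fs_cons (fl_cons (by norm_num) (k120 M) (fl_cons (by norm_num) (k111 M) fl_nil))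
    fs_nil) (by norm_num) c539

theorem k291 : Fk M W 15 f291 := ckX_fk hW (L := [[f109, f110, f539]])
  (fs_cons (fl_cons (by norm_num) (k109 M) (fl_cons (by norm_num) (k110 M) (fl_cons (by norm_num) (k539 M) fl_nil)))
    fs_nil) (by norm_num) x291

theorem k536 : Fk M W 15 f536 := ckC_fk (L := [[f114, f291]])
  (fs_cons (fl_cons (by norm_num) (k114 M) (fl_cons (by norm_num) (k291 M) fl_nil))
    fs_nil) (by norm_num) c536

theorem k14 : Fk M W 15 f14 := chT_fk (n := 15) (a := 0) o5 (List.mem_of_getElem? (i := 3) rfl)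
  (by norm_num) (by norm_num) (g5 M) t14

theorem k112 : Fk M W 15 f112 := chT_fk (n := 15) (a := 0) o6 (List.mem_of_getElem? (i := 2) rfl)
  (by norm_num) (by norm_num) (g6 M) t112

theorem k113 : Fk M W 15 f113 := chT_fk (n := 15) (a := 0) o6 (List.mem_of_getElem? (i := 1) rfl)
  (by norm_num) (by norm_num) (g6 M) t113

theorem k290 : Fk M W 15 f290 := ckX_fk hW (L := [[f109, f112, f113]])
  (fs_cons (fl_cons (by norm_num) (k109 M) (fl_cons (by norm_num) (k112 M) (fl_cons (by norm_num) (k113 M) fl_nil)))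
    fs_nil) (by norm_num) x290

theorem k537 : Fk M W 15 f537 := ckC_fk (L := [[f536, f290]])
  (fs_cons (fl_cons (by norm_num) (k536 M) (fl_cons (by norm_num) (k290 M) fl_nil))
    fs_nil) (by norm_num) c537

theorem k540 : Fk M W 15 f540 := ckC_fk (L := [[f120, f121]])
  (fs_cons (fl_cons (by norm_num) (k120 M) (fl_cons (by norm_num) (k121 M) fl_nil))
    fs_nil) (by norm_num) c540

theorem k542 : Fk M W 15 f542 := ckC_fk (L := [[f121, f120]])
  (fs_cons (fl_cons (by norm_num) (k121 M) (fl_cons (by norm_num) (k120 M) fl_nil))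
    fs_nil) (by norm_num) c542

theorem k543 : Fk M W 15 f543 := ckC_fk (L := [[f542, f121]])
  (fs_cons (fl_cons (by norm_num) (k542 M) (fl_cons (by norm_num) (k121 M) fl_nil))
    fs_nil) (by norm_num) c543

theorem g10 : ∀ u, Gd (M.cg 15 (W 10).k) (sy M W 10 bl10) (gS S10 u) :=
  chBT_spec hW (n := 15) (L := L10) (fs_cons (fl_cons (by norm_num) (k8 M) (fl_cons (by norm_num) (k9 M) (fl_cons (by norm_num) (k14 M) (fl_cons (by norm_num) (k114 M) (fl_cons (by norm_num) (k119 M) (fl_cons (by norm_num) (k120 M) (fl_cons (by norm_num) (k121 M) (fl_cons (by norm_num) (k292 M) (fl_cons (by norm_num) (k536 M) (fl_cons (by norm_num) (k537 M) (fl_cons (by norm_num) (k540 M) (fl_cons (by norm_num) (k542 M) (fl_cons (by norm_num) (k543 M) fl_nil)))))))))))))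
    fs_nil) (by norm_num) o10 b10

theorem k125 : Fk M W 15 f125 := chT_fk (n := 15) (a := 0) o10 (List.mem_of_getElem? (i := 9) rfl)
  (by norm_num) (by norm_num) (g10 M) t125

theorem g8 : ∀ u, Gd (M.cg 15 (W 8).k) (sy M W 8 bl8) (gS S8 u) :=
  chBT_spec hW (n := 15) (L := L8) (fs_cons (fl_cons (by norm_num) (k12 M) (fl_cons (by norm_num) (k14 M) fl_nil))
    fs_nil) (by norm_num) o8 b8

theorem k30 : Fk M W 15 f30 := chT_fk (n := 15) (a := 0) o8 (List.mem_of_getElem? (i := 0) rfl)
  (by norm_num) (by norm_num) (g8 M) t30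

theorem k15 : Fk M W 15 f15 := chT_fk (n := 15) (a := 0) o5 (List.mem_of_getElem? (i := 4) rfl)
  (by norm_num) (by norm_num) (g5 M) t15

theorem k481 : Fk M W 15 f481 := ckC_fk (L := [[f13, f15]])
  (fs_cons (fl_cons (by norm_num) (k13 M) (fl_cons (by norm_num) (k15 M) fl_nil))
    fs_nil) (by norm_num) c481

theorem k31 : Fk M W 15 f31 := ckX_fk hW (L := [[f481]])
  (fs_cons (fl_cons (by norm_num) (k481 M) fl_nil)
    fs_nil) (by norm_num) x31

theorem g12 : ∀ u, Gd (M.cg 15 (W 12).k) (sy M W 12 bl12) (gS S12 u) :=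
  chBT_spec hW (n := 15) (L := L12) (fs_cons (fl_cons (by norm_num) (k1 M) (fl_cons (by norm_num) (k30 M) (fl_cons (by norm_num) (k31 M) (fl_cons (by norm_num) (k118 M) (fl_cons (by norm_num) (k119 M) (fl_cons (by norm_num) (k125 M) fl_nil))))))
    fs_nil) (by norm_num) o12 b12

theorem k2 : Fk M W 15 f2 := chT_fk (n := 15) (a := 0) o12 (List.mem_of_getElem? (i := 2) rfl)
  (by norm_num) (by norm_num) (g12 M) t2

theorem k422 : Fk M W 15 f422 := ckC_fk (L := [[f0, f10]])
  (fs_cons (fl_cons (by norm_num) (k0 M) (fl_cons (by norm_num) (k10 M) fl_nil))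
    fs_nil) (by norm_num) c422

theorem k423 : Fk M W 15 f423 := ckC_fk (L := [[f422, f120]])
  (fs_cons (fl_cons (by norm_num) (k422 M) (fl_cons (by norm_num) (k120 M) fl_nil))
    fs_nil) (by norm_num) c423

theorem k424 : Fk M W 15 f424 := ckC_fk (L := [[f423, f121]])
  (fs_cons (fl_cons (by norm_num) (k423 M) (fl_cons (by norm_num) (k121 M) fl_nil))
    fs_nil) (by norm_num) c424

theorem k425 : Fk M W 15 f425 := ckC_fk (L := [[f424, f120]])
  (fs_cons (fl_cons (by norm_num) (k424 M) (fl_cons (by norm_num) (k120 M) fl_nil))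
    fs_nil) (by norm_num) c425

theorem k426 : Fk M W 15 f426 := ckC_fk (L := [[f422, f121]])
  (fs_cons (fl_cons (by norm_num) (k422 M) (fl_cons (by norm_num) (k121 M) fl_nil))
    fs_nil) (by norm_num) c426

theorem k427 : Fk M W 15 f427 := ckC_fk (L := [[f426, f120]])
  (fs_cons (fl_cons (by norm_num) (k426 M) (fl_cons (by norm_num) (k120 M) fl_nil))
    fs_nil) (by norm_num) c427

theorem g4 : ∀ u, Gd (M.cg 15 (W 4).k) (sy M W 4 bl4) (gS S4 u) :=
  chBT_spec hW (n := 15) (L := L4) fs_nil (by norm_num) o4 b4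

theorem k11 : Fk M W 15 f11 := chT_fk (n := 15) (a := 0) o4 (List.mem_of_getElem? (i := 0) rfl)
  (by norm_num) (by norm_num) (g4 M) t11

theorem g9 : ∀ u, Gd (M.cg 15 (W 9).k) (sy M W 9 bl9) (gS S9 u) :=
  chBT_spec hW (n := 15) (L := L9) (fs_cons (fl_cons (by norm_num) (k8 M) (fl_cons (by norm_num) (k9 M) (fl_cons (by norm_num) (k10 M) (fl_cons (by norm_num) (k11 M) (fl_cons (by norm_num) (k422 M) (fl_cons (by norm_num) (k423 M) (fl_cons (by norm_num) (k424 M) (fl_cons (by norm_num) (k425 M) (fl_cons (by norm_num) (k426 M) (fl_cons (by norm_num) (k427 M) fl_nil))))))))))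
    fs_nil) (by norm_num) o9 b9

theorem k16 : Fk M W 15 f16 := chT_fk (n := 15) (a := 0) o9 (List.mem_of_getElem? (i := 5) rfl)
  (by norm_num) (by norm_num) (g9 M) t16

theorem k17 : Fk M W 15 f17 := chT_fk (n := 15) (a := 0) o9 (List.mem_of_getElem? (i := 4) rfl)
  (by norm_num) (by norm_num) (g9 M) t17

theorem k18 : Fk M W 15 f18 := chT_fk (n := 15) (a := 0) o9 (List.mem_of_getElem? (i := 3) rfl)
  (by norm_num) (by norm_num) (g9 M) t18

theorem k19 : Fk M W 15 f19 := chT_fk (n := 15) (a := 0) o12 (List.mem_of_getElem? (i := 4) rfl)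
  (by norm_num) (by norm_num) (g12 M) t19

theorem k20 : Fk M W 15 f20 := chT_fk (n := 15) (a := 0) o12 (List.mem_of_getElem? (i := 5) rfl)
  (by norm_num) (by norm_num) (g12 M) t20

theorem k25 : Fk M W 15 f25 := chT_fk (n := 15) (a := 0) o10 (List.mem_of_getElem? (i := 8) rfl)
  (by norm_num) (by norm_num) (g10 M) t25

theorem k26 : Fk M W 15 f26 := chT_fk (n := 15) (a := 0) o10 (List.mem_of_getElem? (i := 7) rfl)
  (by norm_num) (by norm_num) (g10 M) t26

theorem k153 : Fk M W 15 f153 := chT_fk (n := 15) (a := 0) o12 (List.mem_of_getElem? (i := 1) rfl)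
  (by norm_num) (by norm_num) (g12 M) t153

theorem k288 : Fk M W 15 f288 := chT_fk (n := 15) (a := 0) o10 (List.mem_of_getElem? (i := 4) rfl)
  (by norm_num) (by norm_num) (g10 M) t288

theorem k541 : Fk M W 15 f541 := ckC_fk (L := [[f120, f125]])
  (fs_cons (fl_cons (by norm_num) (k120 M) (fl_cons (by norm_num) (k125 M) fl_nil))
    fs_nil) (by norm_num) c541

theorem k154 : Fk M W 15 f154 := ckX_fk hW (L := [[f288, f541]])
  (fs_cons (fl_cons (by norm_num) (k288 M) (fl_cons (by norm_num) (k541 M) fl_nil))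
    fs_nil) (by norm_num) x154

theorem k544 : Fk M W 15 f544 := ckC_fk (L := [[f121, f125]])
  (fs_cons (fl_cons (by norm_num) (k121 M) (fl_cons (by norm_num) (k125 M) fl_nil))
    fs_nil) (by norm_num) c544

theorem k287 : Fk M W 15 f287 := chT_fk (n := 15) (a := 0) o10 (List.mem_of_getElem? (i := 5) rfl)
  (by norm_num) (by norm_num) (g10 M) t287

theorem k688 : Fk M W 15 f688 := ckC_fk (L := [[f290, f287]])
  (fs_cons (fl_cons (by norm_num) (k290 M) (fl_cons (by norm_num) (k287 M) fl_nil))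
    fs_nil) (by norm_num) c688

theorem k155 : Fk M W 15 f155 := ckX_fk hW (L := [[f544, f688]])
  (fs_cons (fl_cons (by norm_num) (k544 M) (fl_cons (by norm_num) (k688 M) fl_nil))
    fs_nil) (by norm_num) x155

theorem k32 : Fk M W 15 f32 := chT_fk (n := 15) (a := 0) o12 (List.mem_of_getElem? (i := 3) rfl)
  (by norm_num) (by norm_num) (g12 M) t32

theorem k289 : Fk M W 15 f289 := chT_fk (n := 15) (a := 0) o10 (List.mem_of_getElem? (i := 3) rfl)
  (by norm_num) (by norm_num) (g10 M) t289

theorem k690 : Fk M W 15 f690 := ckC_fk (L := [[f291, f290]])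
  (fs_cons (fl_cons (by norm_num) (k291 M) (fl_cons (by norm_num) (k290 M) fl_nil))
    fs_nil) (by norm_num) c690

theorem k691 : Fk M W 15 f691 := ckC_fk (L := [[f690, f292]])
  (fs_cons (fl_cons (by norm_num) (k690 M) (fl_cons (by norm_num) (k292 M) fl_nil))
    fs_nil) (by norm_num) c691

theorem k692 : Fk M W 15 f692 := ckC_fk (L := [[f691, f291]])
  (fs_cons (fl_cons (by norm_num) (k691 M) (fl_cons (by norm_num) (k291 M) fl_nil))
    fs_nil) (by norm_num) c692

theorem k693 : Fk M W 15 f693 := ckC_fk (L := [[f291, f292]])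
  (fs_cons (fl_cons (by norm_num) (k291 M) (fl_cons (by norm_num) (k292 M) fl_nil))
    fs_nil) (by norm_num) c693

theorem k694 : Fk M W 15 f694 := ckC_fk (L := [[f693, f291]])
  (fs_cons (fl_cons (by norm_num) (k693 M) (fl_cons (by norm_num) (k291 M) fl_nil))
    fs_nil) (by norm_num) c694

theorem k695 : Fk M W 15 f695 := ckC_fk (L := [[f694, f290]])
  (fs_cons (fl_cons (by norm_num) (k694 M) (fl_cons (by norm_num) (k290 M) fl_nil))
    fs_nil) (by norm_num) c695

theorem k698 : Fk M W 15 f698 := ckC_fk (L := [[f292, f291]])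
  (fs_cons (fl_cons (by norm_num) (k292 M) (fl_cons (by norm_num) (k291 M) fl_nil))
    fs_nil) (by norm_num) c698

theorem k699 : Fk M W 15 f699 := ckC_fk (L := [[f698, f290]])
  (fs_cons (fl_cons (by norm_num) (k698 M) (fl_cons (by norm_num) (k290 M) fl_nil))
    fs_nil) (by norm_num) c699

theorem k700 : Fk M W 15 f700 := ckC_fk (L := [[f699, f292]])
  (fs_cons (fl_cons (by norm_num) (k699 M) (fl_cons (by norm_num) (k292 M) fl_nil))
    fs_nil) (by norm_num) c700

theorem k701 : Fk M W 15 f701 := ckC_fk (L := [[f700, f291]])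
  (fs_cons (fl_cons (by norm_num) (k700 M) (fl_cons (by norm_num) (k291 M) fl_nil))
    fs_nil) (by norm_num) c701

theorem k702 : Fk M W 15 f702 := ckC_fk (L := [[f698, f292]])
  (fs_cons (fl_cons (by norm_num) (k698 M) (fl_cons (by norm_num) (k292 M) fl_nil))
    fs_nil) (by norm_num) c702

theorem k703 : Fk M W 15 f703 := ckC_fk (L := [[f702, f291]])
  (fs_cons (fl_cons (by norm_num) (k702 M) (fl_cons (by norm_num) (k291 M) fl_nil))
    fs_nil) (by norm_num) c703

theorem k704 : Fk M W 15 f704 := ckC_fk (L := [[f703, f290]])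
  (fs_cons (fl_cons (by norm_num) (k703 M) (fl_cons (by norm_num) (k290 M) fl_nil))
    fs_nil) (by norm_num) c704

theorem k122 : Fk M W 15 f122 := chT_fk (n := 15) (a := 0) o10 (List.mem_of_getElem? (i := 0) rfl)
  (by norm_num) (by norm_num) (g10 M) t122

theorem k123 : Fk M W 15 f123 := chT_fk (n := 15) (a := 0) o10 (List.mem_of_getElem? (i := 1) rfl)
  (by norm_num) (by norm_num) (g10 M) t123

theorem k124 : Fk M W 15 f124 := chT_fk (n := 15) (a := 0) o10 (List.mem_of_getElem? (i := 2) rfl)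
  (by norm_num) (by norm_num) (g10 M) t124

theorem g14 : ∀ u, Gd (M.cg 15 (W 14).k) (sy M W 14 bl14) (gS S14 u) :=
  chBT_spec hW (n := 15) (L := L14) (fs_cons (fl_cons (by norm_num) (k109 M) (fl_cons (by norm_num) (k110 M) (fl_cons (by norm_num) (k111 M) (fl_cons (by norm_num) (k112 M) (fl_cons (by norm_num) (k113 M) (fl_cons (by norm_num) (k114 M) (fl_cons (by norm_num) (k122 M) (fl_cons (by norm_num) (k123 M) (fl_cons (by norm_num) (k124 M) (fl_cons (by norm_num) (k125 M) (fl_cons (by norm_num) (k289 M) (fl_cons (by norm_num) (k291 M) (fl_cons (by norm_num) (k292 M) (fl_cons (by norm_num) (k690 M) (fl_cons (by norm_num) (k692 M) (fl_cons (by norm_num) (k693 M) fl_nil))))))))))))))))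
    (fs_cons (fl_cons (by norm_num) (k695 M) (fl_cons (by norm_num) (k698 M) (fl_cons (by norm_num) (k699 M) (fl_cons (by norm_num) (k701 M) (fl_cons (by norm_num) (k702 M) (fl_cons (by norm_num) (k704 M) fl_nil))))))
    fs_nil)) (by norm_num) o14 b14

theorem k293 : Fk M W 15 f293 := chT_fk (n := 15) (a := 0) o14 (List.mem_of_getElem? (i := 5) rfl)
  (by norm_num) (by norm_num) (g14 M) t293

theorem k294 : Fk M W 15 f294 := chT_fk (n := 15) (a := 0) o14 (List.mem_of_getElem? (i := 4) rfl)
  (by norm_num) (by norm_num) (g14 M) t294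

theorem k295 : Fk M W 15 f295 := chT_fk (n := 15) (a := 0) o14 (List.mem_of_getElem? (i := 3) rfl)
  (by norm_num) (by norm_num) (g14 M) t295

theorem k298 : Fk M W 15 f298 := chT_fk (n := 15) (a := 0) o14 (List.mem_of_getElem? (i := 0) rfl)
  (by norm_num) (by norm_num) (g14 M) t298

theorem k299 : Fk M W 15 f299 := chT_fk (n := 15) (a := 0) o14 (List.mem_of_getElem? (i := 6) rfl)
  (by norm_num) (by norm_num) (g14 M) t299

theorem k148 : Fk M W 15 f148 := chT_fk (n := 15) (a := 0) o14 (List.mem_of_getElem? (i := 7) rfl)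
  (by norm_num) (by norm_num) (g14 M) t148

theorem k143 : Fk M W 15 f143 := chT_fk (n := 15) (a := 0) o14 (List.mem_of_getElem? (i := 12) rfl)
  (by norm_num) (by norm_num) (g14 M) t143

theorem k144 : Fk M W 15 f144 := chT_fk (n := 15) (a := 0) o14 (List.mem_of_getElem? (i := 11) rfl)
  (by norm_num) (by norm_num) (g14 M) t144

theorem k146 : Fk M W 15 f146 := chT_fk (n := 15) (a := 0) o14 (List.mem_of_getElem? (i := 9) rfl)
  (by norm_num) (by norm_num) (g14 M) t146

theorem k147 : Fk M W 15 f147 := chT_fk (n := 15) (a := 0) o14 (List.mem_of_getElem? (i := 8) rfl)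
  (by norm_num) (by norm_num) (g14 M) t147

theorem k145 : Fk M W 15 f145 := chT_fk (n := 15) (a := 0) o14 (List.mem_of_getElem? (i := 10) rfl)
  (by norm_num) (by norm_num) (g14 M) t145

theorem k565 : Fk M W 15 f565 := ckC_fk (L := [[f154, f145]])
  (fs_cons (fl_cons (by norm_num) (k154 M) (fl_cons (by norm_num) (k145 M) fl_nil))
    fs_nil) (by norm_num) c565

theorem k696 : Fk M W 15 f696 := ckC_fk (L := [[f291, f294]])
  (fs_cons (fl_cons (by norm_num) (k291 M) (fl_cons (by norm_num) (k294 M) fl_nil))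
    fs_nil) (by norm_num) c696

theorem k324 : Fk M W 15 f324 := ckX_fk hW (L := [[f143, f144, f146, f147, f148, f565, f696]])
  (fs_cons (fl_cons (by norm_num) (k143 M) (fl_cons (by norm_num) (k144 M) (fl_cons (by norm_num) (k146 M) (fl_cons (by norm_num) (k147 M) (fl_cons (by norm_num) (k148 M) (fl_cons (by norm_num) (k565 M) (fl_cons (by norm_num) (k696 M) fl_nil)))))))
    fs_nil) (by norm_num) x324

theorem k562 : Fk M W 15 f562 := ckC_fk (L := [[f148, f324]])
  (fs_cons (fl_cons (by norm_num) (k148 M) (fl_cons (by norm_num) (k324 M) fl_nil))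
    fs_nil) (by norm_num) c562

theorem k689 : Fk M W 15 f689 := ckC_fk (L := [[f290, f293]])
  (fs_cons (fl_cons (by norm_num) (k290 M) (fl_cons (by norm_num) (k293 M) fl_nil))
    fs_nil) (by norm_num) c689

theorem k566 : Fk M W 15 f566 := ckC_fk (L := [[f154, f148]])
  (fs_cons (fl_cons (by norm_num) (k154 M) (fl_cons (by norm_num) (k148 M) fl_nil))
    fs_nil) (by norm_num) c566

theorem k323 : Fk M W 15 f323 := ckX_fk hW (L := [[f143, f144, f145, f146, f147, f566, f689]])
  (fs_cons (fl_cons (by norm_num) (k143 M) (fl_cons (by norm_num) (k144 M) (fl_cons (by norm_num) (k145 M) (fl_cons (by norm_num) (k146 M) (fl_cons (by norm_num) (k147 M) (fl_cons (by norm_num) (k566 M) (fl_cons (by norm_num) (k689 M) fl_nil)))))))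
    fs_nil) (by norm_num) x323

theorem k563 : Fk M W 15 f563 := ckC_fk (L := [[f562, f323]])
  (fs_cons (fl_cons (by norm_num) (k562 M) (fl_cons (by norm_num) (k323 M) fl_nil))
    fs_nil) (by norm_num) c563

theorem k567 : Fk M W 15 f567 := ckC_fk (L := [[f154, f155]])
  (fs_cons (fl_cons (by norm_num) (k154 M) (fl_cons (by norm_num) (k155 M) fl_nil))
    fs_nil) (by norm_num) c567

theorem k568 : Fk M W 15 f568 := ckC_fk (L := [[f567, f154]])
  (fs_cons (fl_cons (by norm_num) (k567 M) (fl_cons (by norm_num) (k154 M) fl_nil))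
    fs_nil) (by norm_num) c568

theorem k570 : Fk M W 15 f570 := ckC_fk (L := [[f155, f154]])
  (fs_cons (fl_cons (by norm_num) (k155 M) (fl_cons (by norm_num) (k154 M) fl_nil))
    fs_nil) (by norm_num) c570

theorem k571 : Fk M W 15 f571 := ckC_fk (L := [[f570, f155]])
  (fs_cons (fl_cons (by norm_num) (k570 M) (fl_cons (by norm_num) (k155 M) fl_nil))
    fs_nil) (by norm_num) c571

theorem k564 : Fk M W 15 f564 := ckC_fk (L := [[f154, f143]])
  (fs_cons (fl_cons (by norm_num) (k154 M) (fl_cons (by norm_num) (k143 M) fl_nil))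
    fs_nil) (by norm_num) c564

theorem k325 : Fk M W 15 f325 := ckX_fk hW (L := [[f144, f145, f146, f147, f148, f564]])
  (fs_cons (fl_cons (by norm_num) (k144 M) (fl_cons (by norm_num) (k145 M) (fl_cons (by norm_num) (k146 M) (fl_cons (by norm_num) (k147 M) (fl_cons (by norm_num) (k148 M) (fl_cons (by norm_num) (k564 M) fl_nil))))))
    fs_nil) (by norm_num) x325

theorem k115 : Fk M W 15 f115 := chT_fk (n := 15) (a := 0) o9 (List.mem_of_getElem? (i := 0) rfl)
  (by norm_num) (by norm_num) (g9 M) t115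

theorem k116 : Fk M W 15 f116 := chT_fk (n := 15) (a := 0) o9 (List.mem_of_getElem? (i := 1) rfl)
  (by norm_num) (by norm_num) (g9 M) t116

theorem k117 : Fk M W 15 f117 := chT_fk (n := 15) (a := 0) o9 (List.mem_of_getElem? (i := 2) rfl)
  (by norm_num) (by norm_num) (g9 M) t117

theorem g18 : ∀ u, Gd (M.cg 15 (W 18).k) (sy M W 18 bl18) (gS S18 u) :=
  chBT_spec hW (n := 15) (L := L18) (fs_cons (fl_cons (by norm_num) (k16 M) (fl_cons (by norm_num) (k17 M) (fl_cons (by norm_num) (k18 M) (fl_cons (by norm_num) (k19 M) (fl_cons (by norm_num) (k20 M) (fl_cons (by norm_num) (k25 M) (fl_cons (by norm_num) (k26 M) (fl_cons (by norm_num) (k32 M) (fl_cons (by norm_num) (k115 M) (fl_cons (by norm_num) (k116 M) (fl_cons (by norm_num) (k117 M) (fl_cons (by norm_num) (k122 M) (fl_cons (by norm_num) (k123 M) (fl_cons (by norm_num) (k124 M) (fl_cons (by norm_num) (k125 M) (fl_cons (by norm_num) (k153 M) fl_nil))))))))))))))))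
    (fs_cons (fl_cons (by norm_num) (k154 M) (fl_cons (by norm_num) (k155 M) (fl_cons (by norm_num) (k287 M) (fl_cons (by norm_num) (k289 M) (fl_cons (by norm_num) (k293 M) (fl_cons (by norm_num) (k294 M) (fl_cons (by norm_num) (k295 M) (fl_cons (by norm_num) (k298 M) (fl_cons (by norm_num) (k299 M) (fl_cons (by norm_num) (k325 M) (fl_cons (by norm_num) (k562 M) (fl_cons (by norm_num) (k563 M) (fl_cons (by norm_num) (k567 M) (fl_cons (by norm_num) (k568 M) (fl_cons (by norm_num) (k570 M) (fl_cons (by norm_num) (k571 M) fl_nil))))))))))))))))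
    fs_nil)) (by norm_num) o18 b18

theorem k132 : Fk M W 15 f132 := chT_fk (n := 15) (a := 0) o18 (List.mem_of_getElem? (i := 6) rfl)
  (by norm_num) (by norm_num) (g18 M) t132

theorem k137 : Fk M W 15 f137 := ckX_fk hW (L := [[f16, f17, f18]])
  (fs_cons (fl_cons (by norm_num) (k16 M) (fl_cons (by norm_num) (k17 M) (fl_cons (by norm_num) (k18 M) fl_nil)))
    fs_nil) (by norm_num) x137

theorem k482 : Fk M W 15 f482 := ckC_fk (L := [[f18, f137]])
  (fs_cons (fl_cons (by norm_num) (k18 M) (fl_cons (by norm_num) (k137 M) fl_nil))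
    fs_nil) (by norm_num) c482

theorem k138 : Fk M W 15 f138 := ckX_fk hW (L := [[f16, f17, f18]])
  (fs_cons (fl_cons (by norm_num) (k16 M) (fl_cons (by norm_num) (k17 M) (fl_cons (by norm_num) (k18 M) fl_nil)))
    fs_nil) (by norm_num) x138

theorem k480 : Fk M W 15 f480 := ckC_fk (L := [[f13, f11]])
  (fs_cons (fl_cons (by norm_num) (k13 M) (fl_cons (by norm_num) (k11 M) fl_nil))
    fs_nil) (by norm_num) c480

theorem k22 : Fk M W 15 f22 := ckX_fk hW (L := [[f480]])
  (fs_cons (fl_cons (by norm_num) (k480 M) fl_nil)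
    fs_nil) (by norm_num) x22

theorem g11 : ∀ u, Gd (M.cg 15 (W 11).k) (sy M W 11 bl11) (gS S11 u) :=
  chBT_spec hW (n := 15) (L := L11) (fs_cons (fl_cons (by norm_num) (k11 M) (fl_cons (by norm_num) (k15 M) (fl_cons (by norm_num) (k18 M) (fl_cons (by norm_num) (k22 M) (fl_cons (by norm_num) (k138 M) (fl_cons (by norm_num) (k482 M) fl_nil))))))
    fs_nil) (by norm_num) o11 b11

theorem k135 : Fk M W 15 f135 := chT_fk (n := 15) (a := 0) o11 (List.mem_of_getElem? (i := 0) rfl)
  (by norm_num) (by norm_num) (g11 M) t135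

theorem k136 : Fk M W 15 f136 := chT_fk (n := 15) (a := 0) o11 (List.mem_of_getElem? (i := 1) rfl)
  (by norm_num) (by norm_num) (g11 M) t136

theorem k551 : Fk M W 15 f551 := ckC_fk (L := [[f137, f132]])
  (fs_cons (fl_cons (by norm_num) (k137 M) (fl_cons (by norm_num) (k132 M) fl_nil))
    fs_nil) (by norm_num) c551

theorem k134 : Fk M W 15 f134 := chT_fk (n := 15) (a := 0) o18 (List.mem_of_getElem? (i := 8) rfl)
  (by norm_num) (by norm_num) (g18 M) t134

theorem k552 : Fk M W 15 f552 := ckC_fk (L := [[f137, f134]])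
  (fs_cons (fl_cons (by norm_num) (k137 M) (fl_cons (by norm_num) (k134 M) fl_nil))
    fs_nil) (by norm_num) c552

theorem k43 : Fk M W 15 f43 := chT_fk (n := 15) (a := 0) o18 (List.mem_of_getElem? (i := 11) rfl)
  (by norm_num) (by norm_num) (g18 M) t43

theorem k44 : Fk M W 15 f44 := chT_fk (n := 15) (a := 0) o18 (List.mem_of_getElem? (i := 10) rfl)
  (by norm_num) (by norm_num) (g18 M) t44

theorem k45 : Fk M W 15 f45 := chT_fk (n := 15) (a := 0) o18 (List.mem_of_getElem? (i := 9) rfl)
  (by norm_num) (by norm_num) (g18 M) t45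

theorem k159 : Fk M W 15 f159 := chT_fk (n := 15) (a := 0) o18 (List.mem_of_getElem? (i := 12) rfl)
  (by norm_num) (by norm_num) (g18 M) t159

theorem k569 : Fk M W 15 f569 := ckC_fk (L := [[f154, f159]])
  (fs_cons (fl_cons (by norm_num) (k154 M) (fl_cons (by norm_num) (k159 M) fl_nil))
    fs_nil) (by norm_num) c569

theorem k188 : Fk M W 15 f188 := ckX_fk hW (L := [[f43, f44, f45, f551, f552, f569]])
  (fs_cons (fl_cons (by norm_num) (k43 M) (fl_cons (by norm_num) (k44 M) (fl_cons (by norm_num) (k45 M) (fl_cons (by norm_num) (k551 M) (fl_cons (by norm_num) (k552 M) (fl_cons (by norm_num) (k569 M) fl_nil))))))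
    fs_nil) (by norm_num) x188

theorem k495 : Fk M W 15 f495 := ckC_fk (L := [[f45, f188]])
  (fs_cons (fl_cons (by norm_num) (k45 M) (fl_cons (by norm_num) (k188 M) fl_nil))
    fs_nil) (by norm_num) c495

theorem g16 : ∀ u, Gd (M.cg 15 (W 16).k) (sy M W 16 bl16) (gS S16 u) :=
  chBT_spec hW (n := 15) (L := L16) (fs_cons (fl_cons (by norm_num) (k30 M) (fl_cons (by norm_num) (k32 M) fl_nil))
    fs_nil) (by norm_num) o16 b16

theorem k48 : Fk M W 15 f48 := chT_fk (n := 15) (a := 0) o16 (List.mem_of_getElem? (i := 0) rfl)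
  (by norm_num) (by norm_num) (g16 M) t48

theorem k33 : Fk M W 15 f33 := chT_fk (n := 15) (a := 0) o12 (List.mem_of_getElem? (i := 6) rfl)
  (by norm_num) (by norm_num) (g12 M) t33

theorem k488 : Fk M W 15 f488 := ckC_fk (L := [[f31, f33]])
  (fs_cons (fl_cons (by norm_num) (k31 M) (fl_cons (by norm_num) (k33 M) fl_nil))
    fs_nil) (by norm_num) c488

theorem k486 : Fk M W 15 f486 := ckC_fk (L := [[f22, f19]])
  (fs_cons (fl_cons (by norm_num) (k22 M) (fl_cons (by norm_num) (k19 M) fl_nil))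
    fs_nil) (by norm_num) c486

theorem k49 : Fk M W 15 f49 := ckX_fk hW (L := [[f486, f488]])
  (fs_cons (fl_cons (by norm_num) (k486 M) (fl_cons (by norm_num) (k488 M) fl_nil))
    fs_nil) (by norm_num) x49

theorem k133 : Fk M W 15 f133 := chT_fk (n := 15) (a := 0) o18 (List.mem_of_getElem? (i := 7) rfl)
  (by norm_num) (by norm_num) (g18 M) t133

theorem k556 : Fk M W 15 f556 := ckC_fk (L := [[f138, f133]])
  (fs_cons (fl_cons (by norm_num) (k138 M) (fl_cons (by norm_num) (k133 M) fl_nil))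
    fs_nil) (by norm_num) c556

theorem k557 : Fk M W 15 f557 := ckC_fk (L := [[f138, f134]])
  (fs_cons (fl_cons (by norm_num) (k138 M) (fl_cons (by norm_num) (k134 M) fl_nil))
    fs_nil) (by norm_num) c557

theorem k572 : Fk M W 15 f572 := ckC_fk (L := [[f155, f159]])
  (fs_cons (fl_cons (by norm_num) (k155 M) (fl_cons (by norm_num) (k159 M) fl_nil))
    fs_nil) (by norm_num) c572

theorem k189 : Fk M W 15 f189 := ckX_fk hW (L := [[f43, f44, f45, f556, f557, f572]])
  (fs_cons (fl_cons (by norm_num) (k43 M) (fl_cons (by norm_num) (k44 M) (fl_cons (by norm_num) (k45 M) (fl_cons (by norm_num) (k556 M) (fl_cons (by norm_num) (k557 M) (fl_cons (by norm_num) (k572 M) fl_nil))))))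
    fs_nil) (by norm_num) x189

theorem k24 : Fk M W 15 f24 := chT_fk (n := 15) (a := 0) o11 (List.mem_of_getElem? (i := 5) rfl)
  (by norm_num) (by norm_num) (g11 M) t24

theorem k152 : Fk M W 15 f152 := chT_fk (n := 15) (a := 0) o12 (List.mem_of_getElem? (i := 0) rfl)
  (by norm_num) (by norm_num) (g12 M) t152

theorem g20 : ∀ u, Gd (M.cg 15 (W 20).k) (sy M W 20 bl20) (gS S20 u) :=
  chBT_spec hW (n := 15) (L := L20) (fs_cons (fl_cons (by norm_num) (k2 M) (fl_cons (by norm_num) (k19 M) (fl_cons (by norm_num) (k24 M) (fl_cons (by norm_num) (k48 M) (fl_cons (by norm_num) (k49 M) (fl_cons (by norm_num) (k132 M) (fl_cons (by norm_num) (k135 M) (fl_cons (by norm_num) (k136 M) (fl_cons (by norm_num) (k152 M) (fl_cons (by norm_num) (k153 M) (fl_cons (by norm_num) (k159 M) (fl_cons (by norm_num) (k189 M) (fl_cons (by norm_num) (k495 M) fl_nil)))))))))))))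
    fs_nil) (by norm_num) o20 b20

theorem k3 : Fk M W 15 f3 := chT_fk (n := 15) (a := 0) o20 (List.mem_of_getElem? (i := 2) rfl)
  (by norm_num) (by norm_num) (g20 M) t3

theorem k483 : Fk M W 15 f483 := ckC_fk (L := [[f482, f138]])
  (fs_cons (fl_cons (by norm_num) (k482 M) (fl_cons (by norm_num) (k138 M) fl_nil))
    fs_nil) (by norm_num) c483

theorem k484 : Fk M W 15 f484 := ckC_fk (L := [[f483, f137]])
  (fs_cons (fl_cons (by norm_num) (k483 M) (fl_cons (by norm_num) (k137 M) fl_nil))
    fs_nil) (by norm_num) c484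

theorem k485 : Fk M W 15 f485 := ckC_fk (L := [[f22, f16]])
  (fs_cons (fl_cons (by norm_num) (k22 M) (fl_cons (by norm_num) (k16 M) fl_nil))
    fs_nil) (by norm_num) c485

theorem g13 : ∀ u, Gd (M.cg 15 (W 13).k) (sy M W 13 bl13) (gS S13 u) :=
  chBT_spec hW (n := 15) (L := L13) (fs_cons (fl_cons (by norm_num) (k18 M) (fl_cons (by norm_num) (k109 M) (fl_cons (by norm_num) (k110 M) (fl_cons (by norm_num) (k111 M) (fl_cons (by norm_num) (k112 M) (fl_cons (by norm_num) (k113 M) (fl_cons (by norm_num) (k114 M) (fl_cons (by norm_num) (k115 M) (fl_cons (by norm_num) (k116 M) (fl_cons (by norm_num) (k117 M) (fl_cons (by norm_num) (k482 M) (fl_cons (by norm_num) (k483 M) (fl_cons (by norm_num) (k484 M) (fl_cons (by norm_num) (k485 M) fl_nil))))))))))))))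
    fs_nil) (by norm_num) o13 b13

theorem k131 : Fk M W 15 f131 := chT_fk (n := 15) (a := 0) o13 (List.mem_of_getElem? (i := 4) rfl)
  (by norm_num) (by norm_num) (g13 M) t131

theorem k27 : Fk M W 15 f27 := chT_fk (n := 15) (a := 0) o10 (List.mem_of_getElem? (i := 6) rfl)
  (by norm_num) (by norm_num) (g10 M) t27

theorem k28 : Fk M W 15 f28 := chT_fk (n := 15) (a := 0) o11 (List.mem_of_getElem? (i := 3) rfl)
  (by norm_num) (by norm_num) (g11 M) t28

theorem k29 : Fk M W 15 f29 := chT_fk (n := 15) (a := 0) o11 (List.mem_of_getElem? (i := 4) rfl)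
  (by norm_num) (by norm_num) (g11 M) t29

theorem k129 : Fk M W 15 f129 := chT_fk (n := 15) (a := 0) o13 (List.mem_of_getElem? (i := 6) rfl)
  (by norm_num) (by norm_num) (g13 M) t129

theorem k128 : Fk M W 15 f128 := chT_fk (n := 15) (a := 0) o13 (List.mem_of_getElem? (i := 7) rfl)
  (by norm_num) (by norm_num) (g13 M) t128

theorem k550 : Fk M W 15 f550 := ckC_fk (L := [[f137, f128]])
  (fs_cons (fl_cons (by norm_num) (k137 M) (fl_cons (by norm_num) (k128 M) fl_nil))
    fs_nil) (by norm_num) c550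

theorem k126 : Fk M W 15 f126 := chT_fk (n := 15) (a := 0) o13 (List.mem_of_getElem? (i := 9) rfl)
  (by norm_num) (by norm_num) (g13 M) t126

theorem k127 : Fk M W 15 f127 := chT_fk (n := 15) (a := 0) o13 (List.mem_of_getElem? (i := 8) rfl)
  (by norm_num) (by norm_num) (g13 M) t127

theorem k307 : Fk M W 15 f307 := ckX_fk hW (L := [[f126, f127, f129, f131, f550]])
  (fs_cons (fl_cons (by norm_num) (k126 M) (fl_cons (by norm_num) (k127 M) (fl_cons (by norm_num) (k129 M) (fl_cons (by norm_num) (k131 M) (fl_cons (by norm_num) (k550 M) fl_nil)))))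
    fs_nil) (by norm_num) x307

theorem k545 : Fk M W 15 f545 := ckC_fk (L := [[f131, f307]])
  (fs_cons (fl_cons (by norm_num) (k131 M) (fl_cons (by norm_num) (k307 M) fl_nil))
    fs_nil) (by norm_num) c545

theorem k130 : Fk M W 15 f130 := chT_fk (n := 15) (a := 0) o13 (List.mem_of_getElem? (i := 5) rfl)
  (by norm_num) (by norm_num) (g13 M) t130

theorem k306 : Fk M W 15 f306 := ckX_fk hW (L := [[f126, f127, f128, f129, f130]])
  (fs_cons (fl_cons (by norm_num) (k126 M) (fl_cons (by norm_num) (k127 M) (fl_cons (by norm_num) (k128 M) (fl_cons (by norm_num) (k129 M) (fl_cons (by norm_num) (k130 M) fl_nil)))))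
    fs_nil) (by norm_num) x306

theorem k546 : Fk M W 15 f546 := ckC_fk (L := [[f545, f306]])
  (fs_cons (fl_cons (by norm_num) (k545 M) (fl_cons (by norm_num) (k306 M) fl_nil))
    fs_nil) (by norm_num) c546

theorem k549 : Fk M W 15 f549 := ckC_fk (L := [[f137, f126]])
  (fs_cons (fl_cons (by norm_num) (k137 M) (fl_cons (by norm_num) (k126 M) fl_nil))
    fs_nil) (by norm_num) c549

theorem k285 : Fk M W 15 f285 := chT_fk (n := 15) (a := 0) o13 (List.mem_of_getElem? (i := 2) rfl)
  (by norm_num) (by norm_num) (g13 M) t285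

theorem k697 : Fk M W 15 f697 := ckC_fk (L := [[f292, f285]])
  (fs_cons (fl_cons (by norm_num) (k292 M) (fl_cons (by norm_num) (k285 M) fl_nil))
    fs_nil) (by norm_num) c697

theorem k308 : Fk M W 15 f308 := ckX_fk hW (L := [[f127, f128, f129, f130, f549, f697]])
  (fs_cons (fl_cons (by norm_num) (k127 M) (fl_cons (by norm_num) (k128 M) (fl_cons (by norm_num) (k129 M) (fl_cons (by norm_num) (k130 M) (fl_cons (by norm_num) (k549 M) (fl_cons (by norm_num) (k697 M) fl_nil))))))
    fs_nil) (by norm_num) x308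

theorem k547 : Fk M W 15 f547 := ckC_fk (L := [[f546, f308]])
  (fs_cons (fl_cons (by norm_num) (k546 M) (fl_cons (by norm_num) (k308 M) fl_nil))
    fs_nil) (by norm_num) c547

theorem k548 : Fk M W 15 f548 := ckC_fk (L := [[f547, f307]])
  (fs_cons (fl_cons (by norm_num) (k547 M) (fl_cons (by norm_num) (k307 M) fl_nil))
    fs_nil) (by norm_num) c548

theorem k553 : Fk M W 15 f553 := ckC_fk (L := [[f137, f138]])
  (fs_cons (fl_cons (by norm_num) (k137 M) (fl_cons (by norm_num) (k138 M) fl_nil))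
    fs_nil) (by norm_num) c553

theorem k554 : Fk M W 15 f554 := ckC_fk (L := [[f553, f137]])
  (fs_cons (fl_cons (by norm_num) (k553 M) (fl_cons (by norm_num) (k137 M) fl_nil))
    fs_nil) (by norm_num) c554

theorem k558 : Fk M W 15 f558 := ckC_fk (L := [[f138, f137]])
  (fs_cons (fl_cons (by norm_num) (k138 M) (fl_cons (by norm_num) (k137 M) fl_nil))
    fs_nil) (by norm_num) c558

theorem k559 : Fk M W 15 f559 := ckC_fk (L := [[f558, f135]])
  (fs_cons (fl_cons (by norm_num) (k558 M) (fl_cons (by norm_num) (k135 M) fl_nil))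
    fs_nil) (by norm_num) c559

theorem k560 : Fk M W 15 f560 := ckC_fk (L := [[f558, f138]])
  (fs_cons (fl_cons (by norm_num) (k558 M) (fl_cons (by norm_num) (k138 M) fl_nil))
    fs_nil) (by norm_num) c560

theorem g17 : ∀ u, Gd (M.cg 15 (W 17).k) (sy M W 17 bl17) (gS S17 u) :=
  chBT_spec hW (n := 15) (L := L17) (fs_cons (fl_cons (by norm_num) (k16 M) (fl_cons (by norm_num) (k17 M) (fl_cons (by norm_num) (k18 M) (fl_cons (by norm_num) (k25 M) (fl_cons (by norm_num) (k26 M) (fl_cons (by norm_num) (k27 M) (fl_cons (by norm_num) (k28 M) (fl_cons (by norm_num) (k29 M) (fl_cons (by norm_num) (k115 M) (fl_cons (by norm_num) (k116 M) (fl_cons (by norm_num) (k117 M) (fl_cons (by norm_num) (k122 M) (fl_cons (by norm_num) (k123 M) (fl_cons (by norm_num) (k125 M) (fl_cons (by norm_num) (k131 M) (fl_cons (by norm_num) (k136 M) fl_nil))))))))))))))))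
    (fs_cons (fl_cons (by norm_num) (k137 M) (fl_cons (by norm_num) (k138 M) (fl_cons (by norm_num) (k308 M) (fl_cons (by norm_num) (k545 M) (fl_cons (by norm_num) (k546 M) (fl_cons (by norm_num) (k548 M) (fl_cons (by norm_num) (k553 M) (fl_cons (by norm_num) (k554 M) (fl_cons (by norm_num) (k558 M) (fl_cons (by norm_num) (k559 M) (fl_cons (by norm_num) (k560 M) fl_nil)))))))))))
    fs_nil)) (by norm_num) o17 b17

theorem k139 : Fk M W 15 f139 := chT_fk (n := 15) (a := 0) o17 (List.mem_of_getElem? (i := 0) rfl)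
  (by norm_num) (by norm_num) (g17 M) t139

theorem k140 : Fk M W 15 f140 := chT_fk (n := 15) (a := 0) o17 (List.mem_of_getElem? (i := 1) rfl)
  (by norm_num) (by norm_num) (g17 M) t140

theorem k141 : Fk M W 15 f141 := chT_fk (n := 15) (a := 0) o17 (List.mem_of_getElem? (i := 2) rfl)
  (by norm_num) (by norm_num) (g17 M) t141

theorem k142 : Fk M W 15 f142 := chT_fk (n := 15) (a := 0) o17 (List.mem_of_getElem? (i := 12) rfl)
  (by norm_num) (by norm_num) (g17 M) t142

theorem k156 : Fk M W 15 f156 := chT_fk (n := 15) (a := 0) o18 (List.mem_of_getElem? (i := 0) rfl)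
  (by norm_num) (by norm_num) (g18 M) t156

theorem k157 : Fk M W 15 f157 := chT_fk (n := 15) (a := 0) o18 (List.mem_of_getElem? (i := 1) rfl)
  (by norm_num) (by norm_num) (g18 M) t157

theorem k158 : Fk M W 15 f158 := chT_fk (n := 15) (a := 0) o18 (List.mem_of_getElem? (i := 2) rfl)
  (by norm_num) (by norm_num) (g18 M) t158

theorem k34 : Fk M W 15 f34 := chT_fk (n := 15) (a := 0) o17 (List.mem_of_getElem? (i := 11) rfl)
  (by norm_num) (by norm_num) (g17 M) t34

theorem k35 : Fk M W 15 f35 := chT_fk (n := 15) (a := 0) o17 (List.mem_of_getElem? (i := 10) rfl)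
  (by norm_num) (by norm_num) (g17 M) t35

theorem k36 : Fk M W 15 f36 := chT_fk (n := 15) (a := 0) o17 (List.mem_of_getElem? (i := 9) rfl)
  (by norm_num) (by norm_num) (g17 M) t36

theorem k37 : Fk M W 15 f37 := chT_fk (n := 15) (a := 0) o20 (List.mem_of_getElem? (i := 4) rfl)
  (by norm_num) (by norm_num) (g20 M) t37

theorem k38 : Fk M W 15 f38 := chT_fk (n := 15) (a := 0) o20 (List.mem_of_getElem? (i := 5) rfl)
  (by norm_num) (by norm_num) (g20 M) t38

theorem k283 : Fk M W 15 f283 := chT_fk (n := 15) (a := 0) o13 (List.mem_of_getElem? (i := 0) rfl)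
  (by norm_num) (by norm_num) (g13 M) t283

theorem k284 : Fk M W 15 f284 := chT_fk (n := 15) (a := 0) o13 (List.mem_of_getElem? (i := 1) rfl)
  (by norm_num) (by norm_num) (g13 M) t284

theorem k286 : Fk M W 15 f286 := chT_fk (n := 15) (a := 0) o13 (List.mem_of_getElem? (i := 3) rfl)
  (by norm_num) (by norm_num) (g13 M) t286

theorem k296 : Fk M W 15 f296 := chT_fk (n := 15) (a := 0) o14 (List.mem_of_getElem? (i := 2) rfl)
  (by norm_num) (by norm_num) (g14 M) t296

theorem k297 : Fk M W 15 f297 := chT_fk (n := 15) (a := 0) o14 (List.mem_of_getElem? (i := 1) rfl)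
  (by norm_num) (by norm_num) (g14 M) t297

theorem k322 : Fk M W 15 f322 := chT_fk (n := 15) (a := 0) o18 (List.mem_of_getElem? (i := 3) rfl)
  (by norm_num) (by norm_num) (g18 M) t322

theorem k730 : Fk M W 15 f730 := ckC_fk (L := [[f324, f323]])
  (fs_cons (fl_cons (by norm_num) (k324 M) (fl_cons (by norm_num) (k323 M) fl_nil))
    fs_nil) (by norm_num) c730

theorem k731 : Fk M W 15 f731 := ckC_fk (L := [[f730, f325]])
  (fs_cons (fl_cons (by norm_num) (k730 M) (fl_cons (by norm_num) (k325 M) fl_nil))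
    fs_nil) (by norm_num) c731

theorem k732 : Fk M W 15 f732 := ckC_fk (L := [[f731, f324]])
  (fs_cons (fl_cons (by norm_num) (k731 M) (fl_cons (by norm_num) (k324 M) fl_nil))
    fs_nil) (by norm_num) c732

theorem k733 : Fk M W 15 f733 := ckC_fk (L := [[f324, f325]])
  (fs_cons (fl_cons (by norm_num) (k324 M) (fl_cons (by norm_num) (k325 M) fl_nil))
    fs_nil) (by norm_num) c733

theorem k734 : Fk M W 15 f734 := ckC_fk (L := [[f733, f324]])
  (fs_cons (fl_cons (by norm_num) (k733 M) (fl_cons (by norm_num) (k324 M) fl_nil))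
    fs_nil) (by norm_num) c734

theorem k735 : Fk M W 15 f735 := ckC_fk (L := [[f734, f323]])
  (fs_cons (fl_cons (by norm_num) (k734 M) (fl_cons (by norm_num) (k323 M) fl_nil))
    fs_nil) (by norm_num) c735

theorem k741 : Fk M W 15 f741 := ckC_fk (L := [[f325, f324]])
  (fs_cons (fl_cons (by norm_num) (k325 M) (fl_cons (by norm_num) (k324 M) fl_nil))
    fs_nil) (by norm_num) c741

theorem k742 : Fk M W 15 f742 := ckC_fk (L := [[f741, f323]])
  (fs_cons (fl_cons (by norm_num) (k741 M) (fl_cons (by norm_num) (k323 M) fl_nil))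
    fs_nil) (by norm_num) c742

theorem k743 : Fk M W 15 f743 := ckC_fk (L := [[f742, f325]])
  (fs_cons (fl_cons (by norm_num) (k742 M) (fl_cons (by norm_num) (k325 M) fl_nil))
    fs_nil) (by norm_num) c743

theorem k744 : Fk M W 15 f744 := ckC_fk (L := [[f743, f324]])
  (fs_cons (fl_cons (by norm_num) (k743 M) (fl_cons (by norm_num) (k324 M) fl_nil))
    fs_nil) (by norm_num) c744

theorem k745 : Fk M W 15 f745 := ckC_fk (L := [[f741, f325]])
  (fs_cons (fl_cons (by norm_num) (k741 M) (fl_cons (by norm_num) (k325 M) fl_nil))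
    fs_nil) (by norm_num) c745

theorem k746 : Fk M W 15 f746 := ckC_fk (L := [[f745, f324]])
  (fs_cons (fl_cons (by norm_num) (k745 M) (fl_cons (by norm_num) (k324 M) fl_nil))
    fs_nil) (by norm_num) c746

theorem k747 : Fk M W 15 f747 := ckC_fk (L := [[f746, f323]])
  (fs_cons (fl_cons (by norm_num) (k746 M) (fl_cons (by norm_num) (k323 M) fl_nil))
    fs_nil) (by norm_num) c747

theorem k496 : Fk M W 15 f496 := ckC_fk (L := [[f495, f189]])
  (fs_cons (fl_cons (by norm_num) (k495 M) (fl_cons (by norm_num) (k189 M) fl_nil))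
    fs_nil) (by norm_num) c496

theorem k497 : Fk M W 15 f497 := ckC_fk (L := [[f496, f188]])
  (fs_cons (fl_cons (by norm_num) (k496 M) (fl_cons (by norm_num) (k188 M) fl_nil))
    fs_nil) (by norm_num) c497

theorem k498 : Fk M W 15 f498 := ckC_fk (L := [[f49, f43]])
  (fs_cons (fl_cons (by norm_num) (k49 M) (fl_cons (by norm_num) (k43 M) fl_nil))
    fs_nil) (by norm_num) c498

theorem g22 : ∀ u, Gd (M.cg 15 (W 22).k) (sy M W 22 bl22) (gS S22 u) :=
  chBT_spec hW (n := 15) (L := L22) (fs_cons (fl_cons (by norm_num) (k126 M) (fl_cons (by norm_num) (k127 M) (fl_cons (by norm_num) (k128 M) (fl_cons (by norm_num) (k129 M) (fl_cons (by norm_num) (k130 M) (fl_cons (by norm_num) (k131 M) (fl_cons (by norm_num) (k132 M) (fl_cons (by norm_num) (k133 M) (fl_cons (by norm_num) (k134 M) (fl_cons (by norm_num) (k143 M) (fl_cons (by norm_num) (k144 M) (fl_cons (by norm_num) (k145 M) (fl_cons (by norm_num) (k146 M) (fl_cons (by norm_num) (k147 M) (fl_cons (by norm_num) (k148 M) (fl_cons (by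 norm_num) (k156 M) fl_nil))))))))))))))))
    (fs_cons (fl_cons (by norm_num) (k157 M) (fl_cons (by norm_num) (k158 M) (fl_cons (by norm_num) (k159 M) (fl_cons (by norm_num) (k283 M) (fl_cons (by norm_num) (k284 M) (fl_cons (by norm_num) (k285 M) (fl_cons (by norm_num) (k286 M) (fl_cons (by norm_num) (k293 M) (fl_cons (by norm_num) (k294 M) (fl_cons (by norm_num) (k295 M) (fl_cons (by norm_num) (k296 M) (fl_cons (by norm_num) (k297 M) (fl_cons (by norm_num) (k298 M) (fl_cons (by norm_num) (k299 M) (fl_cons (by norm_num) (k322 M) (fl_cons (by norm_num) (k324 M) fl_nil))))))))))))))))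
    (fs_cons (fl_cons (by norm_num) (k325 M) (fl_cons (by norm_num) (k496 M) (fl_cons (by norm_num) (k497 M) (fl_cons (by norm_num) (k498 M) (fl_cons (by norm_num) (k730 M) (fl_cons (by norm_num) (k732 M) (fl_cons (by norm_num) (k733 M) (fl_cons (by norm_num) (k735 M) (fl_cons (by norm_num) (k741 M) (fl_cons (by norm_num) (k742 M) (fl_cons (by norm_num) (k744 M) (fl_cons (by norm_num) (k745 M) (fl_cons (by norm_num) (k747 M) fl_nil)))))))))))))
    fs_nil))) (by norm_num) o22 b22

theorem k300 : Fk M W 15 f300 := chT_fk (n := 15) (a := 0) o22 (List.mem_of_getElem? (i := 6) rfl)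
  (by norm_num) (by norm_num) (g22 M) t300

theorem k301 : Fk M W 15 f301 := chT_fk (n := 15) (a := 0) o22 (List.mem_of_getElem? (i := 7) rfl)
  (by norm_num) (by norm_num) (g22 M) t301

theorem k304 : Fk M W 15 f304 := chT_fk (n := 15) (a := 0) o17 (List.mem_of_getElem? (i := 5) rfl)
  (by norm_num) (by norm_num) (g17 M) t304

theorem k305 : Fk M W 15 f305 := chT_fk (n := 15) (a := 0) o17 (List.mem_of_getElem? (i := 3) rfl)
  (by norm_num) (by norm_num) (g17 M) t305

theorem k50 : Fk M W 15 f50 := chT_fk (n := 15) (a := 0) o20 (List.mem_of_getElem? (i := 3) rfl)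
  (by norm_num) (by norm_num) (g20 M) t50

theorem k182 : Fk M W 15 f182 := chT_fk (n := 15) (a := 0) o22 (List.mem_of_getElem? (i := 11) rfl)
  (by norm_num) (by norm_num) (g22 M) t182

theorem k187 : Fk M W 15 f187 := chT_fk (n := 15) (a := 0) o20 (List.mem_of_getElem? (i := 1) rfl)
  (by norm_num) (by norm_num) (g20 M) t187

theorem k320 : Fk M W 15 f320 := chT_fk (n := 15) (a := 0) o18 (List.mem_of_getElem? (i := 5) rfl)
  (by norm_num) (by norm_num) (g18 M) t320

theorem k321 : Fk M W 15 f321 := chT_fk (n := 15) (a := 0) o18 (List.mem_of_getElem? (i := 4) rfl)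
  (by norm_num) (by norm_num) (g18 M) t321

theorem k326 : Fk M W 15 f326 := chT_fk (n := 15) (a := 0) o22 (List.mem_of_getElem? (i := 5) rfl)
  (by norm_num) (by norm_num) (g22 M) t326

theorem k327 : Fk M W 15 f327 := chT_fk (n := 15) (a := 0) o22 (List.mem_of_getElem? (i := 4) rfl)
  (by norm_num) (by norm_num) (g22 M) t327

theorem k328 : Fk M W 15 f328 := chT_fk (n := 15) (a := 0) o22 (List.mem_of_getElem? (i := 3) rfl)
  (by norm_num) (by norm_num) (g22 M) t328

theorem k329 : Fk M W 15 f329 := chT_fk (n := 15) (a := 0) o22 (List.mem_of_getElem? (i := 2) rfl)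
  (by norm_num) (by norm_num) (g22 M) t329

theorem k330 : Fk M W 15 f330 := chT_fk (n := 15) (a := 0) o22 (List.mem_of_getElem? (i := 1) rfl)
  (by norm_num) (by norm_num) (g22 M) t330

theorem k332 : Fk M W 15 f332 := chT_fk (n := 15) (a := 0) o22 (List.mem_of_getElem? (i := 10) rfl)
  (by norm_num) (by norm_num) (g22 M) t332

theorem k736 : Fk M W 15 f736 := ckC_fk (L := [[f324, f327]])
  (fs_cons (fl_cons (by norm_num) (k324 M) (fl_cons (by norm_num) (k327 M) fl_nil))
    fs_nil) (by norm_num) c736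

theorem k737 : Fk M W 15 f737 := ckC_fk (L := [[f324, f332]])
  (fs_cons (fl_cons (by norm_num) (k324 M) (fl_cons (by norm_num) (k332 M) fl_nil))
    fs_nil) (by norm_num) c737

theorem k303 : Fk M W 15 f303 := chT_fk (n := 15) (a := 0) o22 (List.mem_of_getElem? (i := 9) rfl)
  (by norm_num) (by norm_num) (g22 M) t303

theorem k707 : Fk M W 15 f707 := ckC_fk (L := [[f307, f303]])
  (fs_cons (fl_cons (by norm_num) (k307 M) (fl_cons (by norm_num) (k303 M) fl_nil))
    fs_nil) (by norm_num) c707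

theorem k177 : Fk M W 15 f177 := chT_fk (n := 15) (a := 0) o22 (List.mem_of_getElem? (i := 16) rfl)
  (by norm_num) (by norm_num) (g22 M) t177

theorem k178 : Fk M W 15 f178 := chT_fk (n := 15) (a := 0) o22 (List.mem_of_getElem? (i := 15) rfl)
  (by norm_num) (by norm_num) (g22 M) t178

theorem k179 : Fk M W 15 f179 := chT_fk (n := 15) (a := 0) o22 (List.mem_of_getElem? (i := 14) rfl)
  (by norm_num) (by norm_num) (g22 M) t179

theorem k595 : Fk M W 15 f595 := ckC_fk (L := [[f188, f179]])
  (fs_cons (fl_cons (by norm_num) (k188 M) (fl_cons (by norm_num) (k179 M) fl_nil))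
    fs_nil) (by norm_num) c595

theorem k180 : Fk M W 15 f180 := chT_fk (n := 15) (a := 0) o22 (List.mem_of_getElem? (i := 13) rfl)
  (by norm_num) (by norm_num) (g22 M) t180

theorem k181 : Fk M W 15 f181 := chT_fk (n := 15) (a := 0) o22 (List.mem_of_getElem? (i := 12) rfl)
  (by norm_num) (by norm_num) (g22 M) t181

theorem k357 : Fk M W 15 f357 := ckX_fk hW (L := [[f177, f178, f180, f181, f182, f595, f707, f736, f737]])
  (fs_cons (fl_cons (by norm_num) (k177 M) (fl_cons (by norm_num) (k178 M) (fl_cons (by norm_num) (k180 M) (fl_cons (by norm_num) (k181 M) (fl_cons (by norm_num) (k182 M) (fl_cons (by norm_num) (k595 M) (fl_cons (by norm_num) (k707 M) (fl_cons (by norm_num) (k736 M) (fl_cons (by norm_num) (k737 M) fl_nil)))))))))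
    fs_nil) (by norm_num) x357

theorem k590 : Fk M W 15 f590 := ckC_fk (L := [[f182, f357]])
  (fs_cons (fl_cons (by norm_num) (k182 M) (fl_cons (by norm_num) (k357 M) fl_nil))
    fs_nil) (by norm_num) c590

theorem k705 : Fk M W 15 f705 := ckC_fk (L := [[f306, f303]])
  (fs_cons (fl_cons (by norm_num) (k306 M) (fl_cons (by norm_num) (k303 M) fl_nil))
    fs_nil) (by norm_num) c705

theorem k596 : Fk M W 15 f596 := ckC_fk (L := [[f188, f182]])
  (fs_cons (fl_cons (by norm_num) (k188 M) (fl_cons (by norm_num) (k182 M) fl_nil))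
    fs_nil) (by norm_num) c596

theorem k727 : Fk M W 15 f727 := ckC_fk (L := [[f323, f332]])
  (fs_cons (fl_cons (by norm_num) (k323 M) (fl_cons (by norm_num) (k332 M) fl_nil))
    fs_nil) (by norm_num) c727

theorem k726 : Fk M W 15 f726 := ckC_fk (L := [[f323, f326]])
  (fs_cons (fl_cons (by norm_num) (k323 M) (fl_cons (by norm_num) (k326 M) fl_nil))
    fs_nil) (by norm_num) c726

theorem k356 : Fk M W 15 f356 := ckX_fk hW (L := [[f177, f178, f179, f180, f181, f596, f705, f726, f727]])
  (fs_cons (fl_cons (by norm_num) (k177 M) (fl_cons (by norm_num) (k178 M) (fl_cons (by norm_num) (k179 M) (fl_cons (by norm_num) (k180 M) (fl_cons (by norm_num) (k181 M) (fl_cons (by norm_num) (k596 M) (fl_cons (by norm_num) (k705 M) (fl_cons (by norm_num) (k726 M) (fl_cons (by norm_num) (k727 M) fl_nil)))))))))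
    fs_nil) (by norm_num) x356

theorem k591 : Fk M W 15 f591 := ckC_fk (L := [[f590, f356]])
  (fs_cons (fl_cons (by norm_num) (k590 M) (fl_cons (by norm_num) (k356 M) fl_nil))
    fs_nil) (by norm_num) c591

theorem k302 : Fk M W 15 f302 := chT_fk (n := 15) (a := 0) o22 (List.mem_of_getElem? (i := 8) rfl)
  (by norm_num) (by norm_num) (g22 M) t302

theorem k715 : Fk M W 15 f715 := ckC_fk (L := [[f308, f302]])
  (fs_cons (fl_cons (by norm_num) (k308 M) (fl_cons (by norm_num) (k302 M) fl_nil))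
    fs_nil) (by norm_num) c715

theorem k748 : Fk M W 15 f748 := ckC_fk (L := [[f325, f326]])
  (fs_cons (fl_cons (by norm_num) (k325 M) (fl_cons (by norm_num) (k326 M) fl_nil))
    fs_nil) (by norm_num) c748

theorem k594 : Fk M W 15 f594 := ckC_fk (L := [[f188, f177]])
  (fs_cons (fl_cons (by norm_num) (k188 M) (fl_cons (by norm_num) (k177 M) fl_nil))
    fs_nil) (by norm_num) c594

theorem k358 : Fk M W 15 f358 := ckX_fk hW (L := [[f178, f179, f180, f181, f182, f594, f715, f748]])
  (fs_cons (fl_cons (by norm_num) (k178 M) (fl_cons (by norm_num) (k179 M) (fl_cons (by norm_num) (k180 M) (fl_cons (by norm_num) (k181 M) (fl_cons (by norm_num) (k182 M) (fl_cons (by norm_num) (k594 M) (fl_cons (by norm_num) (k715 M) (fl_cons (by norm_num) (k748 M) fl_nil))))))))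
    fs_nil) (by norm_num) x358

theorem k592 : Fk M W 15 f592 := ckC_fk (L := [[f591, f358]])
  (fs_cons (fl_cons (by norm_num) (k591 M) (fl_cons (by norm_num) (k358 M) fl_nil))
    fs_nil) (by norm_num) c592

theorem k593 : Fk M W 15 f593 := ckC_fk (L := [[f592, f357]])
  (fs_cons (fl_cons (by norm_num) (k592 M) (fl_cons (by norm_num) (k357 M) fl_nil))
    fs_nil) (by norm_num) c593

theorem k598 : Fk M W 15 f598 := ckC_fk (L := [[f188, f189]])
  (fs_cons (fl_cons (by norm_num) (k188 M) (fl_cons (by norm_num) (k189 M) fl_nil))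
    fs_nil) (by norm_num) c598

theorem k599 : Fk M W 15 f599 := ckC_fk (L := [[f598, f188]])
  (fs_cons (fl_cons (by norm_num) (k598 M) (fl_cons (by norm_num) (k188 M) fl_nil))
    fs_nil) (by norm_num) c599

theorem k602 : Fk M W 15 f602 := ckC_fk (L := [[f189, f188]])
  (fs_cons (fl_cons (by norm_num) (k189 M) (fl_cons (by norm_num) (k188 M) fl_nil))
    fs_nil) (by norm_num) c602

theorem k186 : Fk M W 15 f186 := chT_fk (n := 15) (a := 0) o20 (List.mem_of_getElem? (i := 0) rfl)
  (by norm_num) (by norm_num) (g20 M) t186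

theorem k603 : Fk M W 15 f603 := ckC_fk (L := [[f602, f186]])
  (fs_cons (fl_cons (by norm_num) (k602 M) (fl_cons (by norm_num) (k186 M) fl_nil))
    fs_nil) (by norm_num) c603

theorem k604 : Fk M W 15 f604 := ckC_fk (L := [[f602, f189]])
  (fs_cons (fl_cons (by norm_num) (k602 M) (fl_cons (by norm_num) (k189 M) fl_nil))
    fs_nil) (by norm_num) c604

theorem g26 : ∀ u, Gd (M.cg 15 (W 26).k) (sy M W 26 bl26) (gS S26 u) :=
  chBT_spec hW (n := 15) (L := L26) (fs_cons (fl_cons (by norm_num) (k34 M) (fl_cons (by norm_num) (k35 M) (fl_cons (by norm_num) (k36 M) (fl_cons (by norm_num) (k37 M) (fl_cons (by norm_num) (k38 M) (fl_cons (by norm_num) (k43 M) (fl_cons (by norm_num) (k44 M) (fl_cons (by norm_num) (k45 M) (fl_cons (by norm_num) (k50 M) (fl_cons (by norm_num) (k132 M) (fl_cons (by norm_num) (k133 M) (fl_cons (by norm_num) (k134 M) (fl_cons (by norm_num) (k139 M) (fl_cons (by norm_num) (k140 M) (fl_cons (by norm_num) (k141 M) (fl_cons (by norm_num) (k142 M) fl_nil))))))))))))))))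
    (fs_cons (fl_cons (by norm_num) (k156 M) (fl_cons (by norm_num) (k157 M) (fl_cons (by norm_num) (k158 M) (fl_cons (by norm_num) (k159 M) (fl_cons (by norm_num) (k182 M) (fl_cons (by norm_num) (k187 M) (fl_cons (by norm_num) (k188 M) (fl_cons (by norm_num) (k189 M) (fl_cons (by norm_num) (k300 M) (fl_cons (by norm_num) (k301 M) (fl_cons (by norm_num) (k304 M) (fl_cons (by norm_num) (k305 M) (fl_cons (by norm_num) (k320 M) (fl_cons (by norm_num) (k321 M) (fl_cons (by norm_num) (k322 M) (fl_cons (by norm_num) (k326 M) fl_nil))))))))))))))))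
    (fs_cons (fl_cons (by norm_num) (k327 M) (fl_cons (by norm_num) (k328 M) (fl_cons (by norm_num) (k329 M) (fl_cons (by norm_num) (k330 M) (fl_cons (by norm_num) (k332 M) (fl_cons (by norm_num) (k358 M) (fl_cons (by norm_num) (k590 M) (fl_cons (by norm_num) (k591 M) (fl_cons (by norm_num) (k593 M) (fl_cons (by norm_num) (k598 M) (fl_cons (by norm_num) (k599 M) (fl_cons (by norm_num) (k602 M) (fl_cons (by norm_num) (k603 M) (fl_cons (by norm_num) (k604 M) fl_nil))))))))))))))
    fs_nil))) (by norm_num) o26 b26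

theorem k193 : Fk M W 15 f193 := chT_fk (n := 15) (a := 0) o26 (List.mem_of_getElem? (i := 12) rfl)
  (by norm_num) (by norm_num) (g26 M) t193

theorem k51 : Fk M W 15 f51 := chT_fk (n := 15) (a := 0) o20 (List.mem_of_getElem? (i := 6) rfl)
  (by norm_num) (by norm_num) (g20 M) t51

theorem g24 : ∀ u, Gd (M.cg 15 (W 24).k) (sy M W 24 bl24) (gS S24 u) :=
  chBT_spec hW (n := 15) (L := L24) (fs_cons (fl_cons (by norm_num) (k48 M) (fl_cons (by norm_num) (k50 M) (fl_cons (by norm_num) (k51 M) fl_nil)))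
    fs_nil) (by norm_num) o24 b24

theorem k66 : Fk M W 15 f66 := chT_fk (n := 15) (a := 0) o24 (List.mem_of_getElem? (i := 0) rfl)
  (by norm_num) (by norm_num) (g24 M) t66

theorem k23 : Fk M W 15 f23 := chT_fk (n := 15) (a := 0) o11 (List.mem_of_getElem? (i := 2) rfl)
  (by norm_num) (by norm_num) (g11 M) t23

theorem k487 : Fk M W 15 f487 := ckC_fk (L := [[f22, f23]])
  (fs_cons (fl_cons (by norm_num) (k22 M) (fl_cons (by norm_num) (k23 M) fl_nil))
    fs_nil) (by norm_num) c487

theorem k40 : Fk M W 15 f40 := ckX_fk hW (L := [[f487]])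
  (fs_cons (fl_cons (by norm_num) (k487 M) fl_nil)
    fs_nil) (by norm_num) x40

theorem k493 : Fk M W 15 f493 := ckC_fk (L := [[f40, f37]])
  (fs_cons (fl_cons (by norm_num) (k40 M) (fl_cons (by norm_num) (k37 M) fl_nil))
    fs_nil) (by norm_num) c493

theorem k500 : Fk M W 15 f500 := ckC_fk (L := [[f49, f50]])
  (fs_cons (fl_cons (by norm_num) (k49 M) (fl_cons (by norm_num) (k50 M) fl_nil))
    fs_nil) (by norm_num) c500

theorem k501 : Fk M W 15 f501 := ckC_fk (L := [[f49, f51]])
  (fs_cons (fl_cons (by norm_num) (k49 M) (fl_cons (by norm_num) (k51 M) fl_nil))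
    fs_nil) (by norm_num) c501

theorem k67 : Fk M W 15 f67 := ckX_fk hW (L := [[f493, f500, f501]])
  (fs_cons (fl_cons (by norm_num) (k493 M) (fl_cons (by norm_num) (k500 M) (fl_cons (by norm_num) (k501 M) fl_nil)))
    fs_nil) (by norm_num) x67

theorem k166 : Fk M W 15 f166 := chT_fk (n := 15) (a := 0) o26 (List.mem_of_getElem? (i := 6) rfl)
  (by norm_num) (by norm_num) (g26 M) t166

theorem k555 : Fk M W 15 f555 := ckC_fk (L := [[f137, f142]])
  (fs_cons (fl_cons (by norm_num) (k137 M) (fl_cons (by norm_num) (k142 M) fl_nil))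
    fs_nil) (by norm_num) c555

theorem k171 : Fk M W 15 f171 := ckX_fk hW (L := [[f34, f35, f36, f555]])
  (fs_cons (fl_cons (by norm_num) (k34 M) (fl_cons (by norm_num) (k35 M) (fl_cons (by norm_num) (k36 M) (fl_cons (by norm_num) (k555 M) fl_nil))))
    fs_nil) (by norm_num) x171

theorem k489 : Fk M W 15 f489 := ckC_fk (L := [[f36, f171]])
  (fs_cons (fl_cons (by norm_num) (k36 M) (fl_cons (by norm_num) (k171 M) fl_nil))
    fs_nil) (by norm_num) c489

theorem k561 : Fk M W 15 f561 := ckC_fk (L := [[f138, f142]])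
  (fs_cons (fl_cons (by norm_num) (k138 M) (fl_cons (by norm_num) (k142 M) fl_nil))
    fs_nil) (by norm_num) c561

theorem k172 : Fk M W 15 f172 := ckX_fk hW (L := [[f34, f35, f36, f561]])
  (fs_cons (fl_cons (by norm_num) (k34 M) (fl_cons (by norm_num) (k35 M) (fl_cons (by norm_num) (k36 M) (fl_cons (by norm_num) (k561 M) fl_nil))))
    fs_nil) (by norm_num) x172

theorem g19 : ∀ u, Gd (M.cg 15 (W 19).k) (sy M W 19 bl19) (gS S19 u) :=
  chBT_spec hW (n := 15) (L := L19) (fs_cons (fl_cons (by norm_num) (k23 M) (fl_cons (by norm_num) (k24 M) (fl_cons (by norm_num) (k28 M) (fl_cons (by norm_num) (k33 M) (fl_cons (by norm_num) (k40 M) (fl_cons (by norm_num) (k135 M) (fl_cons (by norm_num) (k136 M) (fl_cons (by norm_num) (k139 M) (fl_cons (by norm_num) (k140 M) (fl_cons (by norm_num) (k141 M) (fl_cons (by norm_num) (k142 M) (fl_cons (by norm_num) (k172 M) (fl_cons (by norm_num) (k489 M) fl_nil)))))))))))))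
    fs_nil) (by norm_num) o19 b19

theorem k169 : Fk M W 15 f169 := chT_fk (n := 15) (a := 0) o19 (List.mem_of_getElem? (i := 0) rfl)
  (by norm_num) (by norm_num) (g19 M) t169

theorem k42 : Fk M W 15 f42 := chT_fk (n := 15) (a := 0) o19 (List.mem_of_getElem? (i := 5) rfl)
  (by norm_num) (by norm_num) (g19 M) t42

theorem k170 : Fk M W 15 f170 := chT_fk (n := 15) (a := 0) o19 (List.mem_of_getElem? (i := 1) rfl)
  (by norm_num) (by norm_num) (g19 M) t170

theorem k354 : Fk M W 15 f354 := chT_fk (n := 15) (a := 0) o26 (List.mem_of_getElem? (i := 4) rfl)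
  (by norm_num) (by norm_num) (g26 M) t354

theorem k579 : Fk M W 15 f579 := ckC_fk (L := [[f171, f166]])
  (fs_cons (fl_cons (by norm_num) (k171 M) (fl_cons (by norm_num) (k166 M) fl_nil))
    fs_nil) (by norm_num) c579

theorem k168 : Fk M W 15 f168 := chT_fk (n := 15) (a := 0) o26 (List.mem_of_getElem? (i := 8) rfl)
  (by norm_num) (by norm_num) (g26 M) t168

theorem k580 : Fk M W 15 f580 := ckC_fk (L := [[f171, f168]])
  (fs_cons (fl_cons (by norm_num) (k171 M) (fl_cons (by norm_num) (k168 M) fl_nil))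
    fs_nil) (by norm_num) c580

theorem k600 : Fk M W 15 f600 := ckC_fk (L := [[f188, f193]])
  (fs_cons (fl_cons (by norm_num) (k188 M) (fl_cons (by norm_num) (k193 M) fl_nil))
    fs_nil) (by norm_num) c600

theorem k61 : Fk M W 15 f61 := chT_fk (n := 15) (a := 0) o26 (List.mem_of_getElem? (i := 11) rfl)
  (by norm_num) (by norm_num) (g26 M) t61

theorem k62 : Fk M W 15 f62 := chT_fk (n := 15) (a := 0) o26 (List.mem_of_getElem? (i := 10) rfl)
  (by norm_num) (by norm_num) (g26 M) t62

theorem k63 : Fk M W 15 f63 := chT_fk (n := 15) (a := 0) o26 (List.mem_of_getElem? (i := 9) rfl)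
  (by norm_num) (by norm_num) (g26 M) t63

theorem k222 : Fk M W 15 f222 := ckX_fk hW (L := [[f61, f62, f63, f354, f579, f580, f600]])
  (fs_cons (fl_cons (by norm_num) (k61 M) (fl_cons (by norm_num) (k62 M) (fl_cons (by norm_num) (k63 M) (fl_cons (by norm_num) (k354 M) (fl_cons (by norm_num) (k579 M) (fl_cons (by norm_num) (k580 M) (fl_cons (by norm_num) (k600 M) fl_nil)))))))
    fs_nil) (by norm_num) x222

theorem k508 : Fk M W 15 f508 := ckC_fk (L := [[f63, f222]])
  (fs_cons (fl_cons (by norm_num) (k63 M) (fl_cons (by norm_num) (k222 M) fl_nil))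
    fs_nil) (by norm_num) c508

theorem k605 : Fk M W 15 f605 := ckC_fk (L := [[f189, f193]])
  (fs_cons (fl_cons (by norm_num) (k189 M) (fl_cons (by norm_num) (k193 M) fl_nil))
    fs_nil) (by norm_num) c605

theorem k167 : Fk M W 15 f167 := chT_fk (n := 15) (a := 0) o26 (List.mem_of_getElem? (i := 7) rfl)
  (by norm_num) (by norm_num) (g26 M) t167

theorem k584 : Fk M W 15 f584 := ckC_fk (L := [[f172, f167]])
  (fs_cons (fl_cons (by norm_num) (k172 M) (fl_cons (by norm_num) (k167 M) fl_nil))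
    fs_nil) (by norm_num) c584

theorem k585 : Fk M W 15 f585 := ckC_fk (L := [[f172, f168]])
  (fs_cons (fl_cons (by norm_num) (k172 M) (fl_cons (by norm_num) (k168 M) fl_nil))
    fs_nil) (by norm_num) c585

theorem k353 : Fk M W 15 f353 := chT_fk (n := 15) (a := 0) o26 (List.mem_of_getElem? (i := 5) rfl)
  (by norm_num) (by norm_num) (g26 M) t353

theorem k778 : Fk M W 15 f778 := ckC_fk (L := [[f356, f353]])
  (fs_cons (fl_cons (by norm_num) (k356 M) (fl_cons (by norm_num) (k353 M) fl_nil))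
    fs_nil) (by norm_num) c778

theorem k223 : Fk M W 15 f223 := ckX_fk hW (L := [[f61, f62, f63, f584, f585, f605, f778]])
  (fs_cons (fl_cons (by norm_num) (k61 M) (fl_cons (by norm_num) (k62 M) (fl_cons (by norm_num) (k63 M) (fl_cons (by norm_num) (k584 M) (fl_cons (by norm_num) (k585 M) (fl_cons (by norm_num) (k605 M) (fl_cons (by norm_num) (k778 M) fl_nil)))))))
    fs_nil) (by norm_num) x223

theorem g28 : ∀ u, Gd (M.cg 15 (W 28).k) (sy M W 28 bl28) (gS S28 u) :=
  chBT_spec hW (n := 15) (L := L28) (fs_cons (fl_cons (by norm_num) (k3 M) (fl_cons (by norm_num) (k37 M) (fl_cons (by norm_num) (k42 M) (fl_cons (by norm_num) (k66 M) (fl_cons (by norm_num) (k67 M) (fl_cons (by norm_num) (k166 M) (fl_cons (by norm_num) (k169 M) (fl_cons (by norm_num) (k170 M) (fl_cons (by norm_num) (k186 M) (fl_cons (by norm_num) (k187 M) (fl_cons (by norm_num) (k193 M) (fl_cons (by norm_num) (k223 M) (fl_cons (by norm_num) (k508 M) fl_nil)))))))))))))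
    fs_nil) (by norm_num) o28 b28

theorem k4 : Fk M W 15 f4 := chT_fk (n := 15) (a := 0) o28 (List.mem_of_getElem? (i := 2) rfl)
  (by norm_num) (by norm_num) (g28 M) t4

theorem k69 : Fk M W 15 f69 := chT_fk (n := 15) (a := 0) o28 (List.mem_of_getElem? (i := 6) rfl)
  (by norm_num) (by norm_num) (g28 M) t69

theorem g32 : ∀ u, Gd (M.cg 14 (W 32).k) (sy M W 32 bl32) (gS S32 u) :=
  chBT_spec hW (n := 14) (L := L32) (fs_cons (fl_cons (by norm_num) (k66 M) (fl_cons (by norm_num) (k69 M) fl_nil))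
    fs_nil) (by norm_num) o32 b32

theorem k5 : Fk M W 14 f5 := chT_fk (n := 14) (a := 0) o32 (List.mem_of_getElem? (i := 1) rfl)
  (by norm_num) (by norm_num) (g32 M) t5

theorem k638 : Fk M W 15 f638 := ckC_fk (L := [[f223, f222]])
  (fs_cons (fl_cons (by norm_num) (k223 M) (fl_cons (by norm_num) (k222 M) fl_nil))
    fs_nil) (by norm_num) c638

theorem k640 : Fk M W 15 f640 := ckC_fk (L := [[f638, f223]])
  (fs_cons (fl_cons (by norm_num) (k638 M) (fl_cons (by norm_num) (k223 M) fl_nil))
    fs_nil) (by norm_num) c640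

theorem k149 : Fk M W 15 f149 := chT_fk (n := 15) (a := 0) o17 (List.mem_of_getElem? (i := 6) rfl)
  (by norm_num) (by norm_num) (g17 M) t149

theorem k150 : Fk M W 15 f150 := chT_fk (n := 15) (a := 0) o17 (List.mem_of_getElem? (i := 7) rfl)
  (by norm_num) (by norm_num) (g17 M) t150

theorem k151 : Fk M W 15 f151 := chT_fk (n := 15) (a := 0) o17 (List.mem_of_getElem? (i := 8) rfl)
  (by norm_num) (by norm_num) (g17 M) t151

theorem k708 : Fk M W 15 f708 := ckC_fk (L := [[f307, f306]])
  (fs_cons (fl_cons (by norm_num) (k307 M) (fl_cons (by norm_num) (k306 M) fl_nil))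
    fs_nil) (by norm_num) c708

theorem k709 : Fk M W 15 f709 := ckC_fk (L := [[f708, f308]])
  (fs_cons (fl_cons (by norm_num) (k708 M) (fl_cons (by norm_num) (k308 M) fl_nil))
    fs_nil) (by norm_num) c709

theorem k710 : Fk M W 15 f710 := ckC_fk (L := [[f709, f307]])
  (fs_cons (fl_cons (by norm_num) (k709 M) (fl_cons (by norm_num) (k307 M) fl_nil))
    fs_nil) (by norm_num) c710

theorem k711 : Fk M W 15 f711 := ckC_fk (L := [[f307, f308]])
  (fs_cons (fl_cons (by norm_num) (k307 M) (fl_cons (by norm_num) (k308 M) fl_nil))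
    fs_nil) (by norm_num) c711

theorem k712 : Fk M W 15 f712 := ckC_fk (L := [[f711, f307]])
  (fs_cons (fl_cons (by norm_num) (k711 M) (fl_cons (by norm_num) (k307 M) fl_nil))
    fs_nil) (by norm_num) c712

theorem k713 : Fk M W 15 f713 := ckC_fk (L := [[f712, f306]])
  (fs_cons (fl_cons (by norm_num) (k712 M) (fl_cons (by norm_num) (k306 M) fl_nil))
    fs_nil) (by norm_num) c713

theorem k716 : Fk M W 15 f716 := ckC_fk (L := [[f308, f307]])
  (fs_cons (fl_cons (by norm_num) (k308 M) (fl_cons (by norm_num) (k307 M) fl_nil))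
    fs_nil) (by norm_num) c716

theorem k717 : Fk M W 15 f717 := ckC_fk (L := [[f716, f306]])
  (fs_cons (fl_cons (by norm_num) (k716 M) (fl_cons (by norm_num) (k306 M) fl_nil))
    fs_nil) (by norm_num) c717

theorem k718 : Fk M W 15 f718 := ckC_fk (L := [[f717, f308]])
  (fs_cons (fl_cons (by norm_num) (k717 M) (fl_cons (by norm_num) (k308 M) fl_nil))
    fs_nil) (by norm_num) c718

theorem k719 : Fk M W 15 f719 := ckC_fk (L := [[f718, f307]])
  (fs_cons (fl_cons (by norm_num) (k718 M) (fl_cons (by norm_num) (k307 M) fl_nil))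
    fs_nil) (by norm_num) c719

theorem k720 : Fk M W 15 f720 := ckC_fk (L := [[f716, f308]])
  (fs_cons (fl_cons (by norm_num) (k716 M) (fl_cons (by norm_num) (k308 M) fl_nil))
    fs_nil) (by norm_num) c720

theorem k721 : Fk M W 15 f721 := ckC_fk (L := [[f720, f307]])
  (fs_cons (fl_cons (by norm_num) (k720 M) (fl_cons (by norm_num) (k307 M) fl_nil))
    fs_nil) (by norm_num) c721

theorem k722 : Fk M W 15 f722 := ckC_fk (L := [[f721, f306]])
  (fs_cons (fl_cons (by norm_num) (k721 M) (fl_cons (by norm_num) (k306 M) fl_nil))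
    fs_nil) (by norm_num) c722

theorem k490 : Fk M W 15 f490 := ckC_fk (L := [[f489, f172]])
  (fs_cons (fl_cons (by norm_num) (k489 M) (fl_cons (by norm_num) (k172 M) fl_nil))
    fs_nil) (by norm_num) c490

theorem k491 : Fk M W 15 f491 := ckC_fk (L := [[f490, f171]])
  (fs_cons (fl_cons (by norm_num) (k490 M) (fl_cons (by norm_num) (k171 M) fl_nil))
    fs_nil) (by norm_num) c491

theorem k492 : Fk M W 15 f492 := ckC_fk (L := [[f40, f34]])
  (fs_cons (fl_cons (by norm_num) (k40 M) (fl_cons (by norm_num) (k34 M) fl_nil))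
    fs_nil) (by norm_num) c492

theorem g21 : ∀ u, Gd (M.cg 15 (W 21).k) (sy M W 21 bl21) (gS S21 u) :=
  chBT_spec hW (n := 15) (L := L21) (fs_cons (fl_cons (by norm_num) (k36 M) (fl_cons (by norm_num) (k126 M) (fl_cons (by norm_num) (k127 M) (fl_cons (by norm_num) (k128 M) (fl_cons (by norm_num) (k129 M) (fl_cons (by norm_num) (k130 M) (fl_cons (by norm_num) (k131 M) (fl_cons (by norm_num) (k139 M) (fl_cons (by norm_num) (k140 M) (fl_cons (by norm_num) (k141 M) (fl_cons (by norm_num) (k142 M) (fl_cons (by norm_num) (k143 M) (fl_cons (by norm_num) (k144 M) (fl_cons (by norm_num) (k145 M) (fl_cons (by norm_num) (k146 M) (fl_cons (by norm_num) (k147 M) fl_nil))))))))))))))))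
    (fs_cons (fl_cons (by norm_num) (k148 M) (fl_cons (by norm_num) (k149 M) (fl_cons (by norm_num) (k150 M) (fl_cons (by norm_num) (k151 M) (fl_cons (by norm_num) (k283 M) (fl_cons (by norm_num) (k284 M) (fl_cons (by norm_num) (k285 M) (fl_cons (by norm_num) (k286 M) (fl_cons (by norm_num) (k293 M) (fl_cons (by norm_num) (k294 M) (fl_cons (by norm_num) (k295 M) (fl_cons (by norm_num) (k296 M) (fl_cons (by norm_num) (k297 M) (fl_cons (by norm_num) (k298 M) (fl_cons (by norm_num) (k299 M) (fl_cons (by norm_num) (k305 M) fl_nil))))))))))))))))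
    (fs_cons (fl_cons (by norm_num) (k307 M) (fl_cons (by norm_num) (k308 M) (fl_cons (by norm_num) (k489 M) (fl_cons (by norm_num) (k490 M) (fl_cons (by norm_num) (k491 M) (fl_cons (by norm_num) (k492 M) (fl_cons (by norm_num) (k708 M) (fl_cons (by norm_num) (k710 M) (fl_cons (by norm_num) (k711 M) (fl_cons (by norm_num) (k713 M) (fl_cons (by norm_num) (k716 M) (fl_cons (by norm_num) (k717 M) (fl_cons (by norm_num) (k719 M) (fl_cons (by norm_num) (k720 M) (fl_cons (by norm_num) (k722 M) fl_nil)))))))))))))))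
    fs_nil))) (by norm_num) o21 b21

theorem k160 : Fk M W 15 f160 := chT_fk (n := 15) (a := 0) o21 (List.mem_of_getElem? (i := 16) rfl)
  (by norm_num) (by norm_num) (g21 M) t160

theorem k577 : Fk M W 15 f577 := ckC_fk (L := [[f171, f160]])
  (fs_cons (fl_cons (by norm_num) (k171 M) (fl_cons (by norm_num) (k160 M) fl_nil))
    fs_nil) (by norm_num) c577

theorem k162 : Fk M W 15 f162 := chT_fk (n := 15) (a := 0) o21 (List.mem_of_getElem? (i := 14) rfl)
  (by norm_num) (by norm_num) (g21 M) t162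

theorem k161 : Fk M W 15 f161 := chT_fk (n := 15) (a := 0) o21 (List.mem_of_getElem? (i := 15) rfl)
  (by norm_num) (by norm_num) (g21 M) t161

theorem k164 : Fk M W 15 f164 := chT_fk (n := 15) (a := 0) o21 (List.mem_of_getElem? (i := 12) rfl)
  (by norm_num) (by norm_num) (g21 M) t164

theorem k163 : Fk M W 15 f163 := chT_fk (n := 15) (a := 0) o21 (List.mem_of_getElem? (i := 13) rfl)
  (by norm_num) (by norm_num) (g21 M) t163

theorem k318 : Fk M W 15 f318 := chT_fk (n := 15) (a := 0) o21 (List.mem_of_getElem? (i := 8) rfl)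
  (by norm_num) (by norm_num) (g21 M) t318

theorem k739 : Fk M W 15 f739 := ckC_fk (L := [[f325, f318]])
  (fs_cons (fl_cons (by norm_num) (k325 M) (fl_cons (by norm_num) (k318 M) fl_nil))
    fs_nil) (by norm_num) c739

theorem k319 : Fk M W 15 f319 := chT_fk (n := 15) (a := 0) o21 (List.mem_of_getElem? (i := 9) rfl)
  (by norm_num) (by norm_num) (g21 M) t319

theorem k740 : Fk M W 15 f740 := ckC_fk (L := [[f325, f319]])
  (fs_cons (fl_cons (by norm_num) (k325 M) (fl_cons (by norm_num) (k319 M) fl_nil))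
    fs_nil) (by norm_num) c740

theorem k317 : Fk M W 15 f317 := chT_fk (n := 15) (a := 0) o21 (List.mem_of_getElem? (i := 7) rfl)
  (by norm_num) (by norm_num) (g21 M) t317

theorem k738 : Fk M W 15 f738 := ckC_fk (L := [[f325, f317]])
  (fs_cons (fl_cons (by norm_num) (k325 M) (fl_cons (by norm_num) (k317 M) fl_nil))
    fs_nil) (by norm_num) c738

theorem k309 : Fk M W 15 f309 := chT_fk (n := 15) (a := 0) o21 (List.mem_of_getElem? (i := 5) rfl)
  (by norm_num) (by norm_num) (g21 M) t309

theorem k723 : Fk M W 15 f723 := ckC_fk (L := [[f308, f309]])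
  (fs_cons (fl_cons (by norm_num) (k308 M) (fl_cons (by norm_num) (k309 M) fl_nil))
    fs_nil) (by norm_num) c723

theorem k341 : Fk M W 15 f341 := ckX_fk hW (L := [[f161, f162, f163, f164, f577, f723, f738, f739, f740]])
  (fs_cons (fl_cons (by norm_num) (k161 M) (fl_cons (by norm_num) (k162 M) (fl_cons (by norm_num) (k163 M) (fl_cons (by norm_num) (k164 M) (fl_cons (by norm_num) (k577 M) (fl_cons (by norm_num) (k723 M) (fl_cons (by norm_num) (k738 M) (fl_cons (by norm_num) (k739 M) (fl_cons (by norm_num) (k740 M) fl_nil)))))))))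
    fs_nil) (by norm_num) x341

theorem k355 : Fk M W 15 f355 := chT_fk (n := 15) (a := 0) o26 (List.mem_of_getElem? (i := 3) rfl)
  (by norm_num) (by norm_num) (g26 M) t355

theorem k774 : Fk M W 15 f774 := ckC_fk (L := [[f355, f222]])
  (fs_cons (fl_cons (by norm_num) (k355 M) (fl_cons (by norm_num) (k222 M) fl_nil))
    fs_nil) (by norm_num) c774

theorem k779 : Fk M W 15 f779 := ckC_fk (L := [[f356, f357]])
  (fs_cons (fl_cons (by norm_num) (k356 M) (fl_cons (by norm_num) (k357 M) fl_nil))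
    fs_nil) (by norm_num) c779

theorem k780 : Fk M W 15 f780 := ckC_fk (L := [[f779, f356]])
  (fs_cons (fl_cons (by norm_num) (k779 M) (fl_cons (by norm_num) (k356 M) fl_nil))
    fs_nil) (by norm_num) c780

theorem k781 : Fk M W 15 f781 := ckC_fk (L := [[f780, f358]])
  (fs_cons (fl_cons (by norm_num) (k780 M) (fl_cons (by norm_num) (k358 M) fl_nil))
    fs_nil) (by norm_num) c781

theorem k782 : Fk M W 15 f782 := ckC_fk (L := [[f781, f357]])
  (fs_cons (fl_cons (by norm_num) (k781 M) (fl_cons (by norm_num) (k357 M) fl_nil))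
    fs_nil) (by norm_num) c782

theorem k783 : Fk M W 15 f783 := ckC_fk (L := [[f779, f358]])
  (fs_cons (fl_cons (by norm_num) (k779 M) (fl_cons (by norm_num) (k358 M) fl_nil))
    fs_nil) (by norm_num) c783

theorem k784 : Fk M W 15 f784 := ckC_fk (L := [[f783, f357]])
  (fs_cons (fl_cons (by norm_num) (k783 M) (fl_cons (by norm_num) (k357 M) fl_nil))
    fs_nil) (by norm_num) c784

theorem k785 : Fk M W 15 f785 := ckC_fk (L := [[f784, f356]])
  (fs_cons (fl_cons (by norm_num) (k784 M) (fl_cons (by norm_num) (k356 M) fl_nil))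
    fs_nil) (by norm_num) c785

theorem k786 : Fk M W 15 f786 := ckC_fk (L := [[f356, f358]])
  (fs_cons (fl_cons (by norm_num) (k356 M) (fl_cons (by norm_num) (k358 M) fl_nil))
    fs_nil) (by norm_num) c786

theorem k787 : Fk M W 15 f787 := ckC_fk (L := [[f786, f357]])
  (fs_cons (fl_cons (by norm_num) (k786 M) (fl_cons (by norm_num) (k357 M) fl_nil))
    fs_nil) (by norm_num) c787

theorem k788 : Fk M W 15 f788 := ckC_fk (L := [[f787, f356]])
  (fs_cons (fl_cons (by norm_num) (k787 M) (fl_cons (by norm_num) (k356 M) fl_nil))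
    fs_nil) (by norm_num) c788

theorem k793 : Fk M W 15 f793 := ckC_fk (L := [[f357, f356]])
  (fs_cons (fl_cons (by norm_num) (k357 M) (fl_cons (by norm_num) (k356 M) fl_nil))
    fs_nil) (by norm_num) c793

theorem k794 : Fk M W 15 f794 := ckC_fk (L := [[f793, f358]])
  (fs_cons (fl_cons (by norm_num) (k793 M) (fl_cons (by norm_num) (k358 M) fl_nil))
    fs_nil) (by norm_num) c794

theorem k795 : Fk M W 15 f795 := ckC_fk (L := [[f794, f357]])
  (fs_cons (fl_cons (by norm_num) (k794 M) (fl_cons (by norm_num) (k357 M) fl_nil))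
    fs_nil) (by norm_num) c795

theorem k796 : Fk M W 15 f796 := ckC_fk (L := [[f357, f358]])
  (fs_cons (fl_cons (by norm_num) (k357 M) (fl_cons (by norm_num) (k358 M) fl_nil))
    fs_nil) (by norm_num) c796

theorem k311 : Fk M W 15 f311 := chT_fk (n := 15) (a := 0) o21 (List.mem_of_getElem? (i := 3) rfl)
  (by norm_num) (by norm_num) (g21 M) t311

theorem k797 : Fk M W 15 f797 := ckC_fk (L := [[f796, f357]])
  (fs_cons (fl_cons (by norm_num) (k796 M) (fl_cons (by norm_num) (k357 M) fl_nil))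
    fs_nil) (by norm_num) c797

theorem k798 : Fk M W 15 f798 := ckC_fk (L := [[f797, f356]])
  (fs_cons (fl_cons (by norm_num) (k797 M) (fl_cons (by norm_num) (k356 M) fl_nil))
    fs_nil) (by norm_num) c798

theorem k165 : Fk M W 15 f165 := chT_fk (n := 15) (a := 0) o21 (List.mem_of_getElem? (i := 11) rfl)
  (by norm_num) (by norm_num) (g21 M) t165

theorem k803 : Fk M W 15 f803 := ckC_fk (L := [[f358, f356]])
  (fs_cons (fl_cons (by norm_num) (k358 M) (fl_cons (by norm_num) (k356 M) fl_nil))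
    fs_nil) (by norm_num) c803

theorem k804 : Fk M W 15 f804 := ckC_fk (L := [[f803, f357]])
  (fs_cons (fl_cons (by norm_num) (k803 M) (fl_cons (by norm_num) (k357 M) fl_nil))
    fs_nil) (by norm_num) c804

theorem k805 : Fk M W 15 f805 := ckC_fk (L := [[f804, f356]])
  (fs_cons (fl_cons (by norm_num) (k804 M) (fl_cons (by norm_num) (k356 M) fl_nil))
    fs_nil) (by norm_num) c805

theorem k806 : Fk M W 15 f806 := ckC_fk (L := [[f805, f358]])
  (fs_cons (fl_cons (by norm_num) (k805 M) (fl_cons (by norm_num) (k358 M) fl_nil))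
    fs_nil) (by norm_num) c806

theorem k807 : Fk M W 15 f807 := ckC_fk (L := [[f806, f357]])
  (fs_cons (fl_cons (by norm_num) (k806 M) (fl_cons (by norm_num) (k357 M) fl_nil))
    fs_nil) (by norm_num) c807

theorem k808 : Fk M W 15 f808 := ckC_fk (L := [[f804, f358]])
  (fs_cons (fl_cons (by norm_num) (k804 M) (fl_cons (by norm_num) (k358 M) fl_nil))
    fs_nil) (by norm_num) c808

theorem k809 : Fk M W 15 f809 := ckC_fk (L := [[f808, f357]])
  (fs_cons (fl_cons (by norm_num) (k808 M) (fl_cons (by norm_num) (k357 M) fl_nil))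
    fs_nil) (by norm_num) c809

theorem k810 : Fk M W 15 f810 := ckC_fk (L := [[f809, f356]])
  (fs_cons (fl_cons (by norm_num) (k809 M) (fl_cons (by norm_num) (k356 M) fl_nil))
    fs_nil) (by norm_num) c810

theorem k811 : Fk M W 15 f811 := ckC_fk (L := [[f803, f358]])
  (fs_cons (fl_cons (by norm_num) (k803 M) (fl_cons (by norm_num) (k358 M) fl_nil))
    fs_nil) (by norm_num) c811

theorem k812 : Fk M W 15 f812 := ckC_fk (L := [[f811, f357]])
  (fs_cons (fl_cons (by norm_num) (k811 M) (fl_cons (by norm_num) (k357 M) fl_nil))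
    fs_nil) (by norm_num) c812

theorem k813 : Fk M W 15 f813 := ckC_fk (L := [[f812, f356]])
  (fs_cons (fl_cons (by norm_num) (k812 M) (fl_cons (by norm_num) (k356 M) fl_nil))
    fs_nil) (by norm_num) c813

theorem k814 : Fk M W 15 f814 := ckC_fk (L := [[f358, f357]])
  (fs_cons (fl_cons (by norm_num) (k358 M) (fl_cons (by norm_num) (k357 M) fl_nil))
    fs_nil) (by norm_num) c814

theorem k815 : Fk M W 15 f815 := ckC_fk (L := [[f814, f356]])
  (fs_cons (fl_cons (by norm_num) (k814 M) (fl_cons (by norm_num) (k356 M) fl_nil))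
    fs_nil) (by norm_num) c815

theorem k816 : Fk M W 15 f816 := ckC_fk (L := [[f815, f358]])
  (fs_cons (fl_cons (by norm_num) (k815 M) (fl_cons (by norm_num) (k358 M) fl_nil))
    fs_nil) (by norm_num) c816

theorem k817 : Fk M W 15 f817 := ckC_fk (L := [[f816, f357]])
  (fs_cons (fl_cons (by norm_num) (k816 M) (fl_cons (by norm_num) (k357 M) fl_nil))
    fs_nil) (by norm_num) c817

theorem k818 : Fk M W 15 f818 := ckC_fk (L := [[f814, f358]])
  (fs_cons (fl_cons (by norm_num) (k814 M) (fl_cons (by norm_num) (k358 M) fl_nil))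
    fs_nil) (by norm_num) c818

theorem k819 : Fk M W 15 f819 := ckC_fk (L := [[f818, f357]])
  (fs_cons (fl_cons (by norm_num) (k818 M) (fl_cons (by norm_num) (k357 M) fl_nil))
    fs_nil) (by norm_num) c819

theorem k820 : Fk M W 15 f820 := ckC_fk (L := [[f819, f356]])
  (fs_cons (fl_cons (by norm_num) (k819 M) (fl_cons (by norm_num) (k356 M) fl_nil))
    fs_nil) (by norm_num) c820

theorem k312 : Fk M W 15 f312 := chT_fk (n := 15) (a := 0) o21 (List.mem_of_getElem? (i := 2) rfl)
  (by norm_num) (by norm_num) (g21 M) t312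

theorem k313 : Fk M W 15 f313 := chT_fk (n := 15) (a := 0) o21 (List.mem_of_getElem? (i := 1) rfl)
  (by norm_num) (by norm_num) (g21 M) t313

theorem k314 : Fk M W 15 f314 := chT_fk (n := 15) (a := 0) o21 (List.mem_of_getElem? (i := 0) rfl)
  (by norm_num) (by norm_num) (g21 M) t314

theorem k310 : Fk M W 15 f310 := chT_fk (n := 15) (a := 0) o21 (List.mem_of_getElem? (i := 4) rfl)
  (by norm_num) (by norm_num) (g21 M) t310

theorem k190 : Fk M W 15 f190 := chT_fk (n := 15) (a := 0) o26 (List.mem_of_getElem? (i := 0) rfl)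
  (by norm_num) (by norm_num) (g26 M) t190

theorem k191 : Fk M W 15 f191 := chT_fk (n := 15) (a := 0) o26 (List.mem_of_getElem? (i := 1) rfl)
  (by norm_num) (by norm_num) (g26 M) t191

theorem k192 : Fk M W 15 f192 := chT_fk (n := 15) (a := 0) o26 (List.mem_of_getElem? (i := 2) rfl)
  (by norm_num) (by norm_num) (g26 M) t192

theorem k316 : Fk M W 15 f316 := chT_fk (n := 15) (a := 0) o21 (List.mem_of_getElem? (i := 6) rfl)
  (by norm_num) (by norm_num) (g21 M) t316

theorem k331 : Fk M W 15 f331 := chT_fk (n := 15) (a := 0) o22 (List.mem_of_getElem? (i := 0) rfl)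
  (by norm_num) (by norm_num) (g22 M) t331

theorem k315 : Fk M W 15 f315 := chT_fk (n := 15) (a := 0) o21 (List.mem_of_getElem? (i := 10) rfl)
  (by norm_num) (by norm_num) (g21 M) t315

theorem k509 : Fk M W 15 f509 := ckC_fk (L := [[f508, f223]])
  (fs_cons (fl_cons (by norm_num) (k508 M) (fl_cons (by norm_num) (k223 M) fl_nil))
    fs_nil) (by norm_num) c509

theorem k510 : Fk M W 15 f510 := ckC_fk (L := [[f509, f222]])
  (fs_cons (fl_cons (by norm_num) (k509 M) (fl_cons (by norm_num) (k222 M) fl_nil))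
    fs_nil) (by norm_num) c510

theorem k511 : Fk M W 15 f511 := ckC_fk (L := [[f67, f61]])
  (fs_cons (fl_cons (by norm_num) (k67 M) (fl_cons (by norm_num) (k61 M) fl_nil))
    fs_nil) (by norm_num) c511

theorem g30 : ∀ u, Gd (M.cg 15 (W 30).k) (sy M W 30 bl30) (gS S30 u) :=
  chBT_spec hW (n := 15) (L := L30) (fs_cons (fl_cons (by norm_num) (k160 M) (fl_cons (by norm_num) (k161 M) (fl_cons (by norm_num) (k162 M) (fl_cons (by norm_num) (k163 M) (fl_cons (by norm_num) (k164 M) (fl_cons (by norm_num) (k165 M) (fl_cons (by norm_num) (k166 M) (fl_cons (by norm_num) (k167 M) (fl_cons (by norm_num) (k168 M) (fl_cons (by norm_num) (k177 M) (fl_cons (by norm_num) (k178 M) (fl_cons (by norm_num) (k179 M) (fl_cons (by norm_num) (k180 M) (fl_cons (by norm_num) (k181 M) (fl_cons (by norm_num) (k182 M) (fl_cons (by norm_num) (k190 M) fl_nil))))))))))))))))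
    (fs_cons (fl_cons (by norm_num) (k191 M) (fl_cons (by norm_num) (k192 M) (fl_cons (by norm_num) (k193 M) (fl_cons (by norm_num) (k300 M) (fl_cons (by norm_num) (k301 M) (fl_cons (by norm_num) (k302 M) (fl_cons (by norm_num) (k303 M) (fl_cons (by norm_num) (k309 M) (fl_cons (by norm_num) (k310 M) (fl_cons (by norm_num) (k311 M) (fl_cons (by norm_num) (k312 M) (fl_cons (by norm_num) (k313 M) (fl_cons (by norm_num) (k314 M) (fl_cons (by norm_num) (k315 M) (fl_cons (by norm_num) (k316 M) (fl_cons (by norm_num) (k317 M) fl_nil))))))))))))))))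
    (fs_cons (fl_cons (by norm_num) (k318 M) (fl_cons (by norm_num) (k319 M) (fl_cons (by norm_num) (k326 M) (fl_cons (by norm_num) (k327 M) (fl_cons (by norm_num) (k328 M) (fl_cons (by norm_num) (k329 M) (fl_cons (by norm_num) (k330 M) (fl_cons (by norm_num) (k331 M) (fl_cons (by norm_num) (k332 M) (fl_cons (by norm_num) (k355 M) (fl_cons (by norm_num) (k357 M) (fl_cons (by norm_num) (k358 M) (fl_cons (by norm_num) (k508 M) (fl_cons (by norm_num) (k509 M) (fl_cons (by norm_num) (k510 M) (fl_cons (by norm_num) (k511 M) fl_nil))))))))))))))))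
    (fs_cons (fl_cons (by norm_num) (k774 M) (fl_cons (by norm_num) (k782 M) (fl_cons (by norm_num) (k783 M) (fl_cons (by norm_num) (k785 M) (fl_cons (by norm_num) (k787 M) (fl_cons (by norm_num) (k788 M) (fl_cons (by norm_num) (k793 M) (fl_cons (by norm_num) (k795 M) (fl_cons (by norm_num) (k796 M) (fl_cons (by norm_num) (k798 M) (fl_cons (by norm_num) (k807 M) (fl_cons (by norm_num) (k808 M) (fl_cons (by norm_num) (k810 M) (fl_cons (by norm_num) (k812 M) (fl_cons (by norm_num) (k813 M) (fl_cons (by norm_num) (k814 M) fl_nil))))))))))))))))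
    (fs_cons (fl_cons (by norm_num) (k815 M) (fl_cons (by norm_num) (k817 M) (fl_cons (by norm_num) (k818 M) (fl_cons (by norm_num) (k820 M) fl_nil))))
    fs_nil))))) (by norm_num) o30 b30

theorem k334 : Fk M W 14 f334 := chT_fk (n := 14) (a := 1) o30 (List.mem_of_getElem? (i := 7) rfl)
  (by norm_num) (by norm_num) (g30 M) t334

theorem k762 : Fk M W 14 f762 := ckC_fk (L := [[f341, f334]])
  (fs_cons (fl_cons (by norm_num) (k341 M) (fl_cons (by norm_num) (k334 M) fl_nil))
    fs_nil) (by norm_num) c762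

theorem k212 : Fk M W 14 f212 := chT_fk (n := 14) (a := 1) o30 (List.mem_of_getElem? (i := 15) rfl)
  (by norm_num) (by norm_num) (g30 M) t212

theorem k211 : Fk M W 14 f211 := chT_fk (n := 14) (a := 1) o30 (List.mem_of_getElem? (i := 16) rfl)
  (by norm_num) (by norm_num) (g30 M) t211

theorem k628 : Fk M W 14 f628 := ckC_fk (L := [[f222, f211]])
  (fs_cons (fl_cons (by norm_num) (k222 M) (fl_cons (by norm_num) (k211 M) fl_nil))
    fs_nil) (by norm_num) c628

theorem k213 : Fk M W 14 f213 := chT_fk (n := 14) (a := 1) o30 (List.mem_of_getElem? (i := 14) rfl)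
  (by norm_num) (by norm_num) (g30 M) t213

theorem k214 : Fk M W 14 f214 := chT_fk (n := 14) (a := 1) o30 (List.mem_of_getElem? (i := 13) rfl)
  (by norm_num) (by norm_num) (g30 M) t214

theorem k216 : Fk M W 14 f216 := chT_fk (n := 14) (a := 1) o30 (List.mem_of_getElem? (i := 11) rfl)
  (by norm_num) (by norm_num) (g30 M) t216

theorem k365 : Fk M W 14 f365 := chT_fk (n := 14) (a := 1) o30 (List.mem_of_getElem? (i := 10) rfl)
  (by norm_num) (by norm_num) (g30 M) t365

theorem k821 : Fk M W 14 f821 := ckC_fk (L := [[f358, f365]])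
  (fs_cons (fl_cons (by norm_num) (k358 M) (fl_cons (by norm_num) (k365 M) fl_nil))
    fs_nil) (by norm_num) c821

theorem k215 : Fk M W 14 f215 := chT_fk (n := 14) (a := 1) o30 (List.mem_of_getElem? (i := 12) rfl)
  (by norm_num) (by norm_num) (g30 M) t215

theorem k335 : Fk M W 14 f335 := chT_fk (n := 14) (a := 1) o30 (List.mem_of_getElem? (i := 8) rfl)
  (by norm_num) (by norm_num) (g30 M) t335

theorem k763 : Fk M W 14 f763 := ckC_fk (L := [[f341, f335]])
  (fs_cons (fl_cons (by norm_num) (k341 M) (fl_cons (by norm_num) (k335 M) fl_nil))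
    fs_nil) (by norm_num) c763

theorem k336 : Fk M W 14 f336 := chT_fk (n := 14) (a := 1) o30 (List.mem_of_getElem? (i := 9) rfl)
  (by norm_num) (by norm_num) (g30 M) t336

theorem k764 : Fk M W 14 f764 := ckC_fk (L := [[f341, f336]])
  (fs_cons (fl_cons (by norm_num) (k341 M) (fl_cons (by norm_num) (k336 M) fl_nil))
    fs_nil) (by norm_num) c764

theorem k392 : Fk M W 14 f392 := ckX_fk hW (L := [[f212, f213, f214, f215, f216, f628, f762, f763, f764, f821]])
  (fs_cons (fl_cons (by norm_num) (k212 M) (fl_cons (by norm_num) (k213 M) (fl_cons (by norm_num) (k214 M) (fl_cons (by norm_num) (k215 M) (fl_cons (by norm_num) (k216 M) (fl_cons (by norm_num) (k628 M) (fl_cons (by norm_num) (k762 M) (fl_cons (by norm_num) (k763 M) (fl_cons (by norm_num) (k764 M) (fl_cons (by norm_num) (k821 M) fl_nil))))))))))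
    fs_nil) (by norm_num) x392

theorem k46 : Fk M W 15 f46 := chT_fk (n := 15) (a := 0) o19 (List.mem_of_getElem? (i := 3) rfl)
  (by norm_num) (by norm_num) (g19 M) t46

theorem k47 : Fk M W 15 f47 := chT_fk (n := 15) (a := 0) o19 (List.mem_of_getElem? (i := 4) rfl)
  (by norm_num) (by norm_num) (g19 M) t47

theorem k578 : Fk M W 15 f578 := ckC_fk (L := [[f171, f162]])
  (fs_cons (fl_cons (by norm_num) (k171 M) (fl_cons (by norm_num) (k162 M) fl_nil))
    fs_nil) (by norm_num) c578

theorem k714 : Fk M W 15 f714 := ckC_fk (L := [[f307, f310]])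
  (fs_cons (fl_cons (by norm_num) (k307 M) (fl_cons (by norm_num) (k310 M) fl_nil))
    fs_nil) (by norm_num) c714

theorem k728 : Fk M W 15 f728 := ckC_fk (L := [[f324, f317]])
  (fs_cons (fl_cons (by norm_num) (k324 M) (fl_cons (by norm_num) (k317 M) fl_nil))
    fs_nil) (by norm_num) c728

theorem k729 : Fk M W 15 f729 := ckC_fk (L := [[f324, f319]])
  (fs_cons (fl_cons (by norm_num) (k324 M) (fl_cons (by norm_num) (k319 M) fl_nil))
    fs_nil) (by norm_num) c729

theorem k340 : Fk M W 15 f340 := ckX_fk hW (L := [[f160, f161, f163, f165, f578, f714, f728, f729]])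
  (fs_cons (fl_cons (by norm_num) (k160 M) (fl_cons (by norm_num) (k161 M) (fl_cons (by norm_num) (k163 M) (fl_cons (by norm_num) (k165 M) (fl_cons (by norm_num) (k578 M) (fl_cons (by norm_num) (k714 M) (fl_cons (by norm_num) (k728 M) (fl_cons (by norm_num) (k729 M) fl_nil))))))))
    fs_nil) (by norm_num) x340

theorem k573 : Fk M W 15 f573 := ckC_fk (L := [[f165, f340]])
  (fs_cons (fl_cons (by norm_num) (k165 M) (fl_cons (by norm_num) (k340 M) fl_nil))
    fs_nil) (by norm_num) c573

theorem k706 : Fk M W 15 f706 := ckC_fk (L := [[f306, f309]])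
  (fs_cons (fl_cons (by norm_num) (k306 M) (fl_cons (by norm_num) (k309 M) fl_nil))
    fs_nil) (by norm_num) c706

theorem k724 : Fk M W 15 f724 := ckC_fk (L := [[f323, f316]])
  (fs_cons (fl_cons (by norm_num) (k323 M) (fl_cons (by norm_num) (k316 M) fl_nil))
    fs_nil) (by norm_num) c724

theorem k725 : Fk M W 15 f725 := ckC_fk (L := [[f323, f319]])
  (fs_cons (fl_cons (by norm_num) (k323 M) (fl_cons (by norm_num) (k319 M) fl_nil))
    fs_nil) (by norm_num) c725

theorem k339 : Fk M W 15 f339 := ckX_fk hW (L := [[f160, f161, f162, f163, f164, f706, f724, f725]])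
  (fs_cons (fl_cons (by norm_num) (k160 M) (fl_cons (by norm_num) (k161 M) (fl_cons (by norm_num) (k162 M) (fl_cons (by norm_num) (k163 M) (fl_cons (by norm_num) (k164 M) (fl_cons (by norm_num) (k706 M) (fl_cons (by norm_num) (k724 M) (fl_cons (by norm_num) (k725 M) fl_nil))))))))
    fs_nil) (by norm_num) x339

theorem k574 : Fk M W 15 f574 := ckC_fk (L := [[f573, f339]])
  (fs_cons (fl_cons (by norm_num) (k573 M) (fl_cons (by norm_num) (k339 M) fl_nil))
    fs_nil) (by norm_num) c574

theorem k575 : Fk M W 15 f575 := ckC_fk (L := [[f574, f341]])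
  (fs_cons (fl_cons (by norm_num) (k574 M) (fl_cons (by norm_num) (k341 M) fl_nil))
    fs_nil) (by norm_num) c575

theorem k576 : Fk M W 15 f576 := ckC_fk (L := [[f575, f340]])
  (fs_cons (fl_cons (by norm_num) (k575 M) (fl_cons (by norm_num) (k340 M) fl_nil))
    fs_nil) (by norm_num) c576

theorem k581 : Fk M W 15 f581 := ckC_fk (L := [[f171, f172]])
  (fs_cons (fl_cons (by norm_num) (k171 M) (fl_cons (by norm_num) (k172 M) fl_nil))
    fs_nil) (by norm_num) c581

theorem k582 : Fk M W 15 f582 := ckC_fk (L := [[f581, f171]])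
  (fs_cons (fl_cons (by norm_num) (k581 M) (fl_cons (by norm_num) (k171 M) fl_nil))
    fs_nil) (by norm_num) c582

theorem k586 : Fk M W 15 f586 := ckC_fk (L := [[f172, f171]])
  (fs_cons (fl_cons (by norm_num) (k172 M) (fl_cons (by norm_num) (k171 M) fl_nil))
    fs_nil) (by norm_num) c586

theorem k587 : Fk M W 15 f587 := ckC_fk (L := [[f586, f169]])
  (fs_cons (fl_cons (by norm_num) (k586 M) (fl_cons (by norm_num) (k169 M) fl_nil))
    fs_nil) (by norm_num) c587

theorem k588 : Fk M W 15 f588 := ckC_fk (L := [[f586, f172]])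
  (fs_cons (fl_cons (by norm_num) (k586 M) (fl_cons (by norm_num) (k172 M) fl_nil))
    fs_nil) (by norm_num) c588

theorem g25 : ∀ u, Gd (M.cg 15 (W 25).k) (sy M W 25 bl25) (gS S25 u) :=
  chBT_spec hW (n := 15) (L := L25) (fs_cons (fl_cons (by norm_num) (k34 M) (fl_cons (by norm_num) (k35 M) (fl_cons (by norm_num) (k36 M) (fl_cons (by norm_num) (k43 M) (fl_cons (by norm_num) (k44 M) (fl_cons (by norm_num) (k45 M) (fl_cons (by norm_num) (k46 M) (fl_cons (by norm_num) (k47 M) (fl_cons (by norm_num) (k132 M) (fl_cons (by norm_num) (k133 M) (fl_cons (by norm_num) (k134 M) (fl_cons (by norm_num) (k139 M) (fl_cons (by norm_num) (k140 M) (fl_cons (by norm_num) (k141 M) (fl_cons (by norm_num) (k149 M) (fl_cons (by norm_num) (k150 M) fl_nil))))))))))))))))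
    (fs_cons (fl_cons (by norm_num) (k151 M) (fl_cons (by norm_num) (k156 M) (fl_cons (by norm_num) (k157 M) (fl_cons (by norm_num) (k158 M) (fl_cons (by norm_num) (k159 M) (fl_cons (by norm_num) (k165 M) (fl_cons (by norm_num) (k170 M) (fl_cons (by norm_num) (k171 M) (fl_cons (by norm_num) (k172 M) (fl_cons (by norm_num) (k304 M) (fl_cons (by norm_num) (k305 M) (fl_cons (by norm_num) (k309 M) (fl_cons (by norm_num) (k315 M) (fl_cons (by norm_num) (k316 M) (fl_cons (by norm_num) (k322 M) (fl_cons (by norm_num) (k341 M) fl_nil))))))))))))))))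
    (fs_cons (fl_cons (by norm_num) (k573 M) (fl_cons (by norm_num) (k574 M) (fl_cons (by norm_num) (k576 M) (fl_cons (by norm_num) (k581 M) (fl_cons (by norm_num) (k582 M) (fl_cons (by norm_num) (k586 M) (fl_cons (by norm_num) (k587 M) (fl_cons (by norm_num) (k588 M) fl_nil))))))))
    fs_nil))) (by norm_num) o25 b25

theorem k173 : Fk M W 15 f173 := chT_fk (n := 15) (a := 0) o25 (List.mem_of_getElem? (i := 0) rfl)
  (by norm_num) (by norm_num) (g25 M) t173

theorem k174 : Fk M W 15 f174 := chT_fk (n := 15) (a := 0) o25 (List.mem_of_getElem? (i := 1) rfl)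
  (by norm_num) (by norm_num) (g25 M) t174

theorem k175 : Fk M W 15 f175 := chT_fk (n := 15) (a := 0) o25 (List.mem_of_getElem? (i := 2) rfl)
  (by norm_num) (by norm_num) (g25 M) t175

theorem k176 : Fk M W 15 f176 := chT_fk (n := 15) (a := 0) o25 (List.mem_of_getElem? (i := 12) rfl)
  (by norm_num) (by norm_num) (g25 M) t176

theorem k52 : Fk M W 15 f52 := chT_fk (n := 15) (a := 0) o25 (List.mem_of_getElem? (i := 11) rfl)
  (by norm_num) (by norm_num) (g25 M) t52

theorem k53 : Fk M W 15 f53 := chT_fk (n := 15) (a := 0) o25 (List.mem_of_getElem? (i := 10) rfl)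
  (by norm_num) (by norm_num) (g25 M) t53

theorem k54 : Fk M W 15 f54 := chT_fk (n := 15) (a := 0) o25 (List.mem_of_getElem? (i := 9) rfl)
  (by norm_num) (by norm_num) (g25 M) t54

theorem k55 : Fk M W 15 f55 := chT_fk (n := 15) (a := 0) o28 (List.mem_of_getElem? (i := 4) rfl)
  (by norm_num) (by norm_num) (g28 M) t55

theorem k56 : Fk M W 15 f56 := chT_fk (n := 15) (a := 0) o28 (List.mem_of_getElem? (i := 5) rfl)
  (by norm_num) (by norm_num) (g28 M) t56

theorem k183 : Fk M W 15 f183 := chT_fk (n := 15) (a := 0) o25 (List.mem_of_getElem? (i := 6) rfl)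
  (by norm_num) (by norm_num) (g25 M) t183

theorem k184 : Fk M W 15 f184 := chT_fk (n := 15) (a := 0) o25 (List.mem_of_getElem? (i := 7) rfl)
  (by norm_num) (by norm_num) (g25 M) t184

theorem k68 : Fk M W 15 f68 := chT_fk (n := 15) (a := 0) o28 (List.mem_of_getElem? (i := 3) rfl)
  (by norm_num) (by norm_num) (g28 M) t68

theorem k333 : Fk M W 14 f333 := chT_fk (n := 14) (a := 1) o30 (List.mem_of_getElem? (i := 6) rfl)
  (by norm_num) (by norm_num) (g30 M) t333

theorem k337 : Fk M W 15 f337 := chT_fk (n := 15) (a := 0) o25 (List.mem_of_getElem? (i := 5) rfl)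
  (by norm_num) (by norm_num) (g25 M) t337

theorem k338 : Fk M W 15 f338 := chT_fk (n := 15) (a := 0) o25 (List.mem_of_getElem? (i := 3) rfl)
  (by norm_num) (by norm_num) (g25 M) t338

theorem k221 : Fk M W 15 f221 := chT_fk (n := 15) (a := 0) o28 (List.mem_of_getElem? (i := 1) rfl)
  (by norm_num) (by norm_num) (g28 M) t221

theorem k359 : Fk M W 14 f359 := chT_fk (n := 14) (a := 1) o30 (List.mem_of_getElem? (i := 5) rfl)
  (by norm_num) (by norm_num) (g30 M) t359

theorem k360 : Fk M W 14 f360 := chT_fk (n := 14) (a := 1) o30 (List.mem_of_getElem? (i := 4) rfl)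
  (by norm_num) (by norm_num) (g30 M) t360

theorem k361 : Fk M W 14 f361 := chT_fk (n := 14) (a := 1) o30 (List.mem_of_getElem? (i := 3) rfl)
  (by norm_num) (by norm_num) (g30 M) t361

theorem k362 : Fk M W 14 f362 := chT_fk (n := 14) (a := 1) o30 (List.mem_of_getElem? (i := 2) rfl)
  (by norm_num) (by norm_num) (g30 M) t362

theorem k363 : Fk M W 14 f363 := chT_fk (n := 14) (a := 1) o30 (List.mem_of_getElem? (i := 1) rfl)
  (by norm_num) (by norm_num) (g30 M) t363

theorem k364 : Fk M W 14 f364 := chT_fk (n := 14) (a := 1) o30 (List.mem_of_getElem? (i := 0) rfl)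
  (by norm_num) (by norm_num) (g30 M) t364

theorem k752 : Fk M W 14 f752 := ckC_fk (L := [[f340, f334]])
  (fs_cons (fl_cons (by norm_num) (k340 M) (fl_cons (by norm_num) (k334 M) fl_nil))
    fs_nil) (by norm_num) c752

theorem k753 : Fk M W 14 f753 := ckC_fk (L := [[f340, f335]])
  (fs_cons (fl_cons (by norm_num) (k340 M) (fl_cons (by norm_num) (k335 M) fl_nil))
    fs_nil) (by norm_num) c753

theorem k754 : Fk M W 14 f754 := ckC_fk (L := [[f340, f336]])
  (fs_cons (fl_cons (by norm_num) (k340 M) (fl_cons (by norm_num) (k336 M) fl_nil))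
    fs_nil) (by norm_num) c754

theorem k629 : Fk M W 14 f629 := ckC_fk (L := [[f222, f213]])
  (fs_cons (fl_cons (by norm_num) (k222 M) (fl_cons (by norm_num) (k213 M) fl_nil))
    fs_nil) (by norm_num) c629

theorem k799 : Fk M W 14 f799 := ckC_fk (L := [[f357, f365]])
  (fs_cons (fl_cons (by norm_num) (k357 M) (fl_cons (by norm_num) (k365 M) fl_nil))
    fs_nil) (by norm_num) c799

theorem k391 : Fk M W 14 f391 := ckX_fk hW (L := [[f211, f212, f214, f215, f216, f629, f752, f753, f754, f799]])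
  (fs_cons (fl_cons (by norm_num) (k211 M) (fl_cons (by norm_num) (k212 M) (fl_cons (by norm_num) (k214 M) (fl_cons (by norm_num) (k215 M) (fl_cons (by norm_num) (k216 M) (fl_cons (by norm_num) (k629 M) (fl_cons (by norm_num) (k752 M) (fl_cons (by norm_num) (k753 M) (fl_cons (by norm_num) (k754 M) (fl_cons (by norm_num) (k799 M) fl_nil))))))))))
    fs_nil) (by norm_num) x391

theorem k624 : Fk M W 14 f624 := ckC_fk (L := [[f216, f391]])
  (fs_cons (fl_cons (by norm_num) (k216 M) (fl_cons (by norm_num) (k391 M) fl_nil))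
    fs_nil) (by norm_num) c624

theorem k749 : Fk M W 14 f749 := ckC_fk (L := [[f339, f333]])
  (fs_cons (fl_cons (by norm_num) (k339 M) (fl_cons (by norm_num) (k333 M) fl_nil))
    fs_nil) (by norm_num) c749

theorem k750 : Fk M W 14 f750 := ckC_fk (L := [[f339, f336]])
  (fs_cons (fl_cons (by norm_num) (k339 M) (fl_cons (by norm_num) (k336 M) fl_nil))
    fs_nil) (by norm_num) c750

theorem k630 : Fk M W 14 f630 := ckC_fk (L := [[f222, f216]])
  (fs_cons (fl_cons (by norm_num) (k222 M) (fl_cons (by norm_num) (k216 M) fl_nil))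
    fs_nil) (by norm_num) c630

theorem k789 : Fk M W 14 f789 := ckC_fk (L := [[f356, f365]])
  (fs_cons (fl_cons (by norm_num) (k356 M) (fl_cons (by norm_num) (k365 M) fl_nil))
    fs_nil) (by norm_num) c789

theorem k390 : Fk M W 14 f390 := ckX_fk hW (L := [[f211, f212, f213, f214, f215, f630, f749, f750, f789]])
  (fs_cons (fl_cons (by norm_num) (k211 M) (fl_cons (by norm_num) (k212 M) (fl_cons (by norm_num) (k213 M) (fl_cons (by norm_num) (k214 M) (fl_cons (by norm_num) (k215 M) (fl_cons (by norm_num) (k630 M) (fl_cons (by norm_num) (k749 M) (fl_cons (by norm_num) (k750 M) (fl_cons (by norm_num) (k789 M) fl_nil)))))))))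
    fs_nil) (by norm_num) x390

theorem k625 : Fk M W 14 f625 := ckC_fk (L := [[f624, f390]])
  (fs_cons (fl_cons (by norm_num) (k624 M) (fl_cons (by norm_num) (k390 M) fl_nil))
    fs_nil) (by norm_num) c625

theorem k626 : Fk M W 14 f626 := ckC_fk (L := [[f625, f392]])
  (fs_cons (fl_cons (by norm_num) (k625 M) (fl_cons (by norm_num) (k392 M) fl_nil))
    fs_nil) (by norm_num) c626

theorem k627 : Fk M W 14 f627 := ckC_fk (L := [[f626, f391]])
  (fs_cons (fl_cons (by norm_num) (k626 M) (fl_cons (by norm_num) (k391 M) fl_nil))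
    fs_nil) (by norm_num) c627

theorem k633 : Fk M W 15 f633 := ckC_fk (L := [[f222, f223]])
  (fs_cons (fl_cons (by norm_num) (k222 M) (fl_cons (by norm_num) (k223 M) fl_nil))
    fs_nil) (by norm_num) c633

theorem k634 : Fk M W 15 f634 := ckC_fk (L := [[f633, f222]])
  (fs_cons (fl_cons (by norm_num) (k633 M) (fl_cons (by norm_num) (k222 M) fl_nil))
    fs_nil) (by norm_num) c634

theorem k220 : Fk M W 15 f220 := chT_fk (n := 15) (a := 0) o28 (List.mem_of_getElem? (i := 0) rfl)
  (by norm_num) (by norm_num) (g28 M) t220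

theorem k639 : Fk M W 15 f639 := ckC_fk (L := [[f638, f220]])
  (fs_cons (fl_cons (by norm_num) (k638 M) (fl_cons (by norm_num) (k220 M) fl_nil))
    fs_nil) (by norm_num) c639

theorem g34 : ∀ u, Gd (M.cg 14 (W 34).k) (sy M W 34 bl34) (gS S34 u) :=
  chBT_spec hW (n := 14) (L := L34) (fs_cons (fl_cons (by norm_num) (k52 M) (fl_cons (by norm_num) (k53 M) (fl_cons (by norm_num) (k54 M) (fl_cons (by norm_num) (k55 M) (fl_cons (by norm_num) (k56 M) (fl_cons (by norm_num) (k61 M) (fl_cons (by norm_num) (k62 M) (fl_cons (by norm_num) (k63 M) (fl_cons (by norm_num) (k68 M) (fl_cons (by norm_num) (k166 M) (fl_cons (by norm_num) (k167 M) (fl_cons (by norm_num) (k168 M) (fl_cons (by norm_num) (k173 M) (fl_cons (by norm_num) (k174 M) (fl_cons (by norm_num) (k175 M) (fl_cons (by norm_num) (k176 M) fl_nil))))))))))))))))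
    (fs_cons (fl_cons (by norm_num) (k183 M) (fl_cons (by norm_num) (k184 M) (fl_cons (by norm_num) (k190 M) (fl_cons (by norm_num) (k191 M) (fl_cons (by norm_num) (k192 M) (fl_cons (by norm_num) (k193 M) (fl_cons (by norm_num) (k216 M) (fl_cons (by norm_num) (k221 M) (fl_cons (by norm_num) (k222 M) (fl_cons (by norm_num) (k223 M) (fl_cons (by norm_num) (k333 M) (fl_cons (by norm_num) (k334 M) (fl_cons (by norm_num) (k337 M) (fl_cons (by norm_num) (k338 M) (fl_cons (by norm_num) (k353 M) (fl_cons (by norm_num) (k354 M) fl_nil))))))))))))))))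
    (fs_cons (fl_cons (by norm_num) (k355 M) (fl_cons (by norm_num) (k359 M) (fl_cons (by norm_num) (k360 M) (fl_cons (by norm_num) (k361 M) (fl_cons (by norm_num) (k362 M) (fl_cons (by norm_num) (k363 M) (fl_cons (by norm_num) (k364 M) (fl_cons (by norm_num) (k365 M) (fl_cons (by norm_num) (k392 M) (fl_cons (by norm_num) (k624 M) (fl_cons (by norm_num) (k625 M) (fl_cons (by norm_num) (k627 M) (fl_cons (by norm_num) (k633 M) (fl_cons (by norm_num) (k634 M) (fl_cons (by norm_num) (k638 M) (fl_cons (by norm_num) (k639 M) fl_nil))))))))))))))))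
    (fs_cons (fl_cons (by norm_num) (k640 M) fl_nil)
    fs_nil)))) (by norm_num) o34 b34

theorem k227 : Fk M W 14 f227 := chT_fk (n := 14) (a := 0) o34 (List.mem_of_getElem? (i := 12) rfl)
  (by norm_num) (by norm_num) (g34 M) t227

theorem k641 : Fk M W 14 f641 := ckC_fk (L := [[f223, f227]])
  (fs_cons (fl_cons (by norm_num) (k223 M) (fl_cons (by norm_num) (k227 M) fl_nil))
    fs_nil) (by norm_num) c641

theorem k201 : Fk M W 14 f201 := chT_fk (n := 14) (a := 0) o34 (List.mem_of_getElem? (i := 7) rfl)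
  (by norm_num) (by norm_num) (g34 M) t201

theorem k589 : Fk M W 15 f589 := ckC_fk (L := [[f172, f176]])
  (fs_cons (fl_cons (by norm_num) (k172 M) (fl_cons (by norm_num) (k176 M) fl_nil))
    fs_nil) (by norm_num) c589

theorem k601 : Fk M W 15 f601 := ckC_fk (L := [[f189, f184]])
  (fs_cons (fl_cons (by norm_num) (k189 M) (fl_cons (by norm_num) (k184 M) fl_nil))
    fs_nil) (by norm_num) c601

theorem k206 : Fk M W 15 f206 := ckX_fk hW (L := [[f52, f53, f54, f589, f601]])
  (fs_cons (fl_cons (by norm_num) (k52 M) (fl_cons (by norm_num) (k53 M) (fl_cons (by norm_num) (k54 M) (fl_cons (by norm_num) (k589 M) (fl_cons (by norm_num) (k601 M) fl_nil)))))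
    fs_nil) (by norm_num) x206

theorem k618 : Fk M W 14 f618 := ckC_fk (L := [[f206, f201]])
  (fs_cons (fl_cons (by norm_num) (k206 M) (fl_cons (by norm_num) (k201 M) fl_nil))
    fs_nil) (by norm_num) c618

theorem k202 : Fk M W 14 f202 := chT_fk (n := 14) (a := 0) o34 (List.mem_of_getElem? (i := 8) rfl)
  (by norm_num) (by norm_num) (g34 M) t202

theorem k619 : Fk M W 14 f619 := ckC_fk (L := [[f206, f202]])
  (fs_cons (fl_cons (by norm_num) (k206 M) (fl_cons (by norm_num) (k202 M) fl_nil))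
    fs_nil) (by norm_num) c619

theorem k387 : Fk M W 14 f387 := chT_fk (n := 14) (a := 0) o34 (List.mem_of_getElem? (i := 5) rfl)
  (by norm_num) (by norm_num) (g34 M) t387

theorem k843 : Fk M W 14 f843 := ckC_fk (L := [[f390, f387]])
  (fs_cons (fl_cons (by norm_num) (k390 M) (fl_cons (by norm_num) (k387 M) fl_nil))
    fs_nil) (by norm_num) c843

theorem k79 : Fk M W 14 f79 := chT_fk (n := 14) (a := 0) o34 (List.mem_of_getElem? (i := 11) rfl)
  (by norm_num) (by norm_num) (g34 M) t79

theorem k80 : Fk M W 14 f80 := chT_fk (n := 14) (a := 0) o34 (List.mem_of_getElem? (i := 10) rfl)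
  (by norm_num) (by norm_num) (g34 M) t80

theorem k81 : Fk M W 14 f81 := chT_fk (n := 14) (a := 0) o34 (List.mem_of_getElem? (i := 9) rfl)
  (by norm_num) (by norm_num) (g34 M) t81

theorem k257 : Fk M W 14 f257 := ckX_fk hW (L := [[f79, f80, f81, f618, f619, f641, f843]])
  (fs_cons (fl_cons (by norm_num) (k79 M) (fl_cons (by norm_num) (k80 M) (fl_cons (by norm_num) (k81 M) (fl_cons (by norm_num) (k618 M) (fl_cons (by norm_num) (k619 M) (fl_cons (by norm_num) (k641 M) (fl_cons (by norm_num) (k843 M) fl_nil)))))))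
    fs_nil) (by norm_num) x257

theorem k200 : Fk M W 14 f200 := chT_fk (n := 14) (a := 0) o34 (List.mem_of_getElem? (i := 6) rfl)
  (by norm_num) (by norm_num) (g34 M) t200

theorem k388 : Fk M W 14 f388 := chT_fk (n := 14) (a := 0) o34 (List.mem_of_getElem? (i := 4) rfl)
  (by norm_num) (by norm_num) (g34 M) t388

theorem k583 : Fk M W 15 f583 := ckC_fk (L := [[f171, f176]])
  (fs_cons (fl_cons (by norm_num) (k171 M) (fl_cons (by norm_num) (k176 M) fl_nil))
    fs_nil) (by norm_num) c583

theorem k185 : Fk M W 15 f185 := chT_fk (n := 15) (a := 0) o25 (List.mem_of_getElem? (i := 8) rfl)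
  (by norm_num) (by norm_num) (g25 M) t185

theorem k597 : Fk M W 15 f597 := ckC_fk (L := [[f188, f185]])
  (fs_cons (fl_cons (by norm_num) (k188 M) (fl_cons (by norm_num) (k185 M) fl_nil))
    fs_nil) (by norm_num) c597

theorem k205 : Fk M W 15 f205 := ckX_fk hW (L := [[f52, f53, f54, f583, f597]])
  (fs_cons (fl_cons (by norm_num) (k52 M) (fl_cons (by norm_num) (k53 M) (fl_cons (by norm_num) (k54 M) (fl_cons (by norm_num) (k583 M) (fl_cons (by norm_num) (k597 M) fl_nil)))))
    fs_nil) (by norm_num) x205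

theorem k613 : Fk M W 14 f613 := ckC_fk (L := [[f205, f200]])
  (fs_cons (fl_cons (by norm_num) (k205 M) (fl_cons (by norm_num) (k200 M) fl_nil))
    fs_nil) (by norm_num) c613

theorem k614 : Fk M W 14 f614 := ckC_fk (L := [[f205, f202]])
  (fs_cons (fl_cons (by norm_num) (k205 M) (fl_cons (by norm_num) (k202 M) fl_nil))
    fs_nil) (by norm_num) c614

theorem k635 : Fk M W 14 f635 := ckC_fk (L := [[f222, f227]])
  (fs_cons (fl_cons (by norm_num) (k222 M) (fl_cons (by norm_num) (k227 M) fl_nil))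
    fs_nil) (by norm_num) c635

theorem k256 : Fk M W 14 f256 := ckX_fk hW (L := [[f79, f80, f81, f388, f613, f614, f635]])
  (fs_cons (fl_cons (by norm_num) (k79 M) (fl_cons (by norm_num) (k80 M) (fl_cons (by norm_num) (k81 M) (fl_cons (by norm_num) (k388 M) (fl_cons (by norm_num) (k613 M) (fl_cons (by norm_num) (k614 M) (fl_cons (by norm_num) (k635 M) fl_nil)))))))
    fs_nil) (by norm_num) x256

theorem k521 : Fk M W 14 f521 := ckC_fk (L := [[f81, f256]])
  (fs_cons (fl_cons (by norm_num) (k81 M) (fl_cons (by norm_num) (k256 M) fl_nil))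
    fs_nil) (by norm_num) c521

theorem k499 : Fk M W 15 f499 := ckC_fk (L := [[f49, f46]])
  (fs_cons (fl_cons (by norm_num) (k49 M) (fl_cons (by norm_num) (k46 M) fl_nil))
    fs_nil) (by norm_num) c499

theorem k41 : Fk M W 15 f41 := chT_fk (n := 15) (a := 0) o19 (List.mem_of_getElem? (i := 2) rfl)
  (by norm_num) (by norm_num) (g19 M) t41

theorem k494 : Fk M W 15 f494 := ckC_fk (L := [[f40, f41]])
  (fs_cons (fl_cons (by norm_num) (k40 M) (fl_cons (by norm_num) (k41 M) fl_nil))
    fs_nil) (by norm_num) c494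

theorem k58 : Fk M W 15 f58 := ckX_fk hW (L := [[f494, f499]])
  (fs_cons (fl_cons (by norm_num) (k494 M) (fl_cons (by norm_num) (k499 M) fl_nil))
    fs_nil) (by norm_num) x58

theorem k502 : Fk M W 15 f502 := ckC_fk (L := [[f54, f205]])
  (fs_cons (fl_cons (by norm_num) (k54 M) (fl_cons (by norm_num) (k205 M) fl_nil))
    fs_nil) (by norm_num) c502

theorem g27 : ∀ u, Gd (M.cg 15 (W 27).k) (sy M W 27 bl27) (gS S27 u) :=
  chBT_spec hW (n := 15) (L := L27) (fs_cons (fl_cons (by norm_num) (k41 M) (fl_cons (by norm_num) (k42 M) (fl_cons (by norm_num) (k46 M) (fl_cons (by norm_num) (k51 M) (fl_cons (by norm_num) (k58 M) (fl_cons (by norm_num) (k169 M) (fl_cons (by norm_num) (k170 M) (fl_cons (by norm_num) (k173 M) (fl_cons (by norm_num) (k174 M) (fl_cons (by norm_num) (k175 M) (fl_cons (by norm_num) (k176 M) (fl_cons (by norm_num) (k183 M) (fl_cons (by norm_num) (k186 M) (fl_cons (by norm_num) (k187 M) (fl_cons (by norm_num) (k206 M) (fl_cons (by norm_num) (k502 M) fl_nil))))))))))))))))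
    fs_nil) (by norm_num) o27 b27

theorem k203 : Fk M W 15 f203 := chT_fk (n := 15) (a := 0) o27 (List.mem_of_getElem? (i := 0) rfl)
  (by norm_num) (by norm_num) (g27 M) t203

theorem k204 : Fk M W 15 f204 := chT_fk (n := 15) (a := 0) o27 (List.mem_of_getElem? (i := 1) rfl)
  (by norm_num) (by norm_num) (g27 M) t204

theorem k84 : Fk M W 14 f84 := chT_fk (n := 14) (a := 0) o32 (List.mem_of_getElem? (i := 0) rfl)
  (by norm_num) (by norm_num) (g32 M) t84

theorem k513 : Fk M W 15 f513 := ckC_fk (L := [[f67, f68]])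
  (fs_cons (fl_cons (by norm_num) (k67 M) (fl_cons (by norm_num) (k68 M) fl_nil))
    fs_nil) (by norm_num) c513

theorem k514 : Fk M W 15 f514 := ckC_fk (L := [[f67, f69]])
  (fs_cons (fl_cons (by norm_num) (k67 M) (fl_cons (by norm_num) (k69 M) fl_nil))
    fs_nil) (by norm_num) c514

theorem k506 : Fk M W 15 f506 := ckC_fk (L := [[f58, f55]])
  (fs_cons (fl_cons (by norm_num) (k58 M) (fl_cons (by norm_num) (k55 M) fl_nil))
    fs_nil) (by norm_num) c506

theorem k85 : Fk M W 15 f85 := ckX_fk hW (L := [[f506, f513, f514]])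
  (fs_cons (fl_cons (by norm_num) (k506 M) (fl_cons (by norm_num) (k513 M) (fl_cons (by norm_num) (k514 M) fl_nil)))
    fs_nil) (by norm_num) x85

theorem k854 : Fk M W 14 f854 := ckC_fk (L := [[f391, f390]])
  (fs_cons (fl_cons (by norm_num) (k391 M) (fl_cons (by norm_num) (k390 M) fl_nil))
    fs_nil) (by norm_num) c854

theorem k855 : Fk M W 14 f855 := ckC_fk (L := [[f854, f392]])
  (fs_cons (fl_cons (by norm_num) (k854 M) (fl_cons (by norm_num) (k392 M) fl_nil))
    fs_nil) (by norm_num) c855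

theorem k856 : Fk M W 14 f856 := ckC_fk (L := [[f855, f391]])
  (fs_cons (fl_cons (by norm_num) (k855 M) (fl_cons (by norm_num) (k391 M) fl_nil))
    fs_nil) (by norm_num) c856

theorem k857 : Fk M W 14 f857 := ckC_fk (L := [[f856, f387]])
  (fs_cons (fl_cons (by norm_num) (k856 M) (fl_cons (by norm_num) (k387 M) fl_nil))
    fs_nil) (by norm_num) c857

theorem k60 : Fk M W 15 f60 := chT_fk (n := 15) (a := 0) o27 (List.mem_of_getElem? (i := 5) rfl)
  (by norm_num) (by norm_num) (g27 M) t60

theorem g36 : ∀ u, Gd (M.cg 14 (W 36).k) (sy M W 36 bl36) (gS S36 u) :=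
  chBT_spec hW (n := 14) (L := L36) (fs_cons (fl_cons (by norm_num) (k4 M) (fl_cons (by norm_num) (k5 M) (fl_cons (by norm_num) (k55 M) (fl_cons (by norm_num) (k60 M) (fl_cons (by norm_num) (k84 M) (fl_cons (by norm_num) (k85 M) (fl_cons (by norm_num) (k200 M) (fl_cons (by norm_num) (k203 M) (fl_cons (by norm_num) (k204 M) (fl_cons (by norm_num) (k220 M) (fl_cons (by norm_num) (k221 M) (fl_cons (by norm_num) (k227 M) (fl_cons (by norm_num) (k257 M) (fl_cons (by norm_num) (k387 M) (fl_cons (by norm_num) (k521 M) (fl_cons (by norm_num) (k857 M) fl_nil))))))))))))))))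
    fs_nil) (by norm_num) o36 b36

theorem k6 : Fk M W 14 f6 := chT_fk (n := 14) (a := 0) o36 (List.mem_of_getElem? (i := 2) rfl)
  (by norm_num) (by norm_num) (g36 M) t6

theorem k86 : Fk M W 14 f86 := chT_fk (n := 14) (a := 0) o36 (List.mem_of_getElem? (i := 3) rfl)
  (by norm_num) (by norm_num) (g36 M) t86

theorem k87 : Fk M W 14 f87 := chT_fk (n := 14) (a := 0) o36 (List.mem_of_getElem? (i := 6) rfl)
  (by norm_num) (by norm_num) (g36 M) t87

theorem g40 : ∀ u, Gd (M.cg 14 (W 40).k) (sy M W 40 bl40) (gS S40 u) :=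
  chBT_spec hW (n := 14) (L := L40) (fs_cons (fl_cons (by norm_num) (k84 M) (fl_cons (by norm_num) (k86 M) (fl_cons (by norm_num) (k87 M) fl_nil)))
    fs_nil) (by norm_num) o40 b40

theorem k7 : Fk M W 14 f7 := chT_fk (n := 14) (a := 0) o40 (List.mem_of_getElem? (i := 1) rfl)
  (by norm_num) (by norm_num) (g40 M) t7

theorem g7 : ∀ u, Gd (M.cg 15 (W 7).k) (sy M W 7 bl7) (gS S7 u) :=
  chBT_spec hW (n := 15) (L := L7) (fs_cons (fl_cons (by norm_num) (k22 M) fl_nil)
    fs_nil) (by norm_num) o7 b7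

theorem k21 : Fk M W 15 f21 := chT_fk (n := 15) (a := 0) o7 (List.mem_of_getElem? (i := 0) rfl)
  (by norm_num) (by norm_num) (g7 M) t21

theorem g15 : ∀ u, Gd (M.cg 15 (W 15).k) (sy M W 15 bl15) (gS S15 u) :=
  chBT_spec hW (n := 15) (L := L15) (fs_cons (fl_cons (by norm_num) (k21 M) (fl_cons (by norm_num) (k23 M) (fl_cons (by norm_num) (k24 M) fl_nil)))
    fs_nil) (by norm_num) o15 b15

theorem k39 : Fk M W 15 f39 := chT_fk (n := 15) (a := 0) o15 (List.mem_of_getElem? (i := 0) rfl)
  (by norm_num) (by norm_num) (g15 M) t39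

theorem g23 : ∀ u, Gd (M.cg 15 (W 23).k) (sy M W 23 bl23) (gS S23 u) :=
  chBT_spec hW (n := 15) (L := L23) (fs_cons (fl_cons (by norm_num) (k39 M) (fl_cons (by norm_num) (k41 M) (fl_cons (by norm_num) (k42 M) fl_nil)))
    fs_nil) (by norm_num) o23 b23

theorem k57 : Fk M W 15 f57 := chT_fk (n := 15) (a := 0) o23 (List.mem_of_getElem? (i := 0) rfl)
  (by norm_num) (by norm_num) (g23 M) t57

theorem k59 : Fk M W 15 f59 := chT_fk (n := 15) (a := 0) o27 (List.mem_of_getElem? (i := 2) rfl)
  (by norm_num) (by norm_num) (g27 M) t59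

theorem k64 : Fk M W 15 f64 := chT_fk (n := 15) (a := 0) o27 (List.mem_of_getElem? (i := 3) rfl)
  (by norm_num) (by norm_num) (g27 M) t64

theorem k65 : Fk M W 15 f65 := chT_fk (n := 15) (a := 0) o27 (List.mem_of_getElem? (i := 4) rfl)
  (by norm_num) (by norm_num) (g27 M) t65

theorem k765 : Fk M W 15 f765 := ckC_fk (L := [[f341, f340]])
  (fs_cons (fl_cons (by norm_num) (k341 M) (fl_cons (by norm_num) (k340 M) fl_nil))
    fs_nil) (by norm_num) c765

theorem k766 : Fk M W 15 f766 := ckC_fk (L := [[f765, f339]])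
  (fs_cons (fl_cons (by norm_num) (k765 M) (fl_cons (by norm_num) (k339 M) fl_nil))
    fs_nil) (by norm_num) c766

theorem k767 : Fk M W 15 f767 := ckC_fk (L := [[f766, f341]])
  (fs_cons (fl_cons (by norm_num) (k766 M) (fl_cons (by norm_num) (k341 M) fl_nil))
    fs_nil) (by norm_num) c767

theorem k768 : Fk M W 15 f768 := ckC_fk (L := [[f767, f340]])
  (fs_cons (fl_cons (by norm_num) (k767 M) (fl_cons (by norm_num) (k340 M) fl_nil))
    fs_nil) (by norm_num) c768

theorem k769 : Fk M W 15 f769 := ckC_fk (L := [[f765, f341]])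
  (fs_cons (fl_cons (by norm_num) (k765 M) (fl_cons (by norm_num) (k341 M) fl_nil))
    fs_nil) (by norm_num) c769

theorem k770 : Fk M W 15 f770 := ckC_fk (L := [[f769, f340]])
  (fs_cons (fl_cons (by norm_num) (k769 M) (fl_cons (by norm_num) (k340 M) fl_nil))
    fs_nil) (by norm_num) c770

theorem k771 : Fk M W 15 f771 := ckC_fk (L := [[f770, f339]])
  (fs_cons (fl_cons (by norm_num) (k770 M) (fl_cons (by norm_num) (k339 M) fl_nil))
    fs_nil) (by norm_num) c771

theorem k503 : Fk M W 15 f503 := ckC_fk (L := [[f502, f206]])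
  (fs_cons (fl_cons (by norm_num) (k502 M) (fl_cons (by norm_num) (k206 M) fl_nil))
    fs_nil) (by norm_num) c503

theorem k504 : Fk M W 15 f504 := ckC_fk (L := [[f503, f205]])
  (fs_cons (fl_cons (by norm_num) (k503 M) (fl_cons (by norm_num) (k205 M) fl_nil))
    fs_nil) (by norm_num) c504

theorem k505 : Fk M W 15 f505 := ckC_fk (L := [[f58, f52]])
  (fs_cons (fl_cons (by norm_num) (k58 M) (fl_cons (by norm_num) (k52 M) fl_nil))
    fs_nil) (by norm_num) c505

theorem k755 : Fk M W 15 f755 := ckC_fk (L := [[f340, f339]])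
  (fs_cons (fl_cons (by norm_num) (k340 M) (fl_cons (by norm_num) (k339 M) fl_nil))
    fs_nil) (by norm_num) c755

theorem k756 : Fk M W 15 f756 := ckC_fk (L := [[f755, f341]])
  (fs_cons (fl_cons (by norm_num) (k755 M) (fl_cons (by norm_num) (k341 M) fl_nil))
    fs_nil) (by norm_num) c756

theorem k757 : Fk M W 15 f757 := ckC_fk (L := [[f756, f340]])
  (fs_cons (fl_cons (by norm_num) (k756 M) (fl_cons (by norm_num) (k340 M) fl_nil))
    fs_nil) (by norm_num) c757

theorem k758 : Fk M W 15 f758 := ckC_fk (L := [[f340, f341]])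
  (fs_cons (fl_cons (by norm_num) (k340 M) (fl_cons (by norm_num) (k341 M) fl_nil))
    fs_nil) (by norm_num) c758

theorem k759 : Fk M W 15 f759 := ckC_fk (L := [[f758, f340]])
  (fs_cons (fl_cons (by norm_num) (k758 M) (fl_cons (by norm_num) (k340 M) fl_nil))
    fs_nil) (by norm_num) c759

theorem k760 : Fk M W 15 f760 := ckC_fk (L := [[f759, f339]])
  (fs_cons (fl_cons (by norm_num) (k759 M) (fl_cons (by norm_num) (k339 M) fl_nil))
    fs_nil) (by norm_num) c760

theorem g29 : ∀ u, Gd (M.cg 15 (W 29).k) (sy M W 29 bl29) (gS S29 u) :=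
  chBT_spec hW (n := 15) (L := L29) (fs_cons (fl_cons (by norm_num) (k54 M) (fl_cons (by norm_num) (k160 M) (fl_cons (by norm_num) (k161 M) (fl_cons (by norm_num) (k162 M) (fl_cons (by norm_num) (k163 M) (fl_cons (by norm_num) (k164 M) (fl_cons (by norm_num) (k165 M) (fl_cons (by norm_num) (k173 M) (fl_cons (by norm_num) (k174 M) (fl_cons (by norm_num) (k175 M) (fl_cons (by norm_num) (k176 M) (fl_cons (by norm_num) (k177 M) (fl_cons (by norm_num) (k178 M) (fl_cons (by norm_num) (k179 M) (fl_cons (by norm_num) (k180 M) (fl_cons (by norm_num) (k181 M) fl_nil))))))))))))))))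
    (fs_cons (fl_cons (by norm_num) (k182 M) (fl_cons (by norm_num) (k183 M) (fl_cons (by norm_num) (k184 M) (fl_cons (by norm_num) (k185 M) (fl_cons (by norm_num) (k300 M) (fl_cons (by norm_num) (k301 M) (fl_cons (by norm_num) (k302 M) (fl_cons (by norm_num) (k303 M) (fl_cons (by norm_num) (k309 M) (fl_cons (by norm_num) (k310 M) (fl_cons (by norm_num) (k311 M) (fl_cons (by norm_num) (k312 M) (fl_cons (by norm_num) (k313 M) (fl_cons (by norm_num) (k314 M) (fl_cons (by norm_num) (k315 M) (fl_cons (by norm_num) (k316 M) fl_nil))))))))))))))))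
    (fs_cons (fl_cons (by norm_num) (k317 M) (fl_cons (by norm_num) (k318 M) (fl_cons (by norm_num) (k319 M) (fl_cons (by norm_num) (k326 M) (fl_cons (by norm_num) (k327 M) (fl_cons (by norm_num) (k328 M) (fl_cons (by norm_num) (k329 M) (fl_cons (by norm_num) (k330 M) (fl_cons (by norm_num) (k331 M) (fl_cons (by norm_num) (k332 M) (fl_cons (by norm_num) (k338 M) (fl_cons (by norm_num) (k340 M) (fl_cons (by norm_num) (k341 M) (fl_cons (by norm_num) (k502 M) (fl_cons (by norm_num) (k503 M) (fl_cons (by norm_num) (k504 M) fl_nil))))))))))))))))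
    (fs_cons (fl_cons (by norm_num) (k505 M) (fl_cons (by norm_num) (k755 M) (fl_cons (by norm_num) (k757 M) (fl_cons (by norm_num) (k758 M) (fl_cons (by norm_num) (k760 M) (fl_cons (by norm_num) (k765 M) (fl_cons (by norm_num) (k766 M) (fl_cons (by norm_num) (k768 M) (fl_cons (by norm_num) (k769 M) (fl_cons (by norm_num) (k771 M) fl_nil))))))))))
    fs_nil)))) (by norm_num) o29 b29

theorem k199 : Fk M W 15 f199 := chT_fk (n := 15) (a := 0) o29 (List.mem_of_getElem? (i := 11) rfl)
  (by norm_num) (by norm_num) (g29 M) t199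

theorem k342 : Fk M W 15 f342 := chT_fk (n := 15) (a := 0) o29 (List.mem_of_getElem? (i := 5) rfl)
  (by norm_num) (by norm_num) (g29 M) t342

theorem k348 : Fk M W 15 f348 := chT_fk (n := 15) (a := 0) o29 (List.mem_of_getElem? (i := 10) rfl)
  (by norm_num) (by norm_num) (g29 M) t348

theorem k349 : Fk M W 15 f349 := chT_fk (n := 15) (a := 0) o29 (List.mem_of_getElem? (i := 6) rfl)
  (by norm_num) (by norm_num) (g29 M) t349

theorem k350 : Fk M W 15 f350 := chT_fk (n := 15) (a := 0) o29 (List.mem_of_getElem? (i := 7) rfl)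
  (by norm_num) (by norm_num) (g29 M) t350

theorem k194 : Fk M W 15 f194 := chT_fk (n := 15) (a := 0) o29 (List.mem_of_getElem? (i := 16) rfl)
  (by norm_num) (by norm_num) (g29 M) t194

theorem k196 : Fk M W 15 f196 := chT_fk (n := 15) (a := 0) o29 (List.mem_of_getElem? (i := 14) rfl)
  (by norm_num) (by norm_num) (g29 M) t196

theorem k611 : Fk M W 15 f611 := ckC_fk (L := [[f205, f196]])
  (fs_cons (fl_cons (by norm_num) (k205 M) (fl_cons (by norm_num) (k196 M) fl_nil))
    fs_nil) (by norm_num) c611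

theorem k195 : Fk M W 15 f195 := chT_fk (n := 15) (a := 0) o29 (List.mem_of_getElem? (i := 15) rfl)
  (by norm_num) (by norm_num) (g29 M) t195

theorem k197 : Fk M W 15 f197 := chT_fk (n := 15) (a := 0) o29 (List.mem_of_getElem? (i := 13) rfl)
  (by norm_num) (by norm_num) (g29 M) t197

theorem k198 : Fk M W 15 f198 := chT_fk (n := 15) (a := 0) o29 (List.mem_of_getElem? (i := 12) rfl)
  (by norm_num) (by norm_num) (g29 M) t198

theorem k790 : Fk M W 15 f790 := ckC_fk (L := [[f357, f350]])
  (fs_cons (fl_cons (by norm_num) (k357 M) (fl_cons (by norm_num) (k350 M) fl_nil))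
    fs_nil) (by norm_num) c790

theorem k351 : Fk M W 15 f351 := chT_fk (n := 15) (a := 0) o29 (List.mem_of_getElem? (i := 8) rfl)
  (by norm_num) (by norm_num) (g29 M) t351

theorem k791 : Fk M W 15 f791 := ckC_fk (L := [[f357, f351]])
  (fs_cons (fl_cons (by norm_num) (k357 M) (fl_cons (by norm_num) (k351 M) fl_nil))
    fs_nil) (by norm_num) c791

theorem k352 : Fk M W 15 f352 := chT_fk (n := 15) (a := 0) o29 (List.mem_of_getElem? (i := 9) rfl)
  (by norm_num) (by norm_num) (g29 M) t352

theorem k792 : Fk M W 15 f792 := ckC_fk (L := [[f357, f352]])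
  (fs_cons (fl_cons (by norm_num) (k357 M) (fl_cons (by norm_num) (k352 M) fl_nil))
    fs_nil) (by norm_num) c792

theorem k761 : Fk M W 15 f761 := ckC_fk (L := [[f340, f348]])
  (fs_cons (fl_cons (by norm_num) (k340 M) (fl_cons (by norm_num) (k348 M) fl_nil))
    fs_nil) (by norm_num) c761

theorem k374 : Fk M W 15 f374 := ckX_fk hW (L := [[f194, f195, f197, f198, f199, f611, f761, f790, f791, f792]])
  (fs_cons (fl_cons (by norm_num) (k194 M) (fl_cons (by norm_num) (k195 M) (fl_cons (by norm_num) (k197 M) (fl_cons (by norm_num) (k198 M) (fl_cons (by norm_num) (k199 M) (fl_cons (by norm_num) (k611 M) (fl_cons (by norm_num) (k761 M) (fl_cons (by norm_num) (k790 M) (fl_cons (by norm_num) (k791 M) (fl_cons (by norm_num) (k792 M) fl_nil))))))))))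
    fs_nil) (by norm_num) x374

theorem k606 : Fk M W 15 f606 := ckC_fk (L := [[f199, f374]])
  (fs_cons (fl_cons (by norm_num) (k199 M) (fl_cons (by norm_num) (k374 M) fl_nil))
    fs_nil) (by norm_num) c606

theorem k612 : Fk M W 15 f612 := ckC_fk (L := [[f205, f199]])
  (fs_cons (fl_cons (by norm_num) (k205 M) (fl_cons (by norm_num) (k199 M) fl_nil))
    fs_nil) (by norm_num) c612

theorem k776 : Fk M W 15 f776 := ckC_fk (L := [[f356, f351]])
  (fs_cons (fl_cons (by norm_num) (k356 M) (fl_cons (by norm_num) (k351 M) fl_nil))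
    fs_nil) (by norm_num) c776

theorem k777 : Fk M W 15 f777 := ckC_fk (L := [[f356, f352]])
  (fs_cons (fl_cons (by norm_num) (k356 M) (fl_cons (by norm_num) (k352 M) fl_nil))
    fs_nil) (by norm_num) c777

theorem k775 : Fk M W 15 f775 := ckC_fk (L := [[f356, f349]])
  (fs_cons (fl_cons (by norm_num) (k356 M) (fl_cons (by norm_num) (k349 M) fl_nil))
    fs_nil) (by norm_num) c775

theorem k751 : Fk M W 15 f751 := ckC_fk (L := [[f339, f348]])
  (fs_cons (fl_cons (by norm_num) (k339 M) (fl_cons (by norm_num) (k348 M) fl_nil))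
    fs_nil) (by norm_num) c751

theorem k373 : Fk M W 15 f373 := ckX_fk hW (L := [[f194, f195, f196, f197, f198, f612, f751, f775, f776, f777]])
  (fs_cons (fl_cons (by norm_num) (k194 M) (fl_cons (by norm_num) (k195 M) (fl_cons (by norm_num) (k196 M) (fl_cons (by norm_num) (k197 M) (fl_cons (by norm_num) (k198 M) (fl_cons (by norm_num) (k612 M) (fl_cons (by norm_num) (k751 M) (fl_cons (by norm_num) (k775 M) (fl_cons (by norm_num) (k776 M) (fl_cons (by norm_num) (k777 M) fl_nil))))))))))
    fs_nil) (by norm_num) x373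

theorem k607 : Fk M W 15 f607 := ckC_fk (L := [[f606, f373]])
  (fs_cons (fl_cons (by norm_num) (k606 M) (fl_cons (by norm_num) (k373 M) fl_nil))
    fs_nil) (by norm_num) c607

theorem k800 : Fk M W 15 f800 := ckC_fk (L := [[f358, f350]])
  (fs_cons (fl_cons (by norm_num) (k358 M) (fl_cons (by norm_num) (k350 M) fl_nil))
    fs_nil) (by norm_num) c800

theorem k801 : Fk M W 15 f801 := ckC_fk (L := [[f358, f351]])
  (fs_cons (fl_cons (by norm_num) (k358 M) (fl_cons (by norm_num) (k351 M) fl_nil))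
    fs_nil) (by norm_num) c801

theorem k610 : Fk M W 15 f610 := ckC_fk (L := [[f205, f194]])
  (fs_cons (fl_cons (by norm_num) (k205 M) (fl_cons (by norm_num) (k194 M) fl_nil))
    fs_nil) (by norm_num) c610

theorem k773 : Fk M W 15 f773 := ckC_fk (L := [[f341, f348]])
  (fs_cons (fl_cons (by norm_num) (k341 M) (fl_cons (by norm_num) (k348 M) fl_nil))
    fs_nil) (by norm_num) c773

theorem k802 : Fk M W 15 f802 := ckC_fk (L := [[f358, f352]])
  (fs_cons (fl_cons (by norm_num) (k358 M) (fl_cons (by norm_num) (k352 M) fl_nil))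
    fs_nil) (by norm_num) c802

theorem k772 : Fk M W 15 f772 := ckC_fk (L := [[f341, f342]])
  (fs_cons (fl_cons (by norm_num) (k341 M) (fl_cons (by norm_num) (k342 M) fl_nil))
    fs_nil) (by norm_num) c772

theorem k375 : Fk M W 15 f375 := ckX_fk hW (L := [[f195, f196, f197, f198, f199, f610, f772, f773, f800, f801, f802]])
  (fs_cons (fl_cons (by norm_num) (k195 M) (fl_cons (by norm_num) (k196 M) (fl_cons (by norm_num) (k197 M) (fl_cons (by norm_num) (k198 M) (fl_cons (by norm_num) (k199 M) (fl_cons (by norm_num) (k610 M) (fl_cons (by norm_num) (k772 M) (fl_cons (by norm_num) (k773 M) (fl_cons (by norm_num) (k800 M) (fl_cons (by norm_num) (k801 M) (fl_cons (by norm_num) (k802 M) fl_nil)))))))))))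
    fs_nil) (by norm_num) x375

theorem k608 : Fk M W 15 f608 := ckC_fk (L := [[f607, f375]])
  (fs_cons (fl_cons (by norm_num) (k607 M) (fl_cons (by norm_num) (k375 M) fl_nil))
    fs_nil) (by norm_num) c608

theorem k609 : Fk M W 15 f609 := ckC_fk (L := [[f608, f374]])
  (fs_cons (fl_cons (by norm_num) (k608 M) (fl_cons (by norm_num) (k374 M) fl_nil))
    fs_nil) (by norm_num) c609

theorem k615 : Fk M W 15 f615 := ckC_fk (L := [[f205, f206]])
  (fs_cons (fl_cons (by norm_num) (k205 M) (fl_cons (by norm_num) (k206 M) fl_nil))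
    fs_nil) (by norm_num) c615

theorem k616 : Fk M W 15 f616 := ckC_fk (L := [[f615, f205]])
  (fs_cons (fl_cons (by norm_num) (k615 M) (fl_cons (by norm_num) (k205 M) fl_nil))
    fs_nil) (by norm_num) c616

theorem k620 : Fk M W 15 f620 := ckC_fk (L := [[f206, f205]])
  (fs_cons (fl_cons (by norm_num) (k206 M) (fl_cons (by norm_num) (k205 M) fl_nil))
    fs_nil) (by norm_num) c620

theorem k621 : Fk M W 15 f621 := ckC_fk (L := [[f620, f203]])
  (fs_cons (fl_cons (by norm_num) (k620 M) (fl_cons (by norm_num) (k203 M) fl_nil))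
    fs_nil) (by norm_num) c621

theorem k622 : Fk M W 15 f622 := ckC_fk (L := [[f620, f206]])
  (fs_cons (fl_cons (by norm_num) (k620 M) (fl_cons (by norm_num) (k206 M) fl_nil))
    fs_nil) (by norm_num) c622

theorem g33 : ∀ u, Gd (M.cg 14 (W 33).k) (sy M W 33 bl33) (gS S33 u) :=
  chBT_spec hW (n := 14) (L := L33) (fs_cons (fl_cons (by norm_num) (k52 M) (fl_cons (by norm_num) (k53 M) (fl_cons (by norm_num) (k54 M) (fl_cons (by norm_num) (k61 M) (fl_cons (by norm_num) (k62 M) (fl_cons (by norm_num) (k63 M) (fl_cons (by norm_num) (k64 M) (fl_cons (by norm_num) (k65 M) (fl_cons (by norm_num) (k166 M) (fl_cons (by norm_num) (k167 M) (fl_cons (by norm_num) (k168 M) (fl_cons (by norm_num) (k173 M) (fl_cons (by norm_num) (k174 M) (fl_cons (by norm_num) (k175 M) (fl_cons (by norm_num) (k183 M) (fl_cons (by norm_num) (k184 M) fl_nil))))))))))))))))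
    (fs_cons (fl_cons (by norm_num) (k185 M) (fl_cons (by norm_num) (k190 M) (fl_cons (by norm_num) (k191 M) (fl_cons (by norm_num) (k192 M) (fl_cons (by norm_num) (k193 M) (fl_cons (by norm_num) (k199 M) (fl_cons (by norm_num) (k204 M) (fl_cons (by norm_num) (k205 M) (fl_cons (by norm_num) (k206 M) (fl_cons (by norm_num) (k337 M) (fl_cons (by norm_num) (k338 M) (fl_cons (by norm_num) (k342 M) (fl_cons (by norm_num) (k348 M) (fl_cons (by norm_num) (k349 M) (fl_cons (by norm_num) (k350 M) (fl_cons (by norm_num) (k353 M) fl_nil))))))))))))))))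
    (fs_cons (fl_cons (by norm_num) (k355 M) (fl_cons (by norm_num) (k375 M) (fl_cons (by norm_num) (k606 M) (fl_cons (by norm_num) (k607 M) (fl_cons (by norm_num) (k609 M) (fl_cons (by norm_num) (k615 M) (fl_cons (by norm_num) (k616 M) (fl_cons (by norm_num) (k620 M) (fl_cons (by norm_num) (k621 M) (fl_cons (by norm_num) (k622 M) fl_nil))))))))))
    fs_nil))) (by norm_num) o33 b33

theorem k70 : Fk M W 14 f70 := chT_fk (n := 14) (a := 0) o33 (List.mem_of_getElem? (i := 11) rfl)
  (by norm_num) (by norm_num) (g33 M) t70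

theorem k71 : Fk M W 14 f71 := chT_fk (n := 14) (a := 0) o33 (List.mem_of_getElem? (i := 10) rfl)
  (by norm_num) (by norm_num) (g33 M) t71

theorem k72 : Fk M W 14 f72 := chT_fk (n := 14) (a := 0) o33 (List.mem_of_getElem? (i := 9) rfl)
  (by norm_num) (by norm_num) (g33 M) t72

theorem k73 : Fk M W 14 f73 := chT_fk (n := 14) (a := 0) o36 (List.mem_of_getElem? (i := 4) rfl)
  (by norm_num) (by norm_num) (g36 M) t73

theorem k74 : Fk M W 14 f74 := chT_fk (n := 14) (a := 0) o36 (List.mem_of_getElem? (i := 5) rfl)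
  (by norm_num) (by norm_num) (g36 M) t74

theorem g31 : ∀ u, Gd (M.cg 14 (W 31).k) (sy M W 31 bl31) (gS S31 u) :=
  chBT_spec hW (n := 14) (L := L31) (fs_cons (fl_cons (by norm_num) (k57 M) (fl_cons (by norm_num) (k59 M) fl_nil))
    fs_nil) (by norm_num) o31 b31

theorem k75 : Fk M W 14 f75 := chT_fk (n := 14) (a := 0) o31 (List.mem_of_getElem? (i := 0) rfl)
  (by norm_num) (by norm_num) (g31 M) t75

theorem k512 : Fk M W 15 f512 := ckC_fk (L := [[f67, f64]])
  (fs_cons (fl_cons (by norm_num) (k67 M) (fl_cons (by norm_num) (k64 M) fl_nil))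
    fs_nil) (by norm_num) c512

theorem k507 : Fk M W 15 f507 := ckC_fk (L := [[f58, f59]])
  (fs_cons (fl_cons (by norm_num) (k58 M) (fl_cons (by norm_num) (k59 M) fl_nil))
    fs_nil) (by norm_num) c507

theorem k76 : Fk M W 15 f76 := ckX_fk hW (L := [[f507, f512]])
  (fs_cons (fl_cons (by norm_num) (k507 M) (fl_cons (by norm_num) (k512 M) fl_nil))
    fs_nil) (by norm_num) x76

theorem k210 : Fk M W 14 f210 := chT_fk (n := 14) (a := 0) o33 (List.mem_of_getElem? (i := 12) rfl)
  (by norm_num) (by norm_num) (g33 M) t210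

theorem k617 : Fk M W 14 f617 := ckC_fk (L := [[f205, f210]])
  (fs_cons (fl_cons (by norm_num) (k205 M) (fl_cons (by norm_num) (k210 M) fl_nil))
    fs_nil) (by norm_num) c617

theorem k217 : Fk M W 14 f217 := chT_fk (n := 14) (a := 0) o33 (List.mem_of_getElem? (i := 6) rfl)
  (by norm_num) (by norm_num) (g33 M) t217

theorem k631 : Fk M W 14 f631 := ckC_fk (L := [[f222, f217]])
  (fs_cons (fl_cons (by norm_num) (k222 M) (fl_cons (by norm_num) (k217 M) fl_nil))
    fs_nil) (by norm_num) c631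

theorem k219 : Fk M W 14 f219 := chT_fk (n := 14) (a := 0) o33 (List.mem_of_getElem? (i := 8) rfl)
  (by norm_num) (by norm_num) (g33 M) t219

theorem k632 : Fk M W 14 f632 := ckC_fk (L := [[f222, f219]])
  (fs_cons (fl_cons (by norm_num) (k222 M) (fl_cons (by norm_num) (k219 M) fl_nil))
    fs_nil) (by norm_num) c632

theorem k239 : Fk M W 14 f239 := ckX_fk hW (L := [[f70, f71, f72, f617, f631, f632]])
  (fs_cons (fl_cons (by norm_num) (k70 M) (fl_cons (by norm_num) (k71 M) (fl_cons (by norm_num) (k72 M) (fl_cons (by norm_num) (k617 M) (fl_cons (by norm_num) (k631 M) (fl_cons (by norm_num) (k632 M) fl_nil))))))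
    fs_nil) (by norm_num) x239

theorem k515 : Fk M W 14 f515 := ckC_fk (L := [[f72, f239]])
  (fs_cons (fl_cons (by norm_num) (k72 M) (fl_cons (by norm_num) (k239 M) fl_nil))
    fs_nil) (by norm_num) c515

theorem k822 : Fk M W 15 f822 := ckC_fk (L := [[f374, f373]])
  (fs_cons (fl_cons (by norm_num) (k374 M) (fl_cons (by norm_num) (k373 M) fl_nil))
    fs_nil) (by norm_num) c822

theorem k823 : Fk M W 15 f823 := ckC_fk (L := [[f822, f375]])
  (fs_cons (fl_cons (by norm_num) (k822 M) (fl_cons (by norm_num) (k375 M) fl_nil))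
    fs_nil) (by norm_num) c823

theorem k824 : Fk M W 15 f824 := ckC_fk (L := [[f823, f374]])
  (fs_cons (fl_cons (by norm_num) (k823 M) (fl_cons (by norm_num) (k374 M) fl_nil))
    fs_nil) (by norm_num) c824

theorem k370 : Fk M W 14 f370 := chT_fk (n := 14) (a := 0) o33 (List.mem_of_getElem? (i := 5) rfl)
  (by norm_num) (by norm_num) (g33 M) t370

theorem k825 : Fk M W 14 f825 := ckC_fk (L := [[f824, f370]])
  (fs_cons (fl_cons (by norm_num) (k824 M) (fl_cons (by norm_num) (k370 M) fl_nil))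
    fs_nil) (by norm_num) c825

theorem k826 : Fk M W 15 f826 := ckC_fk (L := [[f374, f375]])
  (fs_cons (fl_cons (by norm_num) (k374 M) (fl_cons (by norm_num) (k375 M) fl_nil))
    fs_nil) (by norm_num) c826

theorem k372 : Fk M W 14 f372 := chT_fk (n := 14) (a := 0) o33 (List.mem_of_getElem? (i := 3) rfl)
  (by norm_num) (by norm_num) (g33 M) t372

theorem k827 : Fk M W 14 f827 := ckC_fk (L := [[f826, f372]])
  (fs_cons (fl_cons (by norm_num) (k826 M) (fl_cons (by norm_num) (k372 M) fl_nil))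
    fs_nil) (by norm_num) c827

theorem k833 : Fk M W 15 f833 := ckC_fk (L := [[f375, f374]])
  (fs_cons (fl_cons (by norm_num) (k375 M) (fl_cons (by norm_num) (k374 M) fl_nil))
    fs_nil) (by norm_num) c833

theorem k834 : Fk M W 14 f834 := ckC_fk (L := [[f833, f372]])
  (fs_cons (fl_cons (by norm_num) (k833 M) (fl_cons (by norm_num) (k372 M) fl_nil))
    fs_nil) (by norm_num) c834

theorem k207 : Fk M W 14 f207 := chT_fk (n := 14) (a := 0) o33 (List.mem_of_getElem? (i := 0) rfl)
  (by norm_num) (by norm_num) (g33 M) t207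

theorem k208 : Fk M W 14 f208 := chT_fk (n := 14) (a := 0) o33 (List.mem_of_getElem? (i := 1) rfl)
  (by norm_num) (by norm_num) (g33 M) t208

theorem k209 : Fk M W 14 f209 := chT_fk (n := 14) (a := 0) o33 (List.mem_of_getElem? (i := 2) rfl)
  (by norm_num) (by norm_num) (g33 M) t209

theorem k623 : Fk M W 14 f623 := ckC_fk (L := [[f206, f210]])
  (fs_cons (fl_cons (by norm_num) (k206 M) (fl_cons (by norm_num) (k210 M) fl_nil))
    fs_nil) (by norm_num) c623

theorem k218 : Fk M W 14 f218 := chT_fk (n := 14) (a := 0) o33 (List.mem_of_getElem? (i := 7) rfl)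
  (by norm_num) (by norm_num) (g33 M) t218

theorem k636 : Fk M W 14 f636 := ckC_fk (L := [[f223, f218]])
  (fs_cons (fl_cons (by norm_num) (k223 M) (fl_cons (by norm_num) (k218 M) fl_nil))
    fs_nil) (by norm_num) c636

theorem k637 : Fk M W 14 f637 := ckC_fk (L := [[f223, f219]])
  (fs_cons (fl_cons (by norm_num) (k223 M) (fl_cons (by norm_num) (k219 M) fl_nil))
    fs_nil) (by norm_num) c637

theorem k240 : Fk M W 14 f240 := ckX_fk hW (L := [[f70, f71, f72, f623, f636, f637]])
  (fs_cons (fl_cons (by norm_num) (k70 M) (fl_cons (by norm_num) (k71 M) (fl_cons (by norm_num) (k72 M) (fl_cons (by norm_num) (k623 M) (fl_cons (by norm_num) (k636 M) (fl_cons (by norm_num) (k637 M) fl_nil))))))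
    fs_nil) (by norm_num) x240

theorem g35 : ∀ u, Gd (M.cg 14 (W 35).k) (sy M W 35 bl35) (gS S35 u) :=
  chBT_spec hW (n := 14) (L := L35) (fs_cons (fl_cons (by norm_num) (k59 M) (fl_cons (by norm_num) (k60 M) (fl_cons (by norm_num) (k64 M) (fl_cons (by norm_num) (k69 M) (fl_cons (by norm_num) (k72 M) (fl_cons (by norm_num) (k76 M) (fl_cons (by norm_num) (k203 M) (fl_cons (by norm_num) (k204 M) (fl_cons (by norm_num) (k207 M) (fl_cons (by norm_num) (k208 M) (fl_cons (by norm_num) (k209 M) (fl_cons (by norm_num) (k210 M) (fl_cons (by norm_num) (k217 M) (fl_cons (by norm_num) (k220 M) (fl_cons (by norm_num) (k221 M) (fl_cons (by norm_num) (k240 M) fl_nil))))))))))))))))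
    (fs_cons (fl_cons (by norm_num) (k370 M) (fl_cons (by norm_num) (k372 M) (fl_cons (by norm_num) (k515 M) (fl_cons (by norm_num) (k825 M) (fl_cons (by norm_num) (k827 M) (fl_cons (by norm_num) (k834 M) fl_nil))))))
    fs_nil)) (by norm_num) o35 b35

theorem k77 : Fk M W 14 f77 := chT_fk (n := 14) (a := 0) o35 (List.mem_of_getElem? (i := 2) rfl)
  (by norm_num) (by norm_num) (g35 M) t77

theorem k78 : Fk M W 14 f78 := chT_fk (n := 14) (a := 0) o35 (List.mem_of_getElem? (i := 5) rfl)
  (by norm_num) (by norm_num) (g35 M) t78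

theorem k82 : Fk M W 14 f82 := chT_fk (n := 14) (a := 0) o35 (List.mem_of_getElem? (i := 3) rfl)
  (by norm_num) (by norm_num) (g35 M) t82

theorem k83 : Fk M W 14 f83 := chT_fk (n := 14) (a := 0) o35 (List.mem_of_getElem? (i := 4) rfl)
  (by norm_num) (by norm_num) (g35 M) t83

theorem k516 : Fk M W 14 f516 := ckC_fk (L := [[f515, f240]])
  (fs_cons (fl_cons (by norm_num) (k515 M) (fl_cons (by norm_num) (k240 M) fl_nil))
    fs_nil) (by norm_num) c516

theorem k517 : Fk M W 14 f517 := ckC_fk (L := [[f516, f239]])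
  (fs_cons (fl_cons (by norm_num) (k516 M) (fl_cons (by norm_num) (k239 M) fl_nil))
    fs_nil) (by norm_num) c517

theorem k518 : Fk M W 14 f518 := ckC_fk (L := [[f76, f70]])
  (fs_cons (fl_cons (by norm_num) (k76 M) (fl_cons (by norm_num) (k70 M) fl_nil))
    fs_nil) (by norm_num) c518

theorem k828 : Fk M W 15 f828 := ckC_fk (L := [[f826, f374]])
  (fs_cons (fl_cons (by norm_num) (k826 M) (fl_cons (by norm_num) (k374 M) fl_nil))
    fs_nil) (by norm_num) c828

theorem k829 : Fk M W 15 f829 := ckC_fk (L := [[f828, f373]])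
  (fs_cons (fl_cons (by norm_num) (k828 M) (fl_cons (by norm_num) (k373 M) fl_nil))
    fs_nil) (by norm_num) c829

theorem k343 : Fk M W 15 f343 := chT_fk (n := 15) (a := 0) o29 (List.mem_of_getElem? (i := 4) rfl)
  (by norm_num) (by norm_num) (g29 M) t343

theorem k835 : Fk M W 15 f835 := ckC_fk (L := [[f833, f373]])
  (fs_cons (fl_cons (by norm_num) (k833 M) (fl_cons (by norm_num) (k373 M) fl_nil))
    fs_nil) (by norm_num) c835

theorem k836 : Fk M W 15 f836 := ckC_fk (L := [[f835, f375]])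
  (fs_cons (fl_cons (by norm_num) (k835 M) (fl_cons (by norm_num) (k375 M) fl_nil))
    fs_nil) (by norm_num) c836

theorem k837 : Fk M W 15 f837 := ckC_fk (L := [[f836, f374]])
  (fs_cons (fl_cons (by norm_num) (k836 M) (fl_cons (by norm_num) (k374 M) fl_nil))
    fs_nil) (by norm_num) c837

theorem k838 : Fk M W 15 f838 := ckC_fk (L := [[f833, f375]])
  (fs_cons (fl_cons (by norm_num) (k833 M) (fl_cons (by norm_num) (k375 M) fl_nil))
    fs_nil) (by norm_num) c838

theorem k839 : Fk M W 15 f839 := ckC_fk (L := [[f838, f374]])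
  (fs_cons (fl_cons (by norm_num) (k838 M) (fl_cons (by norm_num) (k374 M) fl_nil))
    fs_nil) (by norm_num) c839

theorem k840 : Fk M W 15 f840 := ckC_fk (L := [[f839, f373]])
  (fs_cons (fl_cons (by norm_num) (k839 M) (fl_cons (by norm_num) (k373 M) fl_nil))
    fs_nil) (by norm_num) c840

theorem k344 : Fk M W 15 f344 := chT_fk (n := 15) (a := 0) o29 (List.mem_of_getElem? (i := 3) rfl)
  (by norm_num) (by norm_num) (g29 M) t344

theorem k345 : Fk M W 15 f345 := chT_fk (n := 15) (a := 0) o29 (List.mem_of_getElem? (i := 2) rfl)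
  (by norm_num) (by norm_num) (g29 M) t345

theorem k346 : Fk M W 15 f346 := chT_fk (n := 15) (a := 0) o29 (List.mem_of_getElem? (i := 1) rfl)
  (by norm_num) (by norm_num) (g29 M) t346

theorem k347 : Fk M W 15 f347 := chT_fk (n := 15) (a := 0) o29 (List.mem_of_getElem? (i := 0) rfl)
  (by norm_num) (by norm_num) (g29 M) t347

theorem g37 : ∀ u, Gd (M.cg 14 (W 37).k) (sy M W 37 bl37) (gS S37 u) :=
  chBT_spec hW (n := 14) (L := L37) (fs_cons (fl_cons (by norm_num) (k72 M) (fl_cons (by norm_num) (k194 M) (fl_cons (by norm_num) (k195 M) (fl_cons (by norm_num) (k196 M) (fl_cons (by norm_num) (k197 M) (fl_cons (by norm_num) (k198 M) (fl_cons (by norm_num) (k199 M) (fl_cons (by norm_num) (k207 M) (fl_cons (by norm_num) (k208 M) (fl_cons (by norm_num) (k209 M) (fl_cons (by norm_num) (k210 M) (fl_cons (by norm_num) (k211 M) (fl_cons (by norm_num) (k212 M) (fl_cons (by norm_num) (k213 M) (fl_cons (by norm_num) (k214 M) (fl_cons (by norm_num) (k215 M) fl_nil))))))))))))))))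
    (fs_cons (fl_cons (by norm_num) (k216 M) (fl_cons (by norm_num) (k217 M) (fl_cons (by norm_num) (k218 M) (fl_cons (by norm_num) (k219 M) (fl_cons (by norm_num) (k333 M) (fl_cons (by norm_num) (k334 M) (fl_cons (by norm_num) (k335 M) (fl_cons (by norm_num) (k336 M) (fl_cons (by norm_num) (k342 M) (fl_cons (by norm_num) (k343 M) (fl_cons (by norm_num) (k344 M) (fl_cons (by norm_num) (k345 M) (fl_cons (by norm_num) (k346 M) (fl_cons (by norm_num) (k347 M) (fl_cons (by norm_num) (k348 M) (fl_cons (by norm_num) (k349 M) fl_nil))))))))))))))))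
    (fs_cons (fl_cons (by norm_num) (k350 M) (fl_cons (by norm_num) (k351 M) (fl_cons (by norm_num) (k352 M) (fl_cons (by norm_num) (k359 M) (fl_cons (by norm_num) (k360 M) (fl_cons (by norm_num) (k361 M) (fl_cons (by norm_num) (k362 M) (fl_cons (by norm_num) (k363 M) (fl_cons (by norm_num) (k364 M) (fl_cons (by norm_num) (k365 M) (fl_cons (by norm_num) (k372 M) (fl_cons (by norm_num) (k374 M) (fl_cons (by norm_num) (k375 M) (fl_cons (by norm_num) (k515 M) (fl_cons (by norm_num) (k516 M) (fl_cons (by norm_num) (k517 M) fl_nil))))))))))))))))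
    (fs_cons (fl_cons (by norm_num) (k518 M) (fl_cons (by norm_num) (k822 M) (fl_cons (by norm_num) (k824 M) (fl_cons (by norm_num) (k826 M) (fl_cons (by norm_num) (k829 M) (fl_cons (by norm_num) (k833 M) (fl_cons (by norm_num) (k835 M) (fl_cons (by norm_num) (k837 M) (fl_cons (by norm_num) (k838 M) (fl_cons (by norm_num) (k840 M) fl_nil))))))))))
    fs_nil)))) (by norm_num) o37 b37

theorem k384 : Fk M W 14 f384 := chT_fk (n := 14) (a := 0) o37 (List.mem_of_getElem? (i := 7) rfl)
  (by norm_num) (by norm_num) (g37 M) t384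

theorem k233 : Fk M W 14 f233 := chT_fk (n := 14) (a := 0) o37 (List.mem_of_getElem? (i := 11) rfl)
  (by norm_num) (by norm_num) (g37 M) t233

theorem k228 : Fk M W 14 f228 := chT_fk (n := 14) (a := 0) o37 (List.mem_of_getElem? (i := 16) rfl)
  (by norm_num) (by norm_num) (g37 M) t228

theorem k229 : Fk M W 14 f229 := chT_fk (n := 14) (a := 0) o37 (List.mem_of_getElem? (i := 15) rfl)
  (by norm_num) (by norm_num) (g37 M) t229

theorem k231 : Fk M W 14 f231 := chT_fk (n := 14) (a := 0) o37 (List.mem_of_getElem? (i := 13) rfl)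
  (by norm_num) (by norm_num) (g37 M) t231

theorem k230 : Fk M W 14 f230 := chT_fk (n := 14) (a := 0) o37 (List.mem_of_getElem? (i := 14) rfl)
  (by norm_num) (by norm_num) (g37 M) t230

theorem k648 : Fk M W 14 f648 := ckC_fk (L := [[f239, f230]])
  (fs_cons (fl_cons (by norm_num) (k239 M) (fl_cons (by norm_num) (k230 M) fl_nil))
    fs_nil) (by norm_num) c648

theorem k232 : Fk M W 14 f232 := chT_fk (n := 14) (a := 0) o37 (List.mem_of_getElem? (i := 12) rfl)
  (by norm_num) (by norm_num) (g37 M) t232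

theorem k404 : Fk M W 14 f404 := ckX_fk hW (L := [[f228, f229, f231, f232, f233, f648]])
  (fs_cons (fl_cons (by norm_num) (k228 M) (fl_cons (by norm_num) (k229 M) (fl_cons (by norm_num) (k231 M) (fl_cons (by norm_num) (k232 M) (fl_cons (by norm_num) (k233 M) (fl_cons (by norm_num) (k648 M) fl_nil))))))
    fs_nil) (by norm_num) x404

theorem k642 : Fk M W 14 f642 := ckC_fk (L := [[f233, f404]])
  (fs_cons (fl_cons (by norm_num) (k233 M) (fl_cons (by norm_num) (k404 M) fl_nil))
    fs_nil) (by norm_num) c642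

theorem k403 : Fk M W 14 f403 := ckX_fk hW (L := [[f228, f229, f230, f231, f232]])
  (fs_cons (fl_cons (by norm_num) (k228 M) (fl_cons (by norm_num) (k229 M) (fl_cons (by norm_num) (k230 M) (fl_cons (by norm_num) (k231 M) (fl_cons (by norm_num) (k232 M) fl_nil)))))
    fs_nil) (by norm_num) x403

theorem k643 : Fk M W 14 f643 := ckC_fk (L := [[f642, f403]])
  (fs_cons (fl_cons (by norm_num) (k642 M) (fl_cons (by norm_num) (k403 M) fl_nil))
    fs_nil) (by norm_num) c643

theorem k389 : Fk M W 14 f389 := chT_fk (n := 14) (a := 0) o34 (List.mem_of_getElem? (i := 3) rfl)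
  (by norm_num) (by norm_num) (g34 M) t389

theorem k647 : Fk M W 14 f647 := ckC_fk (L := [[f239, f228]])
  (fs_cons (fl_cons (by norm_num) (k239 M) (fl_cons (by norm_num) (k228 M) fl_nil))
    fs_nil) (by norm_num) c647

theorem k382 : Fk M W 14 f382 := chT_fk (n := 14) (a := 0) o37 (List.mem_of_getElem? (i := 10) rfl)
  (by norm_num) (by norm_num) (g37 M) t382

theorem k841 : Fk M W 14 f841 := ckC_fk (L := [[f375, f382]])
  (fs_cons (fl_cons (by norm_num) (k375 M) (fl_cons (by norm_num) (k382 M) fl_nil))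
    fs_nil) (by norm_num) c841

theorem k385 : Fk M W 14 f385 := chT_fk (n := 14) (a := 0) o37 (List.mem_of_getElem? (i := 8) rfl)
  (by norm_num) (by norm_num) (g37 M) t385

theorem k861 : Fk M W 14 f861 := ckC_fk (L := [[f392, f385]])
  (fs_cons (fl_cons (by norm_num) (k392 M) (fl_cons (by norm_num) (k385 M) fl_nil))
    fs_nil) (by norm_num) c861

theorem k386 : Fk M W 14 f386 := chT_fk (n := 14) (a := 0) o37 (List.mem_of_getElem? (i := 9) rfl)
  (by norm_num) (by norm_num) (g37 M) t386

theorem k862 : Fk M W 14 f862 := ckC_fk (L := [[f392, f386]])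
  (fs_cons (fl_cons (by norm_num) (k392 M) (fl_cons (by norm_num) (k386 M) fl_nil))
    fs_nil) (by norm_num) c862

theorem k405 : Fk M W 14 f405 := ckX_fk hW (L := [[f229, f230, f231, f232, f233, f647, f841, f861, f862]])
  (fs_cons (fl_cons (by norm_num) (k229 M) (fl_cons (by norm_num) (k230 M) (fl_cons (by norm_num) (k231 M) (fl_cons (by norm_num) (k232 M) (fl_cons (by norm_num) (k233 M) (fl_cons (by norm_num) (k647 M) (fl_cons (by norm_num) (k841 M) (fl_cons (by norm_num) (k861 M) (fl_cons (by norm_num) (k862 M) fl_nil)))))))))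
    fs_nil) (by norm_num) x405

theorem k644 : Fk M W 14 f644 := ckC_fk (L := [[f643, f405]])
  (fs_cons (fl_cons (by norm_num) (k643 M) (fl_cons (by norm_num) (k405 M) fl_nil))
    fs_nil) (by norm_num) c644

theorem k645 : Fk M W 14 f645 := ckC_fk (L := [[f644, f404]])
  (fs_cons (fl_cons (by norm_num) (k644 M) (fl_cons (by norm_num) (k404 M) fl_nil))
    fs_nil) (by norm_num) c645

theorem k646 : Fk M W 14 f646 := ckC_fk (L := [[f645, f403]])
  (fs_cons (fl_cons (by norm_num) (k645 M) (fl_cons (by norm_num) (k403 M) fl_nil))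
    fs_nil) (by norm_num) c646

theorem k649 : Fk M W 14 f649 := ckC_fk (L := [[f239, f240]])
  (fs_cons (fl_cons (by norm_num) (k239 M) (fl_cons (by norm_num) (k240 M) fl_nil))
    fs_nil) (by norm_num) c649

theorem k650 : Fk M W 14 f650 := ckC_fk (L := [[f649, f239]])
  (fs_cons (fl_cons (by norm_num) (k649 M) (fl_cons (by norm_num) (k239 M) fl_nil))
    fs_nil) (by norm_num) c650

theorem k653 : Fk M W 14 f653 := ckC_fk (L := [[f240, f239]])
  (fs_cons (fl_cons (by norm_num) (k240 M) (fl_cons (by norm_num) (k239 M) fl_nil))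
    fs_nil) (by norm_num) c653

theorem k237 : Fk M W 14 f237 := chT_fk (n := 14) (a := 0) o35 (List.mem_of_getElem? (i := 0) rfl)
  (by norm_num) (by norm_num) (g35 M) t237

theorem k654 : Fk M W 14 f654 := ckC_fk (L := [[f653, f237]])
  (fs_cons (fl_cons (by norm_num) (k653 M) (fl_cons (by norm_num) (k237 M) fl_nil))
    fs_nil) (by norm_num) c654

theorem k655 : Fk M W 14 f655 := ckC_fk (L := [[f653, f240]])
  (fs_cons (fl_cons (by norm_num) (k653 M) (fl_cons (by norm_num) (k240 M) fl_nil))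
    fs_nil) (by norm_num) c655

theorem k224 : Fk M W 14 f224 := chT_fk (n := 14) (a := 0) o34 (List.mem_of_getElem? (i := 0) rfl)
  (by norm_num) (by norm_num) (g34 M) t224

theorem k225 : Fk M W 14 f225 := chT_fk (n := 14) (a := 0) o34 (List.mem_of_getElem? (i := 1) rfl)
  (by norm_num) (by norm_num) (g34 M) t225

theorem k226 : Fk M W 14 f226 := chT_fk (n := 14) (a := 0) o34 (List.mem_of_getElem? (i := 2) rfl)
  (by norm_num) (by norm_num) (g34 M) t226

theorem k238 : Fk M W 14 f238 := chT_fk (n := 14) (a := 0) o35 (List.mem_of_getElem? (i := 1) rfl)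
  (by norm_num) (by norm_num) (g35 M) t238

theorem k371 : Fk M W 14 f371 := chT_fk (n := 14) (a := 0) o33 (List.mem_of_getElem? (i := 4) rfl)
  (by norm_num) (by norm_num) (g33 M) t371

theorem k376 : Fk M W 14 f376 := chT_fk (n := 14) (a := 0) o37 (List.mem_of_getElem? (i := 5) rfl)
  (by norm_num) (by norm_num) (g37 M) t376

theorem k379 : Fk M W 14 f379 := chT_fk (n := 14) (a := 0) o37 (List.mem_of_getElem? (i := 2) rfl)
  (by norm_num) (by norm_num) (g37 M) t379

theorem k380 : Fk M W 14 f380 := chT_fk (n := 14) (a := 0) o37 (List.mem_of_getElem? (i := 1) rfl)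
  (by norm_num) (by norm_num) (g37 M) t380

theorem k381 : Fk M W 14 f381 := chT_fk (n := 14) (a := 0) o37 (List.mem_of_getElem? (i := 0) rfl)
  (by norm_num) (by norm_num) (g37 M) t381

theorem k383 : Fk M W 14 f383 := chT_fk (n := 14) (a := 0) o37 (List.mem_of_getElem? (i := 6) rfl)
  (by norm_num) (by norm_num) (g37 M) t383

theorem g41 : ∀ u, Gd (M.cg 14 (W 41).k) (sy M W 41 bl41) (gS S41 u) :=
  chBT_spec hW (n := 14) (L := L41) (fs_cons (fl_cons (by norm_num) (k70 M) (fl_cons (by norm_num) (k71 M) (fl_cons (by norm_num) (k72 M) (fl_cons (by norm_num) (k79 M) (fl_cons (by norm_num) (k80 M) (fl_cons (by norm_num) (k81 M) (fl_cons (by norm_num) (k82 M) (fl_cons (by norm_num) (k83 M) (fl_cons (by norm_num) (k200 M) (fl_cons (by norm_num) (k201 M) (fl_cons (by norm_num) (k202 M) (fl_cons (by norm_num) (k207 M) (fl_cons (by norm_num) (k208 M) (fl_cons (by norm_num) (k209 M) (fl_cons (by norm_num) (k210 M) (fl_cons (by norm_num) (k217 M) fl_nil))))))))))))))))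
    (fs_cons (fl_cons (by norm_num) (k218 M) (fl_cons (by norm_num) (k219 M) (fl_cons (by norm_num) (k224 M) (fl_cons (by norm_num) (k225 M) (fl_cons (by norm_num) (k226 M) (fl_cons (by norm_num) (k227 M) (fl_cons (by norm_num) (k233 M) (fl_cons (by norm_num) (k238 M) (fl_cons (by norm_num) (k239 M) (fl_cons (by norm_num) (k240 M) (fl_cons (by norm_num) (k370 M) (fl_cons (by norm_num) (k371 M) (fl_cons (by norm_num) (k372 M) (fl_cons (by norm_num) (k376 M) (fl_cons (by norm_num) (k379 M) (fl_cons (by norm_num) (k380 M) fl_nil))))))))))))))))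
    (fs_cons (fl_cons (by norm_num) (k381 M) (fl_cons (by norm_num) (k382 M) (fl_cons (by norm_num) (k383 M) (fl_cons (by norm_num) (k384 M) (fl_cons (by norm_num) (k387 M) (fl_cons (by norm_num) (k389 M) (fl_cons (by norm_num) (k405 M) (fl_cons (by norm_num) (k642 M) (fl_cons (by norm_num) (k643 M) (fl_cons (by norm_num) (k645 M) (fl_cons (by norm_num) (k646 M) (fl_cons (by norm_num) (k649 M) (fl_cons (by norm_num) (k650 M) (fl_cons (by norm_num) (k653 M) (fl_cons (by norm_num) (k654 M) (fl_cons (by norm_num) (k655 M) fl_nil))))))))))))))))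
    fs_nil))) (by norm_num) o41 b41

theorem k88 : Fk M W 14 f88 := chT_fk (n := 14) (a := 0) o41 (List.mem_of_getElem? (i := 11) rfl)
  (by norm_num) (by norm_num) (g41 M) t88

theorem k89 : Fk M W 14 f89 := chT_fk (n := 14) (a := 0) o41 (List.mem_of_getElem? (i := 10) rfl)
  (by norm_num) (by norm_num) (g41 M) t89

theorem k90 : Fk M W 14 f90 := chT_fk (n := 14) (a := 0) o41 (List.mem_of_getElem? (i := 9) rfl)
  (by norm_num) (by norm_num) (g41 M) t90

theorem k101 : Fk M W 14 f101 := chT_fk (n := 14) (a := 0) o40 (List.mem_of_getElem? (i := 0) rfl)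
  (by norm_num) (by norm_num) (g40 M) t101

theorem k519 : Fk M W 14 f519 := ckC_fk (L := [[f76, f73]])
  (fs_cons (fl_cons (by norm_num) (k76 M) (fl_cons (by norm_num) (k73 M) fl_nil))
    fs_nil) (by norm_num) c519

theorem k526 : Fk M W 14 f526 := ckC_fk (L := [[f85, f86]])
  (fs_cons (fl_cons (by norm_num) (k85 M) (fl_cons (by norm_num) (k86 M) fl_nil))
    fs_nil) (by norm_num) c526

theorem k527 : Fk M W 14 f527 := ckC_fk (L := [[f85, f87]])
  (fs_cons (fl_cons (by norm_num) (k85 M) (fl_cons (by norm_num) (k87 M) fl_nil))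
    fs_nil) (by norm_num) c527

theorem k102 : Fk M W 14 f102 := ckX_fk hW (L := [[f519, f526, f527]])
  (fs_cons (fl_cons (by norm_num) (k519 M) (fl_cons (by norm_num) (k526 M) (fl_cons (by norm_num) (k527 M) fl_nil)))
    fs_nil) (by norm_num) x102

theorem k522 : Fk M W 14 f522 := ckC_fk (L := [[f521, f257]])
  (fs_cons (fl_cons (by norm_num) (k521 M) (fl_cons (by norm_num) (k257 M) fl_nil))
    fs_nil) (by norm_num) c522

theorem k523 : Fk M W 14 f523 := ckC_fk (L := [[f522, f256]])
  (fs_cons (fl_cons (by norm_num) (k522 M) (fl_cons (by norm_num) (k256 M) fl_nil))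
    fs_nil) (by norm_num) c523

theorem k524 : Fk M W 14 f524 := ckC_fk (L := [[f85, f79]])
  (fs_cons (fl_cons (by norm_num) (k85 M) (fl_cons (by norm_num) (k79 M) fl_nil))
    fs_nil) (by norm_num) c524

theorem k842 : Fk M W 14 f842 := ckC_fk (L := [[f389, f256]])
  (fs_cons (fl_cons (by norm_num) (k389 M) (fl_cons (by norm_num) (k256 M) fl_nil))
    fs_nil) (by norm_num) c842

theorem k844 : Fk M W 14 f844 := ckC_fk (L := [[f390, f391]])
  (fs_cons (fl_cons (by norm_num) (k390 M) (fl_cons (by norm_num) (k391 M) fl_nil))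
    fs_nil) (by norm_num) c844

theorem k845 : Fk M W 14 f845 := ckC_fk (L := [[f844, f390]])
  (fs_cons (fl_cons (by norm_num) (k844 M) (fl_cons (by norm_num) (k390 M) fl_nil))
    fs_nil) (by norm_num) c845

theorem k846 : Fk M W 14 f846 := ckC_fk (L := [[f845, f392]])
  (fs_cons (fl_cons (by norm_num) (k845 M) (fl_cons (by norm_num) (k392 M) fl_nil))
    fs_nil) (by norm_num) c846

theorem k847 : Fk M W 14 f847 := ckC_fk (L := [[f846, f391]])
  (fs_cons (fl_cons (by norm_num) (k846 M) (fl_cons (by norm_num) (k391 M) fl_nil))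
    fs_nil) (by norm_num) c847

theorem k848 : Fk M W 14 f848 := ckC_fk (L := [[f844, f392]])
  (fs_cons (fl_cons (by norm_num) (k844 M) (fl_cons (by norm_num) (k392 M) fl_nil))
    fs_nil) (by norm_num) c848

theorem k849 : Fk M W 14 f849 := ckC_fk (L := [[f848, f391]])
  (fs_cons (fl_cons (by norm_num) (k848 M) (fl_cons (by norm_num) (k391 M) fl_nil))
    fs_nil) (by norm_num) c849

theorem k850 : Fk M W 14 f850 := ckC_fk (L := [[f849, f390]])
  (fs_cons (fl_cons (by norm_num) (k849 M) (fl_cons (by norm_num) (k390 M) fl_nil))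
    fs_nil) (by norm_num) c850

theorem k851 : Fk M W 14 f851 := ckC_fk (L := [[f390, f392]])
  (fs_cons (fl_cons (by norm_num) (k390 M) (fl_cons (by norm_num) (k392 M) fl_nil))
    fs_nil) (by norm_num) c851

theorem k852 : Fk M W 14 f852 := ckC_fk (L := [[f851, f391]])
  (fs_cons (fl_cons (by norm_num) (k851 M) (fl_cons (by norm_num) (k391 M) fl_nil))
    fs_nil) (by norm_num) c852

theorem k853 : Fk M W 14 f853 := ckC_fk (L := [[f852, f390]])
  (fs_cons (fl_cons (by norm_num) (k852 M) (fl_cons (by norm_num) (k390 M) fl_nil))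
    fs_nil) (by norm_num) c853

theorem k858 : Fk M W 14 f858 := ckC_fk (L := [[f391, f392]])
  (fs_cons (fl_cons (by norm_num) (k391 M) (fl_cons (by norm_num) (k392 M) fl_nil))
    fs_nil) (by norm_num) c858

theorem k859 : Fk M W 14 f859 := ckC_fk (L := [[f858, f391]])
  (fs_cons (fl_cons (by norm_num) (k858 M) (fl_cons (by norm_num) (k391 M) fl_nil))
    fs_nil) (by norm_num) c859

theorem k860 : Fk M W 14 f860 := ckC_fk (L := [[f859, f390]])
  (fs_cons (fl_cons (by norm_num) (k859 M) (fl_cons (by norm_num) (k390 M) fl_nil))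
    fs_nil) (by norm_num) c860

theorem k863 : Fk M W 14 f863 := ckC_fk (L := [[f392, f390]])
  (fs_cons (fl_cons (by norm_num) (k392 M) (fl_cons (by norm_num) (k390 M) fl_nil))
    fs_nil) (by norm_num) c863

theorem k864 : Fk M W 14 f864 := ckC_fk (L := [[f863, f391]])
  (fs_cons (fl_cons (by norm_num) (k863 M) (fl_cons (by norm_num) (k391 M) fl_nil))
    fs_nil) (by norm_num) c864

theorem k865 : Fk M W 14 f865 := ckC_fk (L := [[f864, f390]])
  (fs_cons (fl_cons (by norm_num) (k864 M) (fl_cons (by norm_num) (k390 M) fl_nil))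
    fs_nil) (by norm_num) c865

theorem k866 : Fk M W 14 f866 := ckC_fk (L := [[f865, f392]])
  (fs_cons (fl_cons (by norm_num) (k865 M) (fl_cons (by norm_num) (k392 M) fl_nil))
    fs_nil) (by norm_num) c866

theorem k867 : Fk M W 14 f867 := ckC_fk (L := [[f866, f391]])
  (fs_cons (fl_cons (by norm_num) (k866 M) (fl_cons (by norm_num) (k391 M) fl_nil))
    fs_nil) (by norm_num) c867

theorem k868 : Fk M W 14 f868 := ckC_fk (L := [[f864, f392]])
  (fs_cons (fl_cons (by norm_num) (k864 M) (fl_cons (by norm_num) (k392 M) fl_nil))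
    fs_nil) (by norm_num) c868

theorem k869 : Fk M W 14 f869 := ckC_fk (L := [[f868, f391]])
  (fs_cons (fl_cons (by norm_num) (k868 M) (fl_cons (by norm_num) (k391 M) fl_nil))
    fs_nil) (by norm_num) c869

theorem k870 : Fk M W 14 f870 := ckC_fk (L := [[f869, f390]])
  (fs_cons (fl_cons (by norm_num) (k869 M) (fl_cons (by norm_num) (k390 M) fl_nil))
    fs_nil) (by norm_num) c870

theorem k871 : Fk M W 14 f871 := ckC_fk (L := [[f863, f392]])
  (fs_cons (fl_cons (by norm_num) (k863 M) (fl_cons (by norm_num) (k392 M) fl_nil))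
    fs_nil) (by norm_num) c871

theorem k872 : Fk M W 14 f872 := ckC_fk (L := [[f871, f391]])
  (fs_cons (fl_cons (by norm_num) (k871 M) (fl_cons (by norm_num) (k391 M) fl_nil))
    fs_nil) (by norm_num) c872

theorem k873 : Fk M W 14 f873 := ckC_fk (L := [[f872, f390]])
  (fs_cons (fl_cons (by norm_num) (k872 M) (fl_cons (by norm_num) (k390 M) fl_nil))
    fs_nil) (by norm_num) c873

theorem k874 : Fk M W 14 f874 := ckC_fk (L := [[f392, f391]])
  (fs_cons (fl_cons (by norm_num) (k392 M) (fl_cons (by norm_num) (k391 M) fl_nil))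
    fs_nil) (by norm_num) c874

theorem k875 : Fk M W 14 f875 := ckC_fk (L := [[f874, f390]])
  (fs_cons (fl_cons (by norm_num) (k874 M) (fl_cons (by norm_num) (k390 M) fl_nil))
    fs_nil) (by norm_num) c875

theorem k876 : Fk M W 14 f876 := ckC_fk (L := [[f875, f392]])
  (fs_cons (fl_cons (by norm_num) (k875 M) (fl_cons (by norm_num) (k392 M) fl_nil))
    fs_nil) (by norm_num) c876

theorem k877 : Fk M W 14 f877 := ckC_fk (L := [[f876, f391]])
  (fs_cons (fl_cons (by norm_num) (k876 M) (fl_cons (by norm_num) (k391 M) fl_nil))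
    fs_nil) (by norm_num) c877

theorem k878 : Fk M W 14 f878 := ckC_fk (L := [[f874, f392]])
  (fs_cons (fl_cons (by norm_num) (k874 M) (fl_cons (by norm_num) (k392 M) fl_nil))
    fs_nil) (by norm_num) c878

theorem k879 : Fk M W 14 f879 := ckC_fk (L := [[f878, f391]])
  (fs_cons (fl_cons (by norm_num) (k878 M) (fl_cons (by norm_num) (k391 M) fl_nil))
    fs_nil) (by norm_num) c879

theorem k880 : Fk M W 14 f880 := ckC_fk (L := [[f879, f390]])
  (fs_cons (fl_cons (by norm_num) (k879 M) (fl_cons (by norm_num) (k390 M) fl_nil))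
    fs_nil) (by norm_num) c880

theorem g38 : ∀ u, Gd (M.cg 14 (W 38).k) (sy M W 38 bl38) (gS S38 u) :=
  chBT_spec hW (n := 14) (L := L38) (fs_cons (fl_cons (by norm_num) (k194 M) (fl_cons (by norm_num) (k195 M) (fl_cons (by norm_num) (k196 M) (fl_cons (by norm_num) (k197 M) (fl_cons (by norm_num) (k198 M) (fl_cons (by norm_num) (k199 M) (fl_cons (by norm_num) (k200 M) (fl_cons (by norm_num) (k201 M) (fl_cons (by norm_num) (k202 M) (fl_cons (by norm_num) (k211 M) (fl_cons (by norm_num) (k212 M) (fl_cons (by norm_num) (k213 M) (fl_cons (by norm_num) (k214 M) (fl_cons (by norm_num) (k215 M) (fl_cons (by norm_num) (k216 M) (fl_cons (by norm_num) (k224 M) fl_nil))))))))))))))))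
    (fs_cons (fl_cons (by norm_num) (k225 M) (fl_cons (by norm_num) (k226 M) (fl_cons (by norm_num) (k227 M) (fl_cons (by norm_num) (k333 M) (fl_cons (by norm_num) (k334 M) (fl_cons (by norm_num) (k335 M) (fl_cons (by norm_num) (k336 M) (fl_cons (by norm_num) (k342 M) (fl_cons (by norm_num) (k343 M) (fl_cons (by norm_num) (k344 M) (fl_cons (by norm_num) (k345 M) (fl_cons (by norm_num) (k346 M) (fl_cons (by norm_num) (k347 M) (fl_cons (by norm_num) (k348 M) (fl_cons (by norm_num) (k349 M) (fl_cons (by norm_num) (k350 M) fl_nil))))))))))))))))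
    (fs_cons (fl_cons (by norm_num) (k351 M) (fl_cons (by norm_num) (k352 M) (fl_cons (by norm_num) (k359 M) (fl_cons (by norm_num) (k360 M) (fl_cons (by norm_num) (k361 M) (fl_cons (by norm_num) (k362 M) (fl_cons (by norm_num) (k363 M) (fl_cons (by norm_num) (k364 M) (fl_cons (by norm_num) (k365 M) (fl_cons (by norm_num) (k389 M) (fl_cons (by norm_num) (k391 M) (fl_cons (by norm_num) (k392 M) (fl_cons (by norm_num) (k521 M) (fl_cons (by norm_num) (k522 M) (fl_cons (by norm_num) (k523 M) (fl_cons (by norm_num) (k524 M) fl_nil))))))))))))))))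
    (fs_cons (fl_cons (by norm_num) (k842 M) (fl_cons (by norm_num) (k847 M) (fl_cons (by norm_num) (k848 M) (fl_cons (by norm_num) (k850 M) (fl_cons (by norm_num) (k852 M) (fl_cons (by norm_num) (k853 M) (fl_cons (by norm_num) (k854 M) (fl_cons (by norm_num) (k856 M) (fl_cons (by norm_num) (k858 M) (fl_cons (by norm_num) (k860 M) (fl_cons (by norm_num) (k867 M) (fl_cons (by norm_num) (k868 M) (fl_cons (by norm_num) (k870 M) (fl_cons (by norm_num) (k872 M) (fl_cons (by norm_num) (k873 M) (fl_cons (by norm_num) (k874 M) fl_nil))))))))))))))))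
    (fs_cons (fl_cons (by norm_num) (k875 M) (fl_cons (by norm_num) (k877 M) (fl_cons (by norm_num) (k878 M) (fl_cons (by norm_num) (k880 M) fl_nil))))
    fs_nil))))) (by norm_num) o38 b38

theorem k393 : Fk M W 14 f393 := chT_fk (n := 14) (a := 0) o38 (List.mem_of_getElem? (i := 5) rfl)
  (by norm_num) (by norm_num) (g38 M) t393

theorem k394 : Fk M W 14 f394 := chT_fk (n := 14) (a := 0) o38 (List.mem_of_getElem? (i := 4) rfl)
  (by norm_num) (by norm_num) (g38 M) t394

theorem k395 : Fk M W 14 f395 := chT_fk (n := 14) (a := 0) o38 (List.mem_of_getElem? (i := 3) rfl)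
  (by norm_num) (by norm_num) (g38 M) t395

theorem k396 : Fk M W 14 f396 := chT_fk (n := 14) (a := 0) o38 (List.mem_of_getElem? (i := 2) rfl)
  (by norm_num) (by norm_num) (g38 M) t396

theorem k397 : Fk M W 14 f397 := chT_fk (n := 14) (a := 0) o38 (List.mem_of_getElem? (i := 1) rfl)
  (by norm_num) (by norm_num) (g38 M) t397

theorem k398 : Fk M W 14 f398 := chT_fk (n := 14) (a := 0) o38 (List.mem_of_getElem? (i := 0) rfl)
  (by norm_num) (by norm_num) (g38 M) t398

theorem k399 : Fk M W 14 f399 := chT_fk (n := 14) (a := 0) o38 (List.mem_of_getElem? (i := 10) rfl)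
  (by norm_num) (by norm_num) (g38 M) t399

theorem k249 : Fk M W 14 f249 := chT_fk (n := 14) (a := 0) o38 (List.mem_of_getElem? (i := 12) rfl)
  (by norm_num) (by norm_num) (g38 M) t249

theorem k247 : Fk M W 14 f247 := chT_fk (n := 14) (a := 0) o38 (List.mem_of_getElem? (i := 14) rfl)
  (by norm_num) (by norm_num) (g38 M) t247

theorem k662 : Fk M W 14 f662 := ckC_fk (L := [[f256, f247]])
  (fs_cons (fl_cons (by norm_num) (k256 M) (fl_cons (by norm_num) (k247 M) fl_nil))
    fs_nil) (by norm_num) c662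

theorem k245 : Fk M W 14 f245 := chT_fk (n := 14) (a := 0) o38 (List.mem_of_getElem? (i := 16) rfl)
  (by norm_num) (by norm_num) (g38 M) t245

theorem k246 : Fk M W 14 f246 := chT_fk (n := 14) (a := 0) o38 (List.mem_of_getElem? (i := 15) rfl)
  (by norm_num) (by norm_num) (g38 M) t246

theorem k416 : Fk M W 14 f416 := ckX_fk hW (L := [[f245, f246, f249, f662]])
  (fs_cons (fl_cons (by norm_num) (k245 M) (fl_cons (by norm_num) (k246 M) (fl_cons (by norm_num) (k249 M) (fl_cons (by norm_num) (k662 M) fl_nil))))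
    fs_nil) (by norm_num) x416

theorem k250 : Fk M W 14 f250 := chT_fk (n := 14) (a := 0) o38 (List.mem_of_getElem? (i := 11) rfl)
  (by norm_num) (by norm_num) (g38 M) t250

theorem k657 : Fk M W 14 f657 := ckC_fk (L := [[f250, f416]])
  (fs_cons (fl_cons (by norm_num) (k250 M) (fl_cons (by norm_num) (k416 M) fl_nil))
    fs_nil) (by norm_num) c657

theorem k248 : Fk M W 14 f248 := chT_fk (n := 14) (a := 0) o38 (List.mem_of_getElem? (i := 13) rfl)
  (by norm_num) (by norm_num) (g38 M) t248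

theorem k415 : Fk M W 14 f415 := ckX_fk hW (L := [[f245, f247, f248, f249]])
  (fs_cons (fl_cons (by norm_num) (k245 M) (fl_cons (by norm_num) (k247 M) (fl_cons (by norm_num) (k248 M) (fl_cons (by norm_num) (k249 M) fl_nil))))
    fs_nil) (by norm_num) x415

theorem k658 : Fk M W 14 f658 := ckC_fk (L := [[f657, f415]])
  (fs_cons (fl_cons (by norm_num) (k657 M) (fl_cons (by norm_num) (k415 M) fl_nil))
    fs_nil) (by norm_num) c658

theorem k369 : Fk M W 14 f369 := chT_fk (n := 14) (a := 0) o38 (List.mem_of_getElem? (i := 9) rfl)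
  (by norm_num) (by norm_num) (g38 M) t369

theorem k832 : Fk M W 14 f832 := ckC_fk (L := [[f375, f369]])
  (fs_cons (fl_cons (by norm_num) (k375 M) (fl_cons (by norm_num) (k369 M) fl_nil))
    fs_nil) (by norm_num) c832

theorem k661 : Fk M W 14 f661 := ckC_fk (L := [[f256, f245]])
  (fs_cons (fl_cons (by norm_num) (k256 M) (fl_cons (by norm_num) (k245 M) fl_nil))
    fs_nil) (by norm_num) c661

theorem k367 : Fk M W 14 f367 := chT_fk (n := 14) (a := 0) o38 (List.mem_of_getElem? (i := 7) rfl)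
  (by norm_num) (by norm_num) (g38 M) t367

theorem k830 : Fk M W 14 f830 := ckC_fk (L := [[f375, f367]])
  (fs_cons (fl_cons (by norm_num) (k375 M) (fl_cons (by norm_num) (k367 M) fl_nil))
    fs_nil) (by norm_num) c830

theorem k368 : Fk M W 14 f368 := chT_fk (n := 14) (a := 0) o38 (List.mem_of_getElem? (i := 8) rfl)
  (by norm_num) (by norm_num) (g38 M) t368

theorem k831 : Fk M W 14 f831 := ckC_fk (L := [[f375, f368]])
  (fs_cons (fl_cons (by norm_num) (k375 M) (fl_cons (by norm_num) (k368 M) fl_nil))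
    fs_nil) (by norm_num) c831

theorem k417 : Fk M W 14 f417 := ckX_fk hW (L := [[f246, f247, f248, f249, f250, f661, f830, f831, f832]])
  (fs_cons (fl_cons (by norm_num) (k246 M) (fl_cons (by norm_num) (k247 M) (fl_cons (by norm_num) (k248 M) (fl_cons (by norm_num) (k249 M) (fl_cons (by norm_num) (k250 M) (fl_cons (by norm_num) (k661 M) (fl_cons (by norm_num) (k830 M) (fl_cons (by norm_num) (k831 M) (fl_cons (by norm_num) (k832 M) fl_nil)))))))))
    fs_nil) (by norm_num) x417

theorem k659 : Fk M W 14 f659 := ckC_fk (L := [[f658, f417]])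
  (fs_cons (fl_cons (by norm_num) (k658 M) (fl_cons (by norm_num) (k417 M) fl_nil))
    fs_nil) (by norm_num) c659

theorem k660 : Fk M W 14 f660 := ckC_fk (L := [[f659, f416]])
  (fs_cons (fl_cons (by norm_num) (k659 M) (fl_cons (by norm_num) (k416 M) fl_nil))
    fs_nil) (by norm_num) c660

theorem k665 : Fk M W 14 f665 := ckC_fk (L := [[f256, f257]])
  (fs_cons (fl_cons (by norm_num) (k256 M) (fl_cons (by norm_num) (k257 M) fl_nil))
    fs_nil) (by norm_num) c665

theorem k666 : Fk M W 14 f666 := ckC_fk (L := [[f665, f256]])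
  (fs_cons (fl_cons (by norm_num) (k665 M) (fl_cons (by norm_num) (k256 M) fl_nil))
    fs_nil) (by norm_num) c666

theorem k669 : Fk M W 14 f669 := ckC_fk (L := [[f257, f256]])
  (fs_cons (fl_cons (by norm_num) (k257 M) (fl_cons (by norm_num) (k256 M) fl_nil))
    fs_nil) (by norm_num) c669

theorem k254 : Fk M W 14 f254 := chT_fk (n := 14) (a := 0) o36 (List.mem_of_getElem? (i := 0) rfl)
  (by norm_num) (by norm_num) (g36 M) t254

theorem k670 : Fk M W 14 f670 := ckC_fk (L := [[f669, f254]])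
  (fs_cons (fl_cons (by norm_num) (k669 M) (fl_cons (by norm_num) (k254 M) fl_nil))
    fs_nil) (by norm_num) c670

theorem k671 : Fk M W 14 f671 := ckC_fk (L := [[f669, f257]])
  (fs_cons (fl_cons (by norm_num) (k669 M) (fl_cons (by norm_num) (k257 M) fl_nil))
    fs_nil) (by norm_num) c671

theorem k366 : Fk M W 14 f366 := chT_fk (n := 14) (a := 0) o38 (List.mem_of_getElem? (i := 6) rfl)
  (by norm_num) (by norm_num) (g38 M) t366

theorem k255 : Fk M W 14 f255 := chT_fk (n := 14) (a := 0) o36 (List.mem_of_getElem? (i := 1) rfl)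
  (by norm_num) (by norm_num) (g36 M) t255

theorem g42 : ∀ u, Gd (M.cg 14 (W 42).k) (sy M W 42 bl42) (gS S42 u) :=
  chBT_spec hW (n := 14) (L := L42) (fs_cons (fl_cons (by norm_num) (k70 M) (fl_cons (by norm_num) (k71 M) (fl_cons (by norm_num) (k72 M) (fl_cons (by norm_num) (k73 M) (fl_cons (by norm_num) (k74 M) (fl_cons (by norm_num) (k79 M) (fl_cons (by norm_num) (k80 M) (fl_cons (by norm_num) (k81 M) (fl_cons (by norm_num) (k86 M) (fl_cons (by norm_num) (k200 M) (fl_cons (by norm_num) (k201 M) (fl_cons (by norm_num) (k202 M) (fl_cons (by norm_num) (k207 M) (fl_cons (by norm_num) (k208 M) (fl_cons (by norm_num) (k209 M) (fl_cons (by norm_num) (k210 M) fl_nil))))))))))))))))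
    (fs_cons (fl_cons (by norm_num) (k224 M) (fl_cons (by norm_num) (k225 M) (fl_cons (by norm_num) (k226 M) (fl_cons (by norm_num) (k227 M) (fl_cons (by norm_num) (k250 M) (fl_cons (by norm_num) (k255 M) (fl_cons (by norm_num) (k256 M) (fl_cons (by norm_num) (k257 M) (fl_cons (by norm_num) (k366 M) (fl_cons (by norm_num) (k367 M) (fl_cons (by norm_num) (k370 M) (fl_cons (by norm_num) (k371 M) (fl_cons (by norm_num) (k372 M) (fl_cons (by norm_num) (k387 M) (fl_cons (by norm_num) (k388 M) (fl_cons (by norm_num) (k389 M) fl_nil))))))))))))))))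
    (fs_cons (fl_cons (by norm_num) (k393 M) (fl_cons (by norm_num) (k394 M) (fl_cons (by norm_num) (k395 M) (fl_cons (by norm_num) (k396 M) (fl_cons (by norm_num) (k397 M) (fl_cons (by norm_num) (k398 M) (fl_cons (by norm_num) (k399 M) (fl_cons (by norm_num) (k417 M) (fl_cons (by norm_num) (k657 M) (fl_cons (by norm_num) (k658 M) (fl_cons (by norm_num) (k660 M) (fl_cons (by norm_num) (k665 M) (fl_cons (by norm_num) (k666 M) (fl_cons (by norm_num) (k669 M) (fl_cons (by norm_num) (k670 M) (fl_cons (by norm_num) (k671 M) fl_nil))))))))))))))))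
    fs_nil))) (by norm_num) o42 b42

theorem k234 : Fk M W 14 f234 := chT_fk (n := 14) (a := 0) o42 (List.mem_of_getElem? (i := 6) rfl)
  (by norm_num) (by norm_num) (g42 M) t234

theorem k261 : Fk M W 14 f261 := chT_fk (n := 14) (a := 0) o42 (List.mem_of_getElem? (i := 12) rfl)
  (by norm_num) (by norm_num) (g42 M) t261

theorem k98 : Fk M W 14 f98 := chT_fk (n := 14) (a := 0) o42 (List.mem_of_getElem? (i := 9) rfl)
  (by norm_num) (by norm_num) (g42 M) t98

theorem k97 : Fk M W 14 f97 := chT_fk (n := 14) (a := 0) o42 (List.mem_of_getElem? (i := 10) rfl)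
  (by norm_num) (by norm_num) (g42 M) t97

theorem k279 : Fk M W 14 f279 := ckX_fk hW (L := [[f97]])
  (fs_cons (fl_cons (by norm_num) (k97 M) fl_nil)
    fs_nil) (by norm_num) x279

theorem k533 : Fk M W 14 f533 := ckC_fk (L := [[f98, f279]])
  (fs_cons (fl_cons (by norm_num) (k98 M) (fl_cons (by norm_num) (k279 M) fl_nil))
    fs_nil) (by norm_num) c533

theorem k235 : Fk M W 14 f235 := chT_fk (n := 14) (a := 0) o42 (List.mem_of_getElem? (i := 7) rfl)
  (by norm_num) (by norm_num) (g42 M) t235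

theorem k652 : Fk M W 14 f652 := ckC_fk (L := [[f240, f235]])
  (fs_cons (fl_cons (by norm_num) (k240 M) (fl_cons (by norm_num) (k235 M) fl_nil))
    fs_nil) (by norm_num) c652

theorem k413 : Fk M W 14 f413 := chT_fk (n := 14) (a := 0) o42 (List.mem_of_getElem? (i := 5) rfl)
  (by norm_num) (by norm_num) (g42 M) t413

theorem k898 : Fk M W 14 f898 := ckC_fk (L := [[f415, f413]])
  (fs_cons (fl_cons (by norm_num) (k415 M) (fl_cons (by norm_num) (k413 M) fl_nil))
    fs_nil) (by norm_num) c898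

theorem k280 : Fk M W 14 f280 := ckX_fk hW (L := [[f98, f652, f898]])
  (fs_cons (fl_cons (by norm_num) (k98 M) (fl_cons (by norm_num) (k652 M) (fl_cons (by norm_num) (k898 M) fl_nil)))
    fs_nil) (by norm_num) x280

theorem g44 : ∀ u, Gd (M.cg 14 (W 44).k) (sy M W 44 bl44) (gS S44 u) :=
  chBT_spec hW (n := 14) (L := L44) (fs_cons (fl_cons (by norm_num) (k6 M) (fl_cons (by norm_num) (k7 M) (fl_cons (by norm_num) (k73 M) (fl_cons (by norm_num) (k78 M) (fl_cons (by norm_num) (k101 M) (fl_cons (by norm_num) (k102 M) (fl_cons (by norm_num) (k234 M) (fl_cons (by norm_num) (k237 M) (fl_cons (by norm_num) (k254 M) (fl_cons (by norm_num) (k261 M) (fl_cons (by norm_num) (k280 M) (fl_cons (by norm_num) (k533 M) fl_nil))))))))))))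
    fs_nil) (by norm_num) o44 b44

theorem k91 : Fk M W 14 f91 := chT_fk (n := 14) (a := 0) o44 (List.mem_of_getElem? (i := 4) rfl)
  (by norm_num) (by norm_num) (g44 M) t91

theorem k520 : Fk M W 14 f520 := ckC_fk (L := [[f76, f77]])
  (fs_cons (fl_cons (by norm_num) (k76 M) (fl_cons (by norm_num) (k77 M) fl_nil))
    fs_nil) (by norm_num) c520

theorem k525 : Fk M W 14 f525 := ckC_fk (L := [[f85, f82]])
  (fs_cons (fl_cons (by norm_num) (k85 M) (fl_cons (by norm_num) (k82 M) fl_nil))
    fs_nil) (by norm_num) c525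

theorem k93 : Fk M W 14 f93 := ckX_fk hW (L := [[f520, f525]])
  (fs_cons (fl_cons (by norm_num) (k520 M) (fl_cons (by norm_num) (k525 M) fl_nil))
    fs_nil) (by norm_num) x93

theorem g39 : ∀ u, Gd (M.cg 14 (W 39).k) (sy M W 39 bl39) (gS S39 u) :=
  chBT_spec hW (n := 14) (L := L39) (fs_cons (fl_cons (by norm_num) (k75 M) (fl_cons (by norm_num) (k77 M) (fl_cons (by norm_num) (k93 M) fl_nil)))
    fs_nil) (by norm_num) o39 b39

theorem k92 : Fk M W 14 f92 := chT_fk (n := 14) (a := 0) o39 (List.mem_of_getElem? (i := 0) rfl)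
  (by norm_num) (by norm_num) (g39 M) t92

theorem k244 : Fk M W 14 f244 := chT_fk (n := 14) (a := 0) o41 (List.mem_of_getElem? (i := 12) rfl)
  (by norm_num) (by norm_num) (g41 M) t244

theorem k656 : Fk M W 14 f656 := ckC_fk (L := [[f240, f244]])
  (fs_cons (fl_cons (by norm_num) (k240 M) (fl_cons (by norm_num) (k244 M) fl_nil))
    fs_nil) (by norm_num) c656

theorem k252 : Fk M W 14 f252 := chT_fk (n := 14) (a := 0) o41 (List.mem_of_getElem? (i := 7) rfl)
  (by norm_num) (by norm_num) (g41 M) t252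

theorem k667 : Fk M W 14 f667 := ckC_fk (L := [[f257, f252]])
  (fs_cons (fl_cons (by norm_num) (k257 M) (fl_cons (by norm_num) (k252 M) fl_nil))
    fs_nil) (by norm_num) c667

theorem k253 : Fk M W 14 f253 := chT_fk (n := 14) (a := 0) o41 (List.mem_of_getElem? (i := 8) rfl)
  (by norm_num) (by norm_num) (g41 M) t253

theorem k668 : Fk M W 14 f668 := ckC_fk (L := [[f257, f253]])
  (fs_cons (fl_cons (by norm_num) (k257 M) (fl_cons (by norm_num) (k253 M) fl_nil))
    fs_nil) (by norm_num) c668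

theorem k271 : Fk M W 14 f271 := ckX_fk hW (L := [[f88, f89, f90, f656, f667, f668]])
  (fs_cons (fl_cons (by norm_num) (k88 M) (fl_cons (by norm_num) (k89 M) (fl_cons (by norm_num) (k90 M) (fl_cons (by norm_num) (k656 M) (fl_cons (by norm_num) (k667 M) (fl_cons (by norm_num) (k668 M) fl_nil))))))
    fs_nil) (by norm_num) x271

theorem k651 : Fk M W 14 f651 := ckC_fk (L := [[f239, f244]])
  (fs_cons (fl_cons (by norm_num) (k239 M) (fl_cons (by norm_num) (k244 M) fl_nil))
    fs_nil) (by norm_num) c651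

theorem k664 : Fk M W 14 f664 := ckC_fk (L := [[f256, f253]])
  (fs_cons (fl_cons (by norm_num) (k256 M) (fl_cons (by norm_num) (k253 M) fl_nil))
    fs_nil) (by norm_num) c664

theorem k251 : Fk M W 14 f251 := chT_fk (n := 14) (a := 0) o41 (List.mem_of_getElem? (i := 6) rfl)
  (by norm_num) (by norm_num) (g41 M) t251

theorem k663 : Fk M W 14 f663 := ckC_fk (L := [[f256, f251]])
  (fs_cons (fl_cons (by norm_num) (k256 M) (fl_cons (by norm_num) (k251 M) fl_nil))
    fs_nil) (by norm_num) c663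

theorem k270 : Fk M W 14 f270 := ckX_fk hW (L := [[f88, f89, f90, f651, f663, f664]])
  (fs_cons (fl_cons (by norm_num) (k88 M) (fl_cons (by norm_num) (k89 M) (fl_cons (by norm_num) (k90 M) (fl_cons (by norm_num) (k651 M) (fl_cons (by norm_num) (k663 M) (fl_cons (by norm_num) (k664 M) fl_nil))))))
    fs_nil) (by norm_num) x270

theorem k528 : Fk M W 14 f528 := ckC_fk (L := [[f90, f270]])
  (fs_cons (fl_cons (by norm_num) (k90 M) (fl_cons (by norm_num) (k270 M) fl_nil))
    fs_nil) (by norm_num) c528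

theorem k400 : Fk M W 14 f400 := chT_fk (n := 14) (a := 0) o41 (List.mem_of_getElem? (i := 5) rfl)
  (by norm_num) (by norm_num) (g41 M) t400

theorem k402 : Fk M W 14 f402 := chT_fk (n := 14) (a := 0) o41 (List.mem_of_getElem? (i := 3) rfl)
  (by norm_num) (by norm_num) (g41 M) t402

theorem k241 : Fk M W 14 f241 := chT_fk (n := 14) (a := 0) o41 (List.mem_of_getElem? (i := 0) rfl)
  (by norm_num) (by norm_num) (g41 M) t241

theorem k242 : Fk M W 14 f242 := chT_fk (n := 14) (a := 0) o41 (List.mem_of_getElem? (i := 1) rfl)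
  (by norm_num) (by norm_num) (g41 M) t242

theorem k243 : Fk M W 14 f243 := chT_fk (n := 14) (a := 0) o41 (List.mem_of_getElem? (i := 2) rfl)
  (by norm_num) (by norm_num) (g41 M) t243

theorem k881 : Fk M W 14 f881 := ckC_fk (L := [[f404, f403]])
  (fs_cons (fl_cons (by norm_num) (k404 M) (fl_cons (by norm_num) (k403 M) fl_nil))
    fs_nil) (by norm_num) c881

theorem k882 : Fk M W 14 f882 := ckC_fk (L := [[f881, f405]])
  (fs_cons (fl_cons (by norm_num) (k881 M) (fl_cons (by norm_num) (k405 M) fl_nil))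
    fs_nil) (by norm_num) c882

theorem k883 : Fk M W 14 f883 := ckC_fk (L := [[f882, f404]])
  (fs_cons (fl_cons (by norm_num) (k882 M) (fl_cons (by norm_num) (k404 M) fl_nil))
    fs_nil) (by norm_num) c883

theorem k884 : Fk M W 14 f884 := ckC_fk (L := [[f883, f400]])
  (fs_cons (fl_cons (by norm_num) (k883 M) (fl_cons (by norm_num) (k400 M) fl_nil))
    fs_nil) (by norm_num) c884

theorem k885 : Fk M W 14 f885 := ckC_fk (L := [[f404, f405]])
  (fs_cons (fl_cons (by norm_num) (k404 M) (fl_cons (by norm_num) (k405 M) fl_nil))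
    fs_nil) (by norm_num) c885

theorem k886 : Fk M W 14 f886 := ckC_fk (L := [[f885, f402]])
  (fs_cons (fl_cons (by norm_num) (k885 M) (fl_cons (by norm_num) (k402 M) fl_nil))
    fs_nil) (by norm_num) c886

theorem k889 : Fk M W 14 f889 := ckC_fk (L := [[f405, f404]])
  (fs_cons (fl_cons (by norm_num) (k405 M) (fl_cons (by norm_num) (k404 M) fl_nil))
    fs_nil) (by norm_num) c889

theorem k890 : Fk M W 14 f890 := ckC_fk (L := [[f889, f402]])
  (fs_cons (fl_cons (by norm_num) (k889 M) (fl_cons (by norm_num) (k402 M) fl_nil))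
    fs_nil) (by norm_num) c890

theorem g43 : ∀ u, Gd (M.cg 14 (W 43).k) (sy M W 43 bl43) (gS S43 u) :=
  chBT_spec hW (n := 14) (L := L43) (fs_cons (fl_cons (by norm_num) (k77 M) (fl_cons (by norm_num) (k78 M) (fl_cons (by norm_num) (k82 M) (fl_cons (by norm_num) (k87 M) (fl_cons (by norm_num) (k90 M) (fl_cons (by norm_num) (k93 M) (fl_cons (by norm_num) (k237 M) (fl_cons (by norm_num) (k238 M) (fl_cons (by norm_num) (k241 M) (fl_cons (by norm_num) (k242 M) (fl_cons (by norm_num) (k243 M) (fl_cons (by norm_num) (k244 M) (fl_cons (by norm_num) (k251 M) (fl_cons (by norm_num) (k254 M) (fl_cons (by norm_num) (k255 M) (fl_cons (by norm_num) (k271 M) fl_nil))))))))))))))))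
    (fs_cons (fl_cons (by norm_num) (k400 M) (fl_cons (by norm_num) (k402 M) (fl_cons (by norm_num) (k528 M) (fl_cons (by norm_num) (k884 M) (fl_cons (by norm_num) (k886 M) (fl_cons (by norm_num) (k890 M) fl_nil))))))
    fs_nil)) (by norm_num) o43 b43

theorem k94 : Fk M W 14 f94 := chT_fk (n := 14) (a := 0) o43 (List.mem_of_getElem? (i := 2) rfl)
  (by norm_num) (by norm_num) (g43 M) t94

theorem k95 : Fk M W 14 f95 := chT_fk (n := 14) (a := 0) o43 (List.mem_of_getElem? (i := 5) rfl)
  (by norm_num) (by norm_num) (g43 M) t95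

theorem k96 : Fk M W 14 f96 := chT_fk (n := 14) (a := 0) o42 (List.mem_of_getElem? (i := 11) rfl)
  (by norm_num) (by norm_num) (g42 M) t96

theorem k99 : Fk M W 14 f99 := chT_fk (n := 14) (a := 0) o43 (List.mem_of_getElem? (i := 3) rfl)
  (by norm_num) (by norm_num) (g43 M) t99

theorem k100 : Fk M W 14 f100 := chT_fk (n := 14) (a := 0) o43 (List.mem_of_getElem? (i := 4) rfl)
  (by norm_num) (by norm_num) (g43 M) t100

theorem k103 : Fk M W 14 f103 := chT_fk (n := 14) (a := 0) o44 (List.mem_of_getElem? (i := 3) rfl)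
  (by norm_num) (by norm_num) (g44 M) t103

theorem k104 : Fk M W 14 f104 := chT_fk (n := 14) (a := 0) o44 (List.mem_of_getElem? (i := 6) rfl)
  (by norm_num) (by norm_num) (g44 M) t104

theorem k258 : Fk M W 14 f258 := chT_fk (n := 14) (a := 0) o42 (List.mem_of_getElem? (i := 0) rfl)
  (by norm_num) (by norm_num) (g42 M) t258

theorem k259 : Fk M W 14 f259 := chT_fk (n := 14) (a := 0) o42 (List.mem_of_getElem? (i := 1) rfl)
  (by norm_num) (by norm_num) (g42 M) t259

theorem k260 : Fk M W 14 f260 := chT_fk (n := 14) (a := 0) o42 (List.mem_of_getElem? (i := 2) rfl)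
  (by norm_num) (by norm_num) (g42 M) t260

theorem k894 : Fk M W 14 f894 := ckC_fk (L := [[f889, f405]])
  (fs_cons (fl_cons (by norm_num) (k889 M) (fl_cons (by norm_num) (k405 M) fl_nil))
    fs_nil) (by norm_num) c894

theorem k895 : Fk M W 14 f895 := ckC_fk (L := [[f894, f404]])
  (fs_cons (fl_cons (by norm_num) (k894 M) (fl_cons (by norm_num) (k404 M) fl_nil))
    fs_nil) (by norm_num) c895

theorem k896 : Fk M W 14 f896 := ckC_fk (L := [[f895, f403]])
  (fs_cons (fl_cons (by norm_num) (k895 M) (fl_cons (by norm_num) (k403 M) fl_nil))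
    fs_nil) (by norm_num) c896

theorem k891 : Fk M W 14 f891 := ckC_fk (L := [[f889, f403]])
  (fs_cons (fl_cons (by norm_num) (k889 M) (fl_cons (by norm_num) (k403 M) fl_nil))
    fs_nil) (by norm_num) c891

theorem k529 : Fk M W 14 f529 := ckC_fk (L := [[f528, f271]])
  (fs_cons (fl_cons (by norm_num) (k528 M) (fl_cons (by norm_num) (k271 M) fl_nil))
    fs_nil) (by norm_num) c529

theorem k531 : Fk M W 14 f531 := ckC_fk (L := [[f93, f88]])
  (fs_cons (fl_cons (by norm_num) (k93 M) (fl_cons (by norm_num) (k88 M) fl_nil))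
    fs_nil) (by norm_num) c531

theorem k530 : Fk M W 14 f530 := ckC_fk (L := [[f529, f270]])
  (fs_cons (fl_cons (by norm_num) (k529 M) (fl_cons (by norm_num) (k270 M) fl_nil))
    fs_nil) (by norm_num) c530

theorem k378 : Fk M W 14 f378 := chT_fk (n := 14) (a := 0) o37 (List.mem_of_getElem? (i := 3) rfl)
  (by norm_num) (by norm_num) (g37 M) t378

theorem k377 : Fk M W 14 f377 := chT_fk (n := 14) (a := 0) o37 (List.mem_of_getElem? (i := 4) rfl)
  (by norm_num) (by norm_num) (g37 M) t377

theorem k887 : Fk M W 14 f887 := ckC_fk (L := [[f885, f404]])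
  (fs_cons (fl_cons (by norm_num) (k885 M) (fl_cons (by norm_num) (k404 M) fl_nil))
    fs_nil) (by norm_num) c887

theorem k888 : Fk M W 14 f888 := ckC_fk (L := [[f887, f403]])
  (fs_cons (fl_cons (by norm_num) (k887 M) (fl_cons (by norm_num) (k403 M) fl_nil))
    fs_nil) (by norm_num) c888

theorem k892 : Fk M W 14 f892 := ckC_fk (L := [[f891, f405]])
  (fs_cons (fl_cons (by norm_num) (k891 M) (fl_cons (by norm_num) (k405 M) fl_nil))
    fs_nil) (by norm_num) c892

theorem k893 : Fk M W 14 f893 := ckC_fk (L := [[f892, f404]])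
  (fs_cons (fl_cons (by norm_num) (k892 M) (fl_cons (by norm_num) (k404 M) fl_nil))
    fs_nil) (by norm_num) c893

theorem g45 : ∀ u, Gd (M.cg 14 (W 45).k) (sy M W 45 bl45) (gS S45 u) :=
  chBT_spec hW (n := 14) (L := L45) (fs_cons (fl_cons (by norm_num) (k90 M) (fl_cons (by norm_num) (k228 M) (fl_cons (by norm_num) (k229 M) (fl_cons (by norm_num) (k230 M) (fl_cons (by norm_num) (k231 M) (fl_cons (by norm_num) (k232 M) (fl_cons (by norm_num) (k233 M) (fl_cons (by norm_num) (k241 M) (fl_cons (by norm_num) (k242 M) (fl_cons (by norm_num) (k243 M) (fl_cons (by norm_num) (k244 M) (fl_cons (by norm_num) (k245 M) (fl_cons (by norm_num) (k246 M) (fl_cons (by norm_num) (k247 M) (fl_cons (by norm_num) (k248 M) (fl_cons (by norm_num) (k249 M) fl_nil))))))))))))))))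
    (fs_cons (fl_cons (by norm_num) (k250 M) (fl_cons (by norm_num) (k251 M) (fl_cons (by norm_num) (k252 M) (fl_cons (by norm_num) (k253 M) (fl_cons (by norm_num) (k366 M) (fl_cons (by norm_num) (k367 M) (fl_cons (by norm_num) (k368 M) (fl_cons (by norm_num) (k369 M) (fl_cons (by norm_num) (k376 M) (fl_cons (by norm_num) (k377 M) (fl_cons (by norm_num) (k378 M) (fl_cons (by norm_num) (k379 M) (fl_cons (by norm_num) (k380 M) (fl_cons (by norm_num) (k381 M) (fl_cons (by norm_num) (k382 M) (fl_cons (by norm_num) (k383 M) fl_nil))))))))))))))))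
    (fs_cons (fl_cons (by norm_num) (k384 M) (fl_cons (by norm_num) (k385 M) (fl_cons (by norm_num) (k386 M) (fl_cons (by norm_num) (k393 M) (fl_cons (by norm_num) (k395 M) (fl_cons (by norm_num) (k397 M) (fl_cons (by norm_num) (k399 M) (fl_cons (by norm_num) (k402 M) (fl_cons (by norm_num) (k404 M) (fl_cons (by norm_num) (k405 M) (fl_cons (by norm_num) (k528 M) (fl_cons (by norm_num) (k529 M) (fl_cons (by norm_num) (k530 M) (fl_cons (by norm_num) (k531 M) (fl_cons (by norm_num) (k881 M) (fl_cons (by norm_num) (k883 M) fl_nil))))))))))))))))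
    (fs_cons (fl_cons (by norm_num) (k885 M) (fl_cons (by norm_num) (k888 M) (fl_cons (by norm_num) (k889 M) (fl_cons (by norm_num) (k891 M) (fl_cons (by norm_num) (k893 M) (fl_cons (by norm_num) (k894 M) (fl_cons (by norm_num) (k896 M) fl_nil)))))))
    fs_nil)))) (by norm_num) o45 b45

theorem k267 : Fk M W 14 f267 := chT_fk (n := 14) (a := 0) o45 (List.mem_of_getElem? (i := 11) rfl)
  (by norm_num) (by norm_num) (g45 M) t267

theorem k269 : Fk M W 14 f269 := chT_fk (n := 14) (a := 0) o43 (List.mem_of_getElem? (i := 1) rfl)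
  (by norm_num) (by norm_num) (g43 M) t269

theorem k401 : Fk M W 14 f401 := chT_fk (n := 14) (a := 0) o41 (List.mem_of_getElem? (i := 4) rfl)
  (by norm_num) (by norm_num) (g41 M) t401

theorem k406 : Fk M W 14 f406 := chT_fk (n := 14) (a := 0) o45 (List.mem_of_getElem? (i := 5) rfl)
  (by norm_num) (by norm_num) (g45 M) t406

theorem k407 : Fk M W 14 f407 := chT_fk (n := 14) (a := 0) o45 (List.mem_of_getElem? (i := 0) rfl)
  (by norm_num) (by norm_num) (g45 M) t407

theorem k408 : Fk M W 14 f408 := chT_fk (n := 14) (a := 0) o45 (List.mem_of_getElem? (i := 10) rfl)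
  (by norm_num) (by norm_num) (g45 M) t408

theorem k409 : Fk M W 14 f409 := chT_fk (n := 14) (a := 0) o45 (List.mem_of_getElem? (i := 6) rfl)
  (by norm_num) (by norm_num) (g45 M) t409

theorem k410 : Fk M W 14 f410 := chT_fk (n := 14) (a := 0) o45 (List.mem_of_getElem? (i := 7) rfl)
  (by norm_num) (by norm_num) (g45 M) t410

theorem k414 : Fk M W 14 f414 := chT_fk (n := 14) (a := 0) o42 (List.mem_of_getElem? (i := 3) rfl)
  (by norm_num) (by norm_num) (g42 M) t414

theorem k264 : Fk M W 14 f264 := chT_fk (n := 14) (a := 0) o45 (List.mem_of_getElem? (i := 14) rfl)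
  (by norm_num) (by norm_num) (g45 M) t264

theorem k678 : Fk M W 14 f678 := ckC_fk (L := [[f270, f264]])
  (fs_cons (fl_cons (by norm_num) (k270 M) (fl_cons (by norm_num) (k264 M) fl_nil))
    fs_nil) (by norm_num) c678

theorem k262 : Fk M W 14 f262 := chT_fk (n := 14) (a := 0) o45 (List.mem_of_getElem? (i := 16) rfl)
  (by norm_num) (by norm_num) (g45 M) t262

theorem k263 : Fk M W 14 f263 := chT_fk (n := 14) (a := 0) o45 (List.mem_of_getElem? (i := 15) rfl)
  (by norm_num) (by norm_num) (g45 M) t263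

theorem k265 : Fk M W 14 f265 := chT_fk (n := 14) (a := 0) o45 (List.mem_of_getElem? (i := 13) rfl)
  (by norm_num) (by norm_num) (g45 M) t265

theorem k266 : Fk M W 14 f266 := chT_fk (n := 14) (a := 0) o45 (List.mem_of_getElem? (i := 12) rfl)
  (by norm_num) (by norm_num) (g45 M) t266

theorem k420 : Fk M W 14 f420 := ckX_fk hW (L := [[f262, f263, f265, f266, f267, f678]])
  (fs_cons (fl_cons (by norm_num) (k262 M) (fl_cons (by norm_num) (k263 M) (fl_cons (by norm_num) (k265 M) (fl_cons (by norm_num) (k266 M) (fl_cons (by norm_num) (k267 M) (fl_cons (by norm_num) (k678 M) fl_nil))))))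
    fs_nil) (by norm_num) x420

theorem k672 : Fk M W 14 f672 := ckC_fk (L := [[f267, f420]])
  (fs_cons (fl_cons (by norm_num) (k267 M) (fl_cons (by norm_num) (k420 M) fl_nil))
    fs_nil) (by norm_num) c672

theorem k419 : Fk M W 14 f419 := ckX_fk hW (L := [[f262, f263, f264, f265, f266]])
  (fs_cons (fl_cons (by norm_num) (k262 M) (fl_cons (by norm_num) (k263 M) (fl_cons (by norm_num) (k264 M) (fl_cons (by norm_num) (k265 M) (fl_cons (by norm_num) (k266 M) fl_nil)))))
    fs_nil) (by norm_num) x419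

theorem k673 : Fk M W 14 f673 := ckC_fk (L := [[f672, f419]])
  (fs_cons (fl_cons (by norm_num) (k672 M) (fl_cons (by norm_num) (k419 M) fl_nil))
    fs_nil) (by norm_num) c673

theorem k897 : Fk M W 14 f897 := ckC_fk (L := [[f405, f408]])
  (fs_cons (fl_cons (by norm_num) (k405 M) (fl_cons (by norm_num) (k408 M) fl_nil))
    fs_nil) (by norm_num) c897

theorem k411 : Fk M W 14 f411 := chT_fk (n := 14) (a := 0) o45 (List.mem_of_getElem? (i := 8) rfl)
  (by norm_num) (by norm_num) (g45 M) t411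

theorem k899 : Fk M W 14 f899 := ckC_fk (L := [[f417, f411]])
  (fs_cons (fl_cons (by norm_num) (k417 M) (fl_cons (by norm_num) (k411 M) fl_nil))
    fs_nil) (by norm_num) c899

theorem k412 : Fk M W 14 f412 := chT_fk (n := 14) (a := 0) o45 (List.mem_of_getElem? (i := 9) rfl)
  (by norm_num) (by norm_num) (g45 M) t412

theorem k900 : Fk M W 14 f900 := ckC_fk (L := [[f417, f412]])
  (fs_cons (fl_cons (by norm_num) (k417 M) (fl_cons (by norm_num) (k412 M) fl_nil))
    fs_nil) (by norm_num) c900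

theorem k677 : Fk M W 14 f677 := ckC_fk (L := [[f270, f262]])
  (fs_cons (fl_cons (by norm_num) (k270 M) (fl_cons (by norm_num) (k262 M) fl_nil))
    fs_nil) (by norm_num) c677

theorem k421 : Fk M W 14 f421 := ckX_fk hW (L := [[f263, f264, f266, f677, f897, f899, f900]])
  (fs_cons (fl_cons (by norm_num) (k263 M) (fl_cons (by norm_num) (k264 M) (fl_cons (by norm_num) (k266 M) (fl_cons (by norm_num) (k677 M) (fl_cons (by norm_num) (k897 M) (fl_cons (by norm_num) (k899 M) (fl_cons (by norm_num) (k900 M) fl_nil)))))))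
    fs_nil) (by norm_num) x421

theorem k674 : Fk M W 14 f674 := ckC_fk (L := [[f673, f421]])
  (fs_cons (fl_cons (by norm_num) (k673 M) (fl_cons (by norm_num) (k421 M) fl_nil))
    fs_nil) (by norm_num) c674

theorem k675 : Fk M W 14 f675 := ckC_fk (L := [[f674, f420]])
  (fs_cons (fl_cons (by norm_num) (k674 M) (fl_cons (by norm_num) (k420 M) fl_nil))
    fs_nil) (by norm_num) c675

theorem k676 : Fk M W 14 f676 := ckC_fk (L := [[f675, f419]])
  (fs_cons (fl_cons (by norm_num) (k675 M) (fl_cons (by norm_num) (k419 M) fl_nil))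
    fs_nil) (by norm_num) c676

theorem k679 : Fk M W 14 f679 := ckC_fk (L := [[f270, f271]])
  (fs_cons (fl_cons (by norm_num) (k270 M) (fl_cons (by norm_num) (k271 M) fl_nil))
    fs_nil) (by norm_num) c679

theorem k681 : Fk M W 14 f681 := ckC_fk (L := [[f679, f270]])
  (fs_cons (fl_cons (by norm_num) (k679 M) (fl_cons (by norm_num) (k270 M) fl_nil))
    fs_nil) (by norm_num) c681

theorem k682 : Fk M W 14 f682 := ckC_fk (L := [[f271, f270]])
  (fs_cons (fl_cons (by norm_num) (k271 M) (fl_cons (by norm_num) (k270 M) fl_nil))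
    fs_nil) (by norm_num) c682

theorem k268 : Fk M W 14 f268 := chT_fk (n := 14) (a := 0) o43 (List.mem_of_getElem? (i := 0) rfl)
  (by norm_num) (by norm_num) (g43 M) t268

theorem k683 : Fk M W 14 f683 := ckC_fk (L := [[f682, f268]])
  (fs_cons (fl_cons (by norm_num) (k682 M) (fl_cons (by norm_num) (k268 M) fl_nil))
    fs_nil) (by norm_num) c683

theorem k685 : Fk M W 14 f685 := ckC_fk (L := [[f682, f271]])
  (fs_cons (fl_cons (by norm_num) (k682 M) (fl_cons (by norm_num) (k271 M) fl_nil))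
    fs_nil) (by norm_num) c685

theorem k236 : Fk M W 14 f236 := chT_fk (n := 14) (a := 0) o42 (List.mem_of_getElem? (i := 8) rfl)
  (by norm_num) (by norm_num) (g42 M) t236

theorem g47 : ∀ u, Gd (M.cg 14 (W 47).k) (sy M W 47 bl47) (gS S47 u) :=
  chBT_spec hW (n := 14) (L := L47) (fs_cons (fl_cons (by norm_num) (k88 M) (fl_cons (by norm_num) (k89 M) (fl_cons (by norm_num) (k90 M) (fl_cons (by norm_num) (k96 M) (fl_cons (by norm_num) (k97 M) (fl_cons (by norm_num) (k98 M) (fl_cons (by norm_num) (k99 M) (fl_cons (by norm_num) (k100 M) (fl_cons (by norm_num) (k234 M) (fl_cons (by norm_num) (k235 M) (fl_cons (by norm_num) (k236 M) (fl_cons (by norm_num) (k241 M) (fl_cons (by norm_num) (k242 M) (fl_cons (by norm_num) (k243 M) (fl_cons (by norm_num) (k244 M) (fl_cons (by norm_num) (k251 M) fl_nil))))))))))))))))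
    (fs_cons (fl_cons (by norm_num) (k252 M) (fl_cons (by norm_num) (k253 M) (fl_cons (by norm_num) (k258 M) (fl_cons (by norm_num) (k259 M) (fl_cons (by norm_num) (k260 M) (fl_cons (by norm_num) (k261 M) (fl_cons (by norm_num) (k267 M) (fl_cons (by norm_num) (k269 M) (fl_cons (by norm_num) (k270 M) (fl_cons (by norm_num) (k271 M) (fl_cons (by norm_num) (k400 M) (fl_cons (by norm_num) (k401 M) (fl_cons (by norm_num) (k402 M) (fl_cons (by norm_num) (k406 M) (fl_cons (by norm_num) (k407 M) (fl_cons (by norm_num) (k408 M) fl_nil))))))))))))))))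
    (fs_cons (fl_cons (by norm_num) (k409 M) (fl_cons (by norm_num) (k410 M) (fl_cons (by norm_num) (k413 M) (fl_cons (by norm_num) (k414 M) (fl_cons (by norm_num) (k421 M) (fl_cons (by norm_num) (k672 M) (fl_cons (by norm_num) (k673 M) (fl_cons (by norm_num) (k675 M) (fl_cons (by norm_num) (k676 M) (fl_cons (by norm_num) (k679 M) (fl_cons (by norm_num) (k681 M) (fl_cons (by norm_num) (k682 M) (fl_cons (by norm_num) (k683 M) (fl_cons (by norm_num) (k685 M) fl_nil))))))))))))))
    fs_nil))) (by norm_num) o47 b47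

theorem k105 : Fk M W 14 f105 := chT_fk (n := 14) (a := 0) o47 (List.mem_of_getElem? (i := 10) rfl)
  (by norm_num) (by norm_num) (g47 M) t105

theorem k106 : Fk M W 14 f106 := chT_fk (n := 14) (a := 0) o47 (List.mem_of_getElem? (i := 9) rfl)
  (by norm_num) (by norm_num) (g47 M) t106

theorem k680 : Fk M W 14 f680 := ckC_fk (L := [[f679, f269]])
  (fs_cons (fl_cons (by norm_num) (k679 M) (fl_cons (by norm_num) (k269 M) fl_nil))
    fs_nil) (by norm_num) c680

theorem k532 : Fk M W 14 f532 := ckC_fk (L := [[f93, f94]])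
  (fs_cons (fl_cons (by norm_num) (k93 M) (fl_cons (by norm_num) (k94 M) fl_nil))
    fs_nil) (by norm_num) c532

theorem k534 : Fk M W 14 f534 := ckC_fk (L := [[f102, f99]])
  (fs_cons (fl_cons (by norm_num) (k102 M) (fl_cons (by norm_num) (k99 M) fl_nil))
    fs_nil) (by norm_num) c534

theorem k108 : Fk M W 14 f108 := ckX_fk hW (L := [[f268, f532, f534]])
  (fs_cons (fl_cons (by norm_num) (k268 M) (fl_cons (by norm_num) (k532 M) (fl_cons (by norm_num) (k534 M) fl_nil)))
    fs_nil) (by norm_num) x108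

theorem k684 : Fk M W 14 f684 := ckC_fk (L := [[f682, f269]])
  (fs_cons (fl_cons (by norm_num) (k682 M) (fl_cons (by norm_num) (k269 M) fl_nil))
    fs_nil) (by norm_num) c684

theorem g46 : ∀ u, Gd (M.cg 14 (W 46).k) (sy M W 46 bl46) (gS S46 u) :=
  chBT_spec hW (n := 14) (L := L46) (fs_cons (fl_cons (by norm_num) (k92 M) (fl_cons (by norm_num) (k94 M) (fl_cons (by norm_num) (k108 M) (fl_cons (by norm_num) (k269 M) (fl_cons (by norm_num) (k680 M) (fl_cons (by norm_num) (k684 M) fl_nil))))))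
    fs_nil) (by norm_num) o46 b46

theorem k107 : Fk M W 14 f107 := chT_fk (n := 14) (a := 0) o46 (List.mem_of_getElem? (i := 0) rfl)
  (by norm_num) (by norm_num) (g46 M) t107

theorem k272 : Fk M W 14 f272 := chT_fk (n := 14) (a := 0) o47 (List.mem_of_getElem? (i := 0) rfl)
  (by norm_num) (by norm_num) (g47 M) t272

theorem k273 : Fk M W 14 f273 := chT_fk (n := 14) (a := 0) o47 (List.mem_of_getElem? (i := 1) rfl)
  (by norm_num) (by norm_num) (g47 M) t273

theorem k274 : Fk M W 14 f274 := chT_fk (n := 14) (a := 0) o47 (List.mem_of_getElem? (i := 12) rfl)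
  (by norm_num) (by norm_num) (g47 M) t274

theorem k275 : Fk M W 14 f275 := chT_fk (n := 14) (a := 0) o47 (List.mem_of_getElem? (i := 6) rfl)
  (by norm_num) (by norm_num) (g47 M) t275

theorem k276 : Fk M W 14 f276 := chT_fk (n := 14) (a := 0) o47 (List.mem_of_getElem? (i := 7) rfl)
  (by norm_num) (by norm_num) (g47 M) t276

theorem k277 : Fk M W 14 f277 := chT_fk (n := 14) (a := 0) o44 (List.mem_of_getElem? (i := 0) rfl)
  (by norm_num) (by norm_num) (g44 M) t277

theorem k278 : Fk M W 14 f278 := chT_fk (n := 14) (a := 0) o44 (List.mem_of_getElem? (i := 1) rfl)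
  (by norm_num) (by norm_num) (g44 M) t278

theorem k281 : Fk M W 14 f281 := ckX_fk hW (L := [[f105]])
  (fs_cons (fl_cons (by norm_num) (k105 M) fl_nil)
    fs_nil) (by norm_num) x281

theorem k686 : Fk M W 14 f686 := ckC_fk (L := [[f271, f274]])
  (fs_cons (fl_cons (by norm_num) (k271 M) (fl_cons (by norm_num) (k274 M) fl_nil))
    fs_nil) (by norm_num) c686

theorem k687 : Fk M W 14 f687 := ckC_fk (L := [[f280, f276]])
  (fs_cons (fl_cons (by norm_num) (k280 M) (fl_cons (by norm_num) (k276 M) fl_nil))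
    fs_nil) (by norm_num) c687

theorem k282 : Fk M W 14 f282 := ckX_fk hW (L := [[f105, f686, f687]])
  (fs_cons (fl_cons (by norm_num) (k105 M) (fl_cons (by norm_num) (k686 M) (fl_cons (by norm_num) (k687 M) fl_nil)))
    fs_nil) (by norm_num) x282

theorem k418 : Fk M W 14 f418 := chT_fk (n := 14) (a := 0) o47 (List.mem_of_getElem? (i := 5) rfl)
  (by norm_num) (by norm_num) (g47 M) t418

theorem k428 : Fk M W 15 f428 := ckC_fk (L := [[f0, f11]])
  (fs_cons (fl_cons (by norm_num) (k0 M) (fl_cons (by norm_num) (k11 M) fl_nil))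
    fs_nil) (by norm_num) c428

theorem k429 : Fk M W 15 f429 := ckC_fk (L := [[f428, f19]])
  (fs_cons (fl_cons (by norm_num) (k428 M) (fl_cons (by norm_num) (k19 M) fl_nil))
    fs_nil) (by norm_num) c429

theorem k430 : Fk M W 15 f430 := ckC_fk (L := [[f429, f50]])
  (fs_cons (fl_cons (by norm_num) (k429 M) (fl_cons (by norm_num) (k50 M) fl_nil))
    fs_nil) (by norm_num) c430

theorem k431 : Fk M W 15 f431 := ckC_fk (L := [[f430, f64]])
  (fs_cons (fl_cons (by norm_num) (k430 M) (fl_cons (by norm_num) (k64 M) fl_nil))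
    fs_nil) (by norm_num) c431

theorem k432 : Fk M W 14 f432 := ckC_fk (L := [[f431, f77]])
  (fs_cons (fl_cons (by norm_num) (k431 M) (fl_cons (by norm_num) (k77 M) fl_nil))
    fs_nil) (by norm_num) c432

theorem k433 : Fk M W 14 f433 := ckC_fk (L := [[f432, f94]])
  (fs_cons (fl_cons (by norm_num) (k432 M) (fl_cons (by norm_num) (k94 M) fl_nil))
    fs_nil) (by norm_num) c433

theorem k434 : Fk M W 15 f434 := ckC_fk (L := [[f428, f23]])
  (fs_cons (fl_cons (by norm_num) (k428 M) (fl_cons (by norm_num) (k23 M) fl_nil))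
    fs_nil) (by norm_num) c434

theorem k435 : Fk M W 15 f435 := ckC_fk (L := [[f434, f41]])
  (fs_cons (fl_cons (by norm_num) (k434 M) (fl_cons (by norm_num) (k41 M) fl_nil))
    fs_nil) (by norm_num) c435

theorem k436 : Fk M W 15 f436 := ckC_fk (L := [[f435, f55]])
  (fs_cons (fl_cons (by norm_num) (k435 M) (fl_cons (by norm_num) (k55 M) fl_nil))
    fs_nil) (by norm_num) c436

theorem k437 : Fk M W 14 f437 := ckC_fk (L := [[f436, f86]])
  (fs_cons (fl_cons (by norm_num) (k436 M) (fl_cons (by norm_num) (k86 M) fl_nil))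
    fs_nil) (by norm_num) c437

theorem k438 : Fk M W 14 f438 := ckC_fk (L := [[f437, f99]])
  (fs_cons (fl_cons (by norm_num) (k437 M) (fl_cons (by norm_num) (k99 M) fl_nil))
    fs_nil) (by norm_num) c438

theorem k439 : Fk M W 15 f439 := ckC_fk (L := [[f435, f59]])
  (fs_cons (fl_cons (by norm_num) (k435 M) (fl_cons (by norm_num) (k59 M) fl_nil))
    fs_nil) (by norm_num) c439

theorem k440 : Fk M W 14 f440 := ckC_fk (L := [[f439, f73]])
  (fs_cons (fl_cons (by norm_num) (k439 M) (fl_cons (by norm_num) (k73 M) fl_nil))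
    fs_nil) (by norm_num) c440

theorem k441 : Fk M W 14 f441 := ckC_fk (L := [[f440, f103]])
  (fs_cons (fl_cons (by norm_num) (k440 M) (fl_cons (by norm_num) (k103 M) fl_nil))
    fs_nil) (by norm_num) c441

theorem k442 : Fk M W 15 f442 := ckC_fk (L := [[f0, f15]])
  (fs_cons (fl_cons (by norm_num) (k0 M) (fl_cons (by norm_num) (k15 M) fl_nil))
    fs_nil) (by norm_num) c442

theorem k443 : Fk M W 15 f443 := ckC_fk (L := [[f442, f28]])
  (fs_cons (fl_cons (by norm_num) (k442 M) (fl_cons (by norm_num) (k28 M) fl_nil))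
    fs_nil) (by norm_num) c443

theorem k444 : Fk M W 15 f444 := ckC_fk (L := [[f443, f37]])
  (fs_cons (fl_cons (by norm_num) (k443 M) (fl_cons (by norm_num) (k37 M) fl_nil))
    fs_nil) (by norm_num) c444

theorem k445 : Fk M W 15 f445 := ckC_fk (L := [[f444, f64]])
  (fs_cons (fl_cons (by norm_num) (k444 M) (fl_cons (by norm_num) (k64 M) fl_nil))
    fs_nil) (by norm_num) c445

theorem k446 : Fk M W 14 f446 := ckC_fk (L := [[f445, f77]])
  (fs_cons (fl_cons (by norm_num) (k445 M) (fl_cons (by norm_num) (k77 M) fl_nil))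
    fs_nil) (by norm_num) c446

theorem k447 : Fk M W 14 f447 := ckC_fk (L := [[f446, f94]])
  (fs_cons (fl_cons (by norm_num) (k446 M) (fl_cons (by norm_num) (k94 M) fl_nil))
    fs_nil) (by norm_num) c447

theorem k448 : Fk M W 15 f448 := ckC_fk (L := [[f444, f68]])
  (fs_cons (fl_cons (by norm_num) (k444 M) (fl_cons (by norm_num) (k68 M) fl_nil))
    fs_nil) (by norm_num) c448

theorem k449 : Fk M W 14 f449 := ckC_fk (L := [[f448, f82]])
  (fs_cons (fl_cons (by norm_num) (k448 M) (fl_cons (by norm_num) (k82 M) fl_nil))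
    fs_nil) (by norm_num) c449

theorem k450 : Fk M W 14 f450 := ckC_fk (L := [[f449, f94]])
  (fs_cons (fl_cons (by norm_num) (k449 M) (fl_cons (by norm_num) (k94 M) fl_nil))
    fs_nil) (by norm_num) c450

theorem k451 : Fk M W 15 f451 := ckC_fk (L := [[f443, f41]])
  (fs_cons (fl_cons (by norm_num) (k443 M) (fl_cons (by norm_num) (k41 M) fl_nil))
    fs_nil) (by norm_num) c451

theorem k452 : Fk M W 15 f452 := ckC_fk (L := [[f451, f59]])
  (fs_cons (fl_cons (by norm_num) (k451 M) (fl_cons (by norm_num) (k59 M) fl_nil))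
    fs_nil) (by norm_num) c452

theorem k453 : Fk M W 14 f453 := ckC_fk (L := [[f452, f73]])
  (fs_cons (fl_cons (by norm_num) (k452 M) (fl_cons (by norm_num) (k73 M) fl_nil))
    fs_nil) (by norm_num) c453

theorem k454 : Fk M W 14 f454 := ckC_fk (L := [[f453, f99]])
  (fs_cons (fl_cons (by norm_num) (k453 M) (fl_cons (by norm_num) (k99 M) fl_nil))
    fs_nil) (by norm_num) c454

theorem k455 : Fk M W 14 f455 := ckC_fk (L := [[f453, f103]])
  (fs_cons (fl_cons (by norm_num) (k453 M) (fl_cons (by norm_num) (k103 M) fl_nil))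
    fs_nil) (by norm_num) c455

theorem k456 : Fk M W 14 f456 := ckC_fk (L := [[f452, f77]])
  (fs_cons (fl_cons (by norm_num) (k452 M) (fl_cons (by norm_num) (k77 M) fl_nil))
    fs_nil) (by norm_num) c456

theorem k457 : Fk M W 14 f457 := ckC_fk (L := [[f456, f91]])
  (fs_cons (fl_cons (by norm_num) (k456 M) (fl_cons (by norm_num) (k91 M) fl_nil))
    fs_nil) (by norm_num) c457

theorem k458 : Fk M W 15 f458 := ckC_fk (L := [[f442, f33]])
  (fs_cons (fl_cons (by norm_num) (k442 M) (fl_cons (by norm_num) (k33 M) fl_nil))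
    fs_nil) (by norm_num) c458

theorem k459 : Fk M W 15 f459 := ckC_fk (L := [[f458, f46]])
  (fs_cons (fl_cons (by norm_num) (k458 M) (fl_cons (by norm_num) (k46 M) fl_nil))
    fs_nil) (by norm_num) c459

theorem k460 : Fk M W 15 f460 := ckC_fk (L := [[f459, f55]])
  (fs_cons (fl_cons (by norm_num) (k459 M) (fl_cons (by norm_num) (k55 M) fl_nil))
    fs_nil) (by norm_num) c460

theorem k461 : Fk M W 14 f461 := ckC_fk (L := [[f460, f82]])
  (fs_cons (fl_cons (by norm_num) (k460 M) (fl_cons (by norm_num) (k82 M) fl_nil))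
    fs_nil) (by norm_num) c461

theorem k462 : Fk M W 14 f462 := ckC_fk (L := [[f461, f94]])
  (fs_cons (fl_cons (by norm_num) (k461 M) (fl_cons (by norm_num) (k94 M) fl_nil))
    fs_nil) (by norm_num) c462

theorem k463 : Fk M W 14 f463 := ckC_fk (L := [[f460, f86]])
  (fs_cons (fl_cons (by norm_num) (k460 M) (fl_cons (by norm_num) (k86 M) fl_nil))
    fs_nil) (by norm_num) c463

theorem k464 : Fk M W 14 f464 := ckC_fk (L := [[f463, f99]])
  (fs_cons (fl_cons (by norm_num) (k463 M) (fl_cons (by norm_num) (k99 M) fl_nil))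
    fs_nil) (by norm_num) c464

theorem k465 : Fk M W 15 f465 := ckC_fk (L := [[f459, f59]])
  (fs_cons (fl_cons (by norm_num) (k459 M) (fl_cons (by norm_num) (k59 M) fl_nil))
    fs_nil) (by norm_num) c465

theorem k466 : Fk M W 14 f466 := ckC_fk (L := [[f465, f77]])
  (fs_cons (fl_cons (by norm_num) (k465 M) (fl_cons (by norm_num) (k77 M) fl_nil))
    fs_nil) (by norm_num) c466

theorem k467 : Fk M W 14 f467 := ckC_fk (L := [[f466, f91]])
  (fs_cons (fl_cons (by norm_num) (k466 M) (fl_cons (by norm_num) (k91 M) fl_nil))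
    fs_nil) (by norm_num) c467

theorem k468 : Fk M W 15 f468 := ckC_fk (L := [[f458, f51]])
  (fs_cons (fl_cons (by norm_num) (k458 M) (fl_cons (by norm_num) (k51 M) fl_nil))
    fs_nil) (by norm_num) c468

theorem k469 : Fk M W 15 f469 := ckC_fk (L := [[f468, f64]])
  (fs_cons (fl_cons (by norm_num) (k468 M) (fl_cons (by norm_num) (k64 M) fl_nil))
    fs_nil) (by norm_num) c469

theorem k470 : Fk M W 14 f470 := ckC_fk (L := [[f469, f73]])
  (fs_cons (fl_cons (by norm_num) (k469 M) (fl_cons (by norm_num) (k73 M) fl_nil))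
    fs_nil) (by norm_num) c470

theorem k471 : Fk M W 14 f471 := ckC_fk (L := [[f470, f99]])
  (fs_cons (fl_cons (by norm_num) (k470 M) (fl_cons (by norm_num) (k99 M) fl_nil))
    fs_nil) (by norm_num) c471

theorem k472 : Fk M W 14 f472 := ckC_fk (L := [[f470, f103]])
  (fs_cons (fl_cons (by norm_num) (k470 M) (fl_cons (by norm_num) (k103 M) fl_nil))
    fs_nil) (by norm_num) c472

theorem k473 : Fk M W 15 f473 := ckC_fk (L := [[f468, f69]])
  (fs_cons (fl_cons (by norm_num) (k468 M) (fl_cons (by norm_num) (k69 M) fl_nil))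
    fs_nil) (by norm_num) c473

theorem k474 : Fk M W 14 f474 := ckC_fk (L := [[f473, f82]])
  (fs_cons (fl_cons (by norm_num) (k473 M) (fl_cons (by norm_num) (k82 M) fl_nil))
    fs_nil) (by norm_num) c474

theorem k475 : Fk M W 14 f475 := ckC_fk (L := [[f474, f91]])
  (fs_cons (fl_cons (by norm_num) (k474 M) (fl_cons (by norm_num) (k91 M) fl_nil))
    fs_nil) (by norm_num) c475

theorem k535 : Fk M W 14 f535 := ckC_fk (L := [[f106, f281]])
  (fs_cons (fl_cons (by norm_num) (k106 M) (fl_cons (by norm_num) (k281 M) fl_nil))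
    fs_nil) (by norm_num) c535

theorem k901 : Fk M W 14 f901 := ckC_fk (L := [[f420, f419]])
  (fs_cons (fl_cons (by norm_num) (k420 M) (fl_cons (by norm_num) (k419 M) fl_nil))
    fs_nil) (by norm_num) c901

theorem k902 : Fk M W 14 f902 := ckC_fk (L := [[f901, f421]])
  (fs_cons (fl_cons (by norm_num) (k901 M) (fl_cons (by norm_num) (k421 M) fl_nil))
    fs_nil) (by norm_num) c902

theorem k903 : Fk M W 14 f903 := ckC_fk (L := [[f902, f420]])
  (fs_cons (fl_cons (by norm_num) (k902 M) (fl_cons (by norm_num) (k420 M) fl_nil))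
    fs_nil) (by norm_num) c903

theorem k904 : Fk M W 14 f904 := ckC_fk (L := [[f903, f418]])
  (fs_cons (fl_cons (by norm_num) (k903 M) (fl_cons (by norm_num) (k418 M) fl_nil))
    fs_nil) (by norm_num) c904

end Pool.Agent.SWA93
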