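import Mathlib
import Pool.Agent.SWA93.G
import Pool.Agent.SWL73.E8

/-!
# The target of the width four
-/

set_option autoImplicit false

namespace Pool.Agent.SWA93

open Pool.Agent.SWL57

/-- The tables of the target. -/
def LG : List (List Fc) := [[f433, f438, f441, f447, f450, f454, f455, f457, f462, f464, f467, f471, f472, f475]]

theorem tgt : chG W LG 278 bl48 S48
  0x66edaf1ab0002d7daf2530000a300004800065edaf17b000319000048000c0e00009000032a0001200003260000d80001aa00000c000316daf2470001a600000f000150daf24700019a00000c000306daf24700019600000f000204daf1db000124000060000094daf25f00014d0000240000fddaf23b0000dd0000600000cddaf1db00014cdaf1db00013c0000480000fcdaf2530000dcdaf20b0000cc00004800050b0000240004fb00002400035bdaf21700033b00003000032b00002400027a00004800024a0000900001dadaf1db0001cadaf23b00013adaf26800012adaf25f00009adaf25f0002d900001200028900003c000169daf2620001490000900000b90000180000a9daf25f000059daf25f000278daf1db0005070000900004f70000480003a70000d8000397daf1db0003570000c0000337daf1ab0003270000480002c7daf223000276000054000266daf2470002460000fc000236daf1db0002260000600002160000e4000206daf2230001e60000900001d6daf16f0001c600002400018600000c000136000006000126daf25c000116daf25f000106daf22f0000e6daf25f000096daf25c0002d50000900002c5daf223000285000078000165daf1db00015500002400014500006c0000b50000420000a5daf25c000055daf25c000274daf02b000234000048000184000120000144daf23b000083daf22300007300006c000063daf20800004300012000003300005a000023daf250000013daf250000022000006000081000090000061daf20b000051daf22300004100000c000031000030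
  SWL73.E8 [3, 2, 1, 8, 7, 6, 5, 4, 11, 10, 9, 13, 12, 14] = true := by decide +kernel

/-- The relations of the last level hold. -/
theorem gT (M : Md rels relsE) : ∀ u, Gd (M.cg 14 (W 48).k) (sy M W 48 bl48) (gS S48 u) :=
  chBT_spec hW (n := 14) (L := L48) (fs_cons (fl_cons (by norm_num) (k94 M) (fl_cons (by norm_num) (k95 M) (fl_cons (by norm_num) (k99 M) (fl_cons (by norm_num) (k104 M) (fl_cons (by norm_num) (k107 M) (fl_cons (by norm_num) (k108 M) (fl_cons (by norm_num) (k268 M) (fl_cons (by norm_num) (k269 M) (fl_cons (by norm_num) (k272 M) (fl_cons (by norm_num) (k273 M) (fl_cons (by norm_num) (k274 M) (fl_cons (by norm_num) (k275 M) (fl_cons (by norm_num) (k277 M) (fl_cons (by norm_num) (k278 M) (fl_cons (by norm_num) (k282 M) (fl_cons (by norm_num) (k418 M) fl_nil))))))))))))))))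
    (fs_cons (fl_cons (by norm_num) (k535 M) (fl_cons (by norm_num) (k904 M) fl_nil))
    fs_nil)) (by norm_num) o48 b48

/-- **The relation of the width four.** -/
theorem e8 (M : Md rels relsE) :
    (SWL73.E8.map fun tm => tm.c • ow (fun k g => M.op k g) 1 tm.w M.e).sum ∈ M.cg 14 2 :=
  chG_spec hW (n := 14) (L := LG) (fs_cons (fl_cons (by norm_num) (k433 M) (fl_cons (by norm_num) (k438 M) (fl_cons (by norm_num) (k441 M) (fl_cons (by norm_num) (k447 M) (fl_cons (by norm_num) (k450 M) (fl_cons (by norm_num) (k454 M) (fl_cons (by norm_num) (k455 M) (fl_cons (by norm_num) (k457 M) (fl_cons (by norm_num) (k462 M) (fl_cons (by norm_num) (k464 M) (fl_cons (by norm_num) (k467 M) (fl_cons (by norm_num) (k471 M) (fl_cons (by norm_num) (k472 M) (fl_cons (by norm_num) (k475 M) fl_nil))))))))))))))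
    fs_nil) (by norm_num) o48 (gT M) tgt

end Pool.Agent.SWA93
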